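import Mathlib

/-! The Hurwitz zeta function at `1/2`: a lower bound. -/

set_option autoImplicit false

namespace Pool.Agent.R311.RES
open Complex Filter Topology Set

/-- the general term, multiplied by `s - 1` -/
noncomputable def G (x : ℝ) (n : ℕ) (s : ℂ) : ℂ :=
  (s - 1) * ((n + x : ℝ) : ℂ) ^ (-s) + ((n + 1 + x : ℝ) : ℂ) ^ (1 - s) - ((n + x : ℝ) : ℂ) ^ (1 - s)

lemma G_bound (x : ℝ) (hx : 0 < x) (n : ℕ) (s : ℂ) (hs : 0 < s.re) :
    ‖G x n s‖ ≤ ‖s - 1‖ * ‖s‖ * (n + x) ^ (-s.re - 1) := by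
  set y : ℝ := n + x with hy
  have hy0 : 0 < y := by positivity
  -- f t = (y + t) ^ (1 - s) - t * (1 - s) y ^ (-s)
  set φ : ℝ → ℂ := fun t => ((y + t : ℝ) : ℂ) ^ (1 - s) - (t : ℂ) * ((1 - s) * (y : ℂ) ^ (-s)) with hφ
  set ψ : ℝ → ℂ := fun t => (1 - s) * ((y + t : ℝ) : ℂ) ^ (-s) with hψ
  have hder : ∀ (r : ℂ) (t : ℝ), 0 ≤ t → HasDerivAt (fun t : ℝ => ((y + t : ℝ) : ℂ) ^ r)
      (r * ((y + t : ℝ) : ℂ) ^ (r - 1)) t := by
    intro r t ht
    have h1 : HasDerivAt (fun t : ℝ => ((y + t : ℝ) : ℂ)) 1 t := by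
      have := ((hasDerivAt_id t).const_add y).ofReal_comp
      simpa using this
    have h2 : ((y + t : ℝ) : ℂ) ∈ Complex.slitPlane := by
      rw [Complex.ofReal_mem_slitPlane]; linarith
    have h3 : HasDerivAt (fun z : ℂ => z ^ r) (r * ((y + t : ℝ) : ℂ) ^ (r - 1)) ((y + t : ℝ) : ℂ) := by
      simpa using (hasDerivAt_id ((y + t : ℝ) : ℂ)).cpow_const (c := r) h2
    have h4 := HasDerivAt.comp t h3 h1
    rw [mul_one] at h4
    exact h4
  have hψd : ∀ t : ℝ, 0 ≤ t → HasDerivAt ψ ((1 - s) * (-s * ((y + t : ℝ) : ℂ) ^ (-s - 1))) t := by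
    intro t ht
    exact (hder (-s) t ht).const_mul _
  have hφd : ∀ t : ℝ, 0 ≤ t → HasDerivAt φ (ψ t - ψ 0) t := by
    intro t ht
    have h1 := hder (1 - s) t ht
    have h2 : HasDerivAt (fun t : ℝ => (t : ℂ) * ((1 - s) * (y : ℂ) ^ (-s)))
        ((1 - s) * (y : ℂ) ^ (-s)) t := by
      have := ((hasDerivAt_id t).ofReal_comp).mul_const ((1 - s) * (y : ℂ) ^ (-s))
      simpa using this
    have h3 := h1.sub h2
    refine h3.congr_deriv ?_
    simp only [hψ, add_zero]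
    rw [show (1 : ℂ) - s - 1 = -s by ring]
  set C : ℝ := ‖s - 1‖ * ‖s‖ * y ^ (-s.re - 1) with hC
  have hC0 : 0 ≤ C := by positivity
  have hψb : ∀ t ∈ Icc (0 : ℝ) 1, ‖ψ t - ψ 0‖ ≤ C := by
    intro t ht
    have h1 := (convex_Icc (0 : ℝ) 1).norm_image_sub_le_of_norm_hasDerivWithin_le
      (f := ψ) (C := C) (x := 0) (y := t)
      (f' := fun t => (1 - s) * (-s * ((y + t : ℝ) : ℂ) ^ (-s - 1)))
      (fun u hu => (hψd u hu.1).hasDerivWithinAt) (fun u hu => by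
        rw [norm_mul, norm_mul, norm_neg, norm_sub_rev, hC,
          norm_cpow_eq_rpow_re_of_pos (by linarith [hu.1] : 0 < y + u)]
        have e : (-s - 1).re = -s.re - 1 := by simp
        rw [e, ← mul_assoc]
        apply mul_le_mul_of_nonneg_left _ (by positivity)
        apply Real.rpow_le_rpow_of_nonpos hy0 (by linarith [hu.1]) (by linarith))
      (by constructor <;> norm_num) ht
    refine h1.trans ?_
    rw [sub_zero, Real.norm_eq_abs, abs_of_nonneg ht.1]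
    nlinarith [ht.2]
  have h1 := (convex_Icc (0 : ℝ) 1).norm_image_sub_le_of_norm_hasDerivWithin_le
      (f := φ) (C := C) (x := 0) (y := 1)
      (f' := fun t => ψ t - ψ 0)
      (fun u hu => (hφd u hu.1).hasDerivWithinAt) hψb
      (by constructor <;> norm_num) (by constructor <;> norm_num)
  have e1 : φ 1 - φ 0 = G x n s := by
    simp only [hφ, G, add_zero, ← hy]
    have e2 : (n + 1 + x : ℝ) = y + 1 := by rw [hy]; ring
    rw [e2]
    push_cast
    ring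
  rw [e1] at h1
  simpa using h1

lemma G_diff (x : ℝ) (hx : 0 < x) (n : ℕ) : Differentiable ℂ (G x n) := by
  unfold G
  have h1 : ((n + x : ℝ) : ℂ) ≠ 0 := by
    have : (0 : ℝ) < n + x := by positivity
    exact_mod_cast this.ne'
  have h2 : ((n + 1 + x : ℝ) : ℂ) ≠ 0 := by
    have : (0 : ℝ) < n + 1 + x := by positivity
    exact_mod_cast this.ne'
  refine Differentiable.sub (Differentiable.add (Differentiable.mul (by fun_prop) ?_) ?_) ?_
  · exact (differentiable_id.neg).const_cpow (Or.inl h1)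
  · exact (differentiable_id.const_sub 1).const_cpow (Or.inl h2)
  · exact (differentiable_id.const_sub 1).const_cpow (Or.inl h1)

/-- the region -/
def U : Set ℂ := {s : ℂ | 1 / 4 < s.re ∧ ‖s‖ < 5}

lemma U_open : IsOpen U := by
  apply IsOpen.inter
  · exact isOpen_lt continuous_const Complex.continuous_re
  · exact isOpen_lt continuous_norm continuous_const

/-- uniform bound on the region -/
noncomputable def ub (x : ℝ) (n : ℕ) : ℝ :=
  if n = 0 then 30 * (x ^ (-(6 : ℝ)) + 1) else 30 * (n : ℝ) ^ (-(5 / 4 : ℝ))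

lemma ub_summable (x : ℝ) : Summable (ub x) := by
  have h1 : Summable (fun n : ℕ => 30 * (n : ℝ) ^ (-(5 / 4 : ℝ))) :=
    (Real.summable_nat_rpow.2 (by norm_num)).mul_left 30
  rw [← summable_nat_add_iff 1] at h1 ⊢
  refine h1.congr fun n => ?_
  simp [ub]

lemma G_ub (x : ℝ) (hx : 0 < x) (hx1 : x ≤ 1) (n : ℕ) (s : ℂ) (hs : s ∈ U) :
    ‖G x n s‖ ≤ ub x n := by
  obtain ⟨h1, h2⟩ := hs
  have h0 : 0 < s.re := by linarith
  refine (G_bound x hx n s h0).trans ?_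
  have h3 : ‖s - 1‖ ≤ 6 := by
    calc ‖s - 1‖ ≤ ‖s‖ + ‖(1 : ℂ)‖ := norm_sub_le _ _
      _ ≤ 6 := by rw [norm_one]; linarith
  have h4 : ‖s - 1‖ * ‖s‖ ≤ 30 := by nlinarith [norm_nonneg s, norm_nonneg (s - 1)]
  have hre : s.re < 5 := lt_of_le_of_lt (Complex.re_le_norm s) h2
  unfold ub
  split_ifs with hn
  · subst hn
    have h5 : ((0 : ℕ) + x) ^ (-s.re - 1) ≤ x ^ (-(6 : ℝ)) := by
      rw [Nat.cast_zero, zero_add]
      exact Real.rpow_le_rpow_of_exponent_ge hx hx1 (by linarith)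
    have h6 : (0 : ℝ) ≤ ((0 : ℕ) + x) ^ (-s.re - 1) := by positivity
    calc _ ≤ 30 * ((0 : ℕ) + x) ^ (-s.re - 1) := mul_le_mul_of_nonneg_right h4 h6
      _ ≤ 30 * (x ^ (-(6 : ℝ)) + 1) := by linarith
  · have hn1 : (1 : ℝ) ≤ n := by exact_mod_cast Nat.one_le_iff_ne_zero.2 hn
    have h5 : ((n : ℝ) + x) ^ (-s.re - 1) ≤ (n : ℝ) ^ (-(5 / 4 : ℝ)) := by
      calc ((n : ℝ) + x) ^ (-s.re - 1) ≤ (n : ℝ) ^ (-s.re - 1) :=
            Real.rpow_le_rpow_of_nonpos (by linarith) (by linarith) (by linarith)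
        _ ≤ _ := Real.rpow_le_rpow_of_exponent_le hn1 (by linarith)
    have h6 : (0 : ℝ) ≤ ((n : ℝ) + x) ^ (-s.re - 1) := by positivity
    calc _ ≤ 30 * ((n : ℝ) + x) ^ (-s.re - 1) := mul_le_mul_of_nonneg_right h4 h6
      _ ≤ _ := by linarith

/-- the sum -/
noncomputable def SG (x : ℝ) (s : ℂ) : ℂ := ∑' n, G x n s

lemma SG_diff (x : ℝ) (hx : 0 < x) (hx1 : x ≤ 1) : DifferentiableOn ℂ (SG x) U :=
  differentiableOn_tsum_of_summable_norm (ub_summable x)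
    (fun n => (G_diff x hx n).differentiableOn) U_open (fun n s hs => G_ub x hx hx1 n s hs)

lemma SG_summable (x : ℝ) (hx : 0 < x) (hx1 : x ≤ 1) {s : ℂ} (hs : s ∈ U) :
    Summable (fun n => G x n s) :=
  Summable.of_norm_bounded (ub_summable x) (fun n => G_ub x hx hx1 n s hs)

lemma sum_G (x : ℝ) (s : ℂ) (N : ℕ) : ∑ n ∈ Finset.range N, G x n s =
    (s - 1) * ∑ n ∈ Finset.range N, ((n + x : ℝ) : ℂ) ^ (-s) + ((N + x : ℝ) : ℂ) ^ (1 - s) -
      (x : ℂ) ^ (1 - s) := by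
  induction N with
  | zero => simp
  | succ N ih =>
    rw [Finset.sum_range_succ, ih, Finset.sum_range_succ, G]
    have e : ((N + 1 : ℕ) + x : ℝ) = N + 1 + x := by push_cast; ring
    rw [e]
    ring

lemma SG_right (x : ℝ) (hx : 0 < x) (hx1 : x ≤ 1) {s : ℂ} (hs : s ∈ U) (h1 : 1 < s.re) :
    SG x s = (s - 1) * HurwitzZeta.hurwitzZeta (x : UnitAddCircle) s - (x : ℂ) ^ (1 - s) := by
  have hsum := (SG_summable x hx hx1 hs).hasSum.tendsto_sum_nat
  have hz := HurwitzZeta.hasSum_hurwitzZeta_of_one_lt_re (a := x) ⟨hx.le, hx1⟩ h1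
  have hz' := hz.tendsto_sum_nat
  have e1 : ∀ N : ℕ, ∑ n ∈ Finset.range N, 1 / ((n : ℂ) + x) ^ s =
      ∑ n ∈ Finset.range N, ((n + x : ℝ) : ℂ) ^ (-s) := by
    intro N
    apply Finset.sum_congr rfl
    intro n _
    rw [Complex.cpow_neg, one_div]
    push_cast
    rfl
  simp_rw [e1] at hz'
  have hlim : Tendsto (fun N : ℕ => ((N + x : ℝ) : ℂ) ^ (1 - s)) atTop (𝓝 0) := by
    rw [tendsto_zero_iff_norm_tendsto_zero]
    have e2 : ∀ N : ℕ, ‖((N + x : ℝ) : ℂ) ^ (1 - s)‖ = (N + x : ℝ) ^ (-(s.re - 1)) := by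
      intro N
      rw [norm_cpow_eq_rpow_re_of_pos (by positivity)]
      congr 1
      simp
    simp_rw [e2]
    exact (tendsto_rpow_neg_atTop (by linarith)).comp
      (tendsto_atTop_add_const_right _ _ tendsto_natCast_atTop_atTop)
  have h3 : Tendsto (fun N : ℕ => ∑ n ∈ Finset.range N, G x n s) atTop
      (𝓝 ((s - 1) * HurwitzZeta.hurwitzZeta (x : UnitAddCircle) s + 0 - (x : ℂ) ^ (1 - s))) := by
    have h4 := ((hz'.const_mul (s - 1)).add hlim).sub_const ((x : ℂ) ^ (1 - s))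
    refine h4.congr fun N => ?_
    rw [sum_G]
  rw [add_zero] at h3
  exact tendsto_nhds_unique hsum h3

lemma SG_half (x : ℝ) (hx : 0 < x) (hx1 : x ≤ 1) :
    SG x (1 / 2) = (1 / 2 - 1) * HurwitzZeta.hurwitzZeta (x : UnitAddCircle) (1 / 2) -
      (x : ℂ) ^ (1 - 1 / 2 : ℂ) := by
  set V : Set ℂ := U ∩ {s : ℂ | 0 < s.im} with hV
  have hVo : IsOpen V := U_open.inter (isOpen_lt continuous_const Complex.continuous_im)
  have hVc : Convex ℝ V := by
    have h1 : Convex ℝ {s : ℂ | 1 / 4 < s.re} := convex_halfSpace_re_gt _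
    have h2 : Convex ℝ {s : ℂ | ‖s‖ < 5} := by
      have : {s : ℂ | ‖s‖ < 5} = Metric.ball 0 5 := by ext z; simp
      rw [this]; exact convex_ball _ _
    exact (h1.inter h2).inter (convex_halfSpace_im_gt _)
  have hx0 : (x : ℂ) ≠ 0 := by exact_mod_cast hx.ne'
  set R : ℂ → ℂ := fun s => (s - 1) * HurwitzZeta.hurwitzZeta (x : UnitAddCircle) s -
    (x : ℂ) ^ (1 - s) with hR
  have hRd : ∀ s : ℂ, s ≠ 1 → DifferentiableAt ℂ R s := by
    intro s hs
    have h1 := HurwitzZeta.differentiableAt_hurwitzZeta (x : UnitAddCircle) hs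
    have h2 : DifferentiableAt ℂ (fun s : ℂ => (x : ℂ) ^ (1 - s)) s :=
      (differentiableAt_id.const_sub 1).const_cpow (Or.inl hx0)
    exact ((differentiableAt_id.sub_const 1).mul h1).sub h2
  have hV1 : ∀ s ∈ V, s ≠ 1 := by
    intro s hs h
    have := hs.2
    rw [h] at this
    simp at this
  have heq : EqOn (SG x) R V := by
    refine AnalyticOnNhd.eqOn_of_preconnected_of_eventuallyEq (z₀ := 2 + I)
      (((SG_diff x hx hx1).mono inter_subset_left).analyticOnNhd hVo)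
      (DifferentiableOn.analyticOnNhd (fun s hs => (hRd s (hV1 s hs)).differentiableWithinAt) hVo)
      hVc.isPreconnected ?_ ?_
    · refine ⟨⟨by simp; norm_num, ?_⟩, by simp⟩
      calc ‖(2 + I : ℂ)‖ ≤ ‖(2 : ℂ)‖ + ‖I‖ := norm_add_le _ _
        _ < 5 := by simp; norm_num
    · have hopen1 : IsOpen ({s : ℂ | 1 < s.re} ∩ U) :=
        (isOpen_lt continuous_const Complex.continuous_re).inter U_open
      have hmem : (2 + I : ℂ) ∈ ({s : ℂ | 1 < s.re} ∩ U) := by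
        refine ⟨by simp, by simp; norm_num, ?_⟩
        calc ‖(2 + I : ℂ)‖ ≤ ‖(2 : ℂ)‖ + ‖I‖ := norm_add_le _ _
          _ < 5 := by simp; norm_num
      filter_upwards [hopen1.mem_nhds hmem] with z hz
      exact SG_right x hx hx1 hz.2 hz.1
  have hhU : (1 / 2 : ℂ) ∈ U := by
    refine ⟨by norm_num, ?_⟩
    rw [norm_div]
    norm_num
  have hseq : Tendsto (fun n : ℕ => (1 / 2 : ℂ) + ((1 / ((n : ℝ) + 1) : ℝ) : ℂ) * I) atTop
      (𝓝 (1 / 2)) := by
    have h1 := tendsto_one_div_add_atTop_nhds_zero_nat (𝕜 := ℝ)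
    have h2 := ((Complex.continuous_ofReal.tendsto 0).comp h1).mul_const I
    have h3 := h2.const_add (1 / 2 : ℂ)
    simpa [Function.comp_def] using h3
  have hmemV : ∀ᶠ n : ℕ in atTop, (1 / 2 : ℂ) + ((1 / ((n : ℝ) + 1) : ℝ) : ℂ) * I ∈ V := by
    filter_upwards [hseq.eventually (U_open.mem_nhds hhU)] with n hn
    refine ⟨hn, ?_⟩
    have h0 : (0 : ℝ) < 1 / ((n : ℝ) + 1) := by positivity
    generalize (1 : ℝ) / ((n : ℝ) + 1) = r at h0
    have h1 : ((1 / 2 : ℂ) + ((r : ℝ) : ℂ) * I).im = r := by simp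
    show 0 < ((1 / 2 : ℂ) + ((r : ℝ) : ℂ) * I).im
    rw [h1]
    exact h0
  have t1 := ((SG_diff x hx hx1).differentiableAt (U_open.mem_nhds hhU)).continuousAt.tendsto.comp hseq
  have t2 := (hRd (1 / 2) (by norm_num)).continuousAt.tendsto.comp hseq
  have t3 : Tendsto (SG x ∘ fun n : ℕ => (1 / 2 : ℂ) + ((1 / ((n : ℝ) + 1) : ℝ) : ℂ) * I) atTop
      (𝓝 (R (1 / 2))) := by
    refine t2.congr' ?_
    filter_upwards [hmemV] with n hn
    exact (heq hn).symm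
  exact tendsto_nhds_unique t1 t3

lemma cpow_half (y : ℝ) (hy : 0 ≤ y) : ((y : ℂ) ^ (1 - 1 / 2 : ℂ)) = ((Real.sqrt y : ℝ) : ℂ) := by
  rw [Real.sqrt_eq_rpow, Complex.ofReal_cpow hy]
  norm_num

lemma cpow_neg_half (y : ℝ) (hy : 0 ≤ y) :
    ((y : ℂ) ^ (-(1 / 2) : ℂ)) = ((y ^ (-(1 / 2 : ℝ)) : ℝ) : ℂ) := by
  rw [Complex.ofReal_cpow hy]
  norm_num

lemma G_half (x : ℝ) (hx : 0 < x) (n : ℕ) : G x n (1 / 2) =
    ((-(1 / 2) * (n + x) ^ (-(1 / 2 : ℝ)) + (Real.sqrt (n + 1 + x) - Real.sqrt (n + x)) : ℝ) : ℂ) := by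
  unfold G
  have h1 : (0 : ℝ) ≤ n + x := by positivity
  have h2 : (0 : ℝ) ≤ n + 1 + x := by positivity
  rw [cpow_half _ h1, cpow_half _ h2, cpow_neg_half _ h1]
  push_cast
  ring

lemma sqrt_step (y : ℝ) (hy : 0 < y) :
    -(1 / 2) * y ^ (-(1 / 2 : ℝ)) + (Real.sqrt (y + 1) - Real.sqrt y) ≤ 0 := by
  have h1 : y ^ (-(1 / 2 : ℝ)) = (Real.sqrt y)⁻¹ := by
    rw [Real.rpow_neg hy.le, Real.sqrt_eq_rpow]
  rw [h1]
  have h2 := Real.sqrt_pos.2 hy
  have h3 := Real.sq_sqrt hy.le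
  have h4 := Real.sq_sqrt (show (0 : ℝ) ≤ y + 1 by linarith)
  have h5 : Real.sqrt y ≤ Real.sqrt (y + 1) := Real.sqrt_le_sqrt (by linarith)
  have h6 : Real.sqrt (y + 1) - Real.sqrt y ≤ 1 / (2 * Real.sqrt y) := by
    rw [le_div_iff₀ (by positivity)]
    nlinarith
  have h7 : 1 / (2 * Real.sqrt y) = 1 / 2 * (Real.sqrt y)⁻¹ := by field_simp
  linarith

theorem hurwitz_lower (x : ℝ) (hx : 0 < x) (hx1 : x ≤ 1) :
    x ^ (-(1 / 2 : ℝ)) - 3 ≤ (HurwitzZeta.hurwitzZeta (x : UnitAddCircle) (1 / 2)).re := by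
  have hhU : (1 / 2 : ℂ) ∈ U := by
    refine ⟨by norm_num, ?_⟩
    rw [norm_div]
    norm_num
  have h1 := SG_half x hx hx1
  rw [cpow_half x hx.le] at h1
  have h2 := SG_summable x hx hx1 hhU
  set g : ℕ → ℝ := fun n => -(1 / 2) * (n + x) ^ (-(1 / 2 : ℝ)) +
    (Real.sqrt (n + 1 + x) - Real.sqrt (n + x)) with hg
  have h3 : ∀ n, G x n (1 / 2) = ((g n : ℝ) : ℂ) := fun n => G_half x hx n
  have h4 : SG x (1 / 2) = ((∑' n, g n : ℝ) : ℂ) := by
    rw [SG, Complex.ofReal_tsum]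
    exact tsum_congr h3
  have h5 : Summable g := by
    have : Summable (fun n => ((g n : ℝ) : ℂ)) := h2.congr h3
    exact Complex.summable_ofReal.1 this
  have h6 : ∀ n, g n ≤ 0 := by
    intro n
    have := sqrt_step (n + x) (by positivity)
    simp only [hg]
    rw [show (n : ℝ) + 1 + x = n + x + 1 by ring]
    exact this
  have h7 : ∑' n, g n ≤ g 0 := by
    rw [h5.tsum_eq_zero_add]
    have : ∑' n, g (n + 1) ≤ 0 := tsum_nonpos fun n => h6 _
    linarith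
  have h8 : g 0 = -(1 / 2) * x ^ (-(1 / 2 : ℝ)) + (Real.sqrt (1 + x) - Real.sqrt x) := by
    simp [hg]
  have h9 : (∑' n, g n : ℝ) = -(1 / 2) * (HurwitzZeta.hurwitzZeta (x : UnitAddCircle) (1 / 2)).re -
      Real.sqrt x := by
    have := congrArg Complex.re (h4.symm.trans h1)
    rw [Complex.ofReal_re] at this
    rw [this]
    have e : ((1 : ℂ) / 2 - 1) = ((-(1 / 2) : ℝ) : ℂ) := by push_cast; ring
    rw [e, Complex.sub_re, Complex.re_ofReal_mul, Complex.ofReal_re]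
  have h10 : Real.sqrt (1 + x) ≤ 3 / 2 := by
    rw [Real.sqrt_le_left (by norm_num)]
    nlinarith
  linarith

end Pool.Agent.R311.RES
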