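import Mathlib
import Pool.Agent.R311.RES.A1

/-! The resonance inequality on a subgroup of characters. -/

set_option autoImplicit false

namespace Pool.Agent.R311.RES
open Finset
open scoped Classical

variable {q : ℕ} [Fact q.Prime]

lemma chi_inv (χ : DirichletCharacter ℂ q) (g : (ZMod q)ˣ) :
    χ ((g⁻¹ : (ZMod q)ˣ) : ZMod q) = (starRingEnd ℂ) (χ (g : ZMod q)) := by
  have h1 : χ ((g⁻¹ : (ZMod q)ˣ) : ZMod q) * χ (g : ZMod q) = 1 := by
    rw [← map_mul, ← Units.val_mul]; simp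
  have h2 : ‖χ (g : ZMod q)‖ = 1 := χ.unit_norm_eq_one g
  have h3 : (starRingEnd ℂ) (χ (g : ZMod q)) * χ (g : ZMod q) = 1 := by
    rw [mul_comm, Complex.mul_conj, Complex.normSq_eq_norm_sq, h2]; norm_num
  have h4 : χ (g : ZMod q) ≠ 0 := by
    intro h; rw [h, norm_zero] at h2; norm_num at h2
  exact mul_right_cancel₀ h4 (h1.trans h3.symm)

/-- the annihilator of a group of characters -/
def ann (H : Subgroup (DirichletCharacter ℂ q)) : Subgroup (ZMod q)ˣ where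
  carrier := {g | ∀ χ ∈ H, χ (g : ZMod q) = 1}
  mul_mem' := by
    intro a b ha hb χ hχ
    rw [Units.val_mul, map_mul, ha χ hχ, hb χ hχ, one_mul]
  one_mem' := by
    intro χ _
    rw [Units.val_one, map_one]
  inv_mem' := by
    intro a ha χ hχ
    rw [chi_inv, ha χ hχ, map_one]

lemma mem_ann (H : Subgroup (DirichletCharacter ℂ q)) (g : (ZMod q)ˣ) :
    g ∈ ann H ↔ ∀ χ ∈ H, χ (g : ZMod q) = 1 := Iff.rfl

lemma orth (H : Subgroup (DirichletCharacter ℂ q)) (g : (ZMod q)ˣ) :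
    ∑ χ : H, (χ : DirichletCharacter ℂ q) (g : ZMod q) =
      if g ∈ ann H then (Fintype.card H : ℂ) else 0 := by
  split_ifs with h
  · rw [Finset.sum_congr rfl (fun (χ : H) _ => h χ.1 χ.2)]
    simp
  · rw [mem_ann] at h
    push Not at h
    obtain ⟨χ₁, hχ₁, hne⟩ := h
    have h1 : ∑ χ : H, (χ : DirichletCharacter ℂ q) (g : ZMod q) =
        χ₁ (g : ZMod q) * ∑ χ : H, (χ : DirichletCharacter ℂ q) (g : ZMod q) := by
      rw [Finset.mul_sum, ← Equiv.sum_comp (Equiv.mulLeft (⟨χ₁, hχ₁⟩ : H))]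
      apply Finset.sum_congr rfl
      intro χ _
      rfl
    have h2 : (1 - χ₁ (g : ZMod q)) * ∑ χ : H, (χ : DirichletCharacter ℂ q) (g : ZMod q) = 0 := by
      rw [sub_mul, one_mul, ← h1, sub_self]
    rcases mul_eq_zero.1 h2 with h3 | h3
    · exact absurd (sub_eq_zero.1 h3).symm hne
    · exact h3

lemma sum_units (f : ZMod q → ℂ) (hf : f 0 = 0) : ∑ j : ZMod q, f j = ∑ u : (ZMod q)ˣ, f u := by
  symm
  refine Finset.sum_bij_ne_zero (fun u _ _ => (u : ZMod q)) (fun _ _ _ => mem_univ _)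
    (fun a _ _ b _ _ h => Units.ext h) ?_ (fun _ _ _ => rfl)
  intro b _ hb
  have hb0 : b ≠ 0 := by
    rintro rfl
    exact hb hf
  exact ⟨Units.mk0 b hb0, mem_univ _, hb, rfl⟩

lemma card_mul (H : Subgroup (DirichletCharacter ℂ q)) :
    (Fintype.card H : ℝ) * (Fintype.card (ann H) : ℝ) = q - 1 := by
  have h1 : ∑ g : (ZMod q)ˣ, ∑ χ : H, (χ : DirichletCharacter ℂ q) (g : ZMod q) =
      (Fintype.card H : ℂ) * (Fintype.card (ann H) : ℂ) := by
    rw [Finset.sum_congr rfl (fun g _ => orth H g), ← Finset.sum_filter, Finset.sum_const,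
      nsmul_eq_mul, mul_comm]
    congr 2
    rw [Fintype.card_subtype]
  have h2 : ∑ g : (ZMod q)ˣ, ∑ χ : H, (χ : DirichletCharacter ℂ q) (g : ZMod q) = (q : ℂ) - 1 := by
    rw [Finset.sum_comm]
    have h3 : ∀ χ : H, ∑ g : (ZMod q)ˣ, (χ : DirichletCharacter ℂ q) (g : ZMod q) =
        if χ = 1 then ((q : ℂ) - 1) else 0 := by
      intro χ
      have h0 : (χ : DirichletCharacter ℂ q) (0 : ZMod q) = 0 :=
        MulChar.map_nonunit _ not_isUnit_zero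
      rw [← sum_units (fun j => (χ : DirichletCharacter ℂ q) j) h0]
      split_ifs with h
      · subst h
        rw [OneMemClass.coe_one, MulChar.sum_one_eq_card_units, ZMod.card_units_eq_totient,
          Nat.totient_prime (Fact.out)]
        rw [Nat.cast_sub (Nat.Prime.one_lt Fact.out).le, Nat.cast_one]
      · exact MulChar.sum_eq_zero_of_ne_one (fun h' => h (Subtype.ext h'))
    rw [Finset.sum_congr rfl (fun χ _ => h3 χ), Finset.sum_ite_eq' univ (1 : H)]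
    simp
  have h4 := h1.symm.trans h2
  have h5 : (((Fintype.card H : ℝ) * (Fintype.card (ann H) : ℝ) : ℝ) : ℂ) = ((q - 1 : ℝ) : ℂ) := by
    push_cast
    exact h4
  exact_mod_cast h5

/-- the resonator -/
noncomputable def Res (r : (ZMod q)ˣ → ℝ) (χ : DirichletCharacter ℂ q) : ℂ :=
  ∑ g : (ZMod q)ˣ, (r g : ℂ) * χ (g : ZMod q)

lemma Res_sq (r : (ZMod q)ˣ → ℝ) (χ : DirichletCharacter ℂ q) :
    ((‖Res r χ‖ ^ 2 : ℝ) : ℂ) = ∑ g : (ZMod q)ˣ, ∑ g' : (ZMod q)ˣ,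
      ((r g : ℂ) * (r g' : ℂ)) * χ ((g * g'⁻¹ : (ZMod q)ˣ) : ZMod q) := by
  rw [← Complex.normSq_eq_norm_sq, ← Complex.mul_conj, Res, map_sum, Finset.sum_mul_sum]
  apply Finset.sum_congr rfl
  intro g _
  apply Finset.sum_congr rfl
  intro g' _
  rw [map_mul, Complex.conj_ofReal, ← chi_inv, Units.val_mul, map_mul]
  ring

lemma invol (b k : (ZMod q)ˣ) : b * (b * k⁻¹)⁻¹ = k := by
  rw [mul_inv_rev, inv_inv, mul_comm k, mul_inv_cancel_left]

lemma sum_inv (H : Subgroup (DirichletCharacter ℂ q)) (r : (ZMod q)ˣ → ℝ)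
    (hr : ∀ g k : (ZMod q)ˣ, k ∈ ann H → r (g * k) = r g) (b : (ZMod q)ˣ) :
    ∑ g' : (ZMod q)ˣ, (if b * g'⁻¹ ∈ ann H then r g' else 0) =
      (Fintype.card (ann H) : ℝ) * r b := by
  rw [← Finset.sum_filter]
  have h1 : ∀ g' ∈ univ.filter (fun g' : (ZMod q)ˣ => b * g'⁻¹ ∈ ann H), r g' = r b := by
    intro g' hg'
    rw [mem_filter] at hg'
    have := hr g' (b * g'⁻¹) hg'.2
    rw [← this]
    congr 1
    rw [mul_comm b, ← mul_assoc, mul_inv_cancel, one_mul]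
  rw [Finset.sum_congr rfl h1, Finset.sum_const, nsmul_eq_mul]
  congr 2
  rw [Fintype.card_subtype]
  refine Finset.card_bij' (fun g _ => b * g⁻¹) (fun k _ => b * k⁻¹) ?_ ?_ ?_ ?_
  · intro g hg
    rw [mem_filter] at hg ⊢
    exact ⟨mem_univ _, hg.2⟩
  · intro k hk
    rw [mem_filter] at hk ⊢
    refine ⟨mem_univ _, ?_⟩
    rw [invol]
    exact hk.2
  · intro g _
    exact invol b g
  · intro k _
    exact invol b k

lemma first_moment (H : Subgroup (DirichletCharacter ℂ q)) (r : (ZMod q)ˣ → ℝ)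
    (hr : ∀ g k : (ZMod q)ˣ, k ∈ ann H → r (g * k) = r g) (a : (ZMod q)ˣ) :
    ∑ χ : H, ((‖Res r (χ : DirichletCharacter ℂ q)‖ ^ 2 : ℝ) : ℂ) *
        (χ : DirichletCharacter ℂ q) (a : ZMod q) =
      (((Fintype.card H : ℝ) * (Fintype.card (ann H) : ℝ) * ∑ g, r g * r (a * g) : ℝ) : ℂ) := by
  have h1 : ∀ χ : H, ((‖Res r (χ : DirichletCharacter ℂ q)‖ ^ 2 : ℝ) : ℂ) *
        (χ : DirichletCharacter ℂ q) (a : ZMod q) = ∑ g : (ZMod q)ˣ, ∑ g' : (ZMod q)ˣ,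
      ((r g : ℂ) * (r g' : ℂ)) * (χ : DirichletCharacter ℂ q) ((a * g * g'⁻¹ : (ZMod q)ˣ) : ZMod q) := by
    intro χ
    rw [Res_sq, Finset.sum_mul]
    apply Finset.sum_congr rfl
    intro g _
    rw [Finset.sum_mul]
    apply Finset.sum_congr rfl
    intro g' _
    rw [show a * g * g'⁻¹ = (g * g'⁻¹) * a by rw [mul_assoc, mul_comm], Units.val_mul (g * g'⁻¹) a,
      map_mul]
    ring
  rw [Finset.sum_congr rfl (fun χ _ => h1 χ), Finset.sum_comm]
  rw [Complex.ofReal_mul, Complex.ofReal_sum, Finset.mul_sum]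
  apply Finset.sum_congr rfl
  intro g _
  rw [Finset.sum_comm]
  have h2 : ∀ g' : (ZMod q)ˣ, ∑ χ : H, ((r g : ℂ) * (r g' : ℂ)) *
      (χ : DirichletCharacter ℂ q) ((a * g * g'⁻¹ : (ZMod q)ˣ) : ZMod q) =
      (((Fintype.card H : ℝ) * r g * (if a * g * g'⁻¹ ∈ ann H then r g' else 0) : ℝ) : ℂ) := by
    intro g'
    rw [← Finset.mul_sum, orth]
    split_ifs
    · push_cast; ring
    · push_cast; ring
  rw [Finset.sum_congr rfl (fun g' _ => h2 g'), ← Complex.ofReal_sum, ← Finset.mul_sum,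
    sum_inv H r hr (a * g)]
  push_cast
  ring

lemma second_moment (H : Subgroup (DirichletCharacter ℂ q)) (r : (ZMod q)ˣ → ℝ)
    (hr : ∀ g k : (ZMod q)ˣ, k ∈ ann H → r (g * k) = r g) :
    ∑ χ : H, ‖Res r (χ : DirichletCharacter ℂ q)‖ ^ 2 =
      (Fintype.card H : ℝ) * (Fintype.card (ann H) : ℝ) * ∑ g, r g ^ 2 := by
  have h1 := first_moment H r hr 1
  have h2 : ∑ χ : H, ((‖Res r (χ : DirichletCharacter ℂ q)‖ ^ 2 : ℝ) : ℂ) *
        (χ : DirichletCharacter ℂ q) ((1 : (ZMod q)ˣ) : ZMod q) =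
      ((∑ χ : H, ‖Res r (χ : DirichletCharacter ℂ q)‖ ^ 2 : ℝ) : ℂ) := by
    rw [Complex.ofReal_sum]
    apply Finset.sum_congr rfl
    intro χ _
    rw [Units.val_one, map_one, mul_one]
  rw [h2] at h1
  have h3 := Complex.ofReal_injective h1
  rw [h3]
  congr 1
  apply Finset.sum_congr rfl
  intro g _
  rw [one_mul, sq]

theorem res_ineq (H : Subgroup (DirichletCharacter ℂ q)) (r : (ZMod q)ˣ → ℝ)
    (hr : ∀ g k : (ZMod q)ˣ, k ∈ ann H → r (g * k) = r g) (hz : (ZMod q)ˣ → ℂ)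
    (Lv : DirichletCharacter ℂ q → ℂ) (V : ℝ)
    (hL : ∀ χ ∈ H, Lv χ = ∑ a : (ZMod q)ˣ, χ (a : ZMod q) * hz a)
    (hV : ∀ χ ∈ H, ‖Lv χ‖ ≤ V) :
    ∑ a : (ZMod q)ˣ, (hz a).re * ∑ g, r g * r (a * g) ≤ V * ∑ g, r g ^ 2 := by
  have h1 : ∑ χ : H, ((‖Res r (χ : DirichletCharacter ℂ q)‖ ^ 2 : ℝ) : ℂ) *
      Lv (χ : DirichletCharacter ℂ q) = ∑ a : (ZMod q)ˣ, hz a *
      (((Fintype.card H : ℝ) * (Fintype.card (ann H) : ℝ) * ∑ g, r g * r (a * g) : ℝ) : ℂ) := by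
    have h2 : ∀ χ : H, ((‖Res r (χ : DirichletCharacter ℂ q)‖ ^ 2 : ℝ) : ℂ) *
      Lv (χ : DirichletCharacter ℂ q) = ∑ a : (ZMod q)ˣ, hz a *
      (((‖Res r (χ : DirichletCharacter ℂ q)‖ ^ 2 : ℝ) : ℂ) *
        (χ : DirichletCharacter ℂ q) (a : ZMod q)) := by
      intro χ
      rw [hL χ.1 χ.2, Finset.mul_sum]
      apply Finset.sum_congr rfl
      intro a _
      ring
    rw [Finset.sum_congr rfl (fun χ _ => h2 χ), Finset.sum_comm]
    apply Finset.sum_congr rfl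
    intro a _
    rw [← Finset.mul_sum, first_moment H r hr a]
  have h3 : ‖∑ χ : H, ((‖Res r (χ : DirichletCharacter ℂ q)‖ ^ 2 : ℝ) : ℂ) *
      Lv (χ : DirichletCharacter ℂ q)‖ ≤ V * ((Fintype.card H : ℝ) * (Fintype.card (ann H) : ℝ) *
        ∑ g, r g ^ 2) := by
    rw [← second_moment H r hr, Finset.mul_sum]
    refine (norm_sum_le _ _).trans (Finset.sum_le_sum fun χ _ => ?_)
    rw [norm_mul, Complex.norm_real, Real.norm_of_nonneg (by positivity), mul_comm]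
    exact mul_le_mul_of_nonneg_right (hV χ.1 χ.2) (by positivity)
  have h4 : (∑ χ : H, ((‖Res r (χ : DirichletCharacter ℂ q)‖ ^ 2 : ℝ) : ℂ) *
      Lv (χ : DirichletCharacter ℂ q)).re = ((Fintype.card H : ℝ) * (Fintype.card (ann H) : ℝ)) *
      ∑ a : (ZMod q)ˣ, (hz a).re * ∑ g, r g * r (a * g) := by
    rw [h1, Complex.re_sum, Finset.mul_sum]
    apply Finset.sum_congr rfl
    intro a _
    rw [Complex.re_mul_ofReal]
    ring
  have h5 := (Complex.re_le_norm _).trans h3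
  rw [h4] at h5
  have hH : 0 < (Fintype.card H : ℝ) * (Fintype.card (ann H) : ℝ) := by
    have h6 : 0 < Fintype.card H := Fintype.card_pos
    have h7 : 0 < Fintype.card (ann H) := Fintype.card_pos
    positivity
  have h8 : ((Fintype.card H : ℝ) * (Fintype.card (ann H) : ℝ)) *
      ∑ a : (ZMod q)ˣ, (hz a).re * ∑ g, r g * r (a * g) ≤
      ((Fintype.card H : ℝ) * (Fintype.card (ann H) : ℝ)) * (V * ∑ g, r g ^ 2) := by
    calc _ ≤ _ := h5
      _ = _ := by ring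
  exact le_of_mul_le_mul_left h8 hH

/-- the values of the Hurwitz zeta function -/
noncomputable def hzv (q : ℕ) (a : (ZMod q)ˣ) : ℂ :=
  ((q : ℝ) ^ (-(1 / 2 : ℝ)) : ℝ) *
    HurwitzZeta.hurwitzZeta (((a : ZMod q).val / q : ℝ) : UnitAddCircle) (1 / 2)

lemma L_half (χ : DirichletCharacter ℂ q) : DirichletCharacter.LFunction χ (1 / 2) =
    ∑ a : (ZMod q)ˣ, χ (a : ZMod q) * hzv q a := by
  have : NeZero q := ⟨(Nat.Prime.pos Fact.out).ne'⟩
  have h0 : χ (0 : ZMod q) = 0 := MulChar.map_nonunit _ not_isUnit_zero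
  have h1 : DirichletCharacter.LFunction χ (1 / 2) = (q : ℂ) ^ (-(1 / 2) : ℂ) *
      ∑ j : ZMod q, χ j * HurwitzZeta.hurwitzZeta (ZMod.toAddCircle j) (1 / 2) := rfl
  rw [h1, sum_units (fun j => χ j * HurwitzZeta.hurwitzZeta (ZMod.toAddCircle j) (1 / 2))
    (by rw [h0, zero_mul]), Finset.mul_sum]
  apply Finset.sum_congr rfl
  intro a _
  unfold hzv
  rw [ZMod.toAddCircle_apply]
  have h2 : (q : ℂ) ^ (-(1 / 2) : ℂ) = (((q : ℝ) ^ (-(1 / 2 : ℝ)) : ℝ) : ℂ) := by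
    rw [Complex.ofReal_cpow (by positivity)]
    norm_num
  rw [h2]
  ring

lemma hzv_re (a : (ZMod q)ˣ) : ((a : ZMod q).val : ℝ) ^ (-(1 / 2 : ℝ)) -
    3 * (q : ℝ) ^ (-(1 / 2 : ℝ)) ≤ (hzv q a).re := by
  have : NeZero q := ⟨(Nat.Prime.pos Fact.out).ne'⟩
  have hq : (0 : ℝ) < q := by exact_mod_cast (Nat.Prime.pos Fact.out : 0 < q)
  have ha : 0 < (a : ZMod q).val := by
    rw [Nat.pos_iff_ne_zero]
    intro h
    rw [ZMod.val_eq_zero] at h
    exact a.ne_zero h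
  have ha' : (0 : ℝ) < (a : ZMod q).val := by exact_mod_cast ha
  have ha1 : ((a : ZMod q).val / q : ℝ) ≤ 1 := by
    rw [div_le_one hq]
    exact_mod_cast (ZMod.val_lt (a : ZMod q)).le
  have h1 := hurwitz_lower ((a : ZMod q).val / q) (by positivity) ha1
  unfold hzv
  rw [Complex.re_ofReal_mul]
  have h2 : (q : ℝ) ^ (-(1 / 2 : ℝ)) * (((a : ZMod q).val / q : ℝ) ^ (-(1 / 2 : ℝ)) - 3) =
      ((a : ZMod q).val : ℝ) ^ (-(1 / 2 : ℝ)) - 3 * (q : ℝ) ^ (-(1 / 2 : ℝ)) := by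
    rw [Real.div_rpow ha'.le hq.le]
    have : (q : ℝ) ^ (-(1 / 2 : ℝ)) ≠ 0 := by positivity
    field_simp
  rw [← h2]
  exact mul_le_mul_of_nonneg_left h1 (by positivity)

end Pool.Agent.R311.RES
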