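import Mathlib
import Pool.Agent.R311.RES.A2

/-! The resonance inequality with a family of indices. -/

set_option autoImplicit false

namespace Pool.Agent.R311.RES
open Finset
open scoped Classical

variable {q : ℕ} [Fact q.Prime]

lemma sqrt_nat_le (n : ℕ) : Real.sqrt n ≤ n := by
  rw [Real.sqrt_le_left (by positivity)]
  rcases Nat.eq_zero_or_pos n with h | h
  · subst h; simp
  · have : (1 : ℝ) ≤ n := by exact_mod_cast h
    nlinarith

theorem res_main {α β : Type*} (H : Subgroup (DirichletCharacter ℂ q)) (I : Finset α)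
    (E : Finset β) (src tgt : β → α) (π : α → (ZMod q)ˣ) (lab : β → (ZMod q)ˣ)
    (hs : ∀ e ∈ E, src e ∈ I) (ht : ∀ e ∈ E, tgt e ∈ I)
    (hπ : ∀ e ∈ E, π (tgt e) = lab e * π (src e))
    (is : ∀ e ∈ E, ∀ e' ∈ E, lab e = lab e' → src e = src e' → e = e')
    (it : ∀ e ∈ E, ∀ e' ∈ E, lab e = lab e' → tgt e = tgt e' → e = e')
    (V : ℝ) (hV : ∀ χ ∈ H, ‖DirichletCharacter.LFunction χ (1 / 2)‖ ≤ V) :
    ∑ e ∈ E, ((lab e : ZMod q).val : ℝ) ^ (-(1 / 2 : ℝ)) ≤
      V * #I + 3 * (q : ℝ) ^ (-(1 / 2 : ℝ)) * (#I : ℝ) ^ 2 * (Fintype.card (ann H) : ℝ) := by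
  set K : ℝ := (Fintype.card (ann H) : ℝ) with hK
  have hK0 : 0 < K := by
    have : 0 < Fintype.card (ann H) := Fintype.card_pos
    rw [hK]; exact_mod_cast this
  set N : (ZMod q)ˣ → ℕ := fun g => (I.filter (fun i => π i * g⁻¹ ∈ ann H)).card with hN
  set r : (ZMod q)ˣ → ℝ := fun g => Real.sqrt (N g) with hr
  have hsq : ∀ g, r g ^ 2 = N g := fun g => Real.sq_sqrt (Nat.cast_nonneg _)
  have hr0 : ∀ g, 0 ≤ r g := fun g => Real.sqrt_nonneg _
  have hinv : ∀ g k : (ZMod q)ˣ, k ∈ ann H → r (g * k) = r g := by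
    intro g k hk
    simp only [hr, hN]
    have : ∀ i : α, π i * (g * k)⁻¹ ∈ ann H ↔ π i * g⁻¹ ∈ ann H := by
      intro i
      rw [mul_inv, ← mul_assoc]
      exact Subgroup.mul_mem_cancel_right _ ((ann H).inv_mem hk)
    simp_rw [this]
  have hone : ∀ b : (ZMod q)ˣ, ∑ g : (ZMod q)ˣ, (if b * g⁻¹ ∈ ann H then (1 : ℝ) else 0) = K := by
    intro b
    have := sum_inv H (fun _ => (1 : ℝ)) (fun _ _ _ => rfl) b
    rw [this, mul_one]
  have hNsum : ∑ g, (N g : ℝ) = #I * K := by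
    have h1 : ∀ g, (N g : ℝ) = ∑ i ∈ I, (if π i * g⁻¹ ∈ ann H then (1 : ℝ) else 0) := by
      intro g
      simp only [hN]
      rw [Finset.card_filter]
      push_cast
      rfl
    rw [Finset.sum_congr rfl (fun g _ => h1 g), Finset.sum_comm,
      Finset.sum_congr rfl (fun i _ => hone (π i)), Finset.sum_const, nsmul_eq_mul]
  -- the inequality
  have hmain := res_ineq H r hinv (hzv q) (fun χ => DirichletCharacter.LFunction χ (1 / 2)) V
    (fun χ _ => L_half χ) hV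
  have hr2 : ∑ g, r g ^ 2 = #I * K := by
    rw [Finset.sum_congr rfl (fun g _ => hsq g), hNsum]
  rw [hr2] at hmain
  -- the count of edges
  set M : (ZMod q)ˣ → (ZMod q)ˣ → ℕ := fun a g =>
    (E.filter (fun e => lab e = a ∧ π (src e) * g⁻¹ ∈ ann H)).card with hM
  have hM1 : ∀ a g, M a g ≤ N g := by
    intro a g
    simp only [hM, hN]
    refine Finset.card_le_card_of_injOn src ?_ ?_
    · intro e he
      rw [mem_coe, mem_filter] at he
      rw [mem_coe, mem_filter]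
      exact ⟨hs e he.1, he.2.2⟩
    · intro e he e' he' h
      rw [mem_coe, mem_filter] at he he'
      exact is e he.1 e' he'.1 (he.2.1.trans he'.2.1.symm) h
  have hM2 : ∀ a g, M a g ≤ N (a * g) := by
    intro a g
    simp only [hM, hN]
    refine Finset.card_le_card_of_injOn tgt ?_ ?_
    · intro e he
      rw [mem_coe, mem_filter] at he
      rw [mem_coe, mem_filter]
      refine ⟨ht e he.1, ?_⟩
      rw [hπ e he.1, he.2.1]
      have : a * π (src e) * (a * g)⁻¹ = π (src e) * g⁻¹ := by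
        rw [mul_inv, mul_comm a, mul_assoc, mul_inv_cancel_left]
      rw [this]
      exact he.2.2
    · intro e he e' he' h
      rw [mem_coe, mem_filter] at he he'
      exact it e he.1 e' he'.1 (he.2.1.trans he'.2.1.symm) h
  have hMr : ∀ a g, (M a g : ℝ) ≤ r g * r (a * g) := by
    intro a g
    have h1 : (M a g : ℝ) = Real.sqrt (M a g) * Real.sqrt (M a g) :=
      (Real.mul_self_sqrt (Nat.cast_nonneg _)).symm
    rw [h1]
    apply mul_le_mul (Real.sqrt_le_sqrt (by exact_mod_cast hM1 a g))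
      (Real.sqrt_le_sqrt (by exact_mod_cast hM2 a g)) (Real.sqrt_nonneg _) (hr0 _)
  have hMsum : ∀ a, ∑ g, (M a g : ℝ) = K * ((E.filter (fun e => lab e = a)).card : ℝ) := by
    intro a
    have h1 : ∀ g, (M a g : ℝ) = ∑ e ∈ E.filter (fun e => lab e = a),
        (if π (src e) * g⁻¹ ∈ ann H then (1 : ℝ) else 0) := by
      intro g
      simp only [hM]
      rw [← Finset.filter_filter, Finset.card_filter]
      push_cast
      rfl
    rw [Finset.sum_congr rfl (fun g _ => h1 g), Finset.sum_comm,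
      Finset.sum_congr rfl (fun e _ => hone (π (src e))), Finset.sum_const, nsmul_eq_mul, mul_comm]
  set C : (ZMod q)ˣ → ℝ := fun a => ∑ g, r g * r (a * g) with hC
  have hC0 : ∀ a, 0 ≤ C a := fun a => Finset.sum_nonneg fun g _ => mul_nonneg (hr0 _) (hr0 _)
  have hC1 : ∀ a, K * ((E.filter (fun e => lab e = a)).card : ℝ) ≤ C a := by
    intro a
    rw [← hMsum a]
    exact Finset.sum_le_sum fun g _ => hMr a g
  have hCsum : ∑ a, C a ≤ (#I * K) ^ 2 := by
    have h1 : ∑ a, C a = (∑ g, r g) * (∑ g, r g) := by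
      simp only [hC]
      rw [Finset.sum_comm, Finset.sum_mul]
      apply Finset.sum_congr rfl
      intro g _
      rw [← Finset.mul_sum]
      congr 1
      exact Equiv.sum_comp (Equiv.mulRight g) r
    have h2 : ∑ g, r g ≤ #I * K := by
      rw [← hNsum]
      exact Finset.sum_le_sum fun g _ => sqrt_nat_le _
    rw [h1, sq]
    exact mul_le_mul h2 h2 (Finset.sum_nonneg fun g _ => hr0 g) (by positivity)
  have hq0 : (0 : ℝ) ≤ 3 * (q : ℝ) ^ (-(1 / 2 : ℝ)) := by positivity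
  have hlow : K * ∑ e ∈ E, ((lab e : ZMod q).val : ℝ) ^ (-(1 / 2 : ℝ)) -
      3 * (q : ℝ) ^ (-(1 / 2 : ℝ)) * (#I * K) ^ 2 ≤ V * (#I * K) := by
    refine le_trans ?_ hmain
    have h1 : ∑ a : (ZMod q)ˣ, (((a : ZMod q).val : ℝ) ^ (-(1 / 2 : ℝ)) -
        3 * (q : ℝ) ^ (-(1 / 2 : ℝ))) * C a ≤ ∑ a : (ZMod q)ˣ, (hzv q a).re * C a :=
      Finset.sum_le_sum fun a _ => mul_le_mul_of_nonneg_right (hzv_re a) (hC0 a)
    refine le_trans ?_ h1
    have h2 : ∑ a : (ZMod q)ˣ, (((a : ZMod q).val : ℝ) ^ (-(1 / 2 : ℝ)) -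
        3 * (q : ℝ) ^ (-(1 / 2 : ℝ))) * C a =
        ∑ a : (ZMod q)ˣ, ((a : ZMod q).val : ℝ) ^ (-(1 / 2 : ℝ)) * C a -
        3 * (q : ℝ) ^ (-(1 / 2 : ℝ)) * ∑ a, C a := by
      rw [Finset.mul_sum, ← Finset.sum_sub_distrib]
      apply Finset.sum_congr rfl
      intro a _
      ring
    rw [h2]
    have h3 : K * ∑ e ∈ E, ((lab e : ZMod q).val : ℝ) ^ (-(1 / 2 : ℝ)) ≤
        ∑ a : (ZMod q)ˣ, ((a : ZMod q).val : ℝ) ^ (-(1 / 2 : ℝ)) * C a := by
      have h4 : ∑ e ∈ E, ((lab e : ZMod q).val : ℝ) ^ (-(1 / 2 : ℝ)) =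
          ∑ a : (ZMod q)ˣ, ((E.filter (fun e => lab e = a)).card : ℝ) *
            ((a : ZMod q).val : ℝ) ^ (-(1 / 2 : ℝ)) := by
        rw [← Finset.sum_fiberwise E lab]
        apply Finset.sum_congr rfl
        intro a _
        rw [Finset.sum_congr rfl (fun e he => by rw [(mem_filter.1 he).2]), Finset.sum_const,
          nsmul_eq_mul]
      rw [h4, Finset.mul_sum]
      apply Finset.sum_le_sum
      intro a _
      calc _ = ((a : ZMod q).val : ℝ) ^ (-(1 / 2 : ℝ)) *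
            (K * ((E.filter (fun e => lab e = a)).card : ℝ)) := by ring
        _ ≤ _ := mul_le_mul_of_nonneg_left (hC1 a) (by positivity)
    have h5 := mul_le_mul_of_nonneg_left hCsum hq0
    linarith
  have hfin : K * ∑ e ∈ E, ((lab e : ZMod q).val : ℝ) ^ (-(1 / 2 : ℝ)) ≤
      K * (V * #I + 3 * (q : ℝ) ^ (-(1 / 2 : ℝ)) * (#I : ℝ) ^ 2 * K) := by
    calc _ ≤ V * (#I * K) + 3 * (q : ℝ) ^ (-(1 / 2 : ℝ)) * (#I * K) ^ 2 := by linarith
      _ = _ := by ring
  exact le_of_mul_le_mul_left hfin hK0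

end Pool.Agent.R311.RES
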