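import Mathlib
import Pool.Agent.R311.RES.A3

/-! The combinatorial blocks. -/

set_option autoImplicit false

namespace Pool.Agent.R311.RES
open Finset
open scoped Classical

/-- states of a block -/
abbrev St := (_ : Finset ℕ) × Finset ℕ

/-- edges of a block -/
abbrev Ed := (_ : Finset ℕ) × ((_ : Finset ℕ) × (Finset ℕ × Finset ℕ))

/-- the states of a block: `Z ⊆ P` with `m` elements and `A ⊆ Z` -/
def X (P : Finset ℕ) (m : ℕ) : Finset St :=
  (P.powersetCard m).sigma (fun Z => Z.powerset)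

/-- the edges of a block: `Z`, `V ⊆ Z`, `A ⊆ Z \ V`, `U ⊆ P \ Z` -/
def EE (P : Finset ℕ) (m t : ℕ) : Finset Ed :=
  (P.powersetCard m).sigma (fun Z => (Z.powersetCard t).sigma (fun V =>
    (Z \ V).powerset ×ˢ (P \ Z).powersetCard t))

lemma mem_X (P : Finset ℕ) (m : ℕ) (x : St) : x ∈ X P m ↔ (x.1 ⊆ P ∧ x.1.card = m) ∧ x.2 ⊆ x.1 := by
  rw [X, mem_sigma, mem_powersetCard, mem_powerset]

lemma mem_EE (P : Finset ℕ) (m t : ℕ) (e : Ed) : e ∈ EE P m t ↔
    (e.1 ⊆ P ∧ e.1.card = m) ∧ (e.2.1 ⊆ e.1 ∧ e.2.1.card = t) ∧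
      (e.2.2.1 ⊆ e.1 \ e.2.1) ∧ (e.2.2.2 ⊆ P \ e.1 ∧ e.2.2.2.card = t) := by
  rw [EE, mem_sigma, mem_sigma, mem_product, mem_powersetCard, mem_powersetCard, mem_powerset,
    mem_powersetCard]

lemma card_X (P : Finset ℕ) (m : ℕ) : (X P m).card = P.card.choose m * 2 ^ m := by
  rw [X, card_sigma]
  rw [Finset.sum_congr rfl (fun Z hZ => by
    rw [card_powerset, (mem_powersetCard.1 hZ).2]), sum_const, card_powersetCard, smul_eq_mul]

lemma card_EE (P : Finset ℕ) (m t : ℕ) : (EE P m t).card =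
    P.card.choose m * (m.choose t * (2 ^ (m - t) * (P.card - m).choose t)) := by
  rw [EE, card_sigma]
  have h1 : ∀ Z ∈ P.powersetCard m, ((Z.powersetCard t).sigma (fun V =>
      (Z \ V).powerset ×ˢ (P \ Z).powersetCard t)).card =
      m.choose t * (2 ^ (m - t) * (P.card - m).choose t) := by
    intro Z hZ
    rw [mem_powersetCard] at hZ
    have h2 : ∀ V ∈ Z.powersetCard t, ((Z \ V).powerset ×ˢ (P \ Z).powersetCard t).card =
        2 ^ (m - t) * (P.card - m).choose t := by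
      intro V hV
      rw [mem_powersetCard] at hV
      rw [card_product, card_powerset, card_powersetCard, card_sdiff_of_subset hV.1,
        card_sdiff_of_subset hZ.1, hZ.2, hV.2]
    rw [card_sigma, Finset.sum_congr rfl h2, sum_const, card_powersetCard, hZ.2, smul_eq_mul]
  rw [Finset.sum_congr rfl h1, sum_const, card_powersetCard, smul_eq_mul]

/-- source -/
def sr (e : Ed) : St := ⟨e.1, e.2.2.1⟩

/-- target -/
def tg (e : Ed) : St := ⟨(e.1 \ e.2.1) ∪ e.2.2.2, e.2.2.1 ∪ e.2.2.2⟩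

/-- label set -/
def ta (e : Ed) : Finset ℕ := e.2.2.2 ∪ e.2.1

lemma sr_mem {P : Finset ℕ} {m t : ℕ} {e : Ed} (he : e ∈ EE P m t) : sr e ∈ X P m := by
  rw [mem_EE] at he
  rw [mem_X]
  exact ⟨he.1, he.2.2.1.trans sdiff_subset⟩

lemma tg_mem {P : Finset ℕ} {m t : ℕ} {e : Ed} (he : e ∈ EE P m t) : tg e ∈ X P m := by
  rw [mem_EE] at he
  rw [mem_X]
  obtain ⟨⟨h1, h2⟩, ⟨h3, h4⟩, h5, h6, h7⟩ := he
  have hd : Disjoint (e.1 \ e.2.1) e.2.2.2 := by
    rw [disjoint_left]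
    intro a ha hb
    have := h6 hb
    rw [mem_sdiff] at this ha
    exact this.2 ha.1
  have ht : t ≤ m := by rw [← h4, ← h2]; exact card_le_card h3
  refine ⟨⟨?_, ?_⟩, ?_⟩
  · exact union_subset (sdiff_subset.trans h1) (h6.trans sdiff_subset)
  · show ((e.1 \ e.2.1) ∪ e.2.2.2).card = m
    rw [card_union_of_disjoint hd, card_sdiff_of_subset h3, h2, h4, h7]
    omega
  · exact union_subset_union h5 (Subset.refl _)

lemma ta_sub {P : Finset ℕ} {m t : ℕ} {e : Ed} (he : e ∈ EE P m t) : ta e ⊆ P := by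
  rw [mem_EE] at he
  exact union_subset (he.2.2.2.1.trans sdiff_subset) (he.2.1.1.trans he.1.1)

lemma ta_card {P : Finset ℕ} {m t : ℕ} {e : Ed} (he : e ∈ EE P m t) : (ta e).card = 2 * t := by
  rw [mem_EE] at he
  obtain ⟨⟨h1, h2⟩, ⟨h3, h4⟩, h5, h6, h7⟩ := he
  have hd : Disjoint e.2.2.2 e.2.1 := by
    rw [disjoint_left]
    intro a ha hb
    have := h6 ha
    rw [mem_sdiff] at this
    exact this.2 (h3 hb)
  rw [ta, card_union_of_disjoint hd, h7, h4]
  ring

lemma sr_inj {P : Finset ℕ} {m t : ℕ} {e e' : Ed} (he : e ∈ EE P m t) (he' : e' ∈ EE P m t)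
    (hτ : ta e = ta e') (h : sr e = sr e') : e = e' := by
  rw [mem_EE] at he he'
  obtain ⟨Z, V, A, U⟩ := e
  obtain ⟨Z', V', A', U'⟩ := e'
  simp only [sr, Sigma.mk.injEq, heq_eq_eq, ta] at h hτ he he'
  obtain ⟨rfl, rfl⟩ := h
  have hV : V = V' := by
    ext a
    constructor
    · intro ha
      have h1 : a ∈ U' ∪ V' := by rw [← hτ]; exact mem_union_right _ ha
      rcases mem_union.1 h1 with h2 | h2
      · exact absurd (he.2.1.1 ha) (mem_sdiff.1 (he'.2.2.2.1 h2)).2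
      · exact h2
    · intro ha
      have h1 : a ∈ U ∪ V := by rw [hτ]; exact mem_union_right _ ha
      rcases mem_union.1 h1 with h2 | h2
      · exact absurd (he'.2.1.1 ha) (mem_sdiff.1 (he.2.2.2.1 h2)).2
      · exact h2
  have hU : U = U' := by
    ext a
    constructor
    · intro ha
      have h1 : a ∈ U' ∪ V' := by rw [← hτ]; exact mem_union_left _ ha
      rcases mem_union.1 h1 with h2 | h2
      · exact h2
      · exact absurd (he'.2.1.1 h2) (mem_sdiff.1 (he.2.2.2.1 ha)).2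
    · intro ha
      have h1 : a ∈ U ∪ V := by rw [hτ]; exact mem_union_left _ ha
      rcases mem_union.1 h1 with h2 | h2
      · exact h2
      · exact absurd (he.2.1.1 h2) (mem_sdiff.1 (he'.2.2.2.1 ha)).2
  rw [hV, hU]

lemma tg_inj {P : Finset ℕ} {m t : ℕ} {e e' : Ed} (he : e ∈ EE P m t) (he' : e' ∈ EE P m t)
    (hτ : ta e = ta e') (h : tg e = tg e') : e = e' := by
  rw [mem_EE] at he he'
  obtain ⟨Z, V, A, U⟩ := e
  obtain ⟨Z', V', A', U'⟩ := e'
  simp only [tg, Sigma.mk.injEq, heq_eq_eq, ta] at h hτ he he'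
  obtain ⟨⟨h1, h2⟩, ⟨h3, h4⟩, h5, h6, h7⟩ := he
  obtain ⟨⟨h1', h2'⟩, ⟨h3', h4'⟩, h5', h6', h7'⟩ := he'
  obtain ⟨hZ, hA⟩ := h
  have memU : ∀ a, a ∈ U → a ∉ Z := fun a ha => (mem_sdiff.1 (h6 ha)).2
  have memU' : ∀ a, a ∈ U' → a ∉ Z' := fun a ha => (mem_sdiff.1 (h6' ha)).2
  have hU : ∀ a, a ∈ U ↔ a ∈ U ∪ V ∧ a ∈ Z \ V ∪ U := by
    intro a
    constructor
    · intro ha; exact ⟨mem_union_left _ ha, mem_union_right _ ha⟩
    · rintro ⟨ha, hb⟩
      rcases mem_union.1 hb with hb | hb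
      · rcases mem_union.1 ha with ha | ha
        · exact ha
        · exact absurd ha (mem_sdiff.1 hb).2
      · exact hb
  have hU' : ∀ a, a ∈ U' ↔ a ∈ U' ∪ V' ∧ a ∈ Z' \ V' ∪ U' := by
    intro a
    constructor
    · intro ha; exact ⟨mem_union_left _ ha, mem_union_right _ ha⟩
    · rintro ⟨ha, hb⟩
      rcases mem_union.1 hb with hb | hb
      · rcases mem_union.1 ha with ha | ha
        · exact ha
        · exact absurd ha (mem_sdiff.1 hb).2
      · exact hb
  have eU : U = U' := by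
    ext a
    rw [hU, hU', hτ, hZ]
  have hV : ∀ a, a ∈ V ↔ a ∈ U ∪ V ∧ a ∉ Z \ V ∪ U := by
    intro a
    constructor
    · intro ha
      refine ⟨mem_union_right _ ha, ?_⟩
      intro hb
      rcases mem_union.1 hb with hb | hb
      · exact (mem_sdiff.1 hb).2 ha
      · exact memU a hb (h3 ha)
    · rintro ⟨ha, hb⟩
      rcases mem_union.1 ha with ha | ha
      · exact absurd (mem_union_right _ ha) hb
      · exact ha
  have hV' : ∀ a, a ∈ V' ↔ a ∈ U' ∪ V' ∧ a ∉ Z' \ V' ∪ U' := by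
    intro a
    constructor
    · intro ha
      refine ⟨mem_union_right _ ha, ?_⟩
      intro hb
      rcases mem_union.1 hb with hb | hb
      · exact (mem_sdiff.1 hb).2 ha
      · exact memU' a hb (h3' ha)
    · rintro ⟨ha, hb⟩
      rcases mem_union.1 ha with ha | ha
      · exact absurd (mem_union_right _ ha) hb
      · exact ha
  have eV : V = V' := by
    ext a
    rw [hV, hV', hτ, hZ]
  subst eU eV
  have eZ : Z = Z' := by
    have e1 : ∀ (Y : Finset ℕ), V ⊆ Y → (∀ a ∈ U, a ∉ Y) → ∀ a, a ∈ Y ↔ (a ∈ Y \ V ∪ U ∧ a ∉ U) ∨ a ∈ V := by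
      intro Y hY1 hY2 a
      constructor
      · intro ha
        by_cases hv : a ∈ V
        · exact Or.inr hv
        · exact Or.inl ⟨mem_union_left _ (mem_sdiff.2 ⟨ha, hv⟩), fun h => hY2 a h ha⟩
      · rintro (⟨ha, hb⟩ | ha)
        · rcases mem_union.1 ha with ha | ha
          · exact (mem_sdiff.1 ha).1
          · exact absurd ha hb
        · exact hY1 ha
    ext a
    rw [e1 Z h3 memU, e1 Z' h3' memU', hZ]
  have eA : A = A' := by
    have e1 : ∀ (Y B : Finset ℕ), B ⊆ Y \ V → (∀ a ∈ U, a ∉ Y) → ∀ a, a ∈ B ↔ (a ∈ B ∪ U ∧ a ∉ U) := by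
      intro Y B hB hY a
      constructor
      · intro ha
        exact ⟨mem_union_left _ ha, fun h => hY a h (mem_sdiff.1 (hB ha)).1⟩
      · rintro ⟨ha, hb⟩
        rcases mem_union.1 ha with ha | ha
        · exact ha
        · exact absurd ha hb
    ext a
    rw [e1 Z A h5 memU, e1 Z' A' h5' memU', hA]
  rw [eZ, eA]

/-- the value of a state, for a function with values in a commutative group -/
def piv {G : Type*} [CommGroup G] (u : ℕ → G) (x : St) : G :=
  (∏ p ∈ x.2, u p) * (∏ p ∈ x.1 \ x.2, u p)⁻¹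

lemma piv_tg {G : Type*} [CommGroup G] (u : ℕ → G) {P : Finset ℕ} {m t : ℕ} {e : Ed}
    (he : e ∈ EE P m t) : piv u (tg e) = (∏ p ∈ ta e, u p) * piv u (sr e) := by
  rw [mem_EE] at he
  obtain ⟨Z, V, A, U⟩ := e
  simp only at he
  obtain ⟨⟨h1, h2⟩, ⟨h3, h4⟩, h5, h6, h7⟩ := he
  simp only [piv, tg, sr, ta]
  have memU : ∀ a, a ∈ U → a ∉ Z := fun a ha => (mem_sdiff.1 (h6 ha)).2
  have memA : ∀ a, a ∈ A → a ∈ Z ∧ a ∉ V := fun a ha => mem_sdiff.1 (h5 ha)
  have dAU : Disjoint A U := by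
    rw [disjoint_left]
    intro a ha hb
    exact memU a hb (memA a ha).1
  have dUV : Disjoint U V := by
    rw [disjoint_left]
    intro a ha hb
    exact memU a ha (h3 hb)
  have e1 : (Z \ V ∪ U) \ (A ∪ U) = (Z \ V) \ A := by
    ext a
    simp only [mem_sdiff, mem_union, not_or]
    constructor
    · rintro ⟨h | h, h', h''⟩
      · exact ⟨h, h'⟩
      · exact absurd h h''
    · rintro ⟨⟨ha, hb⟩, hc⟩
      exact ⟨Or.inl ⟨ha, hb⟩, hc, fun h => memU a h ha⟩
  have e2 : Z \ A = ((Z \ V) \ A) ∪ V := by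
    ext a
    simp only [mem_sdiff, mem_union]
    constructor
    · rintro ⟨ha, hb⟩
      by_cases hv : a ∈ V
      · exact Or.inr hv
      · exact Or.inl ⟨⟨ha, hv⟩, hb⟩
    · rintro (⟨⟨ha, hb⟩, hc⟩ | ha)
      · exact ⟨ha, hc⟩
      · exact ⟨h3 ha, fun h => (memA a h).2 ha⟩
  have d2 : Disjoint ((Z \ V) \ A) V := by
    rw [disjoint_left]
    intro a ha hb
    exact (mem_sdiff.1 (mem_sdiff.1 ha).1).2 hb
  rw [prod_union dAU, e1, e2, prod_union d2, prod_union dUV, mul_inv]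
  have : ∀ a b c d : G, a * b * c⁻¹ = b * d * (a * (c⁻¹ * d⁻¹)) := by
    intro a b c d
    have : b * d * (a * (c⁻¹ * d⁻¹)) = a * b * c⁻¹ * (d * d⁻¹) := by
      simp only [mul_comm, mul_left_comm, mul_assoc]
    rw [this, mul_inv_cancel, mul_one]
  exact this _ _ _ _

end Pool.Agent.R311.RES
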