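import Mathlib
import Pool.Agent.R311.RES.A4

/-! Products of blocks. -/

set_option autoImplicit false

namespace Pool.Agent.R311.RES
open Finset
open scoped Classical

variable {q : ℕ} [Fact q.Prime]

/-- the residue class of a number prime to `q` -/
noncomputable def un (q : ℕ) (p : ℕ) : (ZMod q)ˣ :=
  if h : p.Coprime q then ZMod.unitOfCoprime p h else 1

lemma un_val {p : ℕ} (h : p.Coprime q) : ((un q p : (ZMod q)ˣ) : ZMod q) = (p : ZMod q) := by
  rw [un, dif_pos h, ZMod.coe_unitOfCoprime]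

section
variable {κ : ℕ}

/-- label as a natural number -/
def labN (e : Fin κ → Ed) : ℕ := ∏ i, ∏ p ∈ ta (e i), p

/-- label as a residue class -/
noncomputable def labG (q : ℕ) (e : Fin κ → Ed) : (ZMod q)ˣ := ∏ i, ∏ p ∈ ta (e i), un q p

lemma labG_val (P : Fin κ → Finset ℕ) (m t : Fin κ → ℕ) (hcop : ∀ i, ∀ p ∈ P i, p.Coprime q)
    (e : Fin κ → Ed) (he : ∀ i, e i ∈ EE (P i) (m i) (t i)) :
    ((labG q e : (ZMod q)ˣ) : ZMod q) = ((labN e : ℕ) : ZMod q) := by
  unfold labG labN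
  rw [Units.coe_prod, Nat.cast_prod]
  apply Finset.prod_congr rfl
  intro i _
  rw [Units.coe_prod, Nat.cast_prod]
  apply Finset.prod_congr rfl
  intro p hp
  exact un_val (hcop i p (ta_sub (he i) hp))

lemma labN_le (P : Fin κ → Finset ℕ) (m t : Fin κ → ℕ) (y : Fin κ → ℝ)
    (hy : ∀ i, ∀ p ∈ P i, (p : ℝ) ≤ y i)
    (e : Fin κ → Ed) (he : ∀ i, e i ∈ EE (P i) (m i) (t i)) :
    (labN e : ℝ) ≤ ∏ i, y i ^ (2 * t i) := by
  unfold labN
  rw [Nat.cast_prod]
  apply Finset.prod_le_prod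
  · intro i _; positivity
  · intro i _
    rw [Nat.cast_prod, ← ta_card (he i), ← Finset.prod_const]
    apply Finset.prod_le_prod
    · intro p _; positivity
    · intro p hp
      exact hy i p (ta_sub (he i) hp)

lemma labN_pos (P : Fin κ → Finset ℕ) (m t : Fin κ → ℕ) (hpr : ∀ i, ∀ p ∈ P i, p.Prime)
    (e : Fin κ → Ed) (he : ∀ i, e i ∈ EE (P i) (m i) (t i)) : 0 < labN e := by
  unfold labN
  apply Finset.prod_pos
  intro i _
  apply Finset.prod_pos
  intro p hp
  exact (hpr i p (ta_sub (he i) hp)).pos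

lemma labN_inj (P : Fin κ → Finset ℕ) (m t : Fin κ → ℕ) (hpr : ∀ i, ∀ p ∈ P i, p.Prime)
    (hdis : ∀ i j, i ≠ j → Disjoint (P i) (P j))
    (e e' : Fin κ → Ed) (he : ∀ i, e i ∈ EE (P i) (m i) (t i))
    (he' : ∀ i, e' i ∈ EE (P i) (m i) (t i)) (h : labN e = labN e') (i : Fin κ) :
    ta (e i) = ta (e' i) := by
  have key : ∀ f : Fin κ → Ed, (∀ i, f i ∈ EE (P i) (m i) (t i)) →
      ta (f i) = (labN f).primeFactors.filter (fun p => p ∈ P i) := by
    intro f hf
    have h1 : labN f = ∏ p ∈ univ.biUnion (fun i => ta (f i)), p := by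
      rw [Finset.prod_biUnion]
      · rfl
      · intro a _ b _ hab
        exact (hdis a b hab).mono (ta_sub (hf a)) (ta_sub (hf b))
    have h2 : (labN f).primeFactors = univ.biUnion (fun i => ta (f i)) := by
      rw [h1]
      apply Nat.primeFactors_prod
      intro p hp
      rw [mem_biUnion] at hp
      obtain ⟨j, _, hj⟩ := hp
      exact hpr j p (ta_sub (hf j) hj)
    rw [h2]
    ext p
    rw [mem_filter, mem_biUnion]
    constructor
    · intro hp
      exact ⟨⟨i, mem_univ _, hp⟩, ta_sub (hf i) hp⟩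
    · rintro ⟨⟨j, _, hj⟩, hp⟩
      by_cases hij : j = i
      · subst hij; exact hj
      · exact absurd hp (disjoint_left.1 (hdis j i hij) (ta_sub (hf j) hj))
  rw [key e he, key e' he', h]

theorem res_blocks (H : Subgroup (DirichletCharacter ℂ q)) (P : Fin κ → Finset ℕ)
    (m t : Fin κ → ℕ) (y : Fin κ → ℝ) (hpr : ∀ i, ∀ p ∈ P i, p.Prime)
    (hcop : ∀ i, ∀ p ∈ P i, p.Coprime q) (hdis : ∀ i j, i ≠ j → Disjoint (P i) (P j))
    (hy0 : ∀ i, 0 < y i) (hy : ∀ i, ∀ p ∈ P i, (p : ℝ) ≤ y i) (hm : ∀ i, m i ≤ (P i).card)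
    (hyq : ∏ i, y i ^ (2 * t i) < q) (V : ℝ)
    (hV : ∀ χ ∈ H, ‖DirichletCharacter.LFunction χ (1 / 2)‖ ≤ V) :
    ∏ i, (((m i).choose (t i) : ℝ) * (((P i).card - m i).choose (t i) : ℝ) / (2 * y i) ^ (t i)) ≤
      V + 3 * (q : ℝ) ^ (-(1 / 2 : ℝ)) * (∏ i, (((P i).card.choose (m i) : ℝ) * 2 ^ (m i))) *
        (Fintype.card (ann H) : ℝ) := by
  set I := Fintype.piFinset (fun i => X (P i) (m i)) with hI
  set E := Fintype.piFinset (fun i => EE (P i) (m i) (t i)) with hE
  have hq : (0 : ℝ) < q := by exact_mod_cast (Nat.Prime.pos Fact.out : 0 < q)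
  have memE : ∀ e ∈ E, ∀ i, e i ∈ EE (P i) (m i) (t i) := fun e he => Fintype.mem_piFinset.1 he
  have hlt : ∀ e ∈ E, labN e < q := by
    intro e he
    have := (labN_le P m t y hy e (memE e he)).trans_lt hyq
    exact_mod_cast this
  have hval : ∀ e ∈ E, ((labG q e : (ZMod q)ˣ) : ZMod q).val = labN e := by
    intro e he
    rw [labG_val P m t hcop e (memE e he), ZMod.val_natCast, Nat.mod_eq_of_lt (hlt e he)]
  have hlab : ∀ e ∈ E, ∀ e' ∈ E, labG q e = labG q e' → labN e = labN e' := by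
    intro e he e' he' h
    rw [← hval e he, ← hval e' he', h]
  have hmain := res_main H I E (fun e i => sr (e i)) (fun e i => tg (e i))
    (fun x => ∏ i, piv (un q) (x i)) (labG q)
    (fun e he => Fintype.mem_piFinset.2 fun i => sr_mem (memE e he i))
    (fun e he => Fintype.mem_piFinset.2 fun i => tg_mem (memE e he i))
    (fun e he => by
      simp only [labG]
      rw [← Finset.prod_mul_distrib]
      exact Finset.prod_congr rfl fun i _ => piv_tg (un q) (memE e he i))
    (fun e he e' he' h h' => by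
      funext i
      exact sr_inj (memE e he i) (memE e' he' i)
        (labN_inj P m t hpr hdis e e' (memE e he) (memE e' he') (hlab e he e' he' h) i)
        (congrFun h' i))
    (fun e he e' he' h h' => by
      funext i
      exact tg_inj (memE e he i) (memE e' he' i)
        (labN_inj P m t hpr hdis e e' (memE e he) (memE e' he') (hlab e he e' he' h) i)
        (congrFun h' i))
    V hV
  have hlow : ∀ e ∈ E, ∏ i, ((y i) ^ (t i))⁻¹ ≤ ((labG q e : ZMod q).val : ℝ) ^ (-(1 / 2 : ℝ)) := by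
    intro e he
    rw [hval e he]
    have h1 : (0 : ℝ) < labN e := by exact_mod_cast labN_pos P m t hpr e (memE e he)
    have h2 := labN_le P m t y hy e (memE e he)
    have h3 : ∏ i, y i ^ (2 * t i) = (∏ i, y i ^ (t i)) ^ 2 := by
      rw [← Finset.prod_pow]
      apply Finset.prod_congr rfl
      intro i _
      rw [← pow_mul, mul_comm]
    have h4 : 0 < ∏ i, y i ^ (t i) := Finset.prod_pos fun i _ => pow_pos (hy0 i) _
    rw [h3] at h2
    rw [Finset.prod_inv_distrib, Real.rpow_neg h1.le, ← Real.sqrt_eq_rpow]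
    apply inv_anti₀ (Real.sqrt_pos.2 h1)
    rw [Real.sqrt_le_left h4.le]
    exact h2
  have hsum : (#E : ℝ) * ∏ i, ((y i) ^ (t i))⁻¹ ≤
      ∑ e ∈ E, ((labG q e : ZMod q).val : ℝ) ^ (-(1 / 2 : ℝ)) := by
    rw [← nsmul_eq_mul, ← Finset.sum_const]
    exact Finset.sum_le_sum hlow
  have hIcard : (#I : ℝ) = ∏ i, (((P i).card.choose (m i) : ℝ) * 2 ^ (m i)) := by
    rw [hI, Fintype.card_piFinset]
    push_cast
    apply Finset.prod_congr rfl
    intro i _
    rw [card_X]
    push_cast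
    rfl
  have hIpos : (0 : ℝ) < #I := by
    rw [hIcard]
    apply Finset.prod_pos
    intro i _
    have : 0 < (P i).card.choose (m i) := Nat.choose_pos (hm i)
    positivity
  have hEcard : (#E : ℝ) * ∏ i, ((y i) ^ (t i))⁻¹ = (#I : ℝ) *
      ∏ i, (((m i).choose (t i) : ℝ) * (((P i).card - m i).choose (t i) : ℝ) / (2 * y i) ^ (t i)) := by
    rw [hIcard, hE, Fintype.card_piFinset, Nat.cast_prod, ← Finset.prod_mul_distrib,
      ← Finset.prod_mul_distrib]
    apply Finset.prod_congr rfl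
    intro i _
    rw [card_EE]
    have hyi := (hy0 i).ne'
    rcases le_or_gt (t i) (m i) with h | h
    · have e1 : (2 : ℝ) ^ (m i) = 2 ^ (m i - t i) * 2 ^ (t i) := by
        rw [← pow_add]; congr 1; omega
      push_cast
      rw [e1, mul_pow]
      field_simp
    · rw [Nat.choose_eq_zero_of_lt h]
      simp
  rw [hEcard] at hsum
  have h5 := hsum.trans hmain
  rw [← hIcard]
  have h6 : (#I : ℝ) * ∏ i, (((m i).choose (t i) : ℝ) * (((P i).card - m i).choose (t i) : ℝ) /
      (2 * y i) ^ (t i)) ≤ (#I : ℝ) * (V + 3 * (q : ℝ) ^ (-(1 / 2 : ℝ)) * #I *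
        (Fintype.card (ann H) : ℝ)) := by
    refine h5.trans (le_of_eq ?_)
    ring
  exact le_of_mul_le_mul_left h6 hIpos

end

end Pool.Agent.R311.RES
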