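import Mathlib

/-! Elementary inequalities for factorials and binomial coefficients. -/

set_option autoImplicit false

namespace Pool.Agent.R311.RES
open Finset

lemma fact_le (t : ℕ) (ht : 1 ≤ t) : (t.factorial : ℝ) ≤ (t : ℝ) ^ (t + 1) * Real.exp (1 - t) := by
  induction t, ht using Nat.le_induction with
  | base => simp
  | succ t ht ih =>
    have ht0 : (0 : ℝ) < t := by exact_mod_cast ht
    have h1 : (t : ℝ) / (t + 1) ≤ Real.exp (-(1 / ((t : ℝ) + 1))) := by
      have := Real.add_one_le_exp (-(1 / ((t : ℝ) + 1)))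
      refine le_trans (le_of_eq ?_) this
      field_simp
      ring
    have h2 : ((t : ℝ) / (t + 1)) ^ (t + 1) ≤ Real.exp (-1) := by
      calc ((t : ℝ) / (t + 1)) ^ (t + 1) ≤ (Real.exp (-(1 / ((t : ℝ) + 1)))) ^ (t + 1) :=
            pow_le_pow_left₀ (by positivity) h1 _
        _ = Real.exp (-1) := by
            rw [← Real.exp_nat_mul]
            congr 1
            push_cast
            field_simp
    have h3 : (t : ℝ) ^ (t + 1) ≤ ((t : ℝ) + 1) ^ (t + 1) * Real.exp (-1) := by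
      rw [div_pow, div_le_iff₀ (by positivity)] at h2
      linarith
    rw [Nat.factorial_succ]
    push_cast
    calc ((t : ℝ) + 1) * (t.factorial : ℝ) ≤ (t + 1) * ((t : ℝ) ^ (t + 1) * Real.exp (1 - t)) :=
          mul_le_mul_of_nonneg_left ih (by positivity)
      _ ≤ (t + 1) * ((((t : ℝ) + 1) ^ (t + 1) * Real.exp (-1)) * Real.exp (1 - t)) := by
          apply mul_le_mul_of_nonneg_left _ (by positivity)
          exact mul_le_mul_of_nonneg_right h3 (Real.exp_pos _).le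
      _ = ((t : ℝ) + 1) ^ (t + 1 + 1) * Real.exp (1 - (t + 1)) := by
          rw [mul_assoc (((t : ℝ) + 1) ^ (t + 1)), ← Real.exp_add]
          have : (-1 + (1 - (t : ℝ))) = 1 - (t + 1) := by ring
          rw [this]
          ring

lemma pow_div_fact (B : ℝ) (hB : 1 ≤ B) :
    Real.exp (B - 2) / B ≤ B ^ ⌊B⌋₊ / (⌊B⌋₊.factorial : ℝ) := by
  set t := ⌊B⌋₊ with ht
  have ht1 : 1 ≤ t := Nat.le_floor (by simpa using hB)
  have ht0 : (0 : ℝ) < t := by exact_mod_cast ht1
  have htB : (t : ℝ) ≤ B := Nat.floor_le (by linarith)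
  have htB' : B < t + 1 := Nat.lt_floor_add_one B
  have hfac : (0 : ℝ) < t.factorial := by exact_mod_cast Nat.factorial_pos t
  have h1 : (t : ℝ) ^ t / (t.factorial : ℝ) ≤ B ^ t / (t.factorial : ℝ) :=
    div_le_div_of_nonneg_right (pow_le_pow_left₀ ht0.le htB _) hfac.le
  refine le_trans ?_ h1
  rw [le_div_iff₀ hfac]
  have h2 := fact_le t ht1
  calc Real.exp (B - 2) / B * (t.factorial : ℝ) ≤
        (Real.exp (t - 1) / t) * ((t : ℝ) ^ (t + 1) * Real.exp (1 - t)) := by
        apply mul_le_mul _ h2 hfac.le (by positivity)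
        apply div_le_div₀ (Real.exp_pos _).le _ ht0 htB
        rw [Real.exp_le_exp]; linarith
    _ = (t : ℝ) ^ t * (Real.exp (t - 1) * Real.exp (1 - t)) := by
        rw [pow_succ]
        field_simp
    _ = (t : ℝ) ^ t := by
        rw [← Real.exp_add]; simp

lemma choose_low (n t : ℕ) (h : t ≤ n) : ((n : ℝ) - t) ^ t / (t.factorial : ℝ) ≤ (n.choose t : ℝ) := by
  have h1 := Nat.pow_le_choose (α := ℝ) t n
  refine le_trans ?_ h1
  apply div_le_div_of_nonneg_right _ (by positivity)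
  have h2 : (t : ℝ) ≤ n := by exact_mod_cast h
  apply pow_le_pow_left₀ (by linarith)
  rw [Nat.cast_sub (by omega)]
  push_cast
  linarith

lemma block_low (m n t : ℕ) (y B Mr Nr : ℝ) (hy : 0 < y) (hmn : m ≤ n) (htm : t ≤ m)
    (htn : t ≤ n - m) (hM0 : 0 ≤ Mr) (hN0 : 0 ≤ Nr) (hM : Mr ≤ (m : ℝ) - t)
    (hN : Nr ≤ (n : ℝ) - m - t) (hB : B ^ 2 ≤ Mr * Nr / (2 * y)) :
    (B ^ t / (t.factorial : ℝ)) ^ 2 ≤ (m.choose t : ℝ) * ((n - m).choose t : ℝ) / (2 * y) ^ t := by
  have hf : (0 : ℝ) < t.factorial := by exact_mod_cast Nat.factorial_pos t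
  have h1 := choose_low m t htm
  have h2 := choose_low (n - m) t htn
  rw [Nat.cast_sub hmn] at h2
  have h3 : Mr ^ t / (t.factorial : ℝ) ≤ (m.choose t : ℝ) :=
    (div_le_div_of_nonneg_right (pow_le_pow_left₀ hM0 hM _) hf.le).trans h1
  have h4 : Nr ^ t / (t.factorial : ℝ) ≤ ((n - m).choose t : ℝ) :=
    (div_le_div_of_nonneg_right (pow_le_pow_left₀ hN0 hN _) hf.le).trans h2
  have h5 : Mr ^ t / (t.factorial : ℝ) * (Nr ^ t / (t.factorial : ℝ)) ≤
      (m.choose t : ℝ) * ((n - m).choose t : ℝ) := mul_le_mul h3 h4 (by positivity) (by positivity)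
  refine le_trans ?_ (div_le_div_of_nonneg_right h5 (by positivity))
  have h6 : Mr ^ t / (t.factorial : ℝ) * (Nr ^ t / (t.factorial : ℝ)) / (2 * y) ^ t =
      (Mr * Nr / (2 * y)) ^ t / (t.factorial : ℝ) ^ 2 := by
    rw [div_pow (Mr * Nr), mul_pow Mr Nr]
    ring
  rw [h6, div_pow, ← pow_mul, mul_comm t 2, pow_mul]
  exact div_le_div_of_nonneg_right (pow_le_pow_left₀ (by positivity) hB _) (by positivity)

lemma block_entropy (n m : ℕ) (R : ℝ) (hm : 1 ≤ m)
    (h : 2 * Real.exp 1 * n ≤ m * Real.exp R) :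
    (n.choose m : ℝ) * 2 ^ m ≤ Real.exp (m * R) := by
  have hm0 : (0 : ℝ) < m := by exact_mod_cast hm
  have hf : (0 : ℝ) < m.factorial := by exact_mod_cast Nat.factorial_pos m
  have h1 := Nat.choose_le_pow_div (α := ℝ) m n
  have h2 : (m : ℝ) ^ m / (m.factorial : ℝ) ≤ Real.exp m :=
    Real.pow_div_factorial_le_exp (m : ℝ) hm0.le m
  have h3 : (n.choose m : ℝ) * 2 ^ m ≤ (2 * Real.exp 1 * n / m) ^ m := by
    have h4 : 1 / (m.factorial : ℝ) ≤ Real.exp m / (m : ℝ) ^ m := by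
      rw [div_le_div_iff₀ hf (by positivity), one_mul]
      rw [div_le_iff₀ hf] at h2
      linarith
    calc (n.choose m : ℝ) * 2 ^ m ≤ ((n : ℝ) ^ m / (m.factorial : ℝ)) * 2 ^ m :=
          mul_le_mul_of_nonneg_right h1 (by positivity)
      _ = ((n : ℝ) ^ m * 2 ^ m) * (1 / (m.factorial : ℝ)) := by ring
      _ ≤ ((n : ℝ) ^ m * 2 ^ m) * (Real.exp m / (m : ℝ) ^ m) :=
          mul_le_mul_of_nonneg_left h4 (by positivity)
      _ = (2 * Real.exp 1 * n / m) ^ m := by
          have : Real.exp (m : ℝ) = Real.exp 1 ^ m := by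
            rw [← Real.exp_nat_mul, mul_one]
          rw [this, div_pow, mul_pow, mul_pow]
          ring
  refine h3.trans ?_
  rw [Real.exp_nat_mul]
  apply pow_le_pow_left₀ (by positivity)
  rw [div_le_iff₀ hm0]
  linarith

end Pool.Agent.R311.RES
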