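import Mathlib
import Pool.Agent.Helper923.PNT

/-! Primes in the intervals `(y, (1 + h) y]`. -/

set_option autoImplicit false

namespace Pool.Agent.R311.RES
open Finset Filter Topology

lemma primes_interval (h : ℝ) (h0 : 0 < h) (h1 : h ≤ 1) : ∃ Y : ℝ, 1 < Y ∧ ∀ y : ℝ, Y ≤ y →
    (1 - h / 2) * h * (y / Real.log y) ≤
      (((Ioc ⌊y⌋₊ ⌊(1 + h) * y⌋₊).filter Nat.Prime).card : ℝ) := by
  set ε : ℝ := h ^ 2 / 10 with hε
  have hε0 : 0 < ε := by positivity
  have hε1 : ε ≤ 1 / 10 := by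
    rw [hε]; nlinarith
  have hpi := Pool.Agent.Helper923.PNT.pi_tendsto
  have e1 : ∀ᶠ y : ℝ in atTop, |(Nat.primeCounting ⌊y⌋₊ : ℝ) * Real.log y / y - 1| < ε := by
    have := Metric.tendsto_nhds.1 hpi ε hε0
    simpa [Real.dist_eq] using this
  have hlam : Tendsto (fun y : ℝ => (1 + h) * y) atTop atTop :=
    Filter.Tendsto.const_mul_atTop (by linarith) tendsto_id
  have e2 := hlam.eventually e1
  have e3 : ∀ᶠ y : ℝ in atTop, h / ε ≤ Real.log y := Real.tendsto_log_atTop.eventually_ge_atTop _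
  obtain ⟨Y, hY⟩ := eventually_atTop.1 ((e1.and e2).and (e3.and (eventually_gt_atTop (2 : ℝ))))
  refine ⟨max Y 2, by simp, fun y hy => ?_⟩
  obtain ⟨⟨a1, a2⟩, a3, a4⟩ := hY y ((le_max_left _ _).trans hy)
  have hy0 : 0 < y := by linarith
  have hl : 0 < Real.log y := Real.log_pos (by linarith)
  have hly : 0 < (1 + h) * y := by positivity
  have hll : Real.log ((1 + h) * y) ≤ (1 + ε) * Real.log y := by
    rw [Real.log_mul (by positivity) hy0.ne']
    have h2 : Real.log (1 + h) ≤ h := by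
      have := Real.log_le_sub_one_of_pos (show 0 < 1 + h by linarith)
      linarith
    rw [div_le_iff₀ hε0] at a3
    linarith
  have hll0 : 0 < Real.log ((1 + h) * y) := Real.log_pos (by nlinarith)
  rw [abs_lt] at a1 a2
  have b1 : (Nat.primeCounting ⌊y⌋₊ : ℝ) ≤ (1 + ε) * (y / Real.log y) := by
    have h3 : (Nat.primeCounting ⌊y⌋₊ : ℝ) * Real.log y / y ≤ 1 + ε := by linarith
    rw [div_le_iff₀ hy0] at h3
    rw [← mul_div_assoc, le_div_iff₀ hl]
    exact h3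
  have b2 : (1 - 2 * ε) * (1 + h) * (y / Real.log y) ≤ (Nat.primeCounting ⌊(1 + h) * y⌋₊ : ℝ) := by
    have h3 : 1 - ε ≤ (Nat.primeCounting ⌊(1 + h) * y⌋₊ : ℝ) * Real.log ((1 + h) * y) /
        ((1 + h) * y) := by linarith
    rw [le_div_iff₀ hly] at h3
    have h4 : (Nat.primeCounting ⌊(1 + h) * y⌋₊ : ℝ) * Real.log ((1 + h) * y) ≤
        (Nat.primeCounting ⌊(1 + h) * y⌋₊ : ℝ) * ((1 + ε) * Real.log y) :=
      mul_le_mul_of_nonneg_left hll (Nat.cast_nonneg _)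
    have h5 : (1 - ε) * ((1 + h) * y) ≤ (Nat.primeCounting ⌊(1 + h) * y⌋₊ : ℝ) * ((1 + ε) * Real.log y) :=
      h3.trans h4
    have h6 : (1 - 2 * ε) * (1 + ε) ≤ 1 - ε := by nlinarith
    rw [← mul_div_assoc, div_le_iff₀ hl]
    have h7 : (1 - 2 * ε) * (1 + ε) * ((1 + h) * y) ≤
        (Nat.primeCounting ⌊(1 + h) * y⌋₊ : ℝ) * ((1 + ε) * Real.log y) :=
      (mul_le_mul_of_nonneg_right h6 hly.le).trans h5
    have h8 : (1 + ε) * ((1 - 2 * ε) * (1 + h) * y) ≤
        (1 + ε) * ((Nat.primeCounting ⌊(1 + h) * y⌋₊ : ℝ) * Real.log y) := by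
      calc _ = (1 - 2 * ε) * (1 + ε) * ((1 + h) * y) := by ring
        _ ≤ _ := h7
        _ = _ := by ring
    exact le_of_mul_le_mul_left h8 (by linarith)
  have hfl : ⌊y⌋₊ ≤ ⌊(1 + h) * y⌋₊ := Nat.floor_le_floor (by nlinarith)
  have hcard : (Nat.primeCounting ⌊(1 + h) * y⌋₊ : ℝ) - (Nat.primeCounting ⌊y⌋₊ : ℝ) ≤
      (((Ioc ⌊y⌋₊ ⌊(1 + h) * y⌋₊).filter Nat.Prime).card : ℝ) := by
    have h3 : Nat.primeCounting ⌊(1 + h) * y⌋₊ = Nat.primeCounting ⌊y⌋₊ +
        ((Ioc ⌊y⌋₊ ⌊(1 + h) * y⌋₊).filter Nat.Prime).card := by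
      have h4 : ∀ n : ℕ, Nat.primeCounting n = ((Ioc 0 n).filter Nat.Prime).card := by
        intro n
        rw [Nat.primeCounting, Nat.primeCounting', Nat.count_eq_card_filter_range]
        congr 1
        ext p
        simp only [mem_filter, mem_range, mem_Ioc]
        constructor
        · rintro ⟨ha, hb⟩; exact ⟨⟨hb.pos, by omega⟩, hb⟩
        · rintro ⟨ha, hb⟩; exact ⟨by omega, hb⟩
      rw [h4, h4, ← card_union_of_disjoint]
      · congr 1
        ext p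
        simp only [mem_filter, mem_union, mem_Ioc]
        constructor
        · rintro ⟨ha, hb⟩
          rcases le_or_gt p ⌊y⌋₊ with hc | hc
          · exact Or.inl ⟨⟨ha.1, hc⟩, hb⟩
          · exact Or.inr ⟨⟨hc, ha.2⟩, hb⟩
        · rintro (⟨ha, hb⟩ | ⟨ha, hb⟩)
          · exact ⟨⟨ha.1, ha.2.trans hfl⟩, hb⟩
          · exact ⟨⟨by omega, ha.2⟩, hb⟩
      · rw [disjoint_left]
        intro p hp hp'
        simp only [mem_filter, mem_Ioc] at hp hp'
        omega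
    rw [h3]
    push_cast
    linarith
  refine le_trans ?_ hcard
  have hyl : 0 < y / Real.log y := by positivity
  have h9 : (1 - h / 2) * h ≤ (1 - 2 * ε) * (1 + h) - (1 + ε) := by
    rw [hε]; nlinarith
  calc (1 - h / 2) * h * (y / Real.log y) ≤ ((1 - 2 * ε) * (1 + h) - (1 + ε)) * (y / Real.log y) :=
        mul_le_mul_of_nonneg_right h9 hyl.le
    _ = (1 - 2 * ε) * (1 + h) * (y / Real.log y) - (1 + ε) * (y / Real.log y) := by ring
    _ ≤ _ := by linarith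

end Pool.Agent.R311.RES
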