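import Mathlib

/-! Asymptotic facts about the parameters. -/

set_option autoImplicit false

namespace Pool.Agent.R311.RES
open Filter Topology

lemma lpow (C : ℝ) (n : ℕ) : ∀ᶠ x : ℝ in atTop, C * Real.log x ^ n ≤ x ^ (1 / 4 : ℝ) := by
  have h1 := isLittleO_log_rpow_rpow_atTop (n : ℝ) (show (0 : ℝ) < 1 / 4 by norm_num)
  have h2 := h1.bound (show (0 : ℝ) < 1 / (|C| + 1) by positivity)
  filter_upwards [h2, eventually_gt_atTop 1] with x hx hx1
  have hl : 0 < Real.log x := Real.log_pos hx1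
  rw [Real.rpow_natCast, Real.norm_of_nonneg (by positivity), Real.norm_of_nonneg (by positivity)] at hx
  rw [one_div, inv_mul_eq_div, le_div_iff₀ (by positivity)] at hx
  have h3 : C * Real.log x ^ n ≤ (|C| + 1) * Real.log x ^ n := by
    apply mul_le_mul_of_nonneg_right _ (by positivity)
    linarith [le_abs_self C]
  linarith

lemma loglog_tendsto : Tendsto (fun x : ℝ => Real.log (Real.log x)) atTop atTop :=
  Real.tendsto_log_atTop.comp Real.tendsto_log_atTop

lemma logloglog_tendsto : Tendsto (fun x : ℝ => Real.log (Real.log (Real.log x))) atTop atTop :=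
  Real.tendsto_log_atTop.comp loglog_tendsto

lemma log_small (ε : ℝ) (hε : 0 < ε) : ∀ᶠ x : ℝ in atTop, Real.log x ≤ ε * x := by
  have h1 := Real.isLittleO_log_id_atTop.bound hε
  filter_upwards [h1, eventually_gt_atTop 1] with x hx hx1
  have hl : 0 < Real.log x := Real.log_pos hx1
  simp only [id] at hx
  rw [Real.norm_of_nonneg hl.le, Real.norm_of_nonneg (by linarith)] at hx
  exact hx

lemma rpow_small (h ε : ℝ) (hh : 0 < h) (hε : 0 < ε) : ∀ᶠ x : ℝ in atTop, x ^ (1 - h) ≤ ε * x := by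
  have h1 : Tendsto (fun x : ℝ => x ^ (-h)) atTop (𝓝 0) := tendsto_rpow_neg_atTop hh
  filter_upwards [h1.eventually_lt_const hε, eventually_gt_atTop 0] with x hx hx0
  rw [show 1 - h = -h + 1 by ring, Real.rpow_add hx0, Real.rpow_one]
  exact mul_le_mul_of_nonneg_right hx.le hx0.le

/-- the size of the extreme exponent -/
noncomputable def bb (c1 x : ℝ) : ℝ := Real.sqrt (c1 * x / (Real.log x * Real.log (Real.log x)))

/-- the extremal function -/
noncomputable def FF (x : ℝ) : ℝ := Real.sqrt (x * Real.log (Real.log x) / Real.log x)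

/-- the list of facts -/
structure Facts (h c c1 C5 Y δ x : ℝ) : Prop where
  f1 : 1 ≤ Real.log (Real.log x)
  f1' : 1 ≤ Real.log x
  f1'' : 1 ≤ x
  f2 : Real.log (Real.log x) + (Real.log x ^ (1 - h) + 1) * h ≤ h / 2 * Real.log x
  f3 : 2 / h * (Real.log x ^ 2 * Real.log (Real.log x)) ≤ c * x
  f4 : bb c1 x ≤ h / 2 * (c * x / (Real.log x ^ 2 * Real.log (Real.log x)))
  f5 : c * x / Real.log (Real.log x) + bb c1 x + 1 ≤ h ^ 2 * x
  f6 : 4 * bb c1 x * (1 + Real.log (Real.log x)) * Real.log x < x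
  f7 : (h + h ^ 2) * (1 + (1 - h) * Real.log (Real.log x)) +
    2 * (C5 + Real.log (Real.log (Real.log x))) ≤ (h + 2 * h ^ 2) * Real.log (Real.log x)
  f8 : Real.log x * (2 + Real.log x) ≤ h * (1 - h) * (bb c1 x * Real.log (Real.log x))
  f9 : bb c1 x ≤ x
  f10 : Real.log x ≤ bb c1 x
  f11 : 2 * Real.log x < x
  f12 : Y ≤ x
  f13 : δ ≤ FF x

theorem facts (h c c1 C5 Y δ : ℝ) (hh : 0 < h) (hh1 : h < 1) (hc : 0 < c) (hc1 : 0 < c1) :
    ∀ᶠ x : ℝ in atTop, Facts h c c1 C5 Y δ x := by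
  have hs : Tendsto (fun x : ℝ => x ^ (1 / 4 : ℝ)) atTop atTop := tendsto_rpow_atTop (by norm_num)
  have hL3 := loglog_tendsto
  have e1 : ∀ᶠ x : ℝ in atTop, Real.log (Real.log x) ≤ (h / 8) * Real.log x :=
    Real.tendsto_log_atTop.eventually (log_small (h / 8) (by positivity))
  have e2 : ∀ᶠ x : ℝ in atTop, Real.log x ^ (1 - h) ≤ 1 / 8 * Real.log x :=
    Real.tendsto_log_atTop.eventually (rpow_small h (1 / 8) hh (by norm_num))
  have e3 : ∀ᶠ x : ℝ in atTop, Real.log (Real.log (Real.log x)) ≤ (h ^ 2 / 8) * Real.log (Real.log x) :=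
    hL3.eventually (log_small (h ^ 2 / 8) (by positivity))
  have hhh : 0 < h * (1 - h) := by nlinarith
  filter_upwards [e1, e2, e3, hL3.eventually_ge_atTop 1,
    hL3.eventually_ge_atTop (8 * (h + h ^ 2 + 2 * |C5|) / h ^ 2),
    hL3.eventually_ge_atTop (2 * c / h ^ 2),
    Real.tendsto_log_atTop.eventually_ge_atTop 8, eventually_ge_atTop (1 : ℝ),
    eventually_ge_atTop Y,
    lpow (1 / c1) 2, lpow (2 / (h * c)) 3, lpow ((1 + c1) * (2 / (h * c))) 3,
    lpow (9 * (1 + c1)) 2, lpow (3 / (h * (1 - h))) 2,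
    lpow 1 1, lpow 2 1, hs.eventually_ge_atTop 2, hs.eventually_ge_atTop (2 * (2 + c1) / h ^ 2),
    hs.eventually_ge_atTop (1 + c1), hs.eventually_ge_atTop (|δ| + 1)]
    with x a1 a2 a3 a4 a5 a6 a7 a8 a9 b1 b2 b3 b4 b5 b6 b7 s1 s2 s3 s4
  set L := Real.log x with hL
  set M := Real.log L with hM
  set s := x ^ (1 / 4 : ℝ) with hsdef
  have hx0 : 0 < x := by linarith
  have hs0 : 0 < s := by linarith
  have hx4 : x = s ^ 4 := by
    rw [hsdef, ← Real.rpow_natCast, ← Real.rpow_mul hx0.le]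
    norm_num
  have hL0 : 0 < L := by linarith
  have hM0 : 0 < M := by linarith
  have hML : M ≤ L := by
    have : M ≤ h / 8 * L := a1
    nlinarith
  have hLM : 1 ≤ L * M := by nlinarith
  have hb2 : bb c1 x ^ 2 = c1 * x / (L * M) := Real.sq_sqrt (by positivity)
  have hb0 : 0 ≤ bb c1 x := Real.sqrt_nonneg _
  have hs12 : s ≤ s ^ 2 := by nlinarith
  have hs23 : s ^ 2 ≤ s ^ 3 := by
    have : 0 ≤ s ^ 2 := by positivity
    calc s ^ 2 = s ^ 2 * 1 := by ring
      _ ≤ s ^ 2 * s := mul_le_mul_of_nonneg_left (by linarith) this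
      _ = s ^ 3 := by ring
  have hs34 : s ^ 3 ≤ s ^ 4 := by
    have : 0 ≤ s ^ 3 := by positivity
    calc s ^ 3 = s ^ 3 * 1 := by ring
      _ ≤ s ^ 3 * s := mul_le_mul_of_nonneg_left (by linarith) this
      _ = s ^ 4 := by ring
  -- upper bound for b
  have hbu : bb c1 x ≤ (1 + c1) * s ^ 2 := by
    apply le_of_sq_le_sq _ (by positivity)
    rw [hb2]
    calc c1 * x / (L * M) ≤ c1 * x := div_le_self (by positivity) hLM
      _ = c1 * s ^ 4 := by rw [hx4]
      _ ≤ (1 + c1) ^ 2 * s ^ 4 := by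
          apply mul_le_mul_of_nonneg_right _ (by positivity)
          nlinarith
      _ = _ := by ring
  -- lower bound for b
  have hbl : s ≤ bb c1 x := by
    apply le_of_sq_le_sq _ hb0
    rw [hb2, le_div_iff₀ (by positivity), hx4]
    have h1 : L ^ 2 ≤ c1 * s := by
      rw [one_div, inv_mul_eq_div, div_le_iff₀ hc1] at b1
      linarith
    have h2 : L * M ≤ L ^ 2 := by nlinarith
    calc s ^ 2 * (L * M) ≤ s ^ 2 * (c1 * s) := by
          apply mul_le_mul_of_nonneg_left (h2.trans h1) (by positivity)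
      _ = c1 * s ^ 3 := by ring
      _ ≤ c1 * s ^ 4 := mul_le_mul_of_nonneg_left hs34 hc1.le
  have hLLM : L ^ 2 * M ≤ L ^ 3 := by
    calc L ^ 2 * M ≤ L ^ 2 * L := mul_le_mul_of_nonneg_left hML (by positivity)
      _ = L ^ 3 := by ring
  refine ⟨a4, by linarith, a8, ?_, ?_, ?_, ?_, ?_, ?_, ?_, ?_, ?_, ?_, a9, ?_⟩
  · -- f2
    have : (L ^ (1 - h) + 1) * h ≤ (1 / 8 * L + 1) * h :=
      mul_le_mul_of_nonneg_right (by linarith) hh.le
    have h2 : h ≤ h / 8 * L := by
      have := mul_le_mul_of_nonneg_left a7 hh.le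
      linarith
    have h3 : M ≤ h / 8 * L := a1
    have h4 : (1 / 8 * L + 1) * h = h / 8 * L + h := by ring
    have h5 : h / 2 * L = 4 * (h / 8 * L) := by ring
    have h6 : 0 ≤ h / 8 * L := by positivity
    rw [h5]
    linarith
  · -- f3
    have h1 : 2 / (h * c) * L ^ 3 ≤ s := b2
    have h2 : 2 / h * L ^ 3 ≤ c * s := by
      have : 2 / (h * c) * L ^ 3 = (2 / h * L ^ 3) / c := by field_simp
      rw [this, div_le_iff₀ hc] at h1
      linarith
    calc 2 / h * (L ^ 2 * M) ≤ 2 / h * L ^ 3 := mul_le_mul_of_nonneg_left hLLM (by positivity)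
      _ ≤ c * s := h2
      _ ≤ c * x := by
          apply mul_le_mul_of_nonneg_left _ hc.le
          rw [hx4]; linarith
  · -- f4
    have h1 : (1 + c1) * (2 / (h * c)) * L ^ 3 ≤ s := b3
    have h2 : (1 + c1) * L ^ 3 ≤ h / 2 * c * s := by
      have : (1 + c1) * (2 / (h * c)) * L ^ 3 = ((1 + c1) * L ^ 3) / (h / 2 * c) := by field_simp
      rw [this, div_le_iff₀ (by positivity)] at h1
      linarith
    rw [← mul_div_assoc, le_div_iff₀ (by positivity)]
    calc bb c1 x * (L ^ 2 * M) ≤ ((1 + c1) * s ^ 2) * L ^ 3 :=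
          mul_le_mul hbu hLLM (by positivity) (by positivity)
      _ = s ^ 2 * ((1 + c1) * L ^ 3) := by ring
      _ ≤ s ^ 2 * (h / 2 * c * s) := mul_le_mul_of_nonneg_left h2 (by positivity)
      _ = h / 2 * c * s ^ 3 := by ring
      _ ≤ h / 2 * c * s ^ 4 := mul_le_mul_of_nonneg_left hs34 (by positivity)
      _ = h / 2 * (c * x) := by rw [hx4]; ring
  · -- f5
    have h1 : c * x / M ≤ h ^ 2 / 2 * x := by
      have h2 : 2 * c / h ^ 2 ≤ M := a6
      rw [div_le_iff₀ (by positivity)] at h2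
      rw [div_le_iff₀ hM0]
      nlinarith
    have h2 : bb c1 x + 1 ≤ h ^ 2 / 2 * x := by
      have h3 : 2 * (2 + c1) ≤ s * h ^ 2 := by
        rw [div_le_iff₀ (by positivity)] at s2
        exact s2
      have h4 : 1 ≤ s ^ 2 := by nlinarith
      calc bb c1 x + 1 ≤ (1 + c1) * s ^ 2 + s ^ 2 := add_le_add hbu h4
        _ = s ^ 2 / 2 * (2 * (2 + c1)) := by ring
        _ ≤ s ^ 2 / 2 * (s * h ^ 2) := mul_le_mul_of_nonneg_left h3 (by positivity)
        _ = h ^ 2 / 2 * s ^ 3 := by ring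
        _ ≤ h ^ 2 / 2 * s ^ 4 := mul_le_mul_of_nonneg_left hs34 (by positivity)
        _ = h ^ 2 / 2 * x := by rw [hx4]
    linarith
  · -- f6
    have h1 : 9 * (1 + c1) * L ^ 2 ≤ s := b4
    have h2 : (1 + M) * L ≤ 2 * L ^ 2 := by nlinarith
    calc 4 * bb c1 x * (1 + M) * L = 4 * bb c1 x * ((1 + M) * L) := by ring
      _ ≤ 4 * ((1 + c1) * s ^ 2) * (2 * L ^ 2) := by
          apply mul_le_mul (by linarith) h2 (by positivity) (by positivity)
      _ = s ^ 2 * (8 * (1 + c1) * L ^ 2) := by ring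
      _ ≤ s ^ 2 * (9 * (1 + c1) * L ^ 2) := by
          apply mul_le_mul_of_nonneg_left _ (by positivity)
          have : 0 ≤ (1 + c1) * L ^ 2 := by positivity
          nlinarith
      _ ≤ s ^ 2 * s := mul_le_mul_of_nonneg_left h1 (by positivity)
      _ = s ^ 3 * 1 := by ring
      _ < s ^ 3 * s := by
          apply mul_lt_mul_of_pos_left (by linarith) (by positivity)
      _ = x := by rw [hx4]; ring
  · -- f7
    have h1 : 8 * (h + h ^ 2 + 2 * |C5|) ≤ h ^ 2 * M := by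
      have := a5
      rw [div_le_iff₀ (by positivity)] at this
      linarith
    have h2 := le_abs_self C5
    have h3 : Real.log M ≤ h ^ 2 / 8 * M := a3
    have e1 : (h + h ^ 2) * (1 + (1 - h) * M) = h + h ^ 2 + h * M - h ^ 3 * M := by ring
    have e2 : (h + 2 * h ^ 2) * M = h * M + 2 * (h ^ 2 * M) := by ring
    have e3 : h ^ 2 / 8 * M = (h ^ 2 * M) / 8 := by ring
    have h4 : 0 ≤ h ^ 3 * M := by positivity
    have h5 : 0 ≤ h ^ 2 * M := by positivity
    rw [e1, e2]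
    rw [e3] at h3
    linarith
  · -- f8
    have h1 : 3 / (h * (1 - h)) * L ^ 2 ≤ s := b5
    have h2 : 3 * L ^ 2 ≤ h * (1 - h) * s := by
      have : 3 / (h * (1 - h)) * L ^ 2 = (3 * L ^ 2) / (h * (1 - h)) := by ring
      rw [this, div_le_iff₀ hhh] at h1
      linarith
    calc L * (2 + L) ≤ 3 * L ^ 2 := by nlinarith
      _ ≤ h * (1 - h) * s := h2
      _ ≤ h * (1 - h) * (bb c1 x * M) := by
          apply mul_le_mul_of_nonneg_left _ hhh.le
          nlinarith
  · -- f9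
    calc bb c1 x ≤ (1 + c1) * s ^ 2 := hbu
      _ ≤ s * s ^ 2 := mul_le_mul_of_nonneg_right s3 (by positivity)
      _ = s ^ 3 := by ring
      _ ≤ x := by rw [hx4]; exact hs34
  · -- f10
    have : 1 * L ^ 1 ≤ s := b6
    linarith
  · -- f11
    have h3 : 2 * L ^ 1 ≤ s := b7
    have h2 : s < s ^ 2 := by nlinarith
    calc 2 * L = 2 * L ^ 1 := by ring
      _ ≤ s := h3
      _ < s ^ 2 := h2
      _ ≤ s ^ 4 := hs23.trans hs34
      _ = x := hx4.symm
  · -- f13
    unfold FF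
    refine le_trans (le_abs_self δ) (Real.le_sqrt_of_sq_le ?_)
    rw [le_div_iff₀ hL0]
    have h1 : 1 * L ^ 1 ≤ s := b6
    have h2 : |δ| ^ 2 ≤ s ^ 2 := by
      apply pow_le_pow_left₀ (abs_nonneg _)
      linarith
    calc |δ| ^ 2 * L ≤ s ^ 2 * s := mul_le_mul h2 (by linarith) hL0.le (by positivity)
      _ = s ^ 3 := by ring
      _ ≤ s ^ 4 := hs34
      _ = x * 1 := by rw [hx4]; ring
      _ ≤ x * M := mul_le_mul_of_nonneg_left a4 hx0.le

end Pool.Agent.R311.RES
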