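import Mathlib
import Pool.Agent.R311.RES.A5
import Pool.Agent.R311.RES.A6
import Pool.Agent.R311.RES.A7
import Pool.Agent.R311.RES.A8

/-! The block estimates. -/

set_option autoImplicit false

namespace Pool.Agent.R311.RES
open Finset Filter Topology

/-- number of primes taken from a block -/
noncomputable def nn (h x : ℝ) (k : ℕ) : ℕ := ⌊(1 - h) * h * (1 + h) ^ k * x⌋₊
/-- number of primes of a state in a block -/
noncomputable def mm (c x : ℝ) (k : ℕ) : ℕ := ⌊c * x / ((k : ℝ) ^ 2 * Real.log (Real.log x))⌋₊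
/-- number of exchanged primes in a block -/
noncomputable def tt (c1 x : ℝ) (k : ℕ) : ℕ := ⌊bb c1 x / k⌋₊
/-- lower end point of a block -/
noncomputable def yy0 (h x : ℝ) (k : ℕ) : ℝ := x * Real.log x * (1 + h) ^ k

section
variable {h c c1 C5 Y D0 x : ℝ}

lemma k_le_L (hh : 0 < h) (F : Facts h c c1 C5 Y D0 x) {k : ℕ}
    (hk2 : (k : ℝ) ≤ Real.log x ^ (1 - h)) : (k : ℝ) ≤ Real.log x := by
  refine hk2.trans ?_
  have := Real.rpow_le_rpow_of_exponent_le F.f1' (show 1 - h ≤ 1 by linarith)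
  rwa [Real.rpow_one] at this

lemma Q_bounds (hh : 0 < h) (hc : 0 < c) (F : Facts h c c1 C5 Y D0 x) {k : ℕ} (hk : 1 ≤ k)
    (hk2 : (k : ℝ) ≤ Real.log x ^ (1 - h)) :
    2 / h ≤ c * x / ((k : ℝ) ^ 2 * Real.log (Real.log x)) ∧
    c * x / (Real.log x ^ 2 * Real.log (Real.log x)) ≤
      c * x / ((k : ℝ) ^ 2 * Real.log (Real.log x)) ∧
    c * x / ((k : ℝ) ^ 2 * Real.log (Real.log x)) ≤ c * x / Real.log (Real.log x) := by
  have hkL := k_le_L hh F hk2
  have hk0 : (1 : ℝ) ≤ k := by exact_mod_cast hk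
  have hM : 0 < Real.log (Real.log x) := by linarith [F.f1]
  have hL : 0 < Real.log x := by linarith [F.f1']
  have hx : 0 < x := by linarith [F.f1'']
  have h1 : (k : ℝ) ^ 2 * Real.log (Real.log x) ≤ Real.log x ^ 2 * Real.log (Real.log x) :=
    mul_le_mul_of_nonneg_right (pow_le_pow_left₀ (by linarith) hkL 2) hM.le
  have h2 : Real.log (Real.log x) ≤ (k : ℝ) ^ 2 * Real.log (Real.log x) := by
    have : 1 ≤ (k : ℝ) ^ 2 := one_le_pow₀ hk0
    nlinarith
  have h3 : 0 < (k : ℝ) ^ 2 * Real.log (Real.log x) := by positivity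
  refine ⟨?_, ?_, ?_⟩
  · rw [le_div_iff₀ h3]
    exact (mul_le_mul_of_nonneg_left h1 (by positivity)).trans F.f3
  · exact div_le_div_of_nonneg_left (by positivity) h3 h1
  · exact div_le_div_of_nonneg_left (by positivity) hM h2

lemma mm_low (hh : 0 < h) (hc : 0 < c) (F : Facts h c c1 C5 Y D0 x) {k : ℕ} (hk : 1 ≤ k)
    (hk2 : (k : ℝ) ≤ Real.log x ^ (1 - h)) :
    (1 - h / 2) * (c * x / ((k : ℝ) ^ 2 * Real.log (Real.log x))) ≤ mm c x k := by
  obtain ⟨h1, _, _⟩ := Q_bounds hh hc F hk hk2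
  have h2 := (Nat.lt_floor_add_one (c * x / ((k : ℝ) ^ 2 * Real.log (Real.log x)))).le
  rw [div_le_iff₀ hh] at h1
  unfold mm
  linarith

lemma mm_up (hh : 0 < h) (hc : 0 < c) (F : Facts h c c1 C5 Y D0 x) {k : ℕ} (hk : 1 ≤ k)
    (hk2 : (k : ℝ) ≤ Real.log x ^ (1 - h)) :
    (mm c x k : ℝ) ≤ c * x / ((k : ℝ) ^ 2 * Real.log (Real.log x)) := by
  obtain ⟨h1, _, _⟩ := Q_bounds hh hc F hk hk2
  exact Nat.floor_le (le_trans (by positivity) h1)

lemma bb_nonneg : 0 ≤ bb c1 x := Real.sqrt_nonneg _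

lemma tt_up {k : ℕ} (hk : 1 ≤ k) : (tt c1 x k : ℝ) ≤ bb c1 x := by
  have hb : 0 ≤ bb c1 x := bb_nonneg
  have hk0 : (1 : ℝ) ≤ k := by exact_mod_cast hk
  refine (Nat.floor_le (by positivity)).trans (div_le_self hb hk0)

lemma m_sub_t (hh : 0 < h) (hc : 0 < c) (F : Facts h c c1 C5 Y D0 x) {k : ℕ} (hk : 1 ≤ k)
    (hk2 : (k : ℝ) ≤ Real.log x ^ (1 - h)) :
    (1 - h) * (c * x / ((k : ℝ) ^ 2 * Real.log (Real.log x))) ≤ (mm c x k : ℝ) - tt c1 x k := by
  obtain ⟨_, h2, _⟩ := Q_bounds hh hc F hk hk2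
  have h3 := mm_low hh hc F hk hk2
  have h4 : (tt c1 x k : ℝ) ≤ bb c1 x := tt_up hk
  have h5 := F.f4
  have h6 := mul_le_mul_of_nonneg_left h2 (show 0 ≤ h / 2 by positivity)
  linarith

lemma n_sub (hh : 0 < h) (hh1 : h ≤ 1 / 100) (hc : 0 < c) (F : Facts h c c1 C5 Y D0 x) {k : ℕ}
    (hk : 1 ≤ k) (hk2 : (k : ℝ) ≤ Real.log x ^ (1 - h)) :
    (1 - 2 * h) * h * (1 + h) ^ k * x ≤ (nn h x k : ℝ) - mm c x k - tt c1 x k := by
  obtain ⟨_, _, h2⟩ := Q_bounds hh hc F hk hk2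
  have h3 := mm_up hh hc F hk hk2
  have h4 : (tt c1 x k : ℝ) ≤ bb c1 x := tt_up hk
  have h5 := F.f5
  have h6 := (Nat.lt_floor_add_one ((1 - h) * h * (1 + h) ^ k * x)).le
  have hx : 0 < x := by linarith [F.f1'']
  have h7 : h ^ 2 * x ≤ h ^ 2 * ((1 + h) ^ k * x) := by
    apply mul_le_mul_of_nonneg_left _ (by positivity)
    have : 1 ≤ (1 + h) ^ k := one_le_pow₀ (by linarith)
    nlinarith
  have h8 : (1 - 2 * h) * h * (1 + h) ^ k * x = (1 - h) * h * (1 + h) ^ k * x -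
      h ^ 2 * ((1 + h) ^ k * x) := by ring
  rw [h8]
  unfold nn
  linarith

lemma mm_pos (hh : 0 < h) (hh1 : h ≤ 1 / 100) (hc : 0 < c) (F : Facts h c c1 C5 Y D0 x) {k : ℕ}
    (hk : 1 ≤ k) (hk2 : (k : ℝ) ≤ Real.log x ^ (1 - h)) : 1 ≤ mm c x k := by
  obtain ⟨h1, _, _⟩ := Q_bounds hh hc F hk hk2
  apply Nat.le_floor
  rw [Nat.cast_one]
  refine le_trans ?_ h1
  rw [le_div_iff₀ hh]
  linarith

lemma tt_le_mm (hh : 0 < h) (hh1 : h ≤ 1 / 100) (hc : 0 < c) (F : Facts h c c1 C5 Y D0 x) {k : ℕ}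
    (hk : 1 ≤ k) (hk2 : (k : ℝ) ≤ Real.log x ^ (1 - h)) : tt c1 x k ≤ mm c x k := by
  have h1 := m_sub_t hh hc F hk hk2
  obtain ⟨h2, _, _⟩ := Q_bounds hh hc F hk hk2
  have h3 : 0 ≤ (1 - h) * (c * x / ((k : ℝ) ^ 2 * Real.log (Real.log x))) :=
    mul_nonneg (by linarith) (le_trans (by positivity) h2)
  have h4 : (tt c1 x k : ℝ) ≤ mm c x k := by linarith
  exact_mod_cast h4

lemma mm_add_tt_le (hh : 0 < h) (hh1 : h ≤ 1 / 100) (hc : 0 < c) (F : Facts h c c1 C5 Y D0 x)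
    {k : ℕ} (hk : 1 ≤ k) (hk2 : (k : ℝ) ≤ Real.log x ^ (1 - h)) :
    mm c x k + tt c1 x k ≤ nn h x k := by
  have h1 := n_sub hh hh1 hc F hk hk2
  have hx : 0 < x := by linarith [F.f1'']
  have h3 : 0 ≤ (1 - 2 * h) * h * (1 + h) ^ k * x := by
    have : 0 ≤ 1 - 2 * h := by linarith
    positivity
  have h4 : (mm c x k : ℝ) + tt c1 x k ≤ nn h x k := by linarith
  exact_mod_cast h4

lemma blk_low (hh : 0 < h) (hh1 : h ≤ 1 / 100) (hc : 0 < c)
    (hc1 : c1 = (1 - 3 * h) * (h / (1 + h)) * c / 2) (F : Facts h c c1 C5 Y D0 x) {k : ℕ}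
    (hk : 1 ≤ k) (hk2 : (k : ℝ) ≤ Real.log x ^ (1 - h)) :
    Real.exp (2 * (bb c1 x / k - (2 + Real.log x))) ≤ ((mm c x k).choose (tt c1 x k) : ℝ) *
      ((nn h x k - mm c x k).choose (tt c1 x k) : ℝ) / (2 * ((1 + h) * yy0 h x k)) ^ (tt c1 x k) := by
  have hM : 0 < Real.log (Real.log x) := by linarith [F.f1]
  have hL : 0 < Real.log x := by linarith [F.f1']
  have hx : 0 < x := by linarith [F.f1'']
  have hk0 : (1 : ℝ) ≤ k := by exact_mod_cast hk
  have hkL := k_le_L hh F hk2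
  have hb0 : 0 < bb c1 x := lt_of_lt_of_le hL F.f10
  have h2h : 0 ≤ 1 - 2 * h := by linarith
  have h3h : 0 ≤ 1 - 3 * h := by linarith
  have hc10 : 0 ≤ c1 := by rw [hc1]; positivity
  have hmt := mm_add_tt_le hh hh1 hc F hk hk2
  have hB1 : 1 ≤ bb c1 x / k := by
    rw [le_div_iff₀ (by linarith), one_mul]
    exact hkL.trans F.f10
  have hB : (bb c1 x / k) ^ 2 ≤ ((1 - h) * (c * x / ((k : ℝ) ^ 2 * Real.log (Real.log x)))) *
      ((1 - 2 * h) * h * (1 + h) ^ k * x) / (2 * ((1 + h) * yy0 h x k)) := by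
    have e1 : (bb c1 x / k) ^ 2 = (1 - 3 * h) * (h * c * x /
        (2 * (1 + h) * (k : ℝ) ^ 2 * Real.log x * Real.log (Real.log x))) := by
      rw [div_pow]
      unfold bb
      rw [Real.sq_sqrt (by positivity), hc1]
      field_simp
    have e2 : ((1 - h) * (c * x / ((k : ℝ) ^ 2 * Real.log (Real.log x)))) *
      ((1 - 2 * h) * h * (1 + h) ^ k * x) / (2 * ((1 + h) * yy0 h x k)) =
      ((1 - h) * (1 - 2 * h)) * (h * c * x /
        (2 * (1 + h) * (k : ℝ) ^ 2 * Real.log x * Real.log (Real.log x))) := by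
      unfold yy0
      field_simp
    rw [e1, e2]
    apply mul_le_mul_of_nonneg_right _ (by positivity)
    nlinarith
  have h1 := block_low (mm c x k) (nn h x k) (tt c1 x k) ((1 + h) * yy0 h x k) (bb c1 x / k)
    ((1 - h) * (c * x / ((k : ℝ) ^ 2 * Real.log (Real.log x))))
    ((1 - 2 * h) * h * (1 + h) ^ k * x) (by unfold yy0; positivity) (by omega)
    (tt_le_mm hh hh1 hc F hk hk2) (by omega)
    (mul_nonneg (by linarith) (by positivity)) (by positivity)
    (m_sub_t hh hc F hk hk2) (n_sub hh hh1 hc F hk hk2) hB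
  refine le_trans ?_ h1
  have h2 := pow_div_fact (bb c1 x / k) hB1
  have h3 : Real.exp (bb c1 x / k - (2 + Real.log x)) ≤ (bb c1 x / k) ^ (tt c1 x k) /
      ((tt c1 x k).factorial : ℝ) := by
    refine le_trans ?_ h2
    have hB0 : 0 < bb c1 x / k := by linarith
    rw [show bb c1 x / k - (2 + Real.log x) = (bb c1 x / k - 2) - Real.log x by ring, Real.exp_sub,
      Real.exp_log hx]
    apply div_le_div_of_nonneg_left (Real.exp_pos _).le hB0
    exact (div_le_self hb0.le hk0).trans F.f9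
  rw [show 2 * (bb c1 x / k - (2 + Real.log x)) = ((2 : ℕ) : ℝ) * (bb c1 x / k - (2 + Real.log x)) by
    norm_num, Real.exp_nat_mul]
  exact pow_le_pow_left₀ (Real.exp_pos _).le h3 2

lemma log_y (hh : 0 < h) (F : Facts h c c1 C5 Y D0 x) {k : ℕ}
    (hk2 : (k : ℝ) ≤ Real.log x ^ (1 - h)) :
    Real.log ((1 + h) * yy0 h x k) ≤ (1 + h / 2) * Real.log x := by
  have hL : 0 < Real.log x := by linarith [F.f1']
  have hx : 0 < x := by linarith [F.f1'']
  have h1 : (1 + h) * yy0 h x k = x * Real.log x * (1 + h) ^ (k + 1) := by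
    unfold yy0; ring
  have h2 : Real.log (1 + h) ≤ h := by
    have := Real.log_le_sub_one_of_pos (show 0 < 1 + h by linarith)
    linarith
  rw [h1, Real.log_mul (by positivity) (by positivity), Real.log_mul hx.ne' hL.ne', Real.log_pow]
  have h3 : ((k + 1 : ℕ) : ℝ) * Real.log (1 + h) ≤ (Real.log x ^ (1 - h) + 1) * h := by
    push_cast
    apply mul_le_mul (by linarith) h2 (Real.log_nonneg (by linarith)) (by positivity)
  have h4 := F.f2
  linarith

lemma y_le (hh : 0 < h) (hh1 : h ≤ 1 / 100) (F : Facts h c c1 C5 Y D0 x) {k : ℕ}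
    (hk2 : (k : ℝ) ≤ Real.log x ^ (1 - h)) :
    (1 + h) * yy0 h x k ≤ Real.exp (2 * Real.log x) := by
  have hL : 0 < Real.log x := by linarith [F.f1']
  have hx : 0 < x := by linarith [F.f1'']
  have h1 := log_y hh F hk2
  rw [← Real.log_le_iff_le_exp (by unfold yy0; positivity)]
  nlinarith

lemma blk_lab (hh : 0 < h) (hh1 : h ≤ 1 / 100) (F : Facts h c c1 C5 Y D0 x) {k : ℕ} (hk : 1 ≤ k)
    (hk2 : (k : ℝ) ≤ Real.log x ^ (1 - h)) :
    ((1 + h) * yy0 h x k) ^ (2 * tt c1 x k) ≤ Real.exp (4 * bb c1 x * Real.log x * (1 / k)) := by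
  have hL : 0 < Real.log x := by linarith [F.f1']
  have hx : 0 < x := by linarith [F.f1'']
  have hb0 : 0 ≤ bb c1 x := bb_nonneg
  have hk0 : (1 : ℝ) ≤ k := by exact_mod_cast hk
  have h1 := y_le hh hh1 F hk2
  calc ((1 + h) * yy0 h x k) ^ (2 * tt c1 x k) ≤ (Real.exp (2 * Real.log x)) ^ (2 * tt c1 x k) :=
        pow_le_pow_left₀ (by unfold yy0; positivity) h1 _
    _ = Real.exp (4 * Real.log x * (tt c1 x k)) := by
        rw [← Real.exp_nat_mul]; congr 1; push_cast; ring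
    _ ≤ _ := by
        rw [Real.exp_le_exp]
        have : (tt c1 x k : ℝ) ≤ bb c1 x / k := Nat.floor_le (by positivity)
        calc 4 * Real.log x * (tt c1 x k) ≤ 4 * Real.log x * (bb c1 x / k) :=
              mul_le_mul_of_nonneg_left this (by positivity)
          _ = _ := by ring

lemma blk_ent (hh : 0 < h) (hh1 : h ≤ 1 / 100) (hc : 0 < c)
    (hC5 : C5 = 16 * Real.exp 1 / (c * h ^ 3)) (F : Facts h c c1 C5 Y D0 x) {k : ℕ}
    (hk : 1 ≤ k) (hk2 : (k : ℝ) ≤ Real.log x ^ (1 - h)) :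
    ((nn h x k).choose (mm c x k) : ℝ) * 2 ^ (mm c x k) ≤
      Real.exp ((c * x / Real.log (Real.log x)) * ((h + h ^ 2) * (1 / k) +
        (C5 + Real.log (Real.log (Real.log x))) * (1 / (k : ℝ) ^ 2))) := by
  set M := Real.log (Real.log x) with hMdef
  have hM1 : 1 ≤ M := F.f1
  have hM : 0 < M := by linarith
  have hL : 0 < Real.log x := by linarith [F.f1']
  have hx : 0 < x := by linarith [F.f1'']
  have hk0 : (1 : ℝ) ≤ k := by exact_mod_cast hk
  have hkp : (0 : ℝ) < k := by linarith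
  have hC50 : 0 < C5 := by rw [hC5]; positivity
  have hL4 : 0 ≤ Real.log M := Real.log_nonneg hM1
  set R : ℝ := k * (h + h ^ 2) + C5 + Real.log M with hR
  have hR0 : 0 ≤ R := by positivity
  have hm1 := mm_pos hh hh1 hc F hk hk2
  have hmlow := mm_low hh hc F hk hk2
  have hmup := mm_up hh hc F hk hk2
  rw [← hMdef] at hmlow hmup
  set Q : ℝ := c * x / ((k : ℝ) ^ 2 * M) with hQ
  have hQ0 : 0 < Q := by positivity
  have hent : 2 * Real.exp 1 * (nn h x k : ℝ) ≤ (mm c x k : ℝ) * Real.exp R := by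
    have h1 : (nn h x k : ℝ) ≤ h * (1 + h) ^ k * x := by
      have h2 : (nn h x k : ℝ) ≤ (1 - h) * h * (1 + h) ^ k * x := by
        apply Nat.floor_le
        have : 0 ≤ 1 - h := by linarith
        positivity
      refine h2.trans ?_
      have : 0 ≤ h * (1 + h) ^ k * x := by positivity
      nlinarith
    have h2 : Q / 2 ≤ (mm c x k : ℝ) := by nlinarith
    have h3 : (1 + h) ^ k * ((k : ℝ) ^ 2 * h ^ 4 / 4) * C5 * M ≤ Real.exp R := by
      have e1 : Real.exp R = Real.exp (k * h) * Real.exp (k * h ^ 2) * Real.exp C5 * M := by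
        rw [hR, Real.exp_add, Real.exp_add, Real.exp_log hM, mul_add, Real.exp_add]
      rw [e1]
      apply mul_le_mul_of_nonneg_right _ hM.le
      apply mul_le_mul _ _ hC50.le (by positivity)
      · apply mul_le_mul _ _ (by positivity) (Real.exp_pos _).le
        · rw [Real.exp_nat_mul]
          apply pow_le_pow_left₀ (by positivity)
          linarith [Real.add_one_le_exp h]
        · have e2 : (k : ℝ) * h ^ 2 / 2 ≤ Real.exp ((k : ℝ) * h ^ 2 / 2) := by
            linarith [Real.add_one_le_exp ((k : ℝ) * h ^ 2 / 2)]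
          calc (k : ℝ) ^ 2 * h ^ 4 / 4 = ((k : ℝ) * h ^ 2 / 2) ^ 2 := by ring
            _ ≤ (Real.exp ((k : ℝ) * h ^ 2 / 2)) ^ 2 := pow_le_pow_left₀ (by positivity) e2 2
            _ = Real.exp (k * h ^ 2) := by
                rw [← Real.exp_nat_mul]; congr 1; push_cast; ring
      · linarith [Real.add_one_le_exp C5]
    calc 2 * Real.exp 1 * (nn h x k : ℝ) ≤ 2 * Real.exp 1 * (h * (1 + h) ^ k * x) :=
          mul_le_mul_of_nonneg_left h1 (by positivity)
      _ = (Q / 2) * ((1 + h) ^ k * ((k : ℝ) ^ 2 * h ^ 4 / 4) * C5 * M) := by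
          rw [hQ, hC5]
          field_simp
          ring
      _ ≤ (mm c x k : ℝ) * Real.exp R := mul_le_mul h2 h3 (by positivity) (by positivity)
  refine (block_entropy (nn h x k) (mm c x k) R hm1 hent).trans ?_
  rw [Real.exp_le_exp]
  calc (mm c x k : ℝ) * R ≤ Q * R := mul_le_mul_of_nonneg_right hmup hR0
    _ = _ := by
        rw [hQ, hR]
        field_simp
        ring

lemma blk_primes (hh : 0 < h) (hh1 : h ≤ 1 / 100) (F : Facts h c c1 C5 Y D0 x)
    (hY : ∀ y : ℝ, Y ≤ y → (1 - h / 2) * h * (y / Real.log y) ≤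
      (((Ioc ⌊y⌋₊ ⌊(1 + h) * y⌋₊).filter Nat.Prime).card : ℝ)) {k : ℕ}
    (hk : 1 ≤ k) (hk2 : (k : ℝ) ≤ Real.log x ^ (1 - h)) :
    nn h x k ≤ ((Ioc ⌊yy0 h x k⌋₊ ⌊(1 + h) * yy0 h x k⌋₊).filter Nat.Prime).card := by
  have hL1 : 1 ≤ Real.log x := F.f1'
  have hL : 0 < Real.log x := by linarith
  have hx1 : 1 ≤ x := F.f1''
  have hx : 0 < x := by linarith
  have hpow : 1 ≤ (1 + h) ^ k := one_le_pow₀ (by linarith)
  have hyx : x ≤ yy0 h x k := by
    unfold yy0
    have h1 : x * 1 ≤ x * Real.log x := mul_le_mul_of_nonneg_left hL1 hx.le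
    have h2 : x * Real.log x * 1 ≤ x * Real.log x * (1 + h) ^ k :=
      mul_le_mul_of_nonneg_left hpow (by positivity)
    linarith
  have h1 := hY (yy0 h x k) (F.f12.trans hyx)
  have hy0 : 0 < yy0 h x k := by linarith
  have hx2 : 1 < x := by
    by_contra hcon
    have : x = 1 := le_antisymm (not_lt.1 hcon) hx1
    rw [this, Real.log_one] at hL
    exact lt_irrefl _ hL
  have hly : 0 < Real.log (yy0 h x k) := Real.log_pos (by linarith)
  have h2 : Real.log (yy0 h x k) ≤ (1 + h / 2) * Real.log x := by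
    refine le_trans ?_ (log_y hh F hk2)
    apply Real.log_le_log hy0
    nlinarith
  have h3 : (1 - h) * h * (1 + h) ^ k * x ≤ (1 - h / 2) * h * (yy0 h x k / Real.log (yy0 h x k)) := by
    have h4 : yy0 h x k / ((1 + h / 2) * Real.log x) ≤ yy0 h x k / Real.log (yy0 h x k) :=
      div_le_div_of_nonneg_left hy0.le hly h2
    have h5 : yy0 h x k / ((1 + h / 2) * Real.log x) = x * (1 + h) ^ k / (1 + h / 2) := by
      unfold yy0; field_simp
    rw [h5] at h4
    have h6 : (1 - h) * h * (1 + h) ^ k * x ≤ (1 - h / 2) * h * (x * (1 + h) ^ k / (1 + h / 2)) := by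
      have h7 : (1 - h) * (1 + h / 2) ≤ (1 - h / 2) := by nlinarith
      rw [← mul_div_assoc, le_div_iff₀ (by positivity)]
      have h8 : 0 ≤ h * ((1 + h) ^ k * x) := by positivity
      calc (1 - h) * h * (1 + h) ^ k * x * (1 + h / 2) =
            ((1 - h) * (1 + h / 2)) * (h * ((1 + h) ^ k * x)) := by ring
        _ ≤ (1 - h / 2) * (h * ((1 + h) ^ k * x)) := mul_le_mul_of_nonneg_right h7 h8
        _ = _ := by ring
    refine h6.trans (mul_le_mul_of_nonneg_left h4 ?_)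
    have : 0 ≤ 1 - h / 2 := by linarith
    positivity
  have h4 := h3.trans h1
  have h5 : ((nn h x k : ℕ) : ℝ) ≤ (((Ioc ⌊yy0 h x k⌋₊ ⌊(1 + h) * yy0 h x k⌋₊).filter Nat.Prime).card : ℝ) := by
    refine le_trans (Nat.floor_le ?_) h4
    have : 0 ≤ 1 - h := by linarith
    positivity
  exact_mod_cast h5

end

end Pool.Agent.R311.RES
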