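import Mathlib
import Pool.Agent.R311.RES.A9

/-! Assembly of the blocks. -/

set_option autoImplicit false

namespace Pool.Agent.R311.RES
open Finset Filter Topology

lemma sq_sum_le (K : ℕ) : ∑ i ∈ range K, 1 / ((i : ℝ) + 1) ^ 2 ≤ 2 := by
  have h1 : ∀ K : ℕ, ∑ i ∈ range (K + 1), 1 / ((i : ℝ) + 1) ^ 2 ≤ 2 - 1 / ((K : ℝ) + 1) := by
    intro K
    induction K with
    | zero => simp; norm_num
    | succ K ih =>
      rw [sum_range_succ]
      have h2 : 1 / (((K + 1 : ℕ) : ℝ) + 1) ^ 2 ≤ 1 / ((K : ℝ) + 1) - 1 / (((K + 1 : ℕ) : ℝ) + 1) := by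
        push_cast
        rw [div_sub_div _ _ (by positivity) (by positivity), div_le_div_iff₀ (by positivity) (by positivity)]
        nlinarith
      linarith
  rcases K with _ | K
  · simp
  · have := h1 K
    have h2 : 0 ≤ 1 / ((K : ℝ) + 1) := by positivity
    linarith

lemma harm_real (K : ℕ) : ∑ i ∈ range K, 1 / ((i : ℝ) + 1) = (harmonic K : ℝ) := by
  unfold harmonic
  push_cast
  apply sum_congr rfl
  intro i _
  rw [one_div]

open scoped Classical in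
lemma card_ann_le {q : ℕ} [Fact q.Prime] (H : Subgroup (DirichletCharacter ℂ q)) (β : ℝ)
    (hH : (q : ℝ) ^ β ≤ (Nat.card H : ℝ)) :
    (Fintype.card (ann H) : ℝ) ≤ (q : ℝ) ^ (1 - β) := by
  have hq : (0 : ℝ) < q := by exact_mod_cast (Nat.Prime.pos Fact.out : 0 < q)
  have h1 := card_mul H
  rw [Nat.card_eq_fintype_card] at hH
  have h2 : (0 : ℝ) < (q : ℝ) ^ β := by positivity
  have h3 : (q : ℝ) ^ β * (Fintype.card (ann H) : ℝ) ≤ q := by
    calc (q : ℝ) ^ β * (Fintype.card (ann H) : ℝ) ≤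
        (Fintype.card H : ℝ) * (Fintype.card (ann H) : ℝ) :=
          mul_le_mul_of_nonneg_right hH (Nat.cast_nonneg _)
      _ = q - 1 := h1
      _ ≤ q := by linarith
  have h4 : (q : ℝ) ^ (1 - β) = q / (q : ℝ) ^ β := by
    rw [Real.rpow_sub hq, Real.rpow_one]
  rw [h4, le_div_iff₀ h2]
  linarith

section
variable {h c c1 C5 Y D0 x : ℝ}

/-- number of blocks -/
noncomputable def KK (h x : ℝ) : ℕ := ⌊Real.log x ^ (1 - h)⌋₊

lemma fin_le (F : Facts h c c1 C5 Y D0 x) (i : Fin (KK h x)) :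
    ((i + 1 : ℕ) : ℝ) ≤ Real.log x ^ (1 - h) := by
  have h1 : (i : ℕ) + 1 ≤ KK h x := i.2
  have h0 : 0 ≤ Real.log x ^ (1 - h) := Real.rpow_nonneg (by linarith [F.f1']) _
  calc ((i + 1 : ℕ) : ℝ) ≤ (KK h x : ℝ) := by exact_mod_cast h1
    _ ≤ _ := Nat.floor_le h0

lemma KK_pos (hh1 : h ≤ 1) (F : Facts h c c1 C5 Y D0 x) : 1 ≤ KK h x := by
  apply Nat.le_floor
  rw [Nat.cast_one]
  exact Real.one_le_rpow F.f1' (by linarith)

lemma KK_le (hh : 0 < h) (F : Facts h c c1 C5 Y D0 x) : (KK h x : ℝ) ≤ Real.log x := by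
  have h0 : 0 ≤ Real.log x ^ (1 - h) := Real.rpow_nonneg (by linarith [F.f1']) _
  exact k_le_L hh F (Nat.floor_le h0)

lemma S1_low (F : Facts h c c1 C5 Y D0 x) :
    (1 - h) * Real.log (Real.log x) ≤ ∑ i : Fin (KK h x), 1 / (((i : ℕ) + 1 : ℕ) : ℝ) := by
  have h0 : 0 < Real.log x := by linarith [F.f1']
  have e : ∑ i : Fin (KK h x), 1 / (((i : ℕ) + 1 : ℕ) : ℝ) = (harmonic (KK h x) : ℝ) := by
    rw [← harm_real, Fin.sum_univ_eq_sum_range (fun i => 1 / ((i + 1 : ℕ) : ℝ))]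
    push_cast
    rfl
  rw [e]
  refine le_trans ?_ (log_add_one_le_harmonic (KK h x))
  rw [← Real.log_rpow h0]
  apply Real.log_le_log (Real.rpow_pos_of_pos h0 _)
  push_cast
  exact (Nat.lt_floor_add_one _).le

lemma S1_up (hh : 0 < h) (hh1 : h ≤ 1) (F : Facts h c c1 C5 Y D0 x) :
    ∑ i : Fin (KK h x), 1 / (((i : ℕ) + 1 : ℕ) : ℝ) ≤ 1 + (1 - h) * Real.log (Real.log x) := by
  have h0 : 0 < Real.log x := by linarith [F.f1']
  have e : ∑ i : Fin (KK h x), 1 / (((i : ℕ) + 1 : ℕ) : ℝ) = (harmonic (KK h x) : ℝ) := by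
    rw [← harm_real, Fin.sum_univ_eq_sum_range (fun i => 1 / ((i + 1 : ℕ) : ℝ))]
    push_cast
    rfl
  rw [e]
  refine (harmonic_le_one_add_log (KK h x)).trans ?_
  rw [← Real.log_rpow h0]
  have h1 := KK_pos hh1 F
  have : Real.log (KK h x) ≤ Real.log (Real.log x ^ (1 - h)) := by
    apply Real.log_le_log (by exact_mod_cast h1)
    exact Nat.floor_le (Real.rpow_nonneg h0.le _)
  linarith

lemma S2_up : ∑ i : Fin (KK h x), 1 / (((i : ℕ) + 1 : ℕ) : ℝ) ^ 2 ≤ 2 := by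
  rw [Fin.sum_univ_eq_sum_range (fun i => 1 / ((i + 1 : ℕ) : ℝ) ^ 2)]
  have := sq_sum_le (KK h x)
  push_cast
  exact this

lemma prod_low (hh : 0 < h) (hh1 : h ≤ 1 / 100) (hc : 0 < c)
    (hc1 : c1 = (1 - 3 * h) * (h / (1 + h)) * c / 2) (F : Facts h c c1 C5 Y D0 x) :
    Real.exp (2 * (1 - h) ^ 2 * (bb c1 x * Real.log (Real.log x))) ≤
    ∏ i : Fin (KK h x), (((mm c x (i + 1)).choose (tt c1 x (i + 1)) : ℝ) *
      ((nn h x (i + 1) - mm c x (i + 1)).choose (tt c1 x (i + 1)) : ℝ) /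
      (2 * ((1 + h) * yy0 h x (i + 1))) ^ (tt c1 x (i + 1))) := by
  have h1 : ∀ i : Fin (KK h x), Real.exp (2 * (bb c1 x / ((i + 1 : ℕ) : ℝ) - (2 + Real.log x))) ≤
    (((mm c x (i + 1)).choose (tt c1 x (i + 1)) : ℝ) *
      ((nn h x (i + 1) - mm c x (i + 1)).choose (tt c1 x (i + 1)) : ℝ) /
      (2 * ((1 + h) * yy0 h x (i + 1))) ^ (tt c1 x (i + 1))) :=
    fun i => blk_low hh hh1 hc hc1 F (by omega) (fin_le F i)
  have h2 := Finset.prod_le_prod (s := univ) (fun i _ => (Real.exp_pos _).le) (fun i _ => h1 i)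
  refine le_trans ?_ h2
  rw [← Real.exp_sum, Real.exp_le_exp]
  have hb0 : 0 ≤ bb c1 x := bb_nonneg
  have hL : 0 < Real.log x := by linarith [F.f1']
  have e1 : ∑ i : Fin (KK h x), 2 * (bb c1 x / ((i + 1 : ℕ) : ℝ) - (2 + Real.log x)) =
      2 * (bb c1 x * ∑ i : Fin (KK h x), 1 / (((i : ℕ) + 1 : ℕ) : ℝ)) -
        2 * ((KK h x : ℝ) * (2 + Real.log x)) := by
    rw [← Finset.mul_sum, Finset.sum_sub_distrib, Finset.sum_const, Finset.card_univ,
      Fintype.card_fin, nsmul_eq_mul, Finset.mul_sum, mul_sub]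
    congr 2
    apply Finset.sum_congr rfl
    intro i _
    ring
  rw [e1]
  have h3 := mul_le_mul_of_nonneg_left (S1_low F) hb0
  have h4 : (KK h x : ℝ) * (2 + Real.log x) ≤ Real.log x * (2 + Real.log x) :=
    mul_le_mul_of_nonneg_right (KK_le hh F) (by linarith)
  have h5 := F.f8
  have e2 : 2 * (1 - h) ^ 2 * (bb c1 x * Real.log (Real.log x)) =
      2 * (bb c1 x * ((1 - h) * Real.log (Real.log x))) -
        2 * (h * (1 - h) * (bb c1 x * Real.log (Real.log x))) := by ring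
  rw [e2]
  linarith

lemma prod_lab (hh : 0 < h) (hh1 : h ≤ 1 / 100) (F : Facts h c c1 C5 Y D0 x) :
    ∏ i : Fin (KK h x), ((1 + h) * yy0 h x (i + 1)) ^ (2 * tt c1 x (i + 1)) < Real.exp x := by
  have hL : 0 < Real.log x := by linarith [F.f1']
  have hx : 0 < x := by linarith [F.f1'']
  have hM : 1 ≤ Real.log (Real.log x) := F.f1
  have hb0 : 0 ≤ bb c1 x := bb_nonneg
  have h1 : ∏ i : Fin (KK h x), ((1 + h) * yy0 h x (i + 1)) ^ (2 * tt c1 x (i + 1)) ≤
      ∏ i : Fin (KK h x), Real.exp (4 * bb c1 x * Real.log x * (1 / ((i + 1 : ℕ) : ℝ))) := by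
    apply Finset.prod_le_prod
    · intro i _
      unfold yy0
      positivity
    · intro i _
      exact blk_lab hh hh1 F (by omega) (fin_le F i)
  refine lt_of_le_of_lt h1 ?_
  rw [← Real.exp_sum, Real.exp_lt_exp, ← Finset.mul_sum]
  have h2 := S1_up hh (by linarith) F
  have h3 := F.f6
  calc 4 * bb c1 x * Real.log x * ∑ i : Fin (KK h x), 1 / (((i : ℕ) + 1 : ℕ) : ℝ) ≤
        4 * bb c1 x * Real.log x * (1 + Real.log (Real.log x)) := by
        apply mul_le_mul_of_nonneg_left _ (by positivity)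
        nlinarith
    _ = 4 * bb c1 x * (1 + Real.log (Real.log x)) * Real.log x := by ring
    _ < x := h3

lemma prod_ent {δ : ℝ} (hh : 0 < h) (hh1 : h ≤ 1 / 100) (hc : 0 < c)
    (hcδ : c * (h + 2 * h ^ 2) = δ)
    (hC5 : C5 = 16 * Real.exp 1 / (c * h ^ 3)) (F : Facts h c c1 C5 Y D0 x) :
    ∏ i : Fin (KK h x), (((nn h x (i + 1)).choose (mm c x (i + 1)) : ℝ) * 2 ^ (mm c x (i + 1))) ≤
      Real.exp (δ * x) := by
  have hL : 0 < Real.log x := by linarith [F.f1']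
  have hx : 0 < x := by linarith [F.f1'']
  have hM1 : 1 ≤ Real.log (Real.log x) := F.f1
  have hM : 0 < Real.log (Real.log x) := by linarith
  have hC50 : 0 < C5 := by rw [hC5]; positivity
  have hL4 : 0 ≤ Real.log (Real.log (Real.log x)) := Real.log_nonneg hM1
  have h1 : ∏ i : Fin (KK h x), (((nn h x (i + 1)).choose (mm c x (i + 1)) : ℝ) * 2 ^ (mm c x (i + 1))) ≤
      ∏ i : Fin (KK h x), Real.exp ((c * x / Real.log (Real.log x)) * ((h + h ^ 2) * (1 / ((i + 1 : ℕ) : ℝ)) +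
        (C5 + Real.log (Real.log (Real.log x))) * (1 / ((i + 1 : ℕ) : ℝ) ^ 2))) := by
    apply Finset.prod_le_prod
    · intro i _
      positivity
    · intro i _
      exact blk_ent hh hh1 hc hC5 F (by omega) (fin_le F i)
  refine h1.trans ?_
  rw [← Real.exp_sum, Real.exp_le_exp, ← Finset.mul_sum, Finset.sum_add_distrib, ← Finset.mul_sum,
    ← Finset.mul_sum]
  have h2 := S1_up hh (by linarith) F
  have h3 := S2_up (h := h) (x := x)
  have h4 := F.f7
  have h5 : (h + h ^ 2) * ∑ i : Fin (KK h x), 1 / (((i : ℕ) + 1 : ℕ) : ℝ) +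
      (C5 + Real.log (Real.log (Real.log x))) * ∑ i : Fin (KK h x), 1 / (((i : ℕ) + 1 : ℕ) : ℝ) ^ 2 ≤
      (h + 2 * h ^ 2) * Real.log (Real.log x) := by
    have h6 := mul_le_mul_of_nonneg_left h2 (show 0 ≤ h + h ^ 2 by positivity)
    have h7 := mul_le_mul_of_nonneg_left h3 (show 0 ≤ C5 + Real.log (Real.log (Real.log x)) by positivity)
    linarith
  calc _ ≤ (c * x / Real.log (Real.log x)) * ((h + 2 * h ^ 2) * Real.log (Real.log x)) :=
        mul_le_mul_of_nonneg_left h5 (by positivity)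
    _ = c * (h + 2 * h ^ 2) * x := by field_simp
    _ = δ * x := by rw [hcδ]

lemma bb_FF (hc1 : 0 ≤ c1) (F : Facts h c c1 C5 Y D0 x) :
    bb c1 x * Real.log (Real.log x) = Real.sqrt c1 * FF x := by
  have hL : 0 < Real.log x := by linarith [F.f1']
  have hx : 0 < x := by linarith [F.f1'']
  have hM : 0 < Real.log (Real.log x) := by linarith [F.f1]
  unfold bb FF
  rw [← Real.sqrt_mul hc1]
  have h1 : Real.log (Real.log x) = Real.sqrt (Real.log (Real.log x) ^ 2) := (Real.sqrt_sq hM.le).symm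
  nth_rewrite 2 [h1]
  rw [← Real.sqrt_mul (by positivity)]
  congr 1
  field_simp

end

lemma const_ineq {h δ c c1 : ℝ} (hh : 0 < h) (hh1 : h ≤ 1 / 100) (hδ : 0 < δ)
    (hc : c = δ / (h + 2 * h ^ 2)) (hc1 : c1 = (1 - 3 * h) * (h / (1 + h)) * c / 2) :
    Real.sqrt (2 * δ) * (1 - 10 * h) ≤ 2 * (1 - h) ^ 2 * Real.sqrt c1 := by
  have h1 : 0 ≤ 1 - 10 * h := by linarith
  have h2 : 0 ≤ 2 * (1 - h) ^ 2 := by positivity
  have h3 : Real.sqrt (2 * δ) * (1 - 10 * h) = Real.sqrt (2 * δ * (1 - 10 * h) ^ 2) := by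
    rw [Real.sqrt_mul (show 0 ≤ 2 * δ by positivity), Real.sqrt_sq h1]
  have h4 : 2 * (1 - h) ^ 2 * Real.sqrt c1 = Real.sqrt ((2 * (1 - h) ^ 2) ^ 2 * c1) := by
    rw [Real.sqrt_mul (by positivity), Real.sqrt_sq h2]
  rw [h3, h4]
  apply Real.sqrt_le_sqrt
  have h5 : (2 * (1 - h) ^ 2) ^ 2 * c1 = 2 * δ * ((1 - h) ^ 4 * (1 - 3 * h) / ((1 + h) * (1 + 2 * h))) := by
    rw [hc1, hc]
    have : h + 2 * h ^ 2 = h * (1 + 2 * h) := by ring
    rw [this]
    field_simp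
  rw [h5]
  apply mul_le_mul_of_nonneg_left _ (by positivity)
  rw [le_div_iff₀ (by positivity)]
  have h6 : 1 - 7 * h ≤ (1 - h) ^ 4 * (1 - 3 * h) := by
    have a1 : 1 - 4 * h ≤ (1 - h) ^ 4 := by
      have := one_add_mul_le_pow (show (-2 : ℝ) ≤ -h by linarith) 4
      norm_num at this
      have e : (1 - h) ^ 4 = (1 + -h) ^ 4 := by ring
      rw [e]; linarith
    have a2 : 0 ≤ 1 - 3 * h := by linarith
    nlinarith [mul_le_mul_of_nonneg_right a1 a2]
  have h7 : (1 - 10 * h) ^ 2 * ((1 + h) * (1 + 2 * h)) ≤ 1 - 15 * h := by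
    have b1 : (1 - 10 * h) ^ 2 ≤ 1 - 19 * h := by nlinarith
    have b2 : (1 + h) * (1 + 2 * h) ≤ 1 + 4 * h := by nlinarith
    calc (1 - 10 * h) ^ 2 * ((1 + h) * (1 + 2 * h)) ≤ (1 - 19 * h) * (1 + 4 * h) :=
          mul_le_mul b1 b2 (by positivity) (by linarith)
      _ ≤ 1 - 15 * h := by nlinarith
  linarith

open scoped Classical in
theorem core {h δ : ℝ} (hh : 0 < h) (hh1 : h ≤ 1 / 100) (hδ : 0 < δ) (D0 : ℝ) :
    ∃ X0 : ℝ, ∀ (q : ℕ) [Fact q.Prime], X0 ≤ Real.log q → D0 ≤ FF (Real.log q) ∧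
      ∀ H : Subgroup (DirichletCharacter ℂ q), (q : ℝ) ^ (1 / 2 + δ) ≤ (Nat.card H : ℝ) → ∀ V : ℝ,
        (∀ χ ∈ H, ‖DirichletCharacter.LFunction χ (1 / 2)‖ ≤ V) →
        Real.exp (Real.sqrt (2 * δ) * (1 - 10 * h) * FF (Real.log q)) ≤ V + 3 := by
  obtain ⟨Y, hY1, hY⟩ := primes_interval h hh (by linarith)
  set c : ℝ := δ / (h + 2 * h ^ 2) with hc
  set c1 : ℝ := (1 - 3 * h) * (h / (1 + h)) * c / 2 with hc1
  set C5 : ℝ := 16 * Real.exp 1 / (c * h ^ 3) with hC5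
  have hc0 : 0 < c := by positivity
  have h3h : 0 < 1 - 3 * h := by linarith
  have hc10 : 0 < c1 := by positivity
  obtain ⟨X0, hX0⟩ := eventually_atTop.1 (facts h c c1 C5 Y D0 hh (by linarith) hc0 hc10)
  refine ⟨X0, fun q _ hq => ?_⟩
  have F := hX0 (Real.log q) hq
  refine ⟨F.f13, fun H hH V hV => ?_⟩
  set x := Real.log q with hx
  have hq0 : (0 : ℝ) < q := by exact_mod_cast (Nat.Prime.pos Fact.out : 0 < q)
  have hexp : Real.exp x = q := Real.exp_log hq0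
  have hL : 0 < Real.log x := by linarith [F.f1']
  have hx0 : 0 < x := by linarith [F.f1'']
  have hex : ∀ i : Fin (KK h x), ∃ P ⊆ (Ioc ⌊yy0 h x (i + 1)⌋₊ ⌊(1 + h) * yy0 h x (i + 1)⌋₊).filter
      Nat.Prime, P.card = nn h x (i + 1) := fun i =>
    Finset.exists_subset_card_eq (blk_primes hh hh1 F hY (by omega) (fin_le F i))
  choose P hPsub hPcard using hex
  have hmemP : ∀ i, ∀ p ∈ P i, (⌊yy0 h x (i + 1)⌋₊ < p ∧ p ≤ ⌊(1 + h) * yy0 h x (i + 1)⌋₊) ∧ p.Prime := by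
    intro i p hp
    have := hPsub i hp
    rw [mem_filter, mem_Ioc] at this
    exact this
  have hy0 : ∀ i : Fin (KK h x), 0 < (1 + h) * yy0 h x (i + 1) := by
    intro i; unfold yy0; positivity
  have hy : ∀ i : Fin (KK h x), ∀ p ∈ P i, (p : ℝ) ≤ (1 + h) * yy0 h x (i + 1) := by
    intro i p hp
    exact (Nat.le_floor_iff (hy0 i).le).1 (hmemP i p hp).1.2
  have hlt : ∀ i, ∀ p ∈ P i, p < q := by
    intro i p hp
    have h1 := (hy i p hp).trans (y_le hh hh1 F (fin_le F i))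
    have h2 : Real.exp (2 * Real.log x) < Real.exp x := by
      rw [Real.exp_lt_exp]; exact F.f11
    rw [hexp] at h2
    exact_mod_cast h1.trans_lt h2
  have hcop : ∀ i, ∀ p ∈ P i, p.Coprime q := by
    intro i p hp
    exact (Nat.coprime_primes (hmemP i p hp).2 Fact.out).2 (hlt i p hp).ne
  have hdis' : ∀ i j : Fin (KK h x), i < j → Disjoint (P i) (P j) := by
    intro i j hij
    rw [disjoint_left]
    intro p hp hp'
    have h1 := (hmemP i p hp).1.2
    have h2 := (hmemP j p hp').1.1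
    have h3 : ⌊(1 + h) * yy0 h x (i + 1)⌋₊ ≤ ⌊yy0 h x (j + 1)⌋₊ := by
      apply Nat.floor_le_floor
      unfold yy0
      have h4 : (1 + h) ^ ((i : ℕ) + 2) ≤ (1 + h) ^ ((j : ℕ) + 1) := by
        apply pow_le_pow_right₀ (by linarith)
        have : (i : ℕ) < j := hij
        omega
      calc (1 + h) * (x * Real.log x * (1 + h) ^ ((i : ℕ) + 1)) =
            x * Real.log x * (1 + h) ^ ((i : ℕ) + 2) := by ring
        _ ≤ x * Real.log x * (1 + h) ^ ((j : ℕ) + 1) := mul_le_mul_of_nonneg_left h4 (by positivity)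
    omega
  have hdis : ∀ i j : Fin (KK h x), i ≠ j → Disjoint (P i) (P j) := by
    intro i j hij
    rcases lt_or_gt_of_ne hij with h1 | h1
    · exact hdis' i j h1
    · exact (hdis' j i h1).symm
  have hmain := res_blocks H P (fun i => mm c x (i + 1)) (fun i => tt c1 x (i + 1))
    (fun i => (1 + h) * yy0 h x (i + 1)) (fun i p hp => (hmemP i p hp).2) hcop hdis hy0 hy
    (fun i => by
      rw [hPcard i]
      have := mm_add_tt_le hh hh1 hc0 F (k := i + 1) (by omega) (fin_le F i)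
      omega)
    (by rw [← hexp]; exact prod_lab hh hh1 F) V hV
  simp only [hPcard] at hmain
  have hlow := prod_low hh hh1 hc0 hc1 F
  have hent := prod_ent (δ := δ) hh hh1 hc0 (by rw [hc]; field_simp) hC5 F
  have hann := card_ann_le H (1 / 2 + δ) hH
  have hE : Real.exp (δ * x) = (q : ℝ) ^ δ := by
    rw [Real.rpow_def_of_pos hq0, mul_comm]
  rw [hE] at hent
  have hthree : 3 * (q : ℝ) ^ (-(1 / 2 : ℝ)) * (∏ i : Fin (KK h x), (((nn h x (i + 1)).choose
      (mm c x (i + 1)) : ℝ) * 2 ^ (mm c x (i + 1)))) * (Fintype.card (ann H) : ℝ) ≤ 3 := by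
    calc _ ≤ 3 * (q : ℝ) ^ (-(1 / 2 : ℝ)) * (q : ℝ) ^ δ * (q : ℝ) ^ (1 - (1 / 2 + δ)) := by
          apply mul_le_mul _ hann (by positivity) (by positivity)
          exact mul_le_mul_of_nonneg_left hent (by positivity)
      _ = 3 := by
          rw [mul_assoc, mul_assoc, ← Real.rpow_add hq0, ← Real.rpow_add hq0]
          have : -(1 / 2 : ℝ) + (δ + (1 - (1 / 2 + δ))) = 0 := by ring
          rw [this, Real.rpow_zero, mul_one]
  have h1 := hlow.trans hmain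
  have h2 : Real.exp (2 * (1 - h) ^ 2 * (bb c1 x * Real.log (Real.log x))) ≤ V + 3 := by
    refine h1.trans ?_
    linarith
  refine le_trans ?_ h2
  rw [Real.exp_le_exp, bb_FF hc10.le F, ← mul_assoc]
  apply mul_le_mul_of_nonneg_right (const_ineq hh hh1 hδ hc hc1) (Real.sqrt_nonneg _)

end Pool.Agent.R311.RES
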