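import Mathlib
import Pool.Agent.R311.RES.A2

/-! Upper bound for the Hurwitz zeta function at `1/2`. -/

set_option autoImplicit false

namespace Pool.Agent.R311.RES
open Complex Filter Topology

lemma sqrt_step_low (y : ℝ) (hy : 0 < y) :
    1 / 2 * ((y + 1) ^ (-(1 / 2 : ℝ)) - y ^ (-(1 / 2 : ℝ))) ≤
    -(1 / 2) * y ^ (-(1 / 2 : ℝ)) + (Real.sqrt (y + 1) - Real.sqrt y) := by
  have h1 : (y + 1) ^ (-(1 / 2 : ℝ)) = (Real.sqrt (y + 1))⁻¹ := by
    rw [Real.rpow_neg (by linarith), Real.sqrt_eq_rpow]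
  rw [h1]
  have h2 := Real.sqrt_pos.2 (show 0 < y + 1 by linarith)
  have h3 := Real.sq_sqrt hy.le
  have h4 := Real.sq_sqrt (show (0 : ℝ) ≤ y + 1 by linarith)
  have h5 : Real.sqrt y ≤ Real.sqrt (y + 1) := Real.sqrt_le_sqrt (by linarith)
  have h6 : 1 / (2 * Real.sqrt (y + 1)) ≤ Real.sqrt (y + 1) - Real.sqrt y := by
    rw [div_le_iff₀ (by positivity)]
    nlinarith [Real.sqrt_nonneg y]
  have h7 : 1 / (2 * Real.sqrt (y + 1)) = 1 / 2 * (Real.sqrt (y + 1))⁻¹ := by field_simp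
  linarith

theorem hurwitz_norm (x : ℝ) (hx : 0 < x) (hx1 : x ≤ 1) :
    ‖HurwitzZeta.hurwitzZeta (x : UnitAddCircle) (1 / 2)‖ ≤ 2 * x ^ (-(1 / 2 : ℝ)) := by
  have hhU : (1 / 2 : ℂ) ∈ U := by
    refine ⟨by norm_num, ?_⟩
    rw [norm_div]
    norm_num
  have h1 := SG_half x hx hx1
  rw [cpow_half x hx.le] at h1
  have h2 := SG_summable x hx hx1 hhU
  set g : ℕ → ℝ := fun n => -(1 / 2) * (n + x) ^ (-(1 / 2 : ℝ)) +
    (Real.sqrt (n + 1 + x) - Real.sqrt (n + x)) with hg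
  have h3 : ∀ n, G x n (1 / 2) = ((g n : ℝ) : ℂ) := fun n => G_half x hx n
  have h4 : SG x (1 / 2) = ((∑' n, g n : ℝ) : ℂ) := by
    rw [SG, Complex.ofReal_tsum]
    exact tsum_congr h3
  have h5 : Summable g := by
    have : Summable (fun n => ((g n : ℝ) : ℂ)) := h2.congr h3
    exact Complex.summable_ofReal.1 this
  have h6 : ∀ n, g n ≤ 0 := by
    intro n
    have := sqrt_step (n + x) (by positivity)
    simp only [hg]
    rw [show (n : ℝ) + 1 + x = n + x + 1 by ring]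
    exact this
  have h6' : ∀ n : ℕ, 1 / 2 * (((n : ℝ) + 1 + x) ^ (-(1 / 2 : ℝ)) - ((n : ℝ) + x) ^ (-(1 / 2 : ℝ))) ≤ g n := by
    intro n
    have := sqrt_step_low (n + x) (by positivity)
    simp only [hg]
    rw [show (n : ℝ) + 1 + x = n + x + 1 by ring]
    exact this
  have h7 : ∑' n, g n ≤ 0 := tsum_nonpos h6
  have h8 : -(1 / 2) * x ^ (-(1 / 2 : ℝ)) ≤ ∑' n, g n := by
    have hpart : ∀ N : ℕ, -(1 / 2) * x ^ (-(1 / 2 : ℝ)) ≤ ∑ n ∈ Finset.range N, g n := by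
      intro N
      have hs : ∀ N : ℕ, ∑ n ∈ Finset.range N, (1 / 2 * (((n : ℝ) + 1 + x) ^ (-(1 / 2 : ℝ)) -
          ((n : ℝ) + x) ^ (-(1 / 2 : ℝ)))) =
          1 / 2 * (((N : ℝ) + x) ^ (-(1 / 2 : ℝ)) - x ^ (-(1 / 2 : ℝ))) := by
        intro N
        induction N with
        | zero => simp
        | succ N ih =>
          rw [Finset.sum_range_succ, ih]
          push_cast
          ring
      have h9 := Finset.sum_le_sum (s := Finset.range N) (fun n _ => h6' n)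
      rw [hs N] at h9
      have h10 : 0 ≤ ((N : ℝ) + x) ^ (-(1 / 2 : ℝ)) := by positivity
      linarith
    exact ge_of_tendsto' h5.hasSum.tendsto_sum_nat hpart
  have h9 : HurwitzZeta.hurwitzZeta (x : UnitAddCircle) (1 / 2) =
      ((-2 * (∑' n, g n) - 2 * Real.sqrt x : ℝ) : ℂ) := by
    have h10 := h4.symm.trans h1
    have h11 : (1 / 2 : ℂ) * HurwitzZeta.hurwitzZeta (x : UnitAddCircle) (1 / 2) =
        -(((∑' n, g n : ℝ) : ℂ)) - ((Real.sqrt x : ℝ) : ℂ) := by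
      rw [h10]; ring
    calc HurwitzZeta.hurwitzZeta (x : UnitAddCircle) (1 / 2) =
        2 * ((1 / 2 : ℂ) * HurwitzZeta.hurwitzZeta (x : UnitAddCircle) (1 / 2)) := by ring
      _ = _ := by rw [h11]; push_cast; ring
  rw [h9, Complex.norm_real, Real.norm_eq_abs, abs_le]
  have h10 : Real.sqrt x ≤ x ^ (-(1 / 2 : ℝ)) := by
    calc Real.sqrt x ≤ 1 := by rw [Real.sqrt_le_one]; exact hx1
      _ ≤ x ^ (-(1 / 2 : ℝ)) := Real.one_le_rpow_of_pos_of_le_one_of_nonpos hx hx1 (by norm_num)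
  have h11 := Real.sqrt_nonneg x
  constructor
  · linarith
  · linarith

lemma hzv_norm {q : ℕ} [Fact q.Prime] (a : (ZMod q)ˣ) :
    ‖hzv q a‖ ≤ 2 * ((a : ZMod q).val : ℝ) ^ (-(1 / 2 : ℝ)) := by
  have : NeZero q := ⟨(Nat.Prime.pos Fact.out).ne'⟩
  have hq : (0 : ℝ) < q := by exact_mod_cast (Nat.Prime.pos Fact.out : 0 < q)
  have ha : 0 < (a : ZMod q).val := by
    rw [Nat.pos_iff_ne_zero]
    intro h
    rw [ZMod.val_eq_zero] at h
    exact a.ne_zero h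
  have ha' : (0 : ℝ) < (a : ZMod q).val := by exact_mod_cast ha
  have ha1 : ((a : ZMod q).val / q : ℝ) ≤ 1 := by
    rw [div_le_one hq]
    exact_mod_cast (ZMod.val_lt (a : ZMod q)).le
  have h1 := hurwitz_norm ((a : ZMod q).val / q) (by positivity) ha1
  unfold hzv
  rw [norm_mul, Complex.norm_real, Real.norm_of_nonneg (by positivity)]
  have h2 : (q : ℝ) ^ (-(1 / 2 : ℝ)) * (2 * ((a : ZMod q).val / q : ℝ) ^ (-(1 / 2 : ℝ))) =
      2 * ((a : ZMod q).val : ℝ) ^ (-(1 / 2 : ℝ)) := by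
    rw [Real.div_rpow ha'.le hq.le]
    have : (q : ℝ) ^ (-(1 / 2 : ℝ)) ≠ 0 := by positivity
    field_simp
  rw [← h2]
  exact mul_le_mul_of_nonneg_left h1 (by positivity)

end Pool.Agent.R311.RES
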