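import Mathlib
import Pool.Agent.R311.RES.B1

/-! The resonance inequality on a coset of characters. -/

set_option autoImplicit false

namespace Pool.Agent.R311.RES
open Finset
open scoped Classical

variable {q : ℕ} [Fact q.Prime]

section
variable {α : Type*}

/-- the resonator attached to a family of residue classes -/
noncomputable def R2 (I : Finset α) (π : α → (ZMod q)ˣ) (χ : DirichletCharacter ℂ q) : ℂ :=
  ∑ i ∈ I, χ (π i : ZMod q)

lemma R2_sq (I : Finset α) (π : α → (ZMod q)ˣ) (χ : DirichletCharacter ℂ q) :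
    ((‖R2 I π χ‖ ^ 2 : ℝ) : ℂ) = ∑ z ∈ I ×ˢ I, χ ((π z.1 * (π z.2)⁻¹ : (ZMod q)ˣ) : ZMod q) := by
  rw [← Complex.normSq_eq_norm_sq, ← Complex.mul_conj, R2, map_sum, Finset.sum_mul_sum,
    Finset.sum_product]
  apply Finset.sum_congr rfl
  intro i _
  apply Finset.sum_congr rfl
  intro j _
  rw [← chi_inv, Units.val_mul, map_mul]

/-- the pairs that are congruent to `a` up to the annihilator -/
noncomputable def prs (H : Subgroup (DirichletCharacter ℂ q)) (I : Finset α) (π : α → (ZMod q)ˣ)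
    (a : (ZMod q)ˣ) : Finset (α × α) :=
  (I ×ˢ I).filter (fun z => a * π z.1 * (π z.2)⁻¹ ∈ ann H)

lemma coset_moment (H : Subgroup (DirichletCharacter ℂ q)) (χ₀ : DirichletCharacter ℂ q)
    (I : Finset α) (π : α → (ZMod q)ˣ) (a : (ZMod q)ˣ) :
    ∑ ψ : H, ((‖R2 I π (χ₀ * (ψ : DirichletCharacter ℂ q))‖ ^ 2 : ℝ) : ℂ) *
        (χ₀ * (ψ : DirichletCharacter ℂ q)) (a : ZMod q) =
      (Fintype.card H : ℂ) * ∑ z ∈ prs H I π a,
        χ₀ ((a * π z.1 * (π z.2)⁻¹ : (ZMod q)ˣ) : ZMod q) := by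
  have h1 : ∀ ψ : H, ((‖R2 I π (χ₀ * (ψ : DirichletCharacter ℂ q))‖ ^ 2 : ℝ) : ℂ) *
        (χ₀ * (ψ : DirichletCharacter ℂ q)) (a : ZMod q) = ∑ z ∈ I ×ˢ I,
      χ₀ ((a * π z.1 * (π z.2)⁻¹ : (ZMod q)ˣ) : ZMod q) *
        (ψ : DirichletCharacter ℂ q) ((a * π z.1 * (π z.2)⁻¹ : (ZMod q)ˣ) : ZMod q) := by
    intro ψ
    rw [R2_sq, Finset.sum_mul]
    apply Finset.sum_congr rfl
    intro z _
    rw [show a * π z.1 * (π z.2)⁻¹ = (π z.1 * (π z.2)⁻¹) * a by rw [mul_assoc, mul_comm],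
      Units.val_mul (π z.1 * (π z.2)⁻¹) a, map_mul, map_mul, MulChar.mul_apply, MulChar.mul_apply]
    ring
  rw [Finset.sum_congr rfl (fun ψ _ => h1 ψ), Finset.sum_comm, prs, Finset.sum_filter,
    Finset.mul_sum]
  apply Finset.sum_congr rfl
  intro z _
  rw [← Finset.mul_sum, orth]
  split_ifs
  · ring
  · ring

lemma coset_second (H : Subgroup (DirichletCharacter ℂ q)) (χ₀ : DirichletCharacter ℂ q)
    (I : Finset α) (π : α → (ZMod q)ˣ) :
    ∑ ψ : H, ‖R2 I π (χ₀ * (ψ : DirichletCharacter ℂ q))‖ ^ 2 ≤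
      (Fintype.card H : ℝ) * #(prs H I π 1) := by
  have h1 := coset_moment H χ₀ I π 1
  have h2 : ∑ ψ : H, ((‖R2 I π (χ₀ * (ψ : DirichletCharacter ℂ q))‖ ^ 2 : ℝ) : ℂ) *
        (χ₀ * (ψ : DirichletCharacter ℂ q)) ((1 : (ZMod q)ˣ) : ZMod q) =
      ((∑ ψ : H, ‖R2 I π (χ₀ * (ψ : DirichletCharacter ℂ q))‖ ^ 2 : ℝ) : ℂ) := by
    rw [Complex.ofReal_sum]
    apply Finset.sum_congr rfl
    intro χ _
    rw [Units.val_one, map_one, mul_one]
  rw [h2] at h1
  have h3 : ∑ ψ : H, ‖R2 I π (χ₀ * (ψ : DirichletCharacter ℂ q))‖ ^ 2 =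
      ‖((∑ ψ : H, ‖R2 I π (χ₀ * (ψ : DirichletCharacter ℂ q))‖ ^ 2 : ℝ) : ℂ)‖ := by
    rw [Complex.norm_real, Real.norm_of_nonneg (Finset.sum_nonneg fun _ _ => by positivity)]
  rw [h3, h1, norm_mul, Complex.norm_natCast]
  apply mul_le_mul_of_nonneg_left _ (Nat.cast_nonneg _)
  refine (norm_sum_le _ _).trans ?_
  rw [Finset.card_eq_sum_ones]
  push_cast
  apply Finset.sum_le_sum
  intro z _
  exact DirichletCharacter.norm_le_one χ₀ _

lemma coset_first (H : Subgroup (DirichletCharacter ℂ q)) (χ₀ : DirichletCharacter ℂ q)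
    (I : Finset α) (π : α → (ZMod q)ˣ) (V : ℝ) (hV0 : 0 ≤ V)
    (hV : ∀ ψ ∈ H, ‖DirichletCharacter.LFunction (χ₀ * ψ) (1 / 2)‖ ≤ V) :
    (∑ a : (ZMod q)ˣ, hzv q a * ∑ z ∈ prs H I π a,
        χ₀ ((a * π z.1 * (π z.2)⁻¹ : (ZMod q)ˣ) : ZMod q)).re ≤ V * #(prs H I π 1) := by
  have h1 : ∑ ψ : H, ((‖R2 I π (χ₀ * (ψ : DirichletCharacter ℂ q))‖ ^ 2 : ℝ) : ℂ) *
      DirichletCharacter.LFunction (χ₀ * (ψ : DirichletCharacter ℂ q)) (1 / 2) =
      (Fintype.card H : ℂ) * ∑ a : (ZMod q)ˣ, hzv q a * ∑ z ∈ prs H I π a,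
        χ₀ ((a * π z.1 * (π z.2)⁻¹ : (ZMod q)ˣ) : ZMod q) := by
    have h2 : ∀ ψ : H, ((‖R2 I π (χ₀ * (ψ : DirichletCharacter ℂ q))‖ ^ 2 : ℝ) : ℂ) *
      DirichletCharacter.LFunction (χ₀ * (ψ : DirichletCharacter ℂ q)) (1 / 2) =
      ∑ a : (ZMod q)ˣ, hzv q a * (((‖R2 I π (χ₀ * (ψ : DirichletCharacter ℂ q))‖ ^ 2 : ℝ) : ℂ) *
        (χ₀ * (ψ : DirichletCharacter ℂ q)) (a : ZMod q)) := by
      intro ψ
      rw [L_half, Finset.mul_sum]
      apply Finset.sum_congr rfl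
      intro a _
      ring
    rw [Finset.sum_congr rfl (fun ψ _ => h2 ψ), Finset.sum_comm, Finset.mul_sum]
    apply Finset.sum_congr rfl
    intro a _
    rw [← Finset.mul_sum, coset_moment]
    ring
  have h3 : ‖∑ ψ : H, ((‖R2 I π (χ₀ * (ψ : DirichletCharacter ℂ q))‖ ^ 2 : ℝ) : ℂ) *
      DirichletCharacter.LFunction (χ₀ * (ψ : DirichletCharacter ℂ q)) (1 / 2)‖ ≤
      V * ((Fintype.card H : ℝ) * #(prs H I π 1)) := by
    refine le_trans ?_ (mul_le_mul_of_nonneg_left (coset_second H χ₀ I π) hV0)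
    rw [Finset.mul_sum]
    refine (norm_sum_le _ _).trans (Finset.sum_le_sum fun ψ _ => ?_)
    rw [norm_mul, Complex.norm_real, Real.norm_of_nonneg (by positivity), mul_comm]
    exact mul_le_mul_of_nonneg_right (hV ψ.1 ψ.2) (by positivity)
  rw [h1, norm_mul, Complex.norm_natCast] at h3
  have hH : (0 : ℝ) < Fintype.card H := by
    have h6 : 0 < Fintype.card H := Fintype.card_pos
    exact_mod_cast h6
  have h4 : (Fintype.card H : ℝ) * ‖∑ a : (ZMod q)ˣ, hzv q a * ∑ z ∈ prs H I π a,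
        χ₀ ((a * π z.1 * (π z.2)⁻¹ : (ZMod q)ˣ) : ZMod q)‖ ≤
      (Fintype.card H : ℝ) * (V * #(prs H I π 1)) := by
    calc _ ≤ _ := h3
      _ = _ := by ring
  exact (Complex.re_le_norm _).trans (le_of_mul_le_mul_left h4 hH)

lemma sum_prs (H : Subgroup (DirichletCharacter ℂ q)) (I : Finset α) (π : α → (ZMod q)ˣ) :
    ∑ a : (ZMod q)ˣ, (#(prs H I π a) : ℝ) = (#I : ℝ) ^ 2 * (Fintype.card (ann H) : ℝ) := by
  have h1 : ∀ a : (ZMod q)ˣ, (#(prs H I π a) : ℝ) = ∑ z ∈ I ×ˢ I,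
      (if a * π z.1 * (π z.2)⁻¹ ∈ ann H then (1 : ℝ) else 0) := by
    intro a
    rw [prs, Finset.card_filter]
    push_cast
    rfl
  rw [Finset.sum_congr rfl (fun a _ => h1 a), Finset.sum_comm]
  have h2 : ∀ z ∈ I ×ˢ I, ∑ a : (ZMod q)ˣ,
      (if a * π z.1 * (π z.2)⁻¹ ∈ ann H then (1 : ℝ) else 0) = (Fintype.card (ann H) : ℝ) := by
    intro z _
    have h3 := sum_inv H (fun _ => (1 : ℝ)) (fun _ _ _ => rfl) (π z.1 * (π z.2)⁻¹)
    rw [mul_one] at h3
    rw [← h3, ← Equiv.sum_comp (Equiv.inv (ZMod q)ˣ)]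
    apply Finset.sum_congr rfl
    intro a _
    simp only [Equiv.inv_apply]
    have e : a⁻¹ * π z.1 * (π z.2)⁻¹ = π z.1 * (π z.2)⁻¹ * a⁻¹ := by
      rw [mul_assoc, mul_comm]
    rw [e]
  rw [Finset.sum_congr rfl h2, Finset.sum_const, card_product, nsmul_eq_mul]
  push_cast
  ring

/-- the exact pairs -/
noncomputable def exa (I : Finset α) (num den : α → ℕ) (a : (ZMod q)ˣ) : Finset (α × α) :=
  (I ×ˢ I).filter (fun z => (a : ZMod q).val * num z.1 * den z.2 = num z.2 * den z.1)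

/-- the congruent pairs that are not exact -/
noncomputable def offp (H : Subgroup (DirichletCharacter ℂ q)) (I : Finset α) (π : α → (ZMod q)ˣ)
    (num den : α → ℕ) (a : (ZMod q)ˣ) : Finset (α × α) :=
  (prs H I π a).filter (fun z => ¬ (a : ZMod q).val * num z.1 * den z.2 = num z.2 * den z.1)

lemma pi_exact (I : Finset α) (π : α → (ZMod q)ˣ) (num den : α → ℕ)
    (hπ : ∀ i ∈ I, (num i : ZMod q) = (π i : ZMod q) * (den i : ZMod q))
    (hden : ∀ i ∈ I, (den i : ZMod q) ≠ 0) (a : (ZMod q)ˣ) (z : α × α)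
    (hz : z ∈ exa I num den a) : a * π z.1 * (π z.2)⁻¹ = 1 := by
  rw [exa, mem_filter, mem_product] at hz
  obtain ⟨⟨h1, h2⟩, h3⟩ := hz
  have h4 := congrArg (Nat.cast : ℕ → ZMod q) h3
  have : NeZero q := ⟨(Nat.Prime.pos Fact.out).ne'⟩
  push_cast at h4
  rw [ZMod.natCast_zmod_val, hπ _ h1, hπ _ h2] at h4
  have h5 : (a : ZMod q) * (π z.1 : ZMod q) = (π z.2 : ZMod q) := by
    have h6 : ((a : ZMod q) * (π z.1 : ZMod q)) * ((den z.1 : ZMod q) * (den z.2 : ZMod q)) =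
        (π z.2 : ZMod q) * ((den z.1 : ZMod q) * (den z.2 : ZMod q)) := by
      linear_combination h4
    exact mul_right_cancel₀ (mul_ne_zero (hden _ h1) (hden _ h2)) h6
  have h6 : a * π z.1 = π z.2 := by
    apply Units.ext
    rw [Units.val_mul]
    exact h5
  rw [h6, mul_inv_cancel]

lemma sum_exa (I : Finset α) (num den : α → ℕ) (hnum : ∀ i ∈ I, 0 < num i)
    (hden : ∀ i ∈ I, 0 < den i) : ∑ a : (ZMod q)ˣ, (#(exa I num den a) : ℝ) ≤ (#I : ℝ) ^ 2 := by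
  have : NeZero q := ⟨(Nat.Prime.pos Fact.out).ne'⟩
  have h1 : ∀ a : (ZMod q)ˣ, (#(exa I num den a) : ℝ) = ∑ z ∈ I ×ˢ I,
      (if (a : ZMod q).val * num z.1 * den z.2 = num z.2 * den z.1 then (1 : ℝ) else 0) := by
    intro a
    rw [exa, Finset.card_filter]
    push_cast
    rfl
  rw [Finset.sum_congr rfl (fun a _ => h1 a), Finset.sum_comm]
  have h2 : ∀ z ∈ I ×ˢ I, ∑ a : (ZMod q)ˣ,
      (if (a : ZMod q).val * num z.1 * den z.2 = num z.2 * den z.1 then (1 : ℝ) else 0) ≤ 1 := by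
    intro z hz
    rw [mem_product] at hz
    rw [← Finset.sum_filter, Finset.sum_const, nsmul_eq_mul, mul_one]
    have h3 : (univ.filter (fun a : (ZMod q)ˣ =>
        (a : ZMod q).val * num z.1 * den z.2 = num z.2 * den z.1)).card ≤ 1 := by
      rw [Finset.card_le_one]
      intro a ha b hb
      rw [mem_filter] at ha hb
      have h4 : (a : ZMod q).val * num z.1 * den z.2 = (b : ZMod q).val * num z.1 * den z.2 :=
        ha.2.trans hb.2.symm
      have h5 := Nat.eq_of_mul_eq_mul_right (hden _ hz.2) h4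
      have h6 := Nat.eq_of_mul_eq_mul_right (hnum _ hz.1) h5
      exact Units.ext (ZMod.val_injective q h6)
    exact_mod_cast h3
  refine (Finset.sum_le_sum h2).trans (le_of_eq ?_)
  rw [Finset.sum_const, card_product, nsmul_eq_mul]
  push_cast
  ring

theorem coset_ineq (H : Subgroup (DirichletCharacter ℂ q)) (χ₀ : DirichletCharacter ℂ q)
    (I : Finset α) (π : α → (ZMod q)ˣ) (num den : α → ℕ) (hnum0 : ∀ i ∈ I, 0 < num i)
    (hden0 : ∀ i ∈ I, 0 < den i)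
    (hπ : ∀ i ∈ I, (num i : ZMod q) = (π i : ZMod q) * (den i : ZMod q))
    (hden : ∀ i ∈ I, (den i : ZMod q) ≠ 0)
    (V : ℝ) (hV0 : 0 ≤ V)
    (hV : ∀ ψ ∈ H, ‖DirichletCharacter.LFunction (χ₀ * ψ) (1 / 2)‖ ≤ V) :
    ∑ a : (ZMod q)ˣ, ((a : ZMod q).val : ℝ) ^ (-(1 / 2 : ℝ)) * #(exa I num den a) ≤
      V * #(prs H I π 1) + 3 * (q : ℝ) ^ (-(1 / 2 : ℝ)) * (#I : ℝ) ^ 2 +
      2 * ∑ a : (ZMod q)ˣ, ((a : ZMod q).val : ℝ) ^ (-(1 / 2 : ℝ)) * #(offp H I π num den a) := by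
  have h1 := coset_first H χ₀ I π V hV0 hV
  have h2 : ∀ a : (ZMod q)ˣ, ((a : ZMod q).val : ℝ) ^ (-(1 / 2 : ℝ)) * #(exa I num den a) -
      3 * (q : ℝ) ^ (-(1 / 2 : ℝ)) * #(exa I num den a) -
      2 * (((a : ZMod q).val : ℝ) ^ (-(1 / 2 : ℝ)) * #(offp H I π num den a)) ≤
      (hzv q a * ∑ z ∈ prs H I π a, χ₀ ((a * π z.1 * (π z.2)⁻¹ : (ZMod q)ˣ) : ZMod q)).re := by
    intro a
    have e1 : ∑ z ∈ prs H I π a, χ₀ ((a * π z.1 * (π z.2)⁻¹ : (ZMod q)ˣ) : ZMod q) =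
        (#(exa I num den a) : ℂ) +
        ∑ z ∈ offp H I π num den a, χ₀ ((a * π z.1 * (π z.2)⁻¹ : (ZMod q)ˣ) : ZMod q) := by
      rw [← Finset.sum_filter_add_sum_filter_not (prs H I π a)
        (fun z => (a : ZMod q).val * num z.1 * den z.2 = num z.2 * den z.1)]
      congr 1
      have e2 : (prs H I π a).filter (fun z => (a : ZMod q).val * num z.1 * den z.2 =
          num z.2 * den z.1) = exa I num den a := by
        ext z
        constructor
        · intro hz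
          rw [mem_filter, prs, mem_filter] at hz
          rw [exa, mem_filter]
          exact ⟨hz.1.1, hz.2⟩
        · intro hz
          have h3 := pi_exact I π num den hπ hden a z hz
          rw [exa, mem_filter] at hz
          rw [mem_filter, prs, mem_filter]
          refine ⟨⟨hz.1, ?_⟩, hz.2⟩
          rw [h3]
          exact (ann H).one_mem
      have e3 : ∀ z ∈ exa I num den a,
          χ₀ ((a * π z.1 * (π z.2)⁻¹ : (ZMod q)ˣ) : ZMod q) = 1 := by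
        intro z hz
        rw [pi_exact I π num den hπ hden a z hz, Units.val_one, map_one]
      rw [e2, Finset.sum_congr rfl e3, Finset.sum_const, nsmul_eq_mul, mul_one]
    have hoff : ‖∑ z ∈ offp H I π num den a, χ₀ ((a * π z.1 * (π z.2)⁻¹ : (ZMod q)ˣ) : ZMod q)‖ ≤
        #(offp H I π num den a) := by
      refine (norm_sum_le _ _).trans ?_
      rw [Finset.card_eq_sum_ones]
      push_cast
      apply Finset.sum_le_sum
      intro z _
      exact DirichletCharacter.norm_le_one χ₀ _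
    rw [e1, mul_add, Complex.add_re]
    have h4 : (hzv q a * (#(exa I num den a) : ℂ)).re = (hzv q a).re * #(exa I num den a) := by
      have : ((#(exa I num den a) : ℕ) : ℂ) = (((#(exa I num den a) : ℕ) : ℝ) : ℂ) := by push_cast; rfl
      rw [this, Complex.re_mul_ofReal]
    rw [h4]
    have h5 := mul_le_mul_of_nonneg_right (hzv_re a) (Nat.cast_nonneg (α := ℝ) (#(exa I num den a)))
    have h6 : -(2 * (((a : ZMod q).val : ℝ) ^ (-(1 / 2 : ℝ)) * #(offp H I π num den a))) ≤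
        (hzv q a * ∑ z ∈ offp H I π num den a,
          χ₀ ((a * π z.1 * (π z.2)⁻¹ : (ZMod q)ˣ) : ZMod q)).re := by
      have h7 := Complex.abs_re_le_norm (hzv q a * ∑ z ∈ offp H I π num den a,
          χ₀ ((a * π z.1 * (π z.2)⁻¹ : (ZMod q)ˣ) : ZMod q))
      rw [norm_mul] at h7
      have h8 := mul_le_mul (hzv_norm a) hoff (norm_nonneg _) (by positivity)
      have h9 := neg_le_of_abs_le (h7.trans h8)
      linarith
    linarith
  have h3 := Finset.sum_le_sum (s := univ) (fun a _ => h2 a)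
  rw [← Complex.re_sum] at h3
  have h4 := h3.trans h1
  rw [Finset.sum_sub_distrib, Finset.sum_sub_distrib, ← Finset.mul_sum, ← Finset.mul_sum] at h4
  have h5 := mul_le_mul_of_nonneg_left (sum_exa (q := q) I num den hnum0 hden0)
    (show 0 ≤ 3 * (q : ℝ) ^ (-(1 / 2 : ℝ)) by positivity)
  linarith

end

end Pool.Agent.R311.RES
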