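import Mathlib
import Pool.Agent.R311.RES.B2
import Pool.Agent.R311.RES.A5

/-! The resonance inequality on a coset, in terms of short relations. -/

set_option autoImplicit false

namespace Pool.Agent.R311.RES
open Finset
open scoped Classical

section
variable {α β : Type*}

/-- the pairs with a nontrivial relation -/
noncomputable def relp (I : Finset α) (num den : α → ℕ) (κ q n : ℕ) : Finset (α × α) :=
  (I ×ˢ I).filter (fun z => n * num z.1 * den z.2 ≠ num z.2 * den z.1 ∧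
    (q : ℤ) ∣ ((n * num z.1 * den z.2 : ℕ) : ℤ) ^ κ - ((num z.2 * den z.1 : ℕ) : ℤ) ^ κ)

/-- the weighted number of short relations -/
noncomputable def Tk (I : Finset α) (num den : α → ℕ) (κ q : ℕ) (A : ℝ) : ℝ :=
  ∑ n ∈ Icc 1 ⌊A⌋₊, (n : ℝ) ^ (-(1 / 2 : ℝ)) * #(relp I num den κ q n)

lemma Tk_nonneg (I : Finset α) (num den : α → ℕ) (κ q : ℕ) (A : ℝ) :
    0 ≤ Tk I num den κ q A := Finset.sum_nonneg fun _ _ => by positivity

variable {q : ℕ} [Fact q.Prime]

lemma offp_sub (H : Subgroup (DirichletCharacter ℂ q)) (I : Finset α) (π : α → (ZMod q)ˣ)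
    (num den : α → ℕ)
    (hπ : ∀ i ∈ I, (num i : ZMod q) = (π i : ZMod q) * (den i : ZMod q)) (a : (ZMod q)ˣ) :
    offp H I π num den a ⊆ relp I num den (Fintype.card (ann H)) q (a : ZMod q).val := by
  have : NeZero q := ⟨(Nat.Prime.pos Fact.out).ne'⟩
  intro z hz
  rw [offp, mem_filter, prs, mem_filter, mem_product] at hz
  rw [relp, mem_filter, mem_product]
  obtain ⟨⟨⟨h1, h2⟩, h3⟩, h4⟩ := hz
  refine ⟨⟨h1, h2⟩, h4, ?_⟩
  rw [← ZMod.intCast_zmod_eq_zero_iff_dvd]
  push_cast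
  rw [ZMod.natCast_zmod_val, sub_eq_zero, hπ _ h1, hπ _ h2]
  have h5 : (a * π z.1 * (π z.2)⁻¹) ^ (Fintype.card (ann H)) = 1 := by
    have h6 : (⟨a * π z.1 * (π z.2)⁻¹, h3⟩ : ann H) ^ (Fintype.card (ann H)) = 1 := pow_card_eq_one
    have h7 := congrArg (fun x : ann H => (x : (ZMod q)ˣ)) h6
    simp only [SubmonoidClass.coe_pow, OneMemClass.coe_one] at h7
    exact h7
  have h6 : (a : ZMod q) * ((π z.1 : ZMod q) * (den z.1 : ZMod q)) * (den z.2 : ZMod q) =
      ((a * π z.1 * (π z.2)⁻¹ : (ZMod q)ˣ) : ZMod q) *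
        ((π z.2 : ZMod q) * (den z.2 : ZMod q) * (den z.1 : ZMod q)) := by
    have h8 : (a * π z.1 : (ZMod q)ˣ) = (a * π z.1 * (π z.2)⁻¹) * π z.2 := by
      rw [inv_mul_cancel_right]
    have h9 := congrArg (Units.val) h8
    rw [Units.val_mul, Units.val_mul _ (π z.2)] at h9
    linear_combination ((den z.1 : ZMod q) * (den z.2 : ZMod q)) * h9
  rw [h6, mul_pow, ← Units.val_pow_eq_pow_val, h5, Units.val_one, one_mul]

lemma sum_off (H : Subgroup (DirichletCharacter ℂ q)) (I : Finset α) (π : α → (ZMod q)ˣ)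
    (num den : α → ℕ)
    (hπ : ∀ i ∈ I, (num i : ZMod q) = (π i : ZMod q) * (den i : ZMod q)) (A : ℝ) (hA : 1 ≤ A) :
    ∑ a : (ZMod q)ˣ, ((a : ZMod q).val : ℝ) ^ (-(1 / 2 : ℝ)) * #(offp H I π num den a) ≤
      Tk I num den (Fintype.card (ann H)) q A +
        A ^ (-(1 / 2 : ℝ)) * ((#I : ℝ) ^ 2 * (Fintype.card (ann H) : ℝ)) := by
  have : NeZero q := ⟨(Nat.Prime.pos Fact.out).ne'⟩
  have hA0 : 0 < A := by linarith
  rw [← sum_prs H I π, Finset.mul_sum,
    ← Finset.sum_filter_add_sum_filter_not univ (fun a : (ZMod q)ˣ => ((a : ZMod q).val : ℝ) ≤ A)]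
  apply add_le_add
  · have h1 : ∀ a ∈ univ.filter (fun a : (ZMod q)ˣ => ((a : ZMod q).val : ℝ) ≤ A),
        ((a : ZMod q).val : ℝ) ^ (-(1 / 2 : ℝ)) * #(offp H I π num den a) ≤
        (fun n : ℕ => (n : ℝ) ^ (-(1 / 2 : ℝ)) *
          #(relp I num den (Fintype.card (ann H)) q n)) (a : ZMod q).val := by
      intro a _
      apply mul_le_mul_of_nonneg_left _ (by positivity)
      exact_mod_cast card_le_card (offp_sub H I π num den hπ a)
    refine (Finset.sum_le_sum h1).trans ?_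
    have h2 : ∑ a ∈ univ.filter (fun a : (ZMod q)ˣ => ((a : ZMod q).val : ℝ) ≤ A),
        (fun n : ℕ => (n : ℝ) ^ (-(1 / 2 : ℝ)) *
          (#(relp I num den (Fintype.card (ann H)) q n) : ℝ)) (a : ZMod q).val =
        ∑ n ∈ (univ.filter (fun a : (ZMod q)ˣ => ((a : ZMod q).val : ℝ) ≤ A)).image
          (fun a : (ZMod q)ˣ => (a : ZMod q).val), (n : ℝ) ^ (-(1 / 2 : ℝ)) *
          (#(relp I num den (Fintype.card (ann H)) q n) : ℝ) := by
      rw [Finset.sum_image]
      intro a _ b _ hab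
      exact Units.ext (ZMod.val_injective q hab)
    rw [h2]
    apply Finset.sum_le_sum_of_subset_of_nonneg
    · intro n hn
      rw [mem_image] at hn
      obtain ⟨a, ha, rfl⟩ := hn
      rw [mem_filter] at ha
      rw [mem_Icc]
      refine ⟨?_, Nat.le_floor ha.2⟩
      rw [Nat.one_le_iff_ne_zero]
      intro h
      rw [ZMod.val_eq_zero] at h
      exact a.ne_zero h
    · intro _ _ _; positivity
  · refine le_trans (Finset.sum_le_sum (g := fun a => A ^ (-(1 / 2 : ℝ)) * (#(prs H I π a) : ℝ)) ?_) ?_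
    · intro a ha
      rw [mem_filter] at ha
      have h3 : A ≤ ((a : ZMod q).val : ℝ) := (not_le.1 ha.2).le
      apply mul_le_mul
      · exact Real.rpow_le_rpow_of_nonpos hA0 h3 (by norm_num)
      · exact_mod_cast card_le_card (filter_subset _ _)
      · positivity
      · positivity
    · apply Finset.sum_le_sum_of_subset_of_nonneg (filter_subset _ _)
      intro _ _ _; positivity

lemma prs_one (H : Subgroup (DirichletCharacter ℂ q)) (I : Finset α) (π : α → (ZMod q)ˣ)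
    (num den : α → ℕ)
    (hπ : ∀ i ∈ I, (num i : ZMod q) = (π i : ZMod q) * (den i : ZMod q))
    (hinj : ∀ i ∈ I, ∀ j ∈ I, num i * den j = num j * den i → i = j)
    (A : ℝ) (hA : 1 ≤ A) :
    (#(prs H I π 1) : ℝ) ≤ #I + Tk I num den (Fintype.card (ann H)) q A := by
  have : NeZero q := ⟨(Nat.Prime.pos Fact.out).ne'⟩
  have : Fact (1 < q) := ⟨Nat.Prime.one_lt Fact.out⟩
  have hv : (((1 : (ZMod q)ˣ) : ZMod q)).val = 1 := by rw [Units.val_one, ZMod.val_one]
  have h1 : #(prs H I π 1) ≤ #I + #(offp H I π num den 1) := by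
    rw [← Finset.card_filter_add_card_filter_not (s := prs H I π 1)
      (fun z => ((1 : (ZMod q)ˣ) : ZMod q).val * num z.1 * den z.2 = num z.2 * den z.1)]
    apply add_le_add
    · refine Finset.card_le_card_of_injOn (fun z => z.1) ?_ ?_
      · intro z hz
        rw [mem_coe, mem_filter, prs, mem_filter, mem_product] at hz
        exact hz.1.1.1
      · intro z hz z' hz' h
        rw [mem_coe, mem_filter, prs, mem_filter, mem_product, hv] at hz hz'
        have f1 := hz.2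
        have f2 := hz'.2
        rw [one_mul] at f1 f2
        have e1 := hinj _ hz.1.1.1 _ hz.1.1.2 f1
        have e2 := hinj _ hz'.1.1.1 _ hz'.1.1.2 f2
        simp only at h
        ext
        · exact h
        · rw [← e1, ← e2, h]
    · exact le_refl _
  have h2 : (#(offp H I π num den 1) : ℝ) ≤ Tk I num den (Fintype.card (ann H)) q A := by
    have h3 := offp_sub H I π num den hπ 1
    rw [hv] at h3
    have h4 : (#(offp H I π num den 1) : ℝ) ≤ #(relp I num den (Fintype.card (ann H)) q 1) := by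
      exact_mod_cast card_le_card h3
    refine h4.trans ?_
    have h5 := Finset.single_le_sum (s := Icc 1 ⌊A⌋₊)
      (f := fun n : ℕ => (n : ℝ) ^ (-(1 / 2 : ℝ)) * (#(relp I num den (Fintype.card (ann H)) q n) : ℝ))
      (fun _ _ => by positivity) (show 1 ∈ Icc 1 ⌊A⌋₊ by
        rw [mem_Icc]; exact ⟨le_refl _, Nat.le_floor (by simpa using hA)⟩)
    simp only [Nat.cast_one, Real.one_rpow, one_mul] at h5
    exact h5
  have h3 : (#(prs H I π 1) : ℝ) ≤ (#I : ℝ) + #(offp H I π num den 1) := by exact_mod_cast h1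
  linarith

lemma sum_edges (I : Finset α) (E : Finset β) (src tgt : β → α) (num den : α → ℕ) (lab : β → ℕ)
    (lu : β → (ZMod q)ˣ) (hs : ∀ e ∈ E, src e ∈ I) (ht : ∀ e ∈ E, tgt e ∈ I)
    (hlu : ∀ e ∈ E, (lu e : ZMod q).val = lab e)
    (hrel : ∀ e ∈ E, lab e * num (src e) * den (tgt e) = num (tgt e) * den (src e))
    (is : ∀ e ∈ E, ∀ e' ∈ E, lab e = lab e' → src e = src e' → e = e') :
    ∑ e ∈ E, (lab e : ℝ) ^ (-(1 / 2 : ℝ)) ≤
      ∑ a : (ZMod q)ˣ, ((a : ZMod q).val : ℝ) ^ (-(1 / 2 : ℝ)) * #(exa I num den a) := by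
  rw [← Finset.sum_fiberwise E lu]
  apply Finset.sum_le_sum
  intro a _
  have h1 : ∀ e ∈ E.filter (fun e => lu e = a), (lab e : ℝ) ^ (-(1 / 2 : ℝ)) =
      ((a : ZMod q).val : ℝ) ^ (-(1 / 2 : ℝ)) := by
    intro e he
    rw [mem_filter] at he
    rw [← hlu e he.1, he.2]
  rw [Finset.sum_congr rfl h1, Finset.sum_const, nsmul_eq_mul, mul_comm]
  apply mul_le_mul_of_nonneg_left _ (by positivity)
  have h2 : #(E.filter (fun e => lu e = a)) ≤ #(exa I num den a) := by
    refine Finset.card_le_card_of_injOn (fun e => (src e, tgt e)) ?_ ?_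
    · intro e he
      rw [mem_coe, mem_filter] at he
      rw [mem_coe, exa, mem_filter, mem_product]
      refine ⟨⟨hs e he.1, ht e he.1⟩, ?_⟩
      have := hrel e he.1
      rw [← hlu e he.1, he.2] at this
      exact this
    · intro e he e' he' h
      rw [mem_coe, mem_filter] at he he'
      apply is e he.1 e' he'.1
      · rw [← hlu e he.1, ← hlu e' he'.1, he.2, he'.2]
      · exact congrArg Prod.fst h
  exact_mod_cast h2

theorem coset_T (H : Subgroup (DirichletCharacter ℂ q)) (χ₀ : DirichletCharacter ℂ q)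
    (I : Finset α) (E : Finset β) (src tgt : β → α) (num den : α → ℕ) (lab : β → ℕ)
    (lu : β → (ZMod q)ˣ) (hs : ∀ e ∈ E, src e ∈ I) (ht : ∀ e ∈ E, tgt e ∈ I)
    (hlu : ∀ e ∈ E, (lu e : ZMod q).val = lab e)
    (hrel : ∀ e ∈ E, lab e * num (src e) * den (tgt e) = num (tgt e) * den (src e))
    (is : ∀ e ∈ E, ∀ e' ∈ E, lab e = lab e' → src e = src e' → e = e')
    (hnum : ∀ i ∈ I, (num i).Coprime q) (hden : ∀ i ∈ I, (den i).Coprime q)
    (hinj : ∀ i ∈ I, ∀ j ∈ I, num i * den j = num j * den i → i = j)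
    (V : ℝ) (hV0 : 0 ≤ V)
    (hV : ∀ ψ ∈ H, ‖DirichletCharacter.LFunction (χ₀ * ψ) (1 / 2)‖ ≤ V) (A : ℝ) (hA : 1 ≤ A) :
    ∑ e ∈ E, (lab e : ℝ) ^ (-(1 / 2 : ℝ)) ≤
      V * (#I + Tk I num den (Fintype.card (ann H)) q A) +
      3 * (q : ℝ) ^ (-(1 / 2 : ℝ)) * (#I : ℝ) ^ 2 +
      2 * (Tk I num den (Fintype.card (ann H)) q A +
        A ^ (-(1 / 2 : ℝ)) * ((#I : ℝ) ^ 2 * (Fintype.card (ann H) : ℝ))) := by
  have hq2 : 1 < q := Nat.Prime.one_lt Fact.out
  have pos_of : ∀ n : ℕ, n.Coprime q → 0 < n := by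
    intro n hn
    rcases Nat.eq_zero_or_pos n with h | h
    · subst h
      rw [Nat.coprime_zero_left] at hn
      omega
    · exact h
  have ne_of : ∀ n : ℕ, n.Coprime q → (n : ZMod q) ≠ 0 := by
    intro n hn h
    rw [ZMod.natCast_eq_zero_iff] at h
    have := Nat.Coprime.eq_one_of_dvd hn.symm h
    omega
  set π : α → (ZMod q)ˣ := fun i => un q (num i) * (un q (den i))⁻¹ with hπ
  have hπ' : ∀ i ∈ I, (num i : ZMod q) = (π i : ZMod q) * (den i : ZMod q) := by
    intro i hi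
    have h1 : π i * un q (den i) = un q (num i) := by
      simp only [hπ]
      rw [inv_mul_cancel_right]
    have h2 := congrArg Units.val h1
    rw [Units.val_mul, un_val (hden i hi), un_val (hnum i hi)] at h2
    exact h2.symm
  have h1 := coset_ineq H χ₀ I π num den (fun i hi => pos_of _ (hnum i hi))
    (fun i hi => pos_of _ (hden i hi)) hπ' (fun i hi => ne_of _ (hden i hi)) V hV0 hV
  have h2 := sum_edges (q := q) I E src tgt num den lab lu hs ht hlu hrel is
  have h3 := sum_off H I π num den hπ' A hA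
  have h4 := mul_le_mul_of_nonneg_left (prs_one H I π num den hπ' hinj A hA) hV0
  linarith

end

end Pool.Agent.R311.RES
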