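import Mathlib
import Pool.Agent.R311.RES.B3

/-! Few primes have many short relations. -/

set_option autoImplicit false

namespace Pool.Agent.R311.RES
open Finset
open scoped Classical

lemma cnt_primes (S : Finset ℕ) (hS : ∀ p ∈ S, p.Prime) (Y T : ℝ) (hY : 1 < Y)
    (hSY : ∀ p ∈ S, Y ≤ p) (N : ℤ) (hN : N ≠ 0) (hNT : |(N : ℝ)| ≤ Real.exp T) :
    (#(S.filter (fun p : ℕ => (p : ℤ) ∣ N)) : ℝ) ≤ T / Real.log Y := by
  set S' := S.filter (fun p : ℕ => (p : ℤ) ∣ N) with hS'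
  have hlY : 0 < Real.log Y := Real.log_pos hY
  have h1 : ∏ p ∈ S', p ∣ N.natAbs := by
    apply Finset.prod_primes_dvd
    · intro p hp
      rw [hS', mem_filter] at hp
      exact (hS p hp.1).prime
    · intro p hp
      rw [hS', mem_filter] at hp
      exact Int.natCast_dvd.1 hp.2
  have h2 : ∏ p ∈ S', p ≤ N.natAbs := Nat.le_of_dvd (Int.natAbs_pos.2 hN) h1
  have h3 : Y ^ #S' ≤ ∏ p ∈ S', (p : ℝ) := by
    rw [← Finset.prod_const]
    apply Finset.prod_le_prod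
    · intro _ _; linarith
    · intro p hp
      rw [hS', mem_filter] at hp
      exact hSY p hp.1
  have h4 : Y ^ #S' ≤ Real.exp T := by
    refine h3.trans (le_trans ?_ hNT)
    rw [← Int.cast_abs, Int.abs_eq_natAbs, Int.cast_natCast]
    have h9 : ((∏ p ∈ S', p : ℕ) : ℝ) ≤ (N.natAbs : ℝ) := Nat.cast_le.2 h2
    rw [Nat.cast_prod] at h9
    exact h9
  rw [le_div_iff₀ hlY]
  have h5 := Real.log_le_log (by positivity) h4
  rw [Real.log_exp, Real.log_pow] at h5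
  exact h5

lemma sum_rsqrt (N : ℕ) : ∑ n ∈ Icc 1 N, (n : ℝ) ^ (-(1 / 2 : ℝ)) ≤ 2 * Real.sqrt N := by
  induction N with
  | zero => simp
  | succ N ih =>
    rw [Finset.sum_Icc_succ_top (by omega)]
    have h1 : ((N + 1 : ℕ) : ℝ) ^ (-(1 / 2 : ℝ)) = (Real.sqrt ((N + 1 : ℕ) : ℝ))⁻¹ := by
      rw [Real.rpow_neg (by positivity), Real.sqrt_eq_rpow]
    rw [h1]
    have h2 : 0 < Real.sqrt ((N + 1 : ℕ) : ℝ) := Real.sqrt_pos.2 (by positivity)
    have h3 := Real.sq_sqrt (show (0 : ℝ) ≤ ((N + 1 : ℕ) : ℝ) by positivity)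
    have h4 := Real.sq_sqrt (show (0 : ℝ) ≤ (N : ℝ) by positivity)
    have h5 : Real.sqrt (N : ℝ) ≤ Real.sqrt ((N + 1 : ℕ) : ℝ) := Real.sqrt_le_sqrt (by push_cast; linarith)
    have h6 : (Real.sqrt ((N + 1 : ℕ) : ℝ))⁻¹ ≤ 2 * Real.sqrt ((N + 1 : ℕ) : ℝ) - 2 * Real.sqrt N := by
      rw [inv_le_iff_one_le_mul₀ h2]
      have h7 : ((N + 1 : ℕ) : ℝ) = N + 1 := by push_cast; ring
      have h8 := Real.sqrt_nonneg (N : ℝ)
      generalize Real.sqrt ((N + 1 : ℕ) : ℝ) = s at *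
      generalize Real.sqrt (N : ℝ) = r at *
      nlinarith
    linarith

section
variable {α : Type*}

lemma sum_relp (S : Finset ℕ) (hS : ∀ p ∈ S, p.Prime) (Y B : ℝ) (hY : 1 < Y) (hB : 0 ≤ B)
    (hSY : ∀ p ∈ S, Y ≤ p) (I : Finset α) (num den : α → ℕ) (κ n : ℕ) (hκ : 1 ≤ κ)
    (hu : ∀ i ∈ I, ∀ j ∈ I, ((n * num i * den j : ℕ) : ℝ) ≤ Real.exp B)
    (hv : ∀ i ∈ I, ∀ j ∈ I, ((num i * den j : ℕ) : ℝ) ≤ Real.exp B) :
    ∑ p ∈ S, (#(relp I num den κ p n) : ℝ) ≤ (#I : ℝ) ^ 2 * (κ * B / Real.log Y) := by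
  have hlY : 0 < Real.log Y := Real.log_pos hY
  have h1 : ∀ p ∈ S, (#(relp I num den κ p n) : ℝ) = ∑ z ∈ (I ×ˢ I).filter
      (fun z => n * num z.1 * den z.2 ≠ num z.2 * den z.1),
      (if (p : ℤ) ∣ ((n * num z.1 * den z.2 : ℕ) : ℤ) ^ κ - ((num z.2 * den z.1 : ℕ) : ℤ) ^ κ
        then (1 : ℝ) else 0) := by
    intro p _
    rw [relp, ← Finset.filter_filter, Finset.card_filter]
    push_cast
    rfl
  rw [Finset.sum_congr rfl h1, Finset.sum_comm]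
  have h2 : ∀ z ∈ (I ×ˢ I).filter (fun z => n * num z.1 * den z.2 ≠ num z.2 * den z.1),
      ∑ p ∈ S, (if (p : ℤ) ∣ ((n * num z.1 * den z.2 : ℕ) : ℤ) ^ κ -
        ((num z.2 * den z.1 : ℕ) : ℤ) ^ κ then (1 : ℝ) else 0) ≤ κ * B / Real.log Y := by
    intro z hz
    rw [mem_filter, mem_product] at hz
    obtain ⟨⟨hz1, hz2⟩, hz3⟩ := hz
    rw [← Finset.sum_filter, Finset.sum_const, nsmul_eq_mul, mul_one]
    apply cnt_primes S hS Y _ hY hSY
    · intro h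
      rw [sub_eq_zero] at h
      have h3 : (n * num z.1 * den z.2) ^ κ = (num z.2 * den z.1) ^ κ := by exact_mod_cast h
      exact hz3 (Nat.pow_left_injective (by omega) h3)
    · have e1 : Real.exp (κ * B) = Real.exp B ^ κ := Real.exp_nat_mul B κ
      rw [e1]
      push_cast
      have u1 := hu z.1 hz1 z.2 hz2
      have v1 := hv z.2 hz2 z.1 hz1
      push_cast at u1 v1
      have u2 := pow_le_pow_left₀ (by positivity) u1 κ
      have v2 := pow_le_pow_left₀ (by positivity) v1 κ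
      have u3 : (0 : ℝ) ≤ ((n : ℝ) * num z.1 * den z.2) ^ κ := by positivity
      have v3 : (0 : ℝ) ≤ ((num z.2 : ℝ) * den z.1) ^ κ := by positivity
      rw [abs_le]
      constructor <;> linarith
  refine (Finset.sum_le_sum h2).trans ?_
  rw [Finset.sum_const, nsmul_eq_mul]
  apply mul_le_mul_of_nonneg_right _ (by positivity)
  have h3 := card_le_card (filter_subset (fun z : α × α =>
    n * num z.1 * den z.2 ≠ num z.2 * den z.1) (I ×ˢ I))
  rw [card_product] at h3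
  have h4 : (#((I ×ˢ I).filter (fun z : α × α =>
    n * num z.1 * den z.2 ≠ num z.2 * den z.1)) : ℝ) ≤ (#I : ℝ) * #I := by exact_mod_cast h3
  rw [sq]
  exact h4

lemma sum_Tk (S : Finset ℕ) (hS : ∀ p ∈ S, p.Prime) (Y B : ℝ) (hY : 1 < Y) (hB : 0 ≤ B)
    (hSY : ∀ p ∈ S, Y ≤ p) (I : Finset α) (num den : α → ℕ) (κ : ℕ) (hκ : 1 ≤ κ) (A : ℝ)
    (hA : 0 ≤ A)
    (hu : ∀ n ∈ Icc 1 ⌊A⌋₊, ∀ i ∈ I, ∀ j ∈ I, ((n * num i * den j : ℕ) : ℝ) ≤ Real.exp B) :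
    ∑ p ∈ S, Tk I num den κ p A ≤ 2 * Real.sqrt A * ((#I : ℝ) ^ 2 * (κ * B / Real.log Y)) := by
  have hlY : 0 < Real.log Y := Real.log_pos hY
  unfold Tk
  rw [Finset.sum_comm]
  have h1 : ∀ n ∈ Icc 1 ⌊A⌋₊, ∑ p ∈ S, (n : ℝ) ^ (-(1 / 2 : ℝ)) * (#(relp I num den κ p n) : ℝ) ≤
      (n : ℝ) ^ (-(1 / 2 : ℝ)) * ((#I : ℝ) ^ 2 * (κ * B / Real.log Y)) := by
    intro n hn
    rw [← Finset.mul_sum]
    apply mul_le_mul_of_nonneg_left _ (by positivity)
    apply sum_relp S hS Y B hY hB hSY I num den κ n hκ (hu n hn)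
    intro i hi j hj
    refine le_trans ?_ (hu n hn i hi j hj)
    have hn1 : 1 ≤ n := (mem_Icc.1 hn).1
    have : num i * den j ≤ n * num i * den j := by
      rw [mul_assoc]
      exact Nat.le_mul_of_pos_left _ hn1
    exact_mod_cast this
  refine (Finset.sum_le_sum h1).trans ?_
  rw [← Finset.sum_mul]
  apply mul_le_mul_of_nonneg_right _ (by positivity)
  refine (sum_rsqrt _).trans ?_
  apply mul_le_mul_of_nonneg_left _ (by norm_num)
  exact Real.sqrt_le_sqrt (Nat.floor_le hA)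

/-- a prime with many short relations -/
def BadT (I : Finset α) (num den : α → ℕ) (M : ℕ) (A : ℝ) (p : ℕ) : Prop :=
  ∃ κ ∈ Icc 1 M, (#I : ℝ) < Tk I num den κ p A

theorem few_exceptional (S : Finset ℕ) (hS : ∀ p ∈ S, p.Prime) (Y B : ℝ) (hY : 1 < Y)
    (hB : 0 ≤ B) (hSY : ∀ p ∈ S, Y ≤ p) (I : Finset α) (hI : I.Nonempty) (num den : α → ℕ)
    (M : ℕ) (A : ℝ) (hA : 0 ≤ A)
    (hu : ∀ n ∈ Icc 1 ⌊A⌋₊, ∀ i ∈ I, ∀ j ∈ I, ((n * num i * den j : ℕ) : ℝ) ≤ Real.exp B) :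
    (#(S.filter (fun p => BadT I num den M A p)) : ℝ) ≤
      2 * Real.sqrt A * #I * (B / Real.log Y) * (M : ℝ) ^ 2 := by
  have hlY : 0 < Real.log Y := Real.log_pos hY
  have hI0 : (0 : ℝ) < #I := by exact_mod_cast Finset.card_pos.2 hI
  set bad := S.filter (fun p => BadT I num den M A p) with hbad
  have h1 : (bad.card : ℝ) * #I ≤ ∑ p ∈ bad, ∑ κ ∈ Icc 1 M, Tk I num den κ p A := by
    rw [← nsmul_eq_mul, ← Finset.sum_const]
    apply Finset.sum_le_sum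
    intro p hp
    rw [hbad, mem_filter] at hp
    obtain ⟨_, κ, hκ, hlt⟩ := hp
    refine hlt.le.trans ?_
    exact Finset.single_le_sum (f := fun κ => Tk I num den κ p A)
      (fun κ _ => Tk_nonneg I num den κ p A) hκ
  have h2 : ∑ p ∈ bad, ∑ κ ∈ Icc 1 M, Tk I num den κ p A ≤
      ∑ p ∈ S, ∑ κ ∈ Icc 1 M, Tk I num den κ p A := by
    apply Finset.sum_le_sum_of_subset_of_nonneg (filter_subset _ _)
    intro _ _ _
    exact Finset.sum_nonneg fun κ _ => Tk_nonneg I num den κ _ A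
  have h3 : ∑ p ∈ S, ∑ κ ∈ Icc 1 M, Tk I num den κ p A ≤
      2 * Real.sqrt A * ((#I : ℝ) ^ 2 * (B / Real.log Y)) * (M : ℝ) ^ 2 := by
    rw [Finset.sum_comm]
    have h4 : ∀ κ ∈ Icc 1 M, ∑ p ∈ S, Tk I num den κ p A ≤
        2 * Real.sqrt A * ((#I : ℝ) ^ 2 * (B / Real.log Y)) * M := by
      intro κ hκ
      rw [mem_Icc] at hκ
      refine (sum_Tk S hS Y B hY hB hSY I num den κ hκ.1 A hA hu).trans ?_
      have hκM : (κ : ℝ) ≤ M := by exact_mod_cast hκ.2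
      have : 2 * Real.sqrt A * ((#I : ℝ) ^ 2 * (κ * B / Real.log Y)) =
          2 * Real.sqrt A * ((#I : ℝ) ^ 2 * (B / Real.log Y)) * κ := by ring
      rw [this]
      exact mul_le_mul_of_nonneg_left hκM (by positivity)
    refine (Finset.sum_le_sum h4).trans (le_of_eq ?_)
    rw [Finset.sum_const, Nat.card_Icc, nsmul_eq_mul, Nat.add_sub_cancel]
    ring
  have h5 : (bad.card : ℝ) * #I ≤ (2 * Real.sqrt A * #I * (B / Real.log Y) * (M : ℝ) ^ 2) * #I := by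
    calc _ ≤ _ := h1.trans (h2.trans h3)
      _ = _ := by ring
  exact le_of_mul_le_mul_right h5 hI0

end

end Pool.Agent.R311.RES
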