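import Mathlib
import Pool.Agent.R311.RES.A5

/-! Numerators and denominators of the states. -/

set_option autoImplicit false

namespace Pool.Agent.R311.RES
open Finset
open scoped Classical

lemma nat_block {P : Finset ℕ} {m t : ℕ} {e : Ed} (he : e ∈ EE P m t) :
    (∏ p ∈ ta e, p) * (∏ p ∈ (sr e).2, p) * (∏ p ∈ (tg e).1 \ (tg e).2, p) =
      (∏ p ∈ (tg e).2, p) * (∏ p ∈ (sr e).1 \ (sr e).2, p) := by
  rw [mem_EE] at he
  obtain ⟨Z, V, A, U⟩ := e
  simp only at he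
  obtain ⟨⟨h1, h2⟩, ⟨h3, h4⟩, h5, h6, h7⟩ := he
  simp only [tg, sr, ta]
  have memU : ∀ a, a ∈ U → a ∉ Z := fun a ha => (mem_sdiff.1 (h6 ha)).2
  have memA : ∀ a, a ∈ A → a ∈ Z ∧ a ∉ V := fun a ha => mem_sdiff.1 (h5 ha)
  have dAU : Disjoint A U := by
    rw [disjoint_left]
    intro a ha hb
    exact memU a hb (memA a ha).1
  have dUV : Disjoint U V := by
    rw [disjoint_left]
    intro a ha hb
    exact memU a ha (h3 hb)
  have e1 : (Z \ V ∪ U) \ (A ∪ U) = (Z \ V) \ A := by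
    ext a
    simp only [mem_sdiff, mem_union, not_or]
    constructor
    · rintro ⟨h | h, h', h''⟩
      · exact ⟨h, h'⟩
      · exact absurd h h''
    · rintro ⟨⟨ha, hb⟩, hc⟩
      exact ⟨Or.inl ⟨ha, hb⟩, hc, fun h => memU a h ha⟩
  have e2 : Z \ A = ((Z \ V) \ A) ∪ V := by
    ext a
    simp only [mem_sdiff, mem_union]
    constructor
    · rintro ⟨ha, hb⟩
      by_cases hv : a ∈ V
      · exact Or.inr hv
      · exact Or.inl ⟨⟨ha, hv⟩, hb⟩
    · rintro (⟨⟨ha, hb⟩, hc⟩ | ha)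
      · exact ⟨ha, hc⟩
      · exact ⟨h3 ha, fun h => (memA a h).2 ha⟩
  have d2 : Disjoint ((Z \ V) \ A) V := by
    rw [disjoint_left]
    intro a ha hb
    exact (mem_sdiff.1 (mem_sdiff.1 ha).1).2 hb
  rw [prod_union dAU, e1, e2, prod_union d2, prod_union dUV]
  ring

section
variable {κ : ℕ}

/-- numerator -/
def numB (x : Fin κ → St) : ℕ := ∏ i, ∏ p ∈ (x i).2, p

/-- denominator -/
def denB (x : Fin κ → St) : ℕ := ∏ i, ∏ p ∈ (x i).1 \ (x i).2, p

lemma rel_blocks (P : Fin κ → Finset ℕ) (m t : Fin κ → ℕ) (e : Fin κ → Ed)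
    (he : ∀ i, e i ∈ EE (P i) (m i) (t i)) :
    labN e * numB (fun i => sr (e i)) * denB (fun i => tg (e i)) =
      numB (fun i => tg (e i)) * denB (fun i => sr (e i)) := by
  unfold labN numB denB
  rw [← Finset.prod_mul_distrib, ← Finset.prod_mul_distrib, ← Finset.prod_mul_distrib]
  exact Finset.prod_congr rfl fun i _ => nat_block (he i)

/-- the product of a family of sets of primes determines the sets -/
lemma prod_primeFactors (P : Fin κ → Finset ℕ) (hpr : ∀ i, ∀ p ∈ P i, p.Prime)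
    (hdis : ∀ i j, i ≠ j → Disjoint (P i) (P j)) (S : Fin κ → Finset ℕ) (hS : ∀ i, S i ⊆ P i)
    (i : Fin κ) : S i = (∏ i, ∏ p ∈ S i, p).primeFactors.filter (fun p => p ∈ P i) := by
  have h1 : ∏ i, ∏ p ∈ S i, p = ∏ p ∈ univ.biUnion S, p := by
    rw [Finset.prod_biUnion]
    intro a _ b _ hab
    exact (hdis a b hab).mono (hS a) (hS b)
  have h2 : (∏ i, ∏ p ∈ S i, p).primeFactors = univ.biUnion S := by
    rw [h1]
    apply Nat.primeFactors_prod
    intro p hp
    rw [mem_biUnion] at hp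
    obtain ⟨j, _, hj⟩ := hp
    exact hpr j p (hS j hj)
  rw [h2]
  ext p
  rw [mem_filter, mem_biUnion]
  constructor
  · intro hp
    exact ⟨⟨i, mem_univ _, hp⟩, hS i hp⟩
  · rintro ⟨⟨j, _, hj⟩, hp⟩
    by_cases hij : j = i
    · subst hij; exact hj
    · exact absurd hp (disjoint_left.1 (hdis j i hij) (hS j hj))

lemma prod_inj (P : Fin κ → Finset ℕ) (hpr : ∀ i, ∀ p ∈ P i, p.Prime)
    (hdis : ∀ i j, i ≠ j → Disjoint (P i) (P j)) (S T : Fin κ → Finset ℕ) (hS : ∀ i, S i ⊆ P i)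
    (hT : ∀ i, T i ⊆ P i) (h : ∏ i, ∏ p ∈ S i, p = ∏ i, ∏ p ∈ T i, p) (i : Fin κ) : S i = T i := by
  rw [prod_primeFactors P hpr hdis S hS i, prod_primeFactors P hpr hdis T hT i, h]

lemma state_coprime (P : Fin κ → Finset ℕ) (m : Fin κ → ℕ) (hpr : ∀ i, ∀ p ∈ P i, p.Prime)
    (hdis : ∀ i j, i ≠ j → Disjoint (P i) (P j)) (x : Fin κ → St)
    (hx : ∀ i, x i ∈ X (P i) (m i)) : (numB x).Coprime (denB x) := by
  unfold numB denB
  rw [Nat.coprime_prod_left_iff]
  intro i _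
  rw [Nat.coprime_prod_left_iff]
  intro p hp
  rw [Nat.coprime_prod_right_iff]
  intro j _
  rw [Nat.coprime_prod_right_iff]
  intro p' hp'
  have h1 := hx i
  have h2 := hx j
  rw [mem_X] at h1 h2
  have hpP : p ∈ P i := h1.1.1 (h1.2 hp)
  have hpP' : p' ∈ P j := h2.1.1 (mem_sdiff.1 hp').1
  rw [Nat.coprime_primes (hpr i p hpP) (hpr j p' hpP')]
  intro h
  subst h
  by_cases hij : i = j
  · subst hij
    exact (mem_sdiff.1 hp').2 hp
  · exact disjoint_left.1 (hdis i j hij) hpP hpP'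

lemma state_inj (P : Fin κ → Finset ℕ) (m : Fin κ → ℕ) (hpr : ∀ i, ∀ p ∈ P i, p.Prime)
    (hdis : ∀ i j, i ≠ j → Disjoint (P i) (P j)) (x y : Fin κ → St)
    (hx : ∀ i, x i ∈ X (P i) (m i)) (hy : ∀ i, y i ∈ X (P i) (m i))
    (h : numB x * denB y = numB y * denB x) : x = y := by
  have cx := state_coprime P m hpr hdis x hx
  have cy := state_coprime P m hpr hdis y hy
  have d1 : numB x ∣ numB y := by
    apply cx.dvd_of_dvd_mul_right
    rw [← h]
    exact Dvd.intro _ rfl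
  have d2 : numB y ∣ numB x := by
    apply cy.dvd_of_dvd_mul_right
    rw [h]
    exact Dvd.intro _ rfl
  have e1 : numB x = numB y := Nat.dvd_antisymm d1 d2
  have hpos : 0 < numB y := by
    unfold numB
    apply Finset.prod_pos
    intro i _
    apply Finset.prod_pos
    intro p hp
    have h1 := hy i
    rw [mem_X] at h1
    exact (hpr i p (h1.1.1 (h1.2 hp))).pos
  have e2 : denB x = denB y := by
    rw [e1] at h
    exact (Nat.eq_of_mul_eq_mul_left hpos h).symm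
  funext i
  have hxi := hx i
  have hyi := hy i
  have f1 : ∀ i, (x i).2 = (y i).2 := fun i => prod_inj P hpr hdis (fun i => (x i).2)
    (fun i => (y i).2) (fun i => by
      have := hx i; rw [mem_X] at this; exact this.2.trans this.1.1)
    (fun i => by
      have := hy i; rw [mem_X] at this; exact this.2.trans this.1.1) e1 i
  have f2 : ∀ i, (x i).1 \ (x i).2 = (y i).1 \ (y i).2 := fun i => prod_inj P hpr hdis
    (fun i => (x i).1 \ (x i).2) (fun i => (y i).1 \ (y i).2) (fun i => by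
      have := hx i; rw [mem_X] at this; exact sdiff_subset.trans this.1.1)
    (fun i => by
      have := hy i; rw [mem_X] at this; exact sdiff_subset.trans this.1.1) e2 i
  have f3 : (x i).1 = (y i).1 := by
    rw [mem_X] at hxi hyi
    have g1 : (x i).1 = ((x i).1 \ (x i).2) ∪ (x i).2 := (sdiff_union_of_subset hxi.2).symm
    have g2 : (y i).1 = ((y i).1 \ (y i).2) ∪ (y i).2 := (sdiff_union_of_subset hyi.2).symm
    rw [g1, g2, f2 i, f1 i]
  exact Sigma.ext f3 (heq_of_eq (f1 i))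

lemma numB_coprime {q : ℕ} (P : Fin κ → Finset ℕ) (m : Fin κ → ℕ)
    (hcop : ∀ i, ∀ p ∈ P i, p.Coprime q) (x : Fin κ → St)
    (hx : ∀ i, x i ∈ X (P i) (m i)) : (numB x).Coprime q ∧ (denB x).Coprime q := by
  constructor
  · unfold numB
    rw [Nat.coprime_prod_left_iff]
    intro i _
    rw [Nat.coprime_prod_left_iff]
    intro p hp
    have h1 := hx i
    rw [mem_X] at h1
    exact hcop i p (h1.1.1 (h1.2 hp))
  · unfold denB
    rw [Nat.coprime_prod_left_iff]
    intro i _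
    rw [Nat.coprime_prod_left_iff]
    intro p hp
    have h1 := hx i
    rw [mem_X] at h1
    exact hcop i p (h1.1.1 (mem_sdiff.1 hp).1)

lemma numB_le (P : Fin κ → Finset ℕ) (m : Fin κ → ℕ) (y : Fin κ → ℝ) (hy1 : ∀ i, 1 ≤ y i)
    (hy : ∀ i, ∀ p ∈ P i, (p : ℝ) ≤ y i) (x : Fin κ → St) (hx : ∀ i, x i ∈ X (P i) (m i)) :
    (numB x : ℝ) ≤ ∏ i, y i ^ (m i) ∧ (denB x : ℝ) ≤ ∏ i, y i ^ (m i) := by
  have key : ∀ (i : Fin κ) (S : Finset ℕ), S ⊆ (x i).1 → (∏ p ∈ S, (p : ℝ)) ≤ y i ^ (m i) := by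
    intro i S hS
    have h1 := hx i
    rw [mem_X] at h1
    have h2 : #S ≤ m i := by rw [← h1.1.2]; exact card_le_card hS
    calc (∏ p ∈ S, (p : ℝ)) ≤ ∏ _p ∈ S, y i :=
          Finset.prod_le_prod (fun _ _ => by positivity) (fun p hp => hy i p (h1.1.1 (hS hp)))
      _ = y i ^ #S := Finset.prod_const _
      _ ≤ y i ^ (m i) := pow_le_pow_right₀ (hy1 i) h2
  constructor
  · unfold numB
    rw [Nat.cast_prod]
    apply Finset.prod_le_prod
    · intro i _; positivity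
    · intro i _
      rw [Nat.cast_prod]
      have h1 := hx i
      rw [mem_X] at h1
      exact key i _ h1.2
  · unfold denB
    rw [Nat.cast_prod]
    apply Finset.prod_le_prod
    · intro i _; positivity
    · intro i _
      rw [Nat.cast_prod]
      exact key i _ sdiff_subset

/-- the index set -/
noncomputable def II (P : Fin κ → Finset ℕ) (m : Fin κ → ℕ) : Finset (Fin κ → St) :=
  Fintype.piFinset (fun i => X (P i) (m i))

/-- the edges -/
noncomputable def EI (P : Fin κ → Finset ℕ) (m t : Fin κ → ℕ) : Finset (Fin κ → Ed) :=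
  Fintype.piFinset (fun i => EE (P i) (m i) (t i))

lemma card_II (P : Fin κ → Finset ℕ) (m : Fin κ → ℕ) :
    (#(II P m) : ℝ) = ∏ i, (((P i).card.choose (m i) : ℝ) * 2 ^ (m i)) := by
  rw [II, Fintype.card_piFinset]
  push_cast
  apply Finset.prod_congr rfl
  intro i _
  rw [card_X]
  push_cast
  rfl

lemma II_pos (P : Fin κ → Finset ℕ) (m : Fin κ → ℕ) (hm : ∀ i, m i ≤ (P i).card) :
    (0 : ℝ) < #(II P m) := by
  rw [card_II]
  apply Finset.prod_pos
  intro i _
  have : 0 < (P i).card.choose (m i) := Nat.choose_pos (hm i)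
  positivity

lemma sum_lab_low (P : Fin κ → Finset ℕ) (m t : Fin κ → ℕ) (y : Fin κ → ℝ)
    (hpr : ∀ i, ∀ p ∈ P i, p.Prime) (hy0 : ∀ i, 0 < y i) (hy : ∀ i, ∀ p ∈ P i, (p : ℝ) ≤ y i) :
    (#(II P m) : ℝ) *
      ∏ i, (((m i).choose (t i) : ℝ) * (((P i).card - m i).choose (t i) : ℝ) / (2 * y i) ^ (t i)) ≤
      ∑ e ∈ EI P m t, (labN e : ℝ) ^ (-(1 / 2 : ℝ)) := by
  have hlow : ∀ e ∈ EI P m t, ∏ i, ((y i) ^ (t i))⁻¹ ≤ (labN e : ℝ) ^ (-(1 / 2 : ℝ)) := by
    intro e he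
    have he' : ∀ i, e i ∈ EE (P i) (m i) (t i) := Fintype.mem_piFinset.1 he
    have h1 : (0 : ℝ) < labN e := by exact_mod_cast labN_pos P m t hpr e he'
    have h2 := labN_le P m t y hy e he'
    have h3 : ∏ i, y i ^ (2 * t i) = (∏ i, y i ^ (t i)) ^ 2 := by
      rw [← Finset.prod_pow]
      apply Finset.prod_congr rfl
      intro i _
      rw [← pow_mul, mul_comm]
    have h4 : 0 < ∏ i, y i ^ (t i) := Finset.prod_pos fun i _ => pow_pos (hy0 i) _
    rw [h3] at h2
    rw [Finset.prod_inv_distrib, Real.rpow_neg h1.le, ← Real.sqrt_eq_rpow]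
    apply inv_anti₀ (Real.sqrt_pos.2 h1)
    rw [Real.sqrt_le_left h4.le]
    exact h2
  have hsum : (#(EI P m t) : ℝ) * ∏ i, ((y i) ^ (t i))⁻¹ ≤
      ∑ e ∈ EI P m t, (labN e : ℝ) ^ (-(1 / 2 : ℝ)) := by
    rw [← nsmul_eq_mul, ← Finset.sum_const]
    exact Finset.sum_le_sum hlow
  refine le_trans (le_of_eq ?_) hsum
  rw [card_II, EI, Fintype.card_piFinset, Nat.cast_prod, ← Finset.prod_mul_distrib,
    ← Finset.prod_mul_distrib]
  apply Finset.prod_congr rfl
  intro i _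
  rw [card_EE]
  have hyi := (hy0 i).ne'
  rcases le_or_gt (t i) (m i) with h | h
  · have e1 : (2 : ℝ) ^ (m i) = 2 ^ (m i - t i) * 2 ^ (t i) := by
      rw [← pow_add]; congr 1; omega
    push_cast
    rw [e1, mul_pow]
    field_simp
  · rw [Nat.choose_eq_zero_of_lt h]
    simp

end

end Pool.Agent.R311.RES
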