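import Mathlib
import Pool.Agent.R311.RES.B1

/-! The coefficients of `L(1/2, χ) ∏_{p ∈ B} (1 - χ(p) p^{-1/2})`. -/

set_option autoImplicit false

namespace Pool.Agent.R311.RES
open Complex Filter Topology

theorem hurwitz_two (x : ℝ) (hx : 0 < x) (hx1 : x ≤ 1) :
    ‖HurwitzZeta.hurwitzZeta (x : UnitAddCircle) (1 / 2) - ((x ^ (-(1 / 2 : ℝ)) : ℝ) : ℂ)‖ ≤ 3 := by
  have hhU : (1 / 2 : ℂ) ∈ U := by
    refine ⟨by norm_num, ?_⟩
    rw [norm_div]
    norm_num
  have h1 := SG_half x hx hx1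
  rw [cpow_half x hx.le] at h1
  have h2 := SG_summable x hx hx1 hhU
  set g : ℕ → ℝ := fun n => -(1 / 2) * (n + x) ^ (-(1 / 2 : ℝ)) +
    (Real.sqrt (n + 1 + x) - Real.sqrt (n + x)) with hg
  have h3 : ∀ n, G x n (1 / 2) = ((g n : ℝ) : ℂ) := fun n => G_half x hx n
  have h4 : SG x (1 / 2) = ((∑' n, g n : ℝ) : ℂ) := by
    rw [SG, Complex.ofReal_tsum]
    exact tsum_congr h3
  have h5 : Summable g := by
    have : Summable (fun n => ((g n : ℝ) : ℂ)) := h2.congr h3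
    exact Complex.summable_ofReal.1 this
  have h6 : ∀ n, g n ≤ 0 := by
    intro n
    have := sqrt_step (n + x) (by positivity)
    simp only [hg]
    rw [show (n : ℝ) + 1 + x = n + x + 1 by ring]
    exact this
  have h6' : ∀ n : ℕ, 1 / 2 * (((n : ℝ) + 1 + x) ^ (-(1 / 2 : ℝ)) - ((n : ℝ) + x) ^ (-(1 / 2 : ℝ))) ≤ g n := by
    intro n
    have := sqrt_step_low (n + x) (by positivity)
    simp only [hg]
    rw [show (n : ℝ) + 1 + x = n + x + 1 by ring]
    exact this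
  have h5s : Summable (fun n => g (n + 1)) := (summable_nat_add_iff 1).2 h5
  have hsplit : ∑' n, g n = g 0 + ∑' n, g (n + 1) := h5.tsum_eq_zero_add
  have h7 : ∑' n, g (n + 1) ≤ 0 := tsum_nonpos fun n => h6 _
  have h8 : -(1 / 2) * (1 + x) ^ (-(1 / 2 : ℝ)) ≤ ∑' n, g (n + 1) := by
    have hpart : ∀ N : ℕ, -(1 / 2) * (1 + x) ^ (-(1 / 2 : ℝ)) ≤ ∑ n ∈ Finset.range N, g (n + 1) := by
      intro N
      have hs : ∀ N : ℕ, ∑ n ∈ Finset.range N, (1 / 2 * ((((n + 1 : ℕ) : ℝ) + 1 + x) ^ (-(1 / 2 : ℝ)) -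
          (((n + 1 : ℕ) : ℝ) + x) ^ (-(1 / 2 : ℝ)))) =
          1 / 2 * (((N : ℝ) + 1 + x) ^ (-(1 / 2 : ℝ)) - (1 + x) ^ (-(1 / 2 : ℝ))) := by
        intro N
        induction N with
        | zero => simp
        | succ N ih =>
          rw [Finset.sum_range_succ, ih]
          push_cast
          ring
      have h9 := Finset.sum_le_sum (s := Finset.range N) (fun n _ => h6' (n + 1))
      rw [hs N] at h9
      have h10 : 0 ≤ ((N : ℝ) + 1 + x) ^ (-(1 / 2 : ℝ)) := by positivity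
      linarith
    exact ge_of_tendsto' h5s.hasSum.tendsto_sum_nat hpart
  have h9 : HurwitzZeta.hurwitzZeta (x : UnitAddCircle) (1 / 2) =
      ((-2 * (∑' n, g n) - 2 * Real.sqrt x : ℝ) : ℂ) := by
    have h10 := h4.symm.trans h1
    have h11 : (1 / 2 : ℂ) * HurwitzZeta.hurwitzZeta (x : UnitAddCircle) (1 / 2) =
        -(((∑' n, g n : ℝ) : ℂ)) - ((Real.sqrt x : ℝ) : ℂ) := by
      rw [h10]; ring
    calc HurwitzZeta.hurwitzZeta (x : UnitAddCircle) (1 / 2) =
        2 * ((1 / 2 : ℂ) * HurwitzZeta.hurwitzZeta (x : UnitAddCircle) (1 / 2)) := by ring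
      _ = _ := by rw [h11]; push_cast; ring
  have h12 : g 0 = -(1 / 2) * x ^ (-(1 / 2 : ℝ)) + (Real.sqrt (1 + x) - Real.sqrt x) := by
    simp [hg]
  rw [h9, ← Complex.ofReal_sub, Complex.norm_real, Real.norm_eq_abs, abs_le, hsplit, h12]
  have h10 : Real.sqrt (1 + x) ≤ 3 / 2 := by
    rw [Real.sqrt_le_left (by norm_num)]
    nlinarith
  have h11 := Real.sqrt_nonneg (1 + x)
  have h13 : (1 + x) ^ (-(1 / 2 : ℝ)) ≤ 1 :=
    Real.rpow_le_one_of_one_le_of_nonpos (by linarith) (by norm_num)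
  constructor
  · linarith
  · linarith

lemma val_pos {q : ℕ} [Fact q.Prime] (a : (ZMod q)ˣ) : 0 < (a : ZMod q).val := by
  have : NeZero q := ⟨(Nat.Prime.pos Fact.out).ne'⟩
  rw [Nat.pos_iff_ne_zero]
  intro h
  rw [ZMod.val_eq_zero] at h
  exact a.ne_zero h

lemma hzv_two {q : ℕ} [Fact q.Prime] (a : (ZMod q)ˣ) :
    ‖hzv q a - ((((a : ZMod q).val : ℝ) ^ (-(1 / 2 : ℝ)) : ℝ) : ℂ)‖ ≤ 3 * (q : ℝ) ^ (-(1 / 2 : ℝ)) := by
  have : NeZero q := ⟨(Nat.Prime.pos Fact.out).ne'⟩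
  have hq : (0 : ℝ) < q := by exact_mod_cast (Nat.Prime.pos Fact.out : 0 < q)
  have ha := val_pos a
  have ha' : (0 : ℝ) < (a : ZMod q).val := by exact_mod_cast ha
  have ha1 : ((a : ZMod q).val / q : ℝ) ≤ 1 := by
    rw [div_le_one hq]
    exact_mod_cast (ZMod.val_lt (a : ZMod q)).le
  have h1 := hurwitz_two ((a : ZMod q).val / q) (by positivity) ha1
  have h2 : (((a : ZMod q).val : ℝ) ^ (-(1 / 2 : ℝ)) : ℝ) =
      (q : ℝ) ^ (-(1 / 2 : ℝ)) * (((a : ZMod q).val / q : ℝ) ^ (-(1 / 2 : ℝ))) := by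
    rw [Real.div_rpow ha'.le hq.le]
    have : (q : ℝ) ^ (-(1 / 2 : ℝ)) ≠ 0 := by positivity
    field_simp
  unfold hzv
  rw [h2, Complex.ofReal_mul, ← mul_sub, norm_mul, Complex.norm_real,
    Real.norm_of_nonneg (by positivity), mul_comm (3 : ℝ)]
  exact mul_le_mul_of_nonneg_left h1 (by positivity)

/-- the value `a^{-1/2}` if `a` is free of the primes in `B`, and zero otherwise -/
noncomputable def bw (B : Finset ℕ) (n : ℕ) : ℝ :=
  if ∀ p ∈ B, ¬ p ∣ n then (n : ℝ) ^ (-(1 / 2 : ℝ)) else 0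

lemma bw_nonneg (B : Finset ℕ) (n : ℕ) : 0 ≤ bw B n := by
  unfold bw
  split_ifs
  · positivity
  · exact le_rfl

lemma bw_le (B : Finset ℕ) (n : ℕ) : bw B n ≤ (n : ℝ) ^ (-(1 / 2 : ℝ)) := by
  unfold bw
  split_ifs
  · exact le_rfl
  · positivity

lemma bw_step {q : ℕ} [Fact q.Prime] (B : Finset ℕ) (hB : ∀ p ∈ B, p.Prime) (p : ℕ) (hp : p.Prime)
    (hpB : p ∉ B) (a a' : (ZMod q)ˣ) (h : (p : ZMod q) * (a' : ZMod q) = a) :
    |bw (insert p B) (a : ZMod q).val -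
      (bw B (a : ZMod q).val - (p : ℝ) ^ (-(1 / 2 : ℝ)) * bw B (a' : ZMod q).val)| ≤
      (q : ℝ) ^ (-(1 / 2 : ℝ)) := by
  have : NeZero q := ⟨(Nat.Prime.pos Fact.out).ne'⟩
  set u := (a : ZMod q).val with hu
  set v := (a' : ZMod q).val with hv
  have hu0 : 0 < u := val_pos a
  have hv0 : 0 < v := val_pos a'
  have huq : u < q := ZMod.val_lt _
  have hvq : v < q := ZMod.val_lt _
  have hcong : ((p * v : ℕ) : ZMod q) = (u : ZMod q) := by
    push_cast
    rw [hv, hu, ZMod.natCast_zmod_val, ZMod.natCast_zmod_val]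
    exact h
  have hq0 : (0 : ℝ) < (q : ℝ) ^ (-(1 / 2 : ℝ)) := by
    have : (0 : ℝ) < q := by exact_mod_cast (Nat.Prime.pos Fact.out : 0 < q)
    positivity
  by_cases hlt : p * v < q
  · -- then `p * v = u`
    have he : p * v = u := by
      have h1 := congrArg ZMod.val hcong
      rwa [ZMod.val_natCast_of_lt hlt, ZMod.val_natCast_of_lt huq] at h1
    have hpu : p ∣ u := ⟨v, he.symm⟩
    have e1 : bw (insert p B) u = 0 := by
      unfold bw
      rw [if_neg]
      intro h1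
      exact h1 p (Finset.mem_insert_self _ _) hpu
    have hiff : (∀ p' ∈ B, ¬ p' ∣ u) ↔ (∀ p' ∈ B, ¬ p' ∣ v) := by
      constructor
      · intro h1 p' hp' hd
        exact h1 p' hp' (he ▸ Dvd.dvd.mul_left hd p)
      · intro h1 p' hp' hd
        rw [← he, (hB p' hp').dvd_mul] at hd
        rcases hd with hd | hd
        · have := (Nat.prime_dvd_prime_iff_eq (hB p' hp') hp).1 hd
          subst this
          exact hpB hp'
        · exact h1 p' hp' hd
    have e2 : bw B u = (p : ℝ) ^ (-(1 / 2 : ℝ)) * bw B v := by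
      unfold bw
      by_cases hc : ∀ p' ∈ B, ¬ p' ∣ v
      · rw [if_pos (hiff.2 hc), if_pos hc, ← Real.mul_rpow (by positivity) (by positivity), ← he]
        push_cast
        rfl
      · rw [if_neg (fun h1 => hc (hiff.1 h1)), if_neg hc, mul_zero]
    rw [e1, e2]
    simp only [sub_self, abs_zero]
    exact hq0.le
  · push Not at hlt
    have hnd : ¬ p ∣ u ∨ bw B v = 0 ∨ True := Or.inr (Or.inr trivial)
    -- `p ∣ u` impossible: then `u = p * w` and `v = w`
    have hpu : ¬ p ∣ u := by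
      rintro ⟨w, hw⟩
      have hpq : (p : ZMod q) ≠ 0 := by
        intro h0
        rw [h0, zero_mul] at h
        exact a.ne_zero h.symm
      have h1 : (v : ZMod q) = (w : ZMod q) := by
        have h2 : (p : ZMod q) * v = (p : ZMod q) * w := by
          have := hcong
          rw [hw] at this
          push_cast at this
          exact this
        exact mul_left_cancel₀ hpq h2
      have hwq : w < q := by
        have : w ≤ p * w := Nat.le_mul_of_pos_left _ hp.pos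
        omega
      have h2 := congrArg ZMod.val h1
      rw [ZMod.val_natCast_of_lt hvq, ZMod.val_natCast_of_lt hwq] at h2
      rw [h2, ← hw] at hlt
      omega
    have e1 : bw (insert p B) u = bw B u := by
      unfold bw
      congr 1
      rw [eq_iff_iff]
      constructor
      · intro h1 p' hp'
        exact h1 p' (Finset.mem_insert_of_mem hp')
      · intro h1 p' hp'
        rw [Finset.mem_insert] at hp'
        rcases hp' with rfl | hp'
        · exact hpu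
        · exact h1 p' hp'
    rw [e1]
    have e3 : bw B u - (bw B u - (p : ℝ) ^ (-(1 / 2 : ℝ)) * bw B v) =
        (p : ℝ) ^ (-(1 / 2 : ℝ)) * bw B v := by ring
    rw [e3, abs_of_nonneg (mul_nonneg (by positivity) (bw_nonneg _ _))]
    calc (p : ℝ) ^ (-(1 / 2 : ℝ)) * bw B v ≤ (p : ℝ) ^ (-(1 / 2 : ℝ)) * (v : ℝ) ^ (-(1 / 2 : ℝ)) :=
          mul_le_mul_of_nonneg_left (bw_le _ _) (by positivity)
      _ = ((p * v : ℕ) : ℝ) ^ (-(1 / 2 : ℝ)) := by
          rw [← Real.mul_rpow (by positivity) (by positivity)]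
          push_cast
          rfl
      _ ≤ (q : ℝ) ^ (-(1 / 2 : ℝ)) := by
          apply Real.rpow_le_rpow_of_nonpos
          · exact_mod_cast (Nat.Prime.pos Fact.out : 0 < q)
          · exact_mod_cast hlt
          · norm_num

theorem coef_B {q : ℕ} [Fact q.Prime] (B : Finset ℕ) : (∀ p ∈ B, p.Prime ∧ p ≠ q) →
    ∃ c : (ZMod q)ˣ → ℂ,
      (∀ χ : DirichletCharacter ℂ q, DirichletCharacter.LFunction χ (1 / 2) *
        ∏ p ∈ B, (1 - χ (p : ZMod q) * (((p : ℝ) ^ (-(1 / 2 : ℝ)) : ℝ) : ℂ)) =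
        ∑ a : (ZMod q)ˣ, χ (a : ZMod q) * c a) ∧
      ∀ a : (ZMod q)ˣ, ‖c a - (bw B (a : ZMod q).val : ℂ)‖ ≤
        (4 * 2 ^ B.card - 1) * (q : ℝ) ^ (-(1 / 2 : ℝ)) := by
  induction B using Finset.induction_on with
  | empty =>
    intro _
    refine ⟨hzv q, fun χ => ?_, fun a => ?_⟩
    · rw [Finset.prod_empty, mul_one, L_half]
    · have h1 : bw ∅ (a : ZMod q).val = ((a : ZMod q).val : ℝ) ^ (-(1 / 2 : ℝ)) := by
        unfold bw
        rw [if_pos]
        simp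
      rw [h1]
      have := hzv_two a
      rw [Finset.card_empty]
      norm_num
      norm_num at this
      exact this
  | insert p B hpB ih =>
    intro hB
    obtain ⟨c, hc1, hc2⟩ := ih (fun p' hp' => hB p' (Finset.mem_insert_of_mem hp'))
    obtain ⟨hp, hpq⟩ := hB p (Finset.mem_insert_self _ _)
    have hqp : q.Prime := Fact.out
    have hcop : p.Coprime q := (Nat.coprime_primes hp hqp).2 hpq
    set up : (ZMod q)ˣ := ZMod.unitOfCoprime p hcop with hup
    have hupv : ((up : (ZMod q)ˣ) : ZMod q) = (p : ZMod q) := rfl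
    refine ⟨fun a => c a - (((p : ℝ) ^ (-(1 / 2 : ℝ)) : ℝ) : ℂ) * c (up⁻¹ * a), fun χ => ?_, fun a => ?_⟩
    · rw [Finset.prod_insert hpB, mul_comm (1 - _), ← mul_assoc, hc1, mul_sub, mul_one]
      have e1 : ∑ a : (ZMod q)ˣ, χ (a : ZMod q) *
          (c a - (((p : ℝ) ^ (-(1 / 2 : ℝ)) : ℝ) : ℂ) * c (up⁻¹ * a)) =
          ∑ a : (ZMod q)ˣ, χ (a : ZMod q) * c a -
          ∑ a : (ZMod q)ˣ, χ (a : ZMod q) * ((((p : ℝ) ^ (-(1 / 2 : ℝ)) : ℝ) : ℂ) * c (up⁻¹ * a)) := by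
        rw [← Finset.sum_sub_distrib]
        apply Finset.sum_congr rfl
        intro a _
        ring
      rw [e1]
      congr 1
      rw [Finset.sum_mul, ← Equiv.sum_comp (Equiv.mulLeft up⁻¹)
        (fun a : (ZMod q)ˣ => χ (a : ZMod q) * c a * (χ (p : ZMod q) *
          (((p : ℝ) ^ (-(1 / 2 : ℝ)) : ℝ) : ℂ)))]
      apply Finset.sum_congr rfl
      intro a _
      simp only [Equiv.coe_mulLeft]
      have e2 : χ ((a : (ZMod q)ˣ) : ZMod q) = χ (p : ZMod q) * χ ((up⁻¹ * a : (ZMod q)ˣ) : ZMod q) := by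
        rw [← map_mul, ← hupv, ← Units.val_mul, mul_inv_cancel_left]
      rw [e2]
      ring
    · have h1 := bw_step B (fun p' hp' => (hB p' (Finset.mem_insert_of_mem hp')).1) p hp hpB a
        (up⁻¹ * a) (by rw [← hupv, ← Units.val_mul, mul_inv_cancel_left])
      have h2 := hc2 a
      have h3 := hc2 (up⁻¹ * a)
      have hp1 : (p : ℝ) ^ (-(1 / 2 : ℝ)) ≤ 1 :=
        Real.rpow_le_one_of_one_le_of_nonpos (by exact_mod_cast hp.one_lt.le) (by norm_num)
      have hp0 : 0 ≤ (p : ℝ) ^ (-(1 / 2 : ℝ)) := by positivity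
      set Q : ℝ := (q : ℝ) ^ (-(1 / 2 : ℝ)) with hQ
      have hQ0 : 0 ≤ Q := by positivity
      have e4 : c a - (((p : ℝ) ^ (-(1 / 2 : ℝ)) : ℝ) : ℂ) * c (up⁻¹ * a) -
          (bw (insert p B) (a : ZMod q).val : ℂ) =
          (c a - (bw B (a : ZMod q).val : ℂ)) - (((p : ℝ) ^ (-(1 / 2 : ℝ)) : ℝ) : ℂ) *
            (c (up⁻¹ * a) - (bw B ((up⁻¹ * a : (ZMod q)ˣ) : ZMod q).val : ℂ)) -
          ((bw (insert p B) (a : ZMod q).val - (bw B (a : ZMod q).val -
            (p : ℝ) ^ (-(1 / 2 : ℝ)) * bw B ((up⁻¹ * a : (ZMod q)ˣ) : ZMod q).val) : ℝ) : ℂ) := by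
        push_cast
        ring
      rw [e4]
      refine (norm_sub_le _ _).trans ?_
      rw [Complex.norm_real, Real.norm_eq_abs]
      have h5 : ‖(c a - (bw B (a : ZMod q).val : ℂ)) - (((p : ℝ) ^ (-(1 / 2 : ℝ)) : ℝ) : ℂ) *
            (c (up⁻¹ * a) - (bw B ((up⁻¹ * a : (ZMod q)ˣ) : ZMod q).val : ℂ))‖ ≤
          (4 * 2 ^ B.card - 1) * Q + 1 * ((4 * 2 ^ B.card - 1) * Q) := by
        refine (norm_sub_le _ _).trans (add_le_add h2 ?_)
        rw [norm_mul, Complex.norm_real, Real.norm_of_nonneg hp0]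
        exact mul_le_mul hp1 h3 (norm_nonneg _) zero_le_one
      rw [Finset.card_insert_of_notMem hpB, pow_succ]
      have h6 := add_le_add h5 h1
      refine h6.trans (le_of_eq ?_)
      ring

end Pool.Agent.R311.RES
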