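import Mathlib
import Pool.Agent.R311.RES.A7

/-! The sum of `1/(p log p)` over a range of primes. -/

set_option autoImplicit false

namespace Pool.Agent.R311.RES
open Finset Filter Topology

lemma prime_sum_blocks (h : ℝ) (h0 : 0 < h) (h1 : h ≤ 1) : ∃ Y : ℝ, 1 < Y ∧ ∀ y : ℝ, Y ≤ y → ∀ J : ℕ,
    (1 - h / 2) / (1 + h) * (1 / Real.log y - 1 / (Real.log y + J * Real.log (1 + h))) ≤
      ∑ p ∈ (Ioc ⌊y⌋₊ ⌊(1 + h) ^ J * y⌋₊).filter Nat.Prime, 1 / ((p : ℝ) * Real.log p) := by
  obtain ⟨Y, hY1, hY⟩ := primes_interval h h0 h1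
  refine ⟨Y, hY1, fun y hy J => ?_⟩
  have hy0 : 0 < y := by linarith
  have hly : 0 < Real.log y := Real.log_pos (by linarith)
  have hlh : 0 < Real.log (1 + h) := Real.log_pos (by linarith)
  have hlh' : Real.log (1 + h) ≤ h := by
    have := Real.log_le_sub_one_of_pos (show 0 < 1 + h by linarith)
    linarith
  induction J with
  | zero => simp
  | succ J ih =>
    set yJ : ℝ := (1 + h) ^ J * y with hyJ
    have hpow : (1 : ℝ) ≤ (1 + h) ^ J := one_le_pow₀ (by linarith)
    have hyJy : y ≤ yJ := by rw [hyJ]; nlinarith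
    have hyJ0 : 0 < yJ := by linarith
    have hlyJ : Real.log yJ = Real.log y + J * Real.log (1 + h) := by
      rw [hyJ, Real.log_mul (by positivity) hy0.ne', Real.log_pow]
      ring
    have hlyJ0 : 0 < Real.log yJ := by rw [hlyJ]; positivity
    have hyJ1 : (1 + h) ^ (J + 1) * y = (1 + h) * yJ := by rw [hyJ, pow_succ]; ring
    have hlyJ1 : Real.log ((1 + h) * yJ) = Real.log y + ((J + 1 : ℕ) : ℝ) * Real.log (1 + h) := by
      rw [Real.log_mul (by linarith) hyJ0.ne', hlyJ]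
      push_cast
      ring
    have hlyJ10 : 0 < Real.log ((1 + h) * yJ) := by rw [hlyJ1]; positivity
    have hblock := hY yJ (hy.trans hyJy)
    have hsplit : (Ioc ⌊y⌋₊ ⌊(1 + h) ^ (J + 1) * y⌋₊).filter Nat.Prime =
        (Ioc ⌊y⌋₊ ⌊yJ⌋₊).filter Nat.Prime ∪ (Ioc ⌊yJ⌋₊ ⌊(1 + h) * yJ⌋₊).filter Nat.Prime := by
      rw [← Finset.filter_union, hyJ1, Finset.Ioc_union_Ioc_eq_Ioc]
      · exact Nat.floor_mono hyJy
      · apply Nat.floor_mono
        nlinarith
    have hdisj : Disjoint ((Ioc ⌊y⌋₊ ⌊yJ⌋₊).filter Nat.Prime)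
        ((Ioc ⌊yJ⌋₊ ⌊(1 + h) * yJ⌋₊).filter Nat.Prime) := by
      rw [Finset.disjoint_left]
      intro p hp hp'
      rw [mem_filter, mem_Ioc] at hp hp'
      omega
    rw [hsplit, Finset.sum_union hdisj]
    have hblk : (1 - h / 2) / (1 + h) * (1 / Real.log yJ - 1 / Real.log ((1 + h) * yJ)) ≤
        ∑ p ∈ (Ioc ⌊yJ⌋₊ ⌊(1 + h) * yJ⌋₊).filter Nat.Prime, 1 / ((p : ℝ) * Real.log p) := by
      have hterm : ∀ p ∈ (Ioc ⌊yJ⌋₊ ⌊(1 + h) * yJ⌋₊).filter Nat.Prime,
          1 / (((1 + h) * yJ) * Real.log ((1 + h) * yJ)) ≤ 1 / ((p : ℝ) * Real.log p) := by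
        intro p hp
        rw [mem_filter, mem_Ioc] at hp
        have h2 : (1 : ℝ) < p := by exact_mod_cast hp.2.one_lt
        have h3 : (p : ℝ) ≤ (1 + h) * yJ := by
          have := Nat.floor_le (show 0 ≤ (1 + h) * yJ by positivity)
          have h4 : (p : ℝ) ≤ (⌊(1 + h) * yJ⌋₊ : ℝ) := by exact_mod_cast hp.1.2
          linarith
        have h4 := Real.log_pos h2
        apply one_div_le_one_div_of_le (by positivity)
        apply mul_le_mul h3 (Real.log_le_log (by linarith) h3) h4.le (by positivity)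
      have h5 := Finset.card_nsmul_le_sum _ _ _ hterm
      rw [nsmul_eq_mul] at h5
      refine le_trans ?_ h5
      have h6 : (1 - h / 2) * h * (yJ / Real.log yJ) * (1 / (((1 + h) * yJ) * Real.log ((1 + h) * yJ))) ≤
          (((Ioc ⌊yJ⌋₊ ⌊(1 + h) * yJ⌋₊).filter Nat.Prime).card : ℝ) *
          (1 / (((1 + h) * yJ) * Real.log ((1 + h) * yJ))) :=
        mul_le_mul_of_nonneg_right hblock (by positivity)
      refine le_trans ?_ h6
      have h7 : (1 - h / 2) * h * (yJ / Real.log yJ) * (1 / (((1 + h) * yJ) * Real.log ((1 + h) * yJ))) =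
          (1 - h / 2) / (1 + h) * (h / (Real.log yJ * Real.log ((1 + h) * yJ))) := by
        field_simp
      rw [h7]
      apply mul_le_mul_of_nonneg_left _ (by apply div_nonneg <;> linarith)
      have h8 : 1 / Real.log yJ - 1 / Real.log ((1 + h) * yJ) =
          Real.log (1 + h) / (Real.log yJ * Real.log ((1 + h) * yJ)) := by
        have h9 : Real.log ((1 + h) * yJ) = Real.log yJ + Real.log (1 + h) := by
          rw [Real.log_mul (by linarith) hyJ0.ne']; ring
        rw [div_sub_div _ _ hlyJ0.ne' hlyJ10.ne']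
        congr 1
        rw [h9]; ring
      rw [h8]
      apply div_le_div_of_nonneg_right hlh' (by positivity)
    rw [hlyJ, hlyJ1] at hblk
    have h9 : (1 - h / 2) / (1 + h) * (1 / Real.log y - 1 / (Real.log y + ((J + 1 : ℕ) : ℝ) * Real.log (1 + h))) =
        (1 - h / 2) / (1 + h) * (1 / Real.log y - 1 / (Real.log y + J * Real.log (1 + h))) +
        (1 - h / 2) / (1 + h) * (1 / (Real.log y + J * Real.log (1 + h)) -
          1 / (Real.log y + ((J + 1 : ℕ) : ℝ) * Real.log (1 + h))) := by ring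
    rw [h9]
    exact add_le_add ih hblk

theorem prime_sum (η : ℝ) (hη : 0 < η) (hη1 : η ≤ 1) : ∃ A Y : ℝ, 1 ≤ A ∧ 1 < Y ∧ ∀ y : ℝ, Y ≤ y →
    ∃ P0 : Finset ℕ, (∀ p ∈ P0, p.Prime ∧ y < (p : ℝ) ∧ Real.log p ≤ A * Real.log y) ∧
      (1 - η) / Real.log y ≤ ∑ p ∈ P0, 1 / ((p : ℝ) * Real.log p) := by
  set h : ℝ := η / 4 with hh
  obtain ⟨Y, hY1, hY⟩ := prime_sum_blocks h (by positivity) (by linarith)
  set A : ℝ := 4 / η with hA
  have hA4 : 4 ≤ A := by rw [hA, le_div_iff₀ hη]; linarith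
  have hlh : 0 < Real.log (1 + h) := Real.log_pos (by rw [hh]; linarith)
  have hlh' : Real.log (1 + h) ≤ h := by
    have := Real.log_le_sub_one_of_pos (show 0 < 1 + h by rw [hh]; linarith)
    linarith
  refine ⟨A + 1, max Y (Real.exp 1), by linarith, lt_of_lt_of_le hY1 (le_max_left _ _), fun y hy => ?_⟩
  have hyY : Y ≤ y := (le_max_left _ _).trans hy
  have hy0 : 0 < y := by linarith
  have hly1 : 1 ≤ Real.log y := by
    rw [Real.le_log_iff_exp_le hy0]; exact (le_max_right _ _).trans hy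
  set J : ℕ := ⌈(A - 1) * Real.log y / Real.log (1 + h)⌉₊ with hJ
  have hJ1 : (A - 1) * Real.log y / Real.log (1 + h) ≤ J := Nat.le_ceil _
  have hJ2 : (J : ℝ) < (A - 1) * Real.log y / Real.log (1 + h) + 1 := by
    apply Nat.ceil_lt_add_one
    apply div_nonneg _ hlh.le
    apply mul_nonneg <;> linarith
  have hJ3 : (A - 1) * Real.log y ≤ J * Real.log (1 + h) := by
    rw [div_le_iff₀ hlh] at hJ1; exact hJ1
  have hJ4 : J * Real.log (1 + h) ≤ (A - 1) * Real.log y + 1 := by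
    have h2 : J * Real.log (1 + h) ≤ ((A - 1) * Real.log y / Real.log (1 + h) + 1) * Real.log (1 + h) :=
      mul_le_mul_of_nonneg_right hJ2.le hlh.le
    rw [add_mul, div_mul_cancel₀ _ hlh.ne'] at h2
    linarith
  refine ⟨(Ioc ⌊y⌋₊ ⌊(1 + h) ^ J * y⌋₊).filter Nat.Prime, ?_, ?_⟩
  · intro p hp
    rw [mem_filter, mem_Ioc] at hp
    refine ⟨hp.2, (Nat.floor_lt hy0.le).1 hp.1.1, ?_⟩
    have h3 : (p : ℝ) ≤ (1 + h) ^ J * y := by
      have h4 : (p : ℝ) ≤ (⌊(1 + h) ^ J * y⌋₊ : ℝ) := by exact_mod_cast hp.1.2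
      exact h4.trans (Nat.floor_le (by positivity))
    have h5 : Real.log p ≤ Real.log ((1 + h) ^ J * y) := by
      apply Real.log_le_log _ h3
      exact_mod_cast hp.2.pos
    rw [Real.log_mul (by positivity) hy0.ne', Real.log_pow] at h5
    linarith
  · refine le_trans ?_ (hY y hyY J)
    have hly0 : 0 < Real.log y := by linarith
    have h3 : 1 / (Real.log y + J * Real.log (1 + h)) ≤ 1 / (A * Real.log y) := by
      apply one_div_le_one_div_of_le (by positivity)
      linarith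
    have h4 : (1 - 1 / A) / Real.log y ≤ 1 / Real.log y - 1 / (Real.log y + J * Real.log (1 + h)) := by
      have : (1 - 1 / A) / Real.log y = 1 / Real.log y - 1 / (A * Real.log y) := by field_simp
      rw [this]
      linarith
    have h5 : 0 ≤ (1 - h / 2) / (1 + h) := by apply div_nonneg <;> linarith
    refine le_trans ?_ (mul_le_mul_of_nonneg_left h4 h5)
    rw [← mul_div_assoc]
    apply div_le_div_of_nonneg_right _ hly0.le
    have h6 : 1 / A = η / 4 := by rw [hA]; field_simp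
    have h7 : 1 - 3 / 2 * h ≤ (1 - h / 2) / (1 + h) := by
      rw [le_div_iff₀ (by linarith)]
      nlinarith
    rw [h6]
    have h8 : (1 - 3 / 2 * h) * (1 - η / 4) ≤ (1 - h / 2) / (1 + h) * (1 - η / 4) :=
      mul_le_mul_of_nonneg_right h7 (by linarith)
    refine le_trans ?_ h8
    rw [hh]
    nlinarith

end Pool.Agent.R311.RES
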