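import Mathlib
import Pool.Agent.R311.RES.A8
import Pool.Agent.R311.RES.C10

/-! Asymptotic facts used in the proof for all cosets. -/

set_option autoImplicit false

namespace Pool.Agent.R311.RES
open Filter Topology

/-- the facts about `x = log q` -/
structure FC (e A d f Y x : ℝ) : Prop where
  g1 : 2 ≤ Real.log (Real.log x)
  g2 : Real.log (Real.log x) ≤ e * Real.log x
  g5 : Real.log (x * Real.log x) ≤ Real.sqrt (x * Real.log x)
  g6 : Y ≤ x * Real.log x
  g7 : Real.log 4 + 1 ≤ d * Real.sqrt (x * Real.log (Real.log x) / Real.log x)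
  g8 : 8 * d ^ 2 * (x / Real.log x) ≤ e * (x * Real.log x)
  g9 : (A * (2 * Real.log x)) ^ 2 * (A + 1) ≤ e ^ 2 * ((1 / 3 - 3 * e) * x)
  g10 : A * (2 * Real.log x) ≤ e ^ 2 * x / 2
  g11 : 1 ≤ e * x
  g12 : 20 / e ≤ Real.log x
  g14 : (53 + 48 * x) * Real.exp (-(e / 2 * x)) ≤ 1 / 8
  g15 : Real.log x ≤ f ^ 2 / 16 * (x / Real.log x)
  g16 : 4 ≤ f * Real.sqrt (x / Real.log x)
  g17 : d * Real.sqrt (x * Real.log (Real.log x) / Real.log x) ≤ e / 20 * x
  g18 : 9 ≤ x

lemma sq_small (C : ℝ) : ∀ᶠ x : ℝ in atTop, C * Real.log x ^ 2 ≤ x := by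
  filter_upwards [lpow C 2, eventually_ge_atTop (1 : ℝ)] with x h1 h2
  refine h1.trans ?_
  calc x ^ (1 / 4 : ℝ) ≤ x ^ (1 : ℝ) := Real.rpow_le_rpow_of_exponent_le h2 (by norm_num)
    _ = x := Real.rpow_one x

theorem factsC (e A d f Y : ℝ) (he : 0 < e) (he1 : e < 1 / 20) (hA : 1 ≤ A) (hd : 0 < d) (hf : 0 < f) :
    ∀ᶠ x : ℝ in atTop, FC e A d f Y x := by
  have hL3 := loglog_tendsto
  have hL2 := Real.tendsto_log_atTop
  have e1 : ∀ᶠ x : ℝ in atTop, Real.log (Real.log x) ≤ e * Real.log x :=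
    Real.tendsto_log_atTop.eventually (log_small e he)
  have e2 : ∀ᶠ x : ℝ in atTop, Real.log (Real.log x) ≤ 1 * Real.log x :=
    Real.tendsto_log_atTop.eventually (log_small 1 one_pos)
  have hexp : ∀ᶠ x : ℝ in atTop, (53 + 48 * x) * Real.exp (-(e / 2 * x)) ≤ 1 / 8 := by
    have h1 : Tendsto (fun x : ℝ => (e / 2 * x)) atTop atTop :=
      Filter.Tendsto.const_mul_atTop (by positivity) tendsto_id
    have h2 : Tendsto (fun t : ℝ => t ^ 1 * Real.exp (-t)) atTop (𝓝 0) :=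
      Real.tendsto_pow_mul_exp_neg_atTop_nhds_zero 1
    have h3 : Tendsto (fun t : ℝ => t ^ 0 * Real.exp (-t)) atTop (𝓝 0) :=
      Real.tendsto_pow_mul_exp_neg_atTop_nhds_zero 0
    have h4 : Tendsto (fun t : ℝ => 53 * (t ^ 0 * Real.exp (-t)) + (96 / e) * (t ^ 1 * Real.exp (-t)))
        atTop (𝓝 (53 * 0 + (96 / e) * 0)) := (h3.const_mul _).add (h2.const_mul _)
    have h5 := h4.comp h1
    rw [mul_zero, mul_zero, add_zero] at h5
    have h6 := h5.eventually (eventually_le_nhds (show (0 : ℝ) < 1 / 8 by norm_num))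
    filter_upwards [h6] with x hx
    refine le_trans (le_of_eq ?_) hx
    simp only [Function.comp]
    field_simp
    ring
  filter_upwards [hL3.eventually_ge_atTop 2, e1, e2, hexp,
    eventually_ge_atTop (9 : ℝ), eventually_ge_atTop (1 / e), eventually_ge_atTop Y,
    hL2.eventually_ge_atTop 1, hL2.eventually_ge_atTop (20 / e),
    hL2.eventually_ge_atTop (8 * d ^ 2 / e),
    sq_small 4, sq_small (((Real.log 4 + 1) / d) ^ 2),
    sq_small (4 * A ^ 2 * (A + 1) / (e ^ 2 * (1 / 3 - 3 * e))), sq_small (4 * A / e ^ 2),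
    sq_small (16 / f ^ 2), sq_small ((4 / f) ^ 2), sq_small ((20 * d / e) ^ 2)]
    with x a1 a2 a3 a4 a5 a6 a7 a8 a9 a10 b1 b2 b3 b4 b5 b6 b7
  set L := Real.log x with hL
  set M := Real.log L with hM
  have hx0 : 0 < x := by linarith
  have hL0 : 0 < L := by linarith
  have hM0 : 0 < M := by linarith
  have hLL : L ≤ L ^ 2 := by nlinarith
  have hL1 : 1 ≤ L ^ 2 := by nlinarith
  have hML : M ≤ L := by linarith
  -- `log (x L) ≤ 2 L`
  have hxL : Real.log (x * L) = L + M := Real.log_mul hx0.ne' hL0.ne'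
  refine ⟨a1, a2, ?_, ?_, ?_, ?_, ?_, ?_, ?_, a9, a4, ?_, ?_, ?_, a5⟩
  · rw [hxL]
    apply Real.le_sqrt_of_sq_le
    nlinarith
  · nlinarith
  · have h1 : (Real.log 4 + 1) / d ≤ Real.sqrt (x * M / L) := by
      apply Real.le_sqrt_of_sq_le
      rw [le_div_iff₀ hL0]
      have h2 : ((Real.log 4 + 1) / d) ^ 2 * L ≤ ((Real.log 4 + 1) / d) ^ 2 * L ^ 2 :=
        mul_le_mul_of_nonneg_left hLL (sq_nonneg _)
      nlinarith
    rw [div_le_iff₀ hd] at h1
    linarith
  · rw [div_le_iff₀ he] at a10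
    have h1 : 8 * d ^ 2 * (x / L) ≤ 8 * d ^ 2 * x :=
      mul_le_mul_of_nonneg_left (div_le_self hx0.le a8) (by positivity)
    nlinarith
  · have h0 : 0 < e ^ 2 * (1 / 3 - 3 * e) := by
      apply mul_pos (by positivity); linarith
    rw [div_mul_eq_mul_div, div_le_iff₀ h0] at b3
    nlinarith
  · rw [div_mul_eq_mul_div, div_le_iff₀ (by positivity)] at b4
    have h2 : 4 * A * L ≤ 4 * A * L ^ 2 := mul_le_mul_of_nonneg_left hLL (by positivity)
    nlinarith
  · rw [div_le_iff₀ he] at a6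
    linarith
  · rw [mul_div_assoc', le_div_iff₀ hL0]
    rw [div_mul_eq_mul_div, div_le_iff₀ (by positivity)] at b5
    nlinarith
  · have h1 : 4 / f ≤ Real.sqrt (x / L) := by
      apply Real.le_sqrt_of_sq_le
      rw [le_div_iff₀ hL0]
      have h2 : (4 / f) ^ 2 * L ≤ (4 / f) ^ 2 * L ^ 2 := mul_le_mul_of_nonneg_left hLL (sq_nonneg _)
      linarith
    rw [div_le_iff₀ hf] at h1
    linarith
  · have h1 : Real.sqrt (x * M / L) ≤ e / (20 * d) * x := by
      rw [Real.sqrt_le_left (by positivity), div_le_iff₀ hL0]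
      have h2 : (20 * d / e) ^ 2 ≤ x := by
        calc (20 * d / e) ^ 2 = (20 * d / e) ^ 2 * 1 := by ring
          _ ≤ (20 * d / e) ^ 2 * L ^ 2 := mul_le_mul_of_nonneg_left hL1 (sq_nonneg _)
          _ ≤ x := b7
      have h3 : 1 ≤ (e / (20 * d)) ^ 2 * x := by
        have h4 : (e / (20 * d)) ^ 2 * (20 * d / e) ^ 2 = 1 := by field_simp
        calc 1 = (e / (20 * d)) ^ 2 * (20 * d / e) ^ 2 := h4.symm
          _ ≤ _ := mul_le_mul_of_nonneg_left h2 (sq_nonneg _)
      calc x * M ≤ x * L := mul_le_mul_of_nonneg_left hML hx0.le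
        _ = 1 * (x * L) := by ring
        _ ≤ ((e / (20 * d)) ^ 2 * x) * (x * L) := mul_le_mul_of_nonneg_right h3 (by positivity)
        _ = _ := by ring
    calc d * Real.sqrt (x * M / L) ≤ d * (e / (20 * d) * x) := mul_le_mul_of_nonneg_left h1 hd.le
      _ = e / 20 * x := by field_simp

end Pool.Agent.R311.RES
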