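import Mathlib

/-! Squarefree products of primes from a finite set, truncated at `N`. -/

set_option autoImplicit false

namespace Pool.Agent.R311.RES
open Finset
open scoped Classical

/-- the product of the elements -/
def ms (S : Finset ℕ) : ℕ := ∏ p ∈ S, p

/-- the weight -/
noncomputable def ws (r : ℕ → ℝ) (S : Finset ℕ) : ℝ := ∏ p ∈ S, r p

/-- the index set -/
noncomputable def IN (P : Finset ℕ) (N : ℕ) : Finset (Finset ℕ) :=
  P.powerset.filter (fun S => ms S ≤ N)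

noncomputable def EN (r : ℕ → ℝ) (P : Finset ℕ) (N : ℕ) : ℝ := ∑ S ∈ IN P N, ws r S ^ 2

noncomputable def FN (r : ℕ → ℝ) (P : Finset ℕ) (N : ℕ) : ℝ :=
  ∑ T ∈ IN P N, ∑ S ∈ T.powerset, ws r T * ws r S * (Real.sqrt (ms S) / Real.sqrt (ms T))

noncomputable def gs (r : ℕ → ℝ) (P : Finset ℕ) (s : ℕ) : ℝ :=
  (∏ p ∈ P.filter (fun p => p ∣ s), (1 + r p * Real.sqrt p)) / Real.sqrt s

lemma mem_IN {P : Finset ℕ} {N : ℕ} {S : Finset ℕ} : S ∈ IN P N ↔ S ⊆ P ∧ ms S ≤ N := by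
  rw [IN, mem_filter, mem_powerset]

lemma ms_pos {S : Finset ℕ} (h : ∀ p ∈ S, p.Prime) : 0 < ms S :=
  Finset.prod_pos fun p hp => (h p hp).pos

lemma ms_disj {S T : Finset ℕ} (h : Disjoint S T) : ms (S ∪ T) = ms S * ms T :=
  Finset.prod_union h

lemma ws_disj (r : ℕ → ℝ) {S T : Finset ℕ} (h : Disjoint S T) : ws r (S ∪ T) = ws r S * ws r T :=
  Finset.prod_union h

lemma ws_nonneg {r : ℕ → ℝ} (hr : ∀ p, 0 ≤ r p) (S : Finset ℕ) : 0 ≤ ws r S :=
  Finset.prod_nonneg fun p _ => hr p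

lemma ms_pf {S : Finset ℕ} (h : ∀ p ∈ S, p.Prime) : (ms S).primeFactors = S :=
  Nat.primeFactors_prod h

lemma ms_inj {S T : Finset ℕ} (h : ∀ p ∈ S, p.Prime) (h' : ∀ p ∈ T, p.Prime) (he : ms S = ms T) :
    S = T := by
  rw [← ms_pf h, ← ms_pf h', he]

lemma ms_dvd_iff {S : Finset ℕ} (h : ∀ p ∈ S, p.Prime) (n : ℕ) : ms S ∣ n ↔ ∀ p ∈ S, p ∣ n := by
  constructor
  · intro hd p hp
    exact (Finset.dvd_prod_of_mem _ hp).trans hd
  · intro hd
    exact Finset.prod_primes_dvd n (fun p hp => (h p hp).prime) hd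

lemma prime_dvd_ms {S : Finset ℕ} (h : ∀ p ∈ S, p.Prime) {p : ℕ} (hp : p.Prime) :
    p ∣ ms S ↔ p ∈ S := by
  constructor
  · intro hd
    rw [← ms_pf h, Nat.mem_primeFactors]
    exact ⟨hp, hd, (ms_pos h).ne'⟩
  · intro hm
    exact Finset.dvd_prod_of_mem _ hm

lemma dvd_ms_eq {S : Finset ℕ} (h : ∀ p ∈ S, p.Prime) {t : ℕ} (ht : t ∣ ms S) :
    t.primeFactors ⊆ S ∧ ms t.primeFactors = t := by
  have hS := ms_pos h
  refine ⟨?_, ?_⟩
  · intro p hp
    rw [Nat.mem_primeFactors] at hp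
    exact (prime_dvd_ms h hp.1).1 (hp.2.1.trans ht)
  · have hsq : Squarefree (ms S) := by
      unfold ms
      apply Finset.squarefree_prod_of_pairwise_isCoprime
      · intro p hp p' hp' hne
        rw [Function.onFun, ← Nat.coprime_iff_isRelPrime]
        exact (Nat.coprime_primes (h p hp) (h p' hp')).2 hne
      · intro p hp
        exact (h p hp).squarefree
    exact Nat.prod_primeFactors_of_squarefree (hsq.squarefree_of_dvd ht)

lemma gs_eq (r : ℕ → ℝ) (P : Finset ℕ) (s : ℕ) : gs r P s =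
    ∑ S ∈ (P.filter (fun p => p ∣ s)).powerset, ws r S * (Real.sqrt (ms S) / Real.sqrt s) := by
  unfold gs
  rw [Finset.prod_one_add, Finset.sum_div]
  apply Finset.sum_congr rfl
  intro S _
  rw [Finset.prod_mul_distrib, mul_div_assoc]
  congr 2
  unfold ms
  rw [Nat.cast_prod, Real.sqrt_prod]
  intro p _
  exact Nat.cast_nonneg _

lemma gs_nonneg {r : ℕ → ℝ} (hr : ∀ p, 0 ≤ r p) (P : Finset ℕ) (s : ℕ) : 0 ≤ gs r P s := by
  unfold gs
  apply div_nonneg _ (Real.sqrt_nonneg _)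
  apply Finset.prod_nonneg
  intro p _
  have := hr p
  positivity

lemma FN_nonneg {r : ℕ → ℝ} (hr : ∀ p, 0 ≤ r p) (P : Finset ℕ) (N : ℕ) : 0 ≤ FN r P N := by
  unfold FN
  apply Finset.sum_nonneg
  intro T _
  apply Finset.sum_nonneg
  intro S _
  exact mul_nonneg (mul_nonneg (ws_nonneg hr T) (ws_nonneg hr S)) (by positivity)

theorem D_bound (r : ℕ → ℝ) (P : Finset ℕ) (hP : ∀ p ∈ P, p.Prime) (hr : ∀ p, 0 ≤ r p) (N s t : ℕ)
    (hs : 0 < s) (ht : 0 < t) (hst : Nat.Coprime s t) :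
    ∑ z ∈ (IN P N ×ˢ IN P N).filter (fun z => ms z.1 * t ∣ ms z.2 * s),
      ws r z.1 * ws r z.2 * (Real.sqrt (ms z.1 * t) / Real.sqrt (ms z.2 * s)) ≤
      ws r t.primeFactors * gs r P s * FN r P N := by
  set X := (IN P N ×ˢ IN P N).filter (fun z => ms z.1 * t ∣ ms z.2 * s) with hX
  · have key : ∀ z ∈ X, t.primeFactors ⊆ z.2 ∧ ms t.primeFactors = t ∧ z.1 ⊆ P ∧ z.2 ⊆ P ∧
        ms z.2 ≤ N ∧ ∀ p ∈ z.1, p ∉ z.2 \ t.primeFactors → p ∣ s := by
      intro z hz
      rw [hX, mem_filter, mem_product, mem_IN, mem_IN] at hz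
      obtain ⟨⟨⟨a1, a2⟩, a3, a4⟩, a5⟩ := hz
      have hp2 : ∀ p ∈ z.2, p.Prime := fun p hp => hP p (a3 hp)
      have hd : t ∣ ms z.2 := by
        have h1 : t ∣ ms z.2 * s := (Dvd.intro_left _ rfl).trans a5
        exact Nat.Coprime.dvd_of_dvd_mul_right hst.symm h1
      obtain ⟨b1, b2⟩ := dvd_ms_eq hp2 hd
      refine ⟨b1, b2, a1, a3, a4, ?_⟩
      intro p hp hpn
      have hpp := hP p (a1 hp)
      -- `ms z.1 ∣ ms (z.2 \ pf t) * s`
      have h2 : ms z.2 = ms (z.2 \ t.primeFactors) * t := by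
        rw [← b2, ms_pf (fun p hp => Nat.prime_of_mem_primeFactors hp), ← ms_disj sdiff_disjoint,
          sdiff_union_of_subset b1]
      have h3 : ms z.1 ∣ ms (z.2 \ t.primeFactors) * s := by
        rw [h2] at a5
        have h4 : ms z.1 * t ∣ (ms (z.2 \ t.primeFactors) * s) * t := by
          calc ms z.1 * t ∣ _ := a5
            _ = _ := by ring
        exact Nat.dvd_of_mul_dvd_mul_right ht h4
      have h4 : p ∣ ms (z.2 \ t.primeFactors) * s := (Finset.dvd_prod_of_mem _ hp).trans h3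
      rcases (hpp.dvd_mul).1 h4 with h5 | h5
      · exact absurd ((prime_dvd_ms (fun p' hp' => hp2 p' (mem_sdiff.1 hp').1) hpp).1 h5) hpn
      · exact h5
    set A := P.filter (fun p => p ∣ s) with hA
    set Y : Finset (Σ _ : Finset ℕ, Finset ℕ × Finset ℕ) :=
      (IN P N).sigma (fun J => J.powerset ×ˢ A.powerset) with hY
    set φ : Finset ℕ × Finset ℕ → (Σ _ : Finset ℕ, Finset ℕ × Finset ℕ) := fun z =>
      ⟨z.2 \ t.primeFactors, (z.1 ∩ (z.2 \ t.primeFactors), z.1 \ (z.2 \ t.primeFactors))⟩ with hφ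
    set f : (Σ _ : Finset ℕ, Finset ℕ × Finset ℕ) → ℝ := fun y =>
      ws r t.primeFactors * ((ws r y.1 * ws r y.2.1 * (Real.sqrt (ms y.2.1) / Real.sqrt (ms y.1))) *
        (ws r y.2.2 * (Real.sqrt (ms y.2.2) / Real.sqrt s))) with hf
    have hφY : ∀ z ∈ X, φ z ∈ Y := by
      intro z hz
      obtain ⟨b1, b2, b3, b4, b5, b6⟩ := key z hz
      rw [hY, mem_sigma, mem_product, mem_powerset, mem_powerset, mem_IN]
      refine ⟨⟨(sdiff_subset).trans b4, ?_⟩, inter_subset_right, ?_⟩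
      · refine le_trans ?_ b5
        apply Nat.le_of_dvd (ms_pos fun p hp => hP p (b4 hp))
        exact Finset.prod_dvd_prod_of_subset _ _ _ sdiff_subset
      · intro p hp
        have hp' := mem_sdiff.1 hp
        rw [hA, mem_filter]
        exact ⟨b3 hp'.1, b6 p hp'.1 hp'.2⟩
    have hinj : Set.InjOn φ X := by
      intro z hz z' hz' h
      obtain ⟨b1, -⟩ := key z hz
      obtain ⟨b1', -⟩ := key z' hz'
      simp only [hφ, Sigma.mk.injEq, heq_eq_eq, Prod.mk.injEq] at h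
      obtain ⟨h1, h2, h3⟩ := h
      apply Prod.ext
      · rw [← sdiff_union_inter z.1 (z.2 \ t.primeFactors), ← sdiff_union_inter z'.1 (z'.2 \ t.primeFactors),
          h2, h3]
      · rw [← sdiff_union_of_subset b1, ← sdiff_union_of_subset b1', h1]
    have hval : ∀ z ∈ X, ws r z.1 * ws r z.2 * (Real.sqrt (ms z.1 * t) / Real.sqrt (ms z.2 * s)) =
        f (φ z) := by
      intro z hz
      obtain ⟨b1, b2, b3, b4, b5, b6⟩ := key z hz
      have w1 : ws r z.1 = ws r (z.1 ∩ (z.2 \ t.primeFactors)) * ws r (z.1 \ (z.2 \ t.primeFactors)) := by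
        rw [← ws_disj r (disjoint_sdiff_inter _ _).symm, union_comm, sdiff_union_inter]
      have m1 : ms z.1 = ms (z.1 ∩ (z.2 \ t.primeFactors)) * ms (z.1 \ (z.2 \ t.primeFactors)) := by
        rw [← ms_disj (disjoint_sdiff_inter _ _).symm, union_comm, sdiff_union_inter]
      have w2 : ws r z.2 = ws r (z.2 \ t.primeFactors) * ws r t.primeFactors := by
        rw [← ws_disj r sdiff_disjoint, sdiff_union_of_subset b1]
      have m2 : ms z.2 = ms (z.2 \ t.primeFactors) * t := by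
        conv_rhs => rw [← b2]
        rw [ms_pf (fun p hp => Nat.prime_of_mem_primeFactors hp), ← ms_disj sdiff_disjoint,
          sdiff_union_of_subset b1]
      have p3 : 0 < ms (z.2 \ t.primeFactors) := ms_pos fun p hp => hP p (b4 (mem_sdiff.1 hp).1)
      simp only [hf, hφ]
      rw [w1, w2, m1, m2]
      push_cast
      rw [Real.sqrt_mul (by positivity), Real.sqrt_mul (by positivity), Real.sqrt_mul (by positivity),
        Real.sqrt_mul (by positivity)]
      have q1 : Real.sqrt t ≠ 0 := (Real.sqrt_pos.2 (by exact_mod_cast ht)).ne'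
      have q2 : Real.sqrt s ≠ 0 := (Real.sqrt_pos.2 (by exact_mod_cast hs)).ne'
      have q3 : Real.sqrt (ms (z.2 \ t.primeFactors)) ≠ 0 := (Real.sqrt_pos.2 (by exact_mod_cast p3)).ne'
      field_simp
    have hf0 : ∀ y ∈ Y, 0 ≤ f y := by
      intro y _
      have v1 := ws_nonneg hr t.primeFactors
      have v2 := ws_nonneg hr y.1
      have v3 := ws_nonneg hr y.2.1
      have v4 := ws_nonneg hr y.2.2
      simp only [hf]
      positivity
    rw [Finset.sum_congr rfl hval, ← Finset.sum_image (f := f) hinj]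
    refine (Finset.sum_le_sum_of_subset_of_nonneg ?_ fun y hy _ => hf0 y hy).trans (le_of_eq ?_)
    · intro y hy
      rw [mem_image] at hy
      obtain ⟨z, hz, rfl⟩ := hy
      exact hφY z hz
    · rw [hY, Finset.sum_sigma, FN, gs_eq, Finset.mul_sum]
      apply Finset.sum_congr rfl
      intro J _
      simp only [hf]
      rw [Finset.sum_product, mul_assoc, mul_comm (∑ S ∈ _, _), Finset.sum_mul_sum, Finset.mul_sum]
      apply Finset.sum_congr rfl
      intro S _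
      rw [Finset.mul_sum]

lemma E_bound (r : ℕ → ℝ) (P : Finset ℕ) (hP : ∀ p ∈ P, p.Prime) (hr : ∀ p, 0 ≤ r p) (N s t : ℕ)
    (hs : 0 < s) (ht : 0 < t) (hst : Nat.Coprime s t) :
    ∑ z ∈ (IN P N ×ˢ IN P N).filter (fun z => ms z.1 * t = ms z.2 * s),
      ws r z.1 * ws r z.2 ≤ ws r s.primeFactors * ws r t.primeFactors * EN r P N := by
  set X := (IN P N ×ˢ IN P N).filter (fun z => ms z.1 * t = ms z.2 * s) with hX
  have key : ∀ z ∈ X, t.primeFactors ⊆ z.2 ∧ s.primeFactors ⊆ z.1 ∧ z.2 ⊆ P ∧ ms z.2 ≤ N ∧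
      z.1 \ s.primeFactors = z.2 \ t.primeFactors := by
    intro z hz
    rw [hX, mem_filter, mem_product, mem_IN, mem_IN] at hz
    obtain ⟨⟨⟨a1, a2⟩, a3, a4⟩, a5⟩ := hz
    have hp2 : ∀ p ∈ z.2, p.Prime := fun p hp => hP p (a3 hp)
    have hp1 : ∀ p ∈ z.1, p.Prime := fun p hp => hP p (a1 hp)
    have hd : t ∣ ms z.2 := Nat.Coprime.dvd_of_dvd_mul_right hst.symm ⟨ms z.1, by rw [← a5]; ring⟩
    have hd' : s ∣ ms z.1 := Nat.Coprime.dvd_of_dvd_mul_right hst ⟨ms z.2, by rw [a5]; ring⟩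
    obtain ⟨b1, b2⟩ := dvd_ms_eq hp2 hd
    obtain ⟨c1, c2⟩ := dvd_ms_eq hp1 hd'
    refine ⟨b1, c1, a3, a4, ?_⟩
    apply ms_inj (fun p hp => hp1 p (mem_sdiff.1 hp).1) (fun p hp => hp2 p (mem_sdiff.1 hp).1)
    have m2 : ms z.2 = ms (z.2 \ t.primeFactors) * t := by
      conv_rhs => rw [← b2]
      rw [ms_pf (fun p hp => Nat.prime_of_mem_primeFactors hp), ← ms_disj sdiff_disjoint,
        sdiff_union_of_subset b1]
    have m1 : ms z.1 = ms (z.1 \ s.primeFactors) * s := by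
      conv_rhs => rw [← c2]
      rw [ms_pf (fun p hp => Nat.prime_of_mem_primeFactors hp), ← ms_disj sdiff_disjoint,
        sdiff_union_of_subset c1]
    rw [m1, m2] at a5
    have h6 : ms (z.1 \ s.primeFactors) * (s * t) = ms (z.2 \ t.primeFactors) * (s * t) := by
      calc _ = ms (z.1 \ s.primeFactors) * s * t := by ring
        _ = _ := a5
        _ = _ := by ring
    exact Nat.eq_of_mul_eq_mul_right (Nat.mul_pos hs ht) h6
  have hval : ∀ z ∈ X, ws r z.1 * ws r z.2 =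
      ws r s.primeFactors * ws r t.primeFactors * ws r (z.2 \ t.primeFactors) ^ 2 := by
    intro z hz
    obtain ⟨b1, b2, b3, b4, b5⟩ := key z hz
    have w2 : ws r z.2 = ws r (z.2 \ t.primeFactors) * ws r t.primeFactors := by
      rw [← ws_disj r sdiff_disjoint, sdiff_union_of_subset b1]
    have w1 : ws r z.1 = ws r (z.2 \ t.primeFactors) * ws r s.primeFactors := by
      rw [← b5, ← ws_disj r sdiff_disjoint, sdiff_union_of_subset b2]
    rw [w1, w2]
    ring
  rw [Finset.sum_congr rfl hval, ← Finset.mul_sum]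
  apply mul_le_mul_of_nonneg_left _ (mul_nonneg (ws_nonneg hr _) (ws_nonneg hr _))
  have hinj : Set.InjOn (fun z : Finset ℕ × Finset ℕ => z.2 \ t.primeFactors) X := by
    intro z hz z' hz' h
    obtain ⟨b1, b2, b3, b4, b5⟩ := key z hz
    obtain ⟨b1', b2', b3', b4', b5'⟩ := key z' hz'
    simp only at h
    apply Prod.ext
    · rw [← sdiff_union_of_subset b2, ← sdiff_union_of_subset b2', b5, b5', h]
    · rw [← sdiff_union_of_subset b1, ← sdiff_union_of_subset b1', h]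
  rw [← Finset.sum_image (f := fun J => ws r J ^ 2) hinj, EN]
  apply Finset.sum_le_sum_of_subset_of_nonneg _ (fun J _ _ => sq_nonneg _)
  intro J hJ
  rw [mem_image] at hJ
  obtain ⟨z, hz, rfl⟩ := hJ
  obtain ⟨b1, b2, b3, b4, b5⟩ := key z hz
  rw [mem_IN]
  refine ⟨sdiff_subset.trans b3, le_trans ?_ b4⟩
  apply Nat.le_of_dvd (ms_pos fun p hp => hP p (b3 hp))
  exact Finset.prod_dvd_prod_of_subset _ _ _ sdiff_subset

lemma powerset_eq (P : Finset ℕ) (hP : ∀ p ∈ P, p.Prime) (N : ℕ) {T : Finset ℕ} (hT : T ∈ IN P N) :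
    T.powerset = (IN P N).filter (fun S => S ⊆ T) := by
  ext S
  rw [mem_powerset, mem_filter, mem_IN]
  rw [mem_IN] at hT
  constructor
  · intro h
    refine ⟨⟨h.trans hT.1, le_trans ?_ hT.2⟩, h⟩
    apply Nat.le_of_dvd (ms_pos fun p hp => hP p (hT.1 hp))
    exact Finset.prod_dvd_prod_of_subset _ _ _ h
  · intro h
    exact h.2

lemma EN_le_FN {r : ℕ → ℝ} (hr : ∀ p, 0 ≤ r p) (P : Finset ℕ) (hP : ∀ p ∈ P, p.Prime) (N : ℕ) :
    EN r P N ≤ FN r P N := by
  unfold EN FN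
  apply Finset.sum_le_sum
  intro T hT
  rw [mem_IN] at hT
  have h1 : ws r T ^ 2 = ws r T * ws r T * (Real.sqrt (ms T) / Real.sqrt (ms T)) := by
    have : 0 < ms T := ms_pos fun p hp => hP p (hT.1 hp)
    have h2 : Real.sqrt (ms T) ≠ 0 := (Real.sqrt_pos.2 (by exact_mod_cast this)).ne'
    rw [div_self h2]
    ring
  rw [h1]
  apply Finset.single_le_sum (f := fun S => ws r T * ws r S * (Real.sqrt (ms S) / Real.sqrt (ms T)))
    (fun S _ => mul_nonneg (mul_nonneg (ws_nonneg hr T) (ws_nonneg hr S)) (by positivity))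
  rw [mem_powerset]

lemma card_IN (P : Finset ℕ) (hP : ∀ p ∈ P, p.Prime) (N : ℕ) : (IN P N).card ≤ N := by
  have : (IN P N).card ≤ (Icc 1 N).card := by
    apply Finset.card_le_card_of_injOn ms
    · intro S hS
      rw [mem_coe, mem_IN] at hS
      rw [mem_coe, mem_Icc]
      exact ⟨ms_pos fun p hp => hP p (hS.1 hp), hS.2⟩
    · intro S hS T hT h
      rw [mem_coe, mem_IN] at hS hT
      exact ms_inj (fun p hp => hP p (hS.1 hp)) (fun p hp => hP p (hT.1 hp)) h
  simpa using this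

lemma sum_ws_sq (r : ℕ → ℝ) (P : Finset ℕ) (hP : ∀ p ∈ P, p.Prime) (N : ℕ) :
    (∑ S ∈ IN P N, ws r S) ^ 2 ≤ N * EN r P N := by
  refine sq_sum_le_card_mul_sum_sq.trans ?_
  apply mul_le_mul_of_nonneg_right _ (Finset.sum_nonneg fun S _ => sq_nonneg _)
  exact_mod_cast card_IN P hP N

end Pool.Agent.R311.RES
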