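import Mathlib
import Pool.Agent.R311.RES.C4

/-! Chebyshev's inequality for the measure on squarefree products. -/

set_option autoImplicit false

namespace Pool.Agent.R311.RES
open Finset
open scoped Classical

/-- first two centred moments of an additive function -/
lemma cheb_moments (w a : ℕ → ℝ) (hw : ∀ p, 0 ≤ w p) (P : Finset ℕ) :
    (∑ T ∈ P.powerset, (∏ p ∈ T, w p) = ∏ p ∈ P, (1 + w p)) ∧
    (∑ T ∈ P.powerset, (∏ p ∈ T, w p) * (∑ p ∈ T, a p - ∑ p ∈ P, a p * w p / (1 + w p)) = 0) ∧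
    (∑ T ∈ P.powerset, (∏ p ∈ T, w p) * (∑ p ∈ T, a p - ∑ p ∈ P, a p * w p / (1 + w p)) ^ 2 =
      (∏ p ∈ P, (1 + w p)) * ∑ p ∈ P, a p ^ 2 * w p / (1 + w p) ^ 2) := by
  induction P using Finset.induction_on with
  | empty => simp
  | insert x P hx ih =>
    obtain ⟨h0, h1, h2⟩ := ih
    set μ : ℝ := ∑ p ∈ P, a p * w p / (1 + w p) with hμ
    set m : ℝ := a x * w x / (1 + w x) with hm
    have hwx : (1 + w x) ≠ 0 := by have := hw x; positivity
    have hins : ∀ T ∈ P.powerset, (∏ p ∈ insert x T, w p = w x * ∏ p ∈ T, w p) ∧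
        (∑ p ∈ insert x T, a p = a x + ∑ p ∈ T, a p) := by
      intro T hT
      rw [mem_powerset] at hT
      have hxT : x ∉ T := fun h => hx (hT h)
      exact ⟨Finset.prod_insert hxT, Finset.sum_insert hxT⟩
    refine ⟨?_, ?_, ?_⟩
    · rw [Finset.sum_powerset_insert hx, Finset.prod_insert hx, h0,
        Finset.sum_congr rfl (fun T hT => (hins T hT).1), ← Finset.mul_sum, h0]
      ring
    · rw [Finset.sum_powerset_insert hx, Finset.sum_insert hx, ← hμ, ← hm]
      have e1 : ∑ T ∈ P.powerset, (∏ p ∈ T, w p) * (∑ p ∈ T, a p - (m + μ)) =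
          ∑ T ∈ P.powerset, (∏ p ∈ T, w p) * (∑ p ∈ T, a p - μ) - m * ∑ T ∈ P.powerset, (∏ p ∈ T, w p) := by
        rw [Finset.mul_sum, ← Finset.sum_sub_distrib]
        apply Finset.sum_congr rfl
        intro T _
        ring
      have e2 : ∑ T ∈ P.powerset, (∏ p ∈ insert x T, w p) * (∑ p ∈ insert x T, a p - (m + μ)) =
          w x * (∑ T ∈ P.powerset, (∏ p ∈ T, w p) * (∑ p ∈ T, a p - μ)) +
          w x * (a x - m) * ∑ T ∈ P.powerset, (∏ p ∈ T, w p) := by
        rw [Finset.mul_sum, Finset.mul_sum, ← Finset.sum_add_distrib]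
        apply Finset.sum_congr rfl
        intro T hT
        rw [(hins T hT).1, (hins T hT).2]
        ring
      rw [e1, e2, h1, h0, hm]
      field_simp
      ring
    · rw [Finset.sum_powerset_insert hx, Finset.sum_insert hx, Finset.sum_insert hx,
        Finset.prod_insert hx, ← hμ, ← hm]
      have e1 : ∑ T ∈ P.powerset, (∏ p ∈ T, w p) * (∑ p ∈ T, a p - (m + μ)) ^ 2 =
          ∑ T ∈ P.powerset, (∏ p ∈ T, w p) * (∑ p ∈ T, a p - μ) ^ 2 -
          2 * m * ∑ T ∈ P.powerset, (∏ p ∈ T, w p) * (∑ p ∈ T, a p - μ) +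
          m ^ 2 * ∑ T ∈ P.powerset, (∏ p ∈ T, w p) := by
        rw [Finset.mul_sum, Finset.mul_sum, ← Finset.sum_sub_distrib, ← Finset.sum_add_distrib]
        apply Finset.sum_congr rfl
        intro T _
        ring
      have e2 : ∑ T ∈ P.powerset, (∏ p ∈ insert x T, w p) * (∑ p ∈ insert x T, a p - (m + μ)) ^ 2 =
          w x * (∑ T ∈ P.powerset, (∏ p ∈ T, w p) * (∑ p ∈ T, a p - μ) ^ 2) +
          2 * w x * (a x - m) * (∑ T ∈ P.powerset, (∏ p ∈ T, w p) * (∑ p ∈ T, a p - μ)) +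
          w x * (a x - m) ^ 2 * ∑ T ∈ P.powerset, (∏ p ∈ T, w p) := by
        rw [Finset.mul_sum, Finset.mul_sum, Finset.mul_sum, ← Finset.sum_add_distrib,
          ← Finset.sum_add_distrib]
        apply Finset.sum_congr rfl
        intro T hT
        rw [(hins T hT).1, (hins T hT).2]
        ring
      rw [e1, e2, h1, h0, h2, hm]
      field_simp
      ring

lemma FN_eq (r : ℕ → ℝ) (P : Finset ℕ) (hP : ∀ p ∈ P, p.Prime) (hr : ∀ p ∈ P, 0 < r p) (N : ℕ) :
    FN r P N = ∑ T ∈ IN P N, ws r T ^ 2 * ∏ p ∈ T, (1 + 1 / (r p * Real.sqrt p)) := by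
  unfold FN
  apply Finset.sum_congr rfl
  intro T hT
  rw [mem_IN] at hT
  rw [Finset.prod_one_add, Finset.mul_sum]
  have hbij : ∑ S ∈ T.powerset, ws r T * ws r S * (Real.sqrt (ms S) / Real.sqrt (ms T)) =
      ∑ S ∈ T.powerset, ws r T * ws r (T \ S) * (Real.sqrt (ms (T \ S)) / Real.sqrt (ms T)) := by
    apply Finset.sum_nbij' (fun S => T \ S) (fun S => T \ S)
    · intro S _; rw [mem_powerset]; exact sdiff_subset
    · intro S _; rw [mem_powerset]; exact sdiff_subset
    · intro S hS; rw [mem_powerset] at hS; exact Finset.sdiff_sdiff_eq_self hS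
    · intro S hS; rw [mem_powerset] at hS; exact Finset.sdiff_sdiff_eq_self hS
    · intro S hS
      rw [mem_powerset] at hS
      rw [Finset.sdiff_sdiff_eq_self hS]
  rw [hbij]
  apply Finset.sum_congr rfl
  intro S hS
  rw [mem_powerset] at hS
  have w1 : ws r T = ws r (T \ S) * ws r S := by
    rw [← ws_disj r sdiff_disjoint, sdiff_union_of_subset hS]
  have m1 : ms T = ms (T \ S) * ms S := by
    rw [← ms_disj sdiff_disjoint, sdiff_union_of_subset hS]
  have hSP : S ⊆ P := hS.trans hT.1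
  have w0 : ws r S ≠ 0 := by
    unfold ws
    rw [Finset.prod_ne_zero_iff]
    intro p hp
    exact (hr p (hSP hp)).ne'
  have s1 : (0 : ℝ) < ms (T \ S) := by
    exact_mod_cast ms_pos fun p hp => hP p (hT.1 (mem_sdiff.1 hp).1)
  have s2 : (0 : ℝ) < ms S := by
    exact_mod_cast ms_pos fun p hp => hP p (hSP hp)
  have e1 : ∏ p ∈ S, (1 / (r p * Real.sqrt p)) = 1 / (ws r S * Real.sqrt (ms S)) := by
    rw [Finset.prod_div_distrib, Finset.prod_const_one, Finset.prod_mul_distrib]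
    congr 2
    unfold ms
    rw [Nat.cast_prod, Real.sqrt_prod]
    intro p _
    exact Nat.cast_nonneg _
  rw [e1, w1, m1]
  push_cast
  rw [Real.sqrt_mul s1.le]
  have q1 : Real.sqrt (ms (T \ S) : ℝ) ≠ 0 := (Real.sqrt_pos.2 s1).ne'
  have q2 : Real.sqrt (ms S : ℝ) ≠ 0 := (Real.sqrt_pos.2 s2).ne'
  field_simp

lemma log_ms {T : Finset ℕ} (h : ∀ p ∈ T, p.Prime) : Real.log (ms T) = ∑ p ∈ T, Real.log p := by
  unfold ms
  rw [Nat.cast_prod, Real.log_prod]
  intro p hp
  have := (h p hp).pos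
  positivity

theorem ratio_low (P : Finset ℕ) (hP : ∀ p ∈ P, p.Prime) (l τ Δ : ℝ) (hl : 0 < l)
    (hτ1 : τ ≤ 1) (hτ : ∀ p ∈ P, Real.log p ≤ τ * l) (r : ℕ → ℝ)
    (hr : ∀ p, r p = l / (Real.sqrt p * Real.log p)) (hΔ : 0 < Δ)
    (hvar : ∑ p ∈ P, Real.log p ^ 2 * r p ^ 2 / (1 + r p ^ 2) ^ 2 ≤ Δ ^ 2 / 2)
    (N : ℕ) (hN : 0 < N)
    (hμ : ∑ p ∈ P, Real.log p * r p ^ 2 / (1 + r p ^ 2) + Δ ≤ Real.log N) :
    EN r P N / 2 * Real.exp ((1 - τ) * (∑ p ∈ P, Real.log p * r p ^ 2 / (1 + r p ^ 2) - Δ) / l) ≤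
      FN r P N := by
  obtain ⟨h0, -, h2⟩ := cheb_moments (fun p => r p ^ 2) (fun p => Real.log p) (fun p => sq_nonneg _) P
  set μ : ℝ := ∑ p ∈ P, Real.log p * r p ^ 2 / (1 + r p ^ 2) with hμd
  set Z : ℝ := ∏ p ∈ P, (1 + r p ^ 2) with hZ
  have hZ0 : 0 < Z := Finset.prod_pos fun p _ => by positivity
  have hrp : ∀ p ∈ P, 0 < r p := by
    intro p hp
    rw [hr]
    have h3 : (1 : ℝ) < p := by exact_mod_cast (hP p hp).one_lt
    have h4 := Real.log_pos h3
    have h5 := Real.sqrt_pos.2 (show (0 : ℝ) < p by linarith)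
    positivity
  have hws : ∀ T, ws r T ^ 2 = ∏ p ∈ T, r p ^ 2 := fun T => (Finset.prod_pow _ _ _).symm
  -- the set of typical T
  set G := P.powerset.filter (fun T : Finset ℕ => |∑ p ∈ T, Real.log p - μ| ≤ Δ) with hG
  have hcheb : Z / 2 ≤ ∑ T ∈ G, ws r T ^ 2 := by
    have h3 : ∑ T ∈ P.powerset.filter (fun T : Finset ℕ => ¬ |∑ p ∈ T, Real.log p - μ| ≤ Δ), ws r T ^ 2 ≤ Z / 2 := by
      have h4 : ∑ T ∈ P.powerset.filter (fun T : Finset ℕ => ¬ |∑ p ∈ T, Real.log p - μ| ≤ Δ), ws r T ^ 2 * Δ ^ 2 ≤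
          Z * (Δ ^ 2 / 2) := by
        calc _ ≤ ∑ T ∈ P.powerset.filter (fun T : Finset ℕ => ¬ |∑ p ∈ T, Real.log p - μ| ≤ Δ),
              (∏ p ∈ T, r p ^ 2) * (∑ p ∈ T, Real.log p - μ) ^ 2 := by
                apply Finset.sum_le_sum
                intro T hT
                rw [mem_filter, not_le] at hT
                rw [hws]
                apply mul_le_mul_of_nonneg_left _ (Finset.prod_nonneg fun p _ => sq_nonneg _)
                rw [← sq_abs (∑ p ∈ T, Real.log p - μ)]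
                exact pow_le_pow_left₀ hΔ.le hT.2.le 2
          _ ≤ ∑ T ∈ P.powerset, (∏ p ∈ T, r p ^ 2) * (∑ p ∈ T, Real.log p - μ) ^ 2 := by
                apply Finset.sum_le_sum_of_subset_of_nonneg (filter_subset _ _)
                intro T _ _
                exact mul_nonneg (Finset.prod_nonneg fun p _ => sq_nonneg _) (sq_nonneg _)
          _ = Z * ∑ p ∈ P, Real.log p ^ 2 * r p ^ 2 / (1 + r p ^ 2) ^ 2 := h2
          _ ≤ _ := mul_le_mul_of_nonneg_left hvar hZ0.le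
      rw [← Finset.sum_mul] at h4
      have h5 : 0 < Δ ^ 2 := by positivity
      have h6 : (∑ T ∈ P.powerset.filter (fun T : Finset ℕ => ¬ |∑ p ∈ T, Real.log p - μ| ≤ Δ), ws r T ^ 2) * Δ ^ 2 ≤
          (Z / 2) * Δ ^ 2 := by linarith
      exact le_of_mul_le_mul_right h6 h5
    have h7 := Finset.sum_filter_add_sum_filter_not P.powerset (fun T : Finset ℕ => |∑ p ∈ T, Real.log p - μ| ≤ Δ)
      (fun T => ws r T ^ 2)
    have h8 : ∑ T ∈ P.powerset, ws r T ^ 2 = Z := by
      rw [← h0]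
      exact Finset.sum_congr rfl fun T _ => hws T
    rw [h8] at h7
    linarith
  have hEZ : EN r P N ≤ Z := by
    have h8 : ∑ T ∈ P.powerset, ws r T ^ 2 = Z := by
      rw [← h0]
      exact Finset.sum_congr rfl fun T _ => hws T
    rw [EN, ← h8]
    apply Finset.sum_le_sum_of_subset_of_nonneg
    · intro T hT
      rw [mem_IN] at hT
      rw [mem_powerset]; exact hT.1
    · intro T _ _; exact sq_nonneg _
  have hN' : (0 : ℝ) < N := by exact_mod_cast hN
  rw [FN_eq r P hP hrp N]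
  have hGI : G ⊆ IN P N := by
    intro T hT
    rw [hG, mem_filter, mem_powerset] at hT
    rw [mem_IN]
    refine ⟨hT.1, ?_⟩
    have hpT : ∀ p ∈ T, p.Prime := fun p hp => hP p (hT.1 hp)
    have h3 := (abs_le.1 hT.2).2
    rw [← log_ms hpT] at h3
    have h4 : Real.log (ms T) ≤ Real.log N := by linarith
    have h5 : (0 : ℝ) < ms T := by exact_mod_cast ms_pos hpT
    have h6 := (Real.log_le_log_iff h5 hN').1 h4
    exact_mod_cast h6
  have hterm : ∀ T ∈ G, Real.exp ((1 - τ) * (μ - Δ) / l) ≤ ∏ p ∈ T, (1 + 1 / (r p * Real.sqrt p)) := by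
    intro T hT
    rw [hG, mem_filter, mem_powerset] at hT
    have h3 := (abs_le.1 hT.2).1
    have h4 : ∀ p ∈ T, Real.exp ((1 - τ) * Real.log p / l) ≤ 1 + 1 / (r p * Real.sqrt p) := by
      intro p hp
      have hpP := hT.1 hp
      have h5 : (1 : ℝ) < p := by exact_mod_cast (hP p hpP).one_lt
      have h6 := Real.log_pos h5
      have h7 := Real.sqrt_pos.2 (show (0 : ℝ) < p by linarith)
      have h8 : 1 / (r p * Real.sqrt p) = Real.log p / l := by
        rw [hr]
        field_simp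
      rw [h8]
      set X : ℝ := Real.log p / l with hX
      have hX0 : 0 < X := by positivity
      have hXτ : X ≤ τ := by rw [hX, div_le_iff₀ hl]; exact hτ p hpP
      have h9 : (1 - τ) * Real.log p / l = (1 - τ) * X := by rw [hX]; ring
      rw [h9, ← Real.le_log_iff_exp_le (by positivity)]
      have h10 := Real.one_sub_inv_le_log_of_pos (show 0 < 1 + X by positivity)
      have h11 : (1 - τ) * X ≤ 1 - (1 + X)⁻¹ := by
        have h12 : 1 - (1 + X)⁻¹ = X / (1 + X) := by field_simp; ring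
        rw [h12, le_div_iff₀ (by positivity)]
        nlinarith [mul_nonneg hX0.le (sub_nonneg.2 hXτ), mul_pos hX0 hX0]
      linarith
    calc Real.exp ((1 - τ) * (μ - Δ) / l) ≤ Real.exp (∑ p ∈ T, (1 - τ) * Real.log p / l) := by
          apply Real.exp_le_exp.2
          rw [← Finset.sum_div, ← Finset.mul_sum]
          apply div_le_div_of_nonneg_right _ hl.le
          apply mul_le_mul_of_nonneg_left _ (by linarith)
          linarith
      _ = ∏ p ∈ T, Real.exp ((1 - τ) * Real.log p / l) := Real.exp_sum _ _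
      _ ≤ _ := Finset.prod_le_prod (fun p _ => (Real.exp_pos _).le) h4
  calc EN r P N / 2 * Real.exp ((1 - τ) * (μ - Δ) / l) ≤
        (∑ T ∈ G, ws r T ^ 2) * Real.exp ((1 - τ) * (μ - Δ) / l) := by
        apply mul_le_mul_of_nonneg_right _ (Real.exp_pos _).le
        linarith
    _ = ∑ T ∈ G, ws r T ^ 2 * Real.exp ((1 - τ) * (μ - Δ) / l) := Finset.sum_mul _ _ _
    _ ≤ ∑ T ∈ G, ws r T ^ 2 * ∏ p ∈ T, (1 + 1 / (r p * Real.sqrt p)) :=
        Finset.sum_le_sum fun T hT => mul_le_mul_of_nonneg_left (hterm T hT) (sq_nonneg _)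
    _ ≤ _ := by
        apply Finset.sum_le_sum_of_subset_of_nonneg hGI
        intro T hT _
        rw [mem_IN] at hT
        apply mul_nonneg (sq_nonneg _)
        apply Finset.prod_nonneg
        intro p hp
        have := hrp p (hT.1 hp)
        positivity

end Pool.Agent.R311.RES
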