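import Mathlib
import Pool.Agent.R311.RES.C8
import Pool.Agent.R311.RES.C11

/-! The choice of the resonator. -/

set_option autoImplicit false

namespace Pool.Agent.R311.RES
open Finset
open scoped Classical

lemma sum_inv_le (P : Finset ℕ) (hP : ∀ p ∈ P, 0 < p) (T : ℝ) (hT : 0 ≤ T)
    (h : ∀ p ∈ P, Real.log p ≤ T) : ∑ p ∈ P, 1 / (p : ℝ) ≤ 1 + T := by
  set M0 : ℕ := ⌊Real.exp T⌋₊ with hM0
  have hM01 : 1 ≤ M0 := Nat.le_floor (by simpa using Real.one_le_exp hT)
  have hsub : P ⊆ Icc 1 M0 := by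
    intro p hp
    have hp0 : (0 : ℝ) < p := by exact_mod_cast hP p hp
    rw [mem_Icc]
    refine ⟨hP p hp, Nat.le_floor ?_⟩
    rw [← Real.log_le_iff_le_exp hp0]
    exact h p hp
  have h1 : ∑ p ∈ P, 1 / (p : ℝ) ≤ ∑ p ∈ Icc 1 M0, 1 / (p : ℝ) :=
    Finset.sum_le_sum_of_subset_of_nonneg hsub (fun p _ _ => by positivity)
  have h2 : ∑ p ∈ Icc 1 M0, 1 / (p : ℝ) = (harmonic M0 : ℝ) := by
    rw [harmonic_eq_sum_Icc]
    push_cast
    apply Finset.sum_congr rfl
    intro p _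
    rw [one_div]
  rw [h2] at h1
  refine h1.trans ((harmonic_le_one_add_log M0).trans ?_)
  have h3 : Real.log M0 ≤ T := by
    rw [Real.log_le_iff_le_exp (by exact_mod_cast hM01)]
    exact Nat.floor_le (Real.exp_pos _).le
  linarith

theorem res_part (e A d f Y x : ℝ) (F : FC e A d f Y x) (he : 0 < e) (he1 : e < 1 / 20) (hA : 1 ≤ A)
    (P : Finset ℕ) (hP : ∀ p ∈ P, p.Prime ∧ x * Real.log x < (p : ℝ) ∧
      Real.log p ≤ A * Real.log (x * Real.log x))
    (hS : (1 - 2 * e) / Real.log (x * Real.log x) ≤ ∑ p ∈ P, 1 / ((p : ℝ) * Real.log p)) :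
    ∃ r : ℕ → ℝ, (∀ p, 0 ≤ r p) ∧ (∀ p : ℕ, x * Real.log x < (p : ℝ) →
      r p ≤ 1 / Real.log (x * Real.log x) ∧
      r p * Real.sqrt p ≤ Real.sqrt p / Real.log (x * Real.log x)) ∧
      EN r P ⌊Real.exp ((1 / 3 - e) * x)⌋₊ / 2 *
        Real.exp ((1 / Real.sqrt 3 - 10 * e) * Real.sqrt (x / Real.log x)) ≤
        FN r P ⌊Real.exp ((1 / 3 - e) * x)⌋₊ := by
  obtain ⟨g1, g2, g5, g6, g7, g8, g9, g10, g11, g12, g14, g15, g16, g17, g18⟩ := F
  set L := Real.log x with hL
  set M := Real.log L with hM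
  have hx0 : 0 < x := by linarith
  have hL20 : 400 ≤ L := by
    have : 400 ≤ 20 / e := by rw [le_div_iff₀ he]; linarith
    linarith
  have hL0 : 0 < L := by linarith
  set y := x * L with hy
  have hy0 : 0 < y := by positivity
  set ly := Real.log y with hly
  have hlyE : ly = L + M := by rw [hly, hy, Real.log_mul hx0.ne' hL0.ne']
  have hlyL : L ≤ ly := by linarith
  have hly2 : ly ≤ (1 + e) * L := by linarith
  have hly0 : 0 < ly := by linarith
  have hly3 : ly ≤ 2 * L := by nlinarith only [hly2, he1, hL0]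
  have hlogp : ∀ p : ℕ, y < (p : ℝ) → ly ≤ Real.log p := by
    intro p hp
    exact Real.log_le_log hy0 hp.le
  set S : ℝ := ∑ p ∈ P, 1 / ((p : ℝ) * Real.log p) with hSd
  have hS0 : 0 < S := lt_of_lt_of_le (by apply div_pos <;> linarith) hS
  have hSA : S ≤ A + 1 := by
    have h1 : S ≤ 1 / ly * ∑ p ∈ P, 1 / (p : ℝ) := by
      rw [hSd, Finset.mul_sum]
      apply Finset.sum_le_sum
      intro p hp
      have h2 := hlogp p (hP p hp).2.1
      have h3 : (0 : ℝ) < p := by exact_mod_cast (hP p hp).1.pos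
      rw [← one_div_mul_one_div, mul_comm]
      apply mul_le_mul_of_nonneg_right _ (by positivity)
      exact one_div_le_one_div_of_le hly0 h2
    have h4 := sum_inv_le P (fun p hp => (hP p hp).1.pos) (A * ly) (by positivity)
      (fun p hp => (hP p hp).2.2)
    have h5 : 1 / ly * ∑ p ∈ P, 1 / (p : ℝ) ≤ 1 / ly * (1 + A * ly) :=
      mul_le_mul_of_nonneg_left h4 (by positivity)
    have h6 : 1 / ly * (1 + A * ly) = 1 / ly + A := by field_simp
    have h7 : 1 / ly ≤ 1 := by rw [div_le_one hly0]; linarith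
    linarith
  set θ : ℝ := 1 / 3 - 3 * e with hθ
  have hθ0 : 0 < θ := by rw [hθ]; linarith
  set l : ℝ := Real.sqrt (θ * x / S) with hl
  have hl2 : l ^ 2 = θ * x / S := Real.sq_sqrt (by positivity)
  have hl0 : 0 < l := Real.sqrt_pos.2 (by positivity)
  have hl2S : l ^ 2 * S = θ * x := by rw [hl2]; field_simp
  have hl2u : l ^ 2 ≤ 1 / 3 * (x * L) := by
    rw [hl2, div_le_iff₀ hS0]
    have h1 : (1 - 2 * e) ≤ S * ly := by rwa [div_le_iff₀ hly0] at hS
    have h2 : (1 - 2 * e) ≤ S * ((1 + e) * L) := h1.trans (mul_le_mul_of_nonneg_left hly2 hS0.le)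
    have h3 : θ * (1 + e) ≤ 1 / 3 * (1 - 2 * e) := by rw [hθ]; nlinarith only [he]
    have h4 : θ * (1 + e) ≤ 1 / 3 * (S * L) * (1 + e) := by
      calc θ * (1 + e) ≤ 1 / 3 * (1 - 2 * e) := h3
        _ ≤ 1 / 3 * (S * ((1 + e) * L)) := mul_le_mul_of_nonneg_left h2 (by norm_num)
        _ = _ := by ring
    have h5 : θ ≤ 1 / 3 * (S * L) := le_of_mul_le_mul_right h4 (by linarith)
    calc θ * x ≤ 1 / 3 * (S * L) * x := mul_le_mul_of_nonneg_right h5 hx0.le
      _ = _ := by ring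
  have hly' : l ≤ Real.sqrt y := by
    apply Real.le_sqrt_of_sq_le
    rw [hy]
    have h9 := mul_pos hx0 hL0
    linarith only [h9, hl2u]
  set r : ℕ → ℝ := fun p => l / (Real.sqrt p * Real.log p) with hr
  have hr0 : ∀ p, 0 ≤ r p := by
    intro p
    simp only [hr]
    have := Real.log_natCast_nonneg p
    positivity
  have hrp : ∀ p : ℕ, y < (p : ℝ) → r p ≤ 1 / ly ∧ r p * Real.sqrt p ≤ Real.sqrt p / ly := by
    intro p hp
    have h1 := hlogp p hp
    have h2 : (0 : ℝ) < p := by linarith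
    have h3 := Real.sqrt_pos.2 h2
    have h4 : l ≤ Real.sqrt p := hly'.trans (Real.sqrt_le_sqrt hp.le)
    have h5 : r p ≤ 1 / ly := by
      simp only [hr]
      have h6 : 0 < Real.log p := lt_of_lt_of_le hly0 h1
      rw [div_le_div_iff₀ (by positivity) hly0, one_mul]
      exact mul_le_mul h4 h1 hly0.le h3.le
    refine ⟨h5, ?_⟩
    calc r p * Real.sqrt p ≤ 1 / ly * Real.sqrt p := mul_le_mul_of_nonneg_right h5 h3.le
      _ = _ := by ring
  refine ⟨r, hr0, hrp, ?_⟩
  have hrl : ∀ p ∈ P, r p ^ 2 = l ^ 2 / (p * Real.log p ^ 2) := by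
    intro p hp
    simp only [hr]
    rw [div_pow, mul_pow, Real.sq_sqrt (Nat.cast_nonneg _)]
  have hpos : ∀ p ∈ P, (0 : ℝ) < p ∧ 0 < Real.log p := by
    intro p hp
    have h1 : (1 : ℝ) < p := by exact_mod_cast (hP p hp).1.one_lt
    exact ⟨by linarith, Real.log_pos h1⟩
  have hτ : ∀ p ∈ P, Real.log p ≤ e * l := by
    intro p hp
    refine (hP p hp).2.2.trans ?_
    have h1 : A * ly ≤ A * (2 * L) := mul_le_mul_of_nonneg_left hly3 (by linarith)
    refine h1.trans ?_
    apply le_of_sq_le_sq _ (by positivity)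
    rw [mul_pow e, hl2, ← mul_div_assoc, le_div_iff₀ hS0]
    refine le_trans ?_ g9
    exact mul_le_mul_of_nonneg_left hSA (sq_nonneg _)
  have hsum1 : ∑ p ∈ P, Real.log p * r p ^ 2 = θ * x := by
    rw [← hl2S, hSd, Finset.mul_sum]
    apply Finset.sum_congr rfl
    intro p hp
    obtain ⟨h1, h2⟩ := hpos p hp
    rw [hrl p hp]
    field_simp
  have hvar : ∑ p ∈ P, Real.log p ^ 2 * r p ^ 2 / (1 + r p ^ 2) ^ 2 ≤ (e * x) ^ 2 / 2 := by
    have h1 : ∀ p ∈ P, Real.log p ^ 2 * r p ^ 2 / (1 + r p ^ 2) ^ 2 ≤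
        (A * ly) * (Real.log p * r p ^ 2) := by
      intro p hp
      obtain ⟨h1, h2⟩ := hpos p hp
      have h3 : 1 ≤ (1 + r p ^ 2) ^ 2 := by nlinarith only [sq_nonneg (r p)]
      refine (div_le_self (by positivity) h3).trans ?_
      have h4 := (hP p hp).2.2
      have h5 : 0 ≤ Real.log p * r p ^ 2 := by positivity
      calc Real.log p ^ 2 * r p ^ 2 = Real.log p * (Real.log p * r p ^ 2) := by ring
        _ ≤ _ := mul_le_mul_of_nonneg_right h4 h5
    refine (Finset.sum_le_sum h1).trans ?_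
    rw [← Finset.mul_sum, hsum1]
    have h2 : A * ly ≤ e ^ 2 * x / 2 := (mul_le_mul_of_nonneg_left hly3 (by linarith)).trans g10
    have h3 : θ ≤ 1 := by rw [hθ]; linarith
    have h4 : 0 ≤ e ^ 2 * x / 2 := by positivity
    calc A * ly * (θ * x) ≤ e ^ 2 * x / 2 * (1 * x) := by
          apply mul_le_mul h2 _ (by positivity) h4
          exact mul_le_mul_of_nonneg_right h3 hx0.le
      _ = _ := by ring
  set μ : ℝ := ∑ p ∈ P, Real.log p * r p ^ 2 / (1 + r p ^ 2) with hμ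
  have hμu : μ ≤ θ * x := by
    rw [← hsum1, hμ]
    apply Finset.sum_le_sum
    intro p hp
    obtain ⟨h1, h2⟩ := hpos p hp
    exact div_le_self (by positivity) (by linarith only [sq_nonneg (r p)])
  have hμl : θ * x * (1 - e) ≤ μ := by
    rw [← hsum1, hμ, Finset.sum_mul]
    apply Finset.sum_le_sum
    intro p hp
    obtain ⟨h1, h2⟩ := hpos p hp
    have h3 := (hrp p (hP p hp).2.1).1
    have h4 : r p ^ 2 ≤ e := by
      have h5 : r p ≤ e := by
        refine h3.trans ?_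
        rw [div_le_iff₀ hly0]
        have h6 : 20 ≤ e * L := by
          rw [div_le_iff₀ he] at g12; linarith
        nlinarith only [h6, hlyL, he]
      have h6 := hr0 p
      nlinarith only [h5, h6, he, he1]
    rw [le_div_iff₀ (by positivity)]
    have h5 : 0 ≤ Real.log p * r p ^ 2 := by positivity
    have h6 : (1 - e) * (1 + r p ^ 2) ≤ 1 := by nlinarith only [h4, sq_nonneg (r p), he, he1]
    calc Real.log p * r p ^ 2 * (1 - e) * (1 + r p ^ 2) =
          Real.log p * r p ^ 2 * ((1 - e) * (1 + r p ^ 2)) := by ring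
      _ ≤ Real.log p * r p ^ 2 * 1 := mul_le_mul_of_nonneg_left h6 h5
      _ = _ := mul_one _
  set N : ℕ := ⌊Real.exp ((1 / 3 - e) * x)⌋₊ with hN
  have hexp2 : 2 ≤ Real.exp ((1 / 3 - e) * x) := by
    have h1 := Real.add_one_le_exp ((1 / 3 - e) * x)
    nlinarith only [h1, g18, he1]
  have hNl : Real.exp ((1 / 3 - e) * x) / 2 ≤ (N : ℝ) := by
    have := Nat.lt_floor_add_one (Real.exp ((1 / 3 - e) * x))
    rw [← hN] at this
    linarith
  have hN0 : 0 < N := by
    have : (0 : ℝ) < N := lt_of_lt_of_le (by positivity) hNl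
    exact_mod_cast this
  have hlogN : (1 / 3 - e) * x - 1 ≤ Real.log N := by
    have h1 := Real.log_le_log (by positivity) hNl
    rw [Real.log_div (Real.exp_pos _).ne' (by norm_num), Real.log_exp] at h1
    have h2 : Real.log 2 ≤ 1 := by
      have := Real.log_two_lt_d9
      linarith
    linarith
  have hmain := ratio_low P (fun p hp => (hP p hp).1) l e (e * x) hl0 (by linarith) hτ r
    (fun p => rfl) (by positivity) hvar N hN0 (by rw [← hμ]; rw [hθ] at hμu; linarith)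
  refine le_trans ?_ hmain
  apply mul_le_mul_of_nonneg_left _
    (div_nonneg (Finset.sum_nonneg fun S _ => sq_nonneg _) (by norm_num))
  rw [Real.exp_le_exp, ← hμ, le_div_iff₀ hl0]
  have h3 : (0 : ℝ) < Real.sqrt 3 := Real.sqrt_pos.2 (by norm_num)
  have h3' : Real.sqrt 3 ^ 2 = 3 := Real.sq_sqrt (by norm_num)
  have h32 : Real.sqrt 3 ≤ 2 := by
    rw [Real.sqrt_le_left (by norm_num)]; norm_num
  have hc3 : 1 / 2 ≤ 1 / Real.sqrt 3 := one_div_le_one_div_of_le h3 h32
  have hlu : l ≤ 1 / Real.sqrt 3 * Real.sqrt (x * L) := by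
    apply le_of_sq_le_sq _ (by positivity)
    have h9 : (1 / Real.sqrt 3 * Real.sqrt (x * L)) ^ 2 = 1 / 3 * (x * L) := by
      rw [mul_pow, div_pow, h3', Real.sq_sqrt (show 0 ≤ x * L by positivity), one_pow]
    rw [h9]
    exact hl2u
  have hGG : Real.sqrt (x / L) * Real.sqrt (x * L) = x := by
    rw [← Real.sqrt_mul (by positivity)]
    have : x / L * (x * L) = x ^ 2 := by field_simp
    rw [this, Real.sqrt_sq hx0.le]
  have h4 : (1 / Real.sqrt 3 - 10 * e) * Real.sqrt (x / L) * l ≤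
      (1 / Real.sqrt 3 - 10 * e) * (1 / Real.sqrt 3) * x := by
    have h5 : 0 ≤ (1 / Real.sqrt 3 - 10 * e) * Real.sqrt (x / L) := by
      apply mul_nonneg _ (Real.sqrt_nonneg _)
      linarith
    refine (mul_le_mul_of_nonneg_left hlu h5).trans (le_of_eq ?_)
    calc (1 / Real.sqrt 3 - 10 * e) * Real.sqrt (x / L) * (1 / Real.sqrt 3 * Real.sqrt (x * L)) =
        (1 / Real.sqrt 3 - 10 * e) * (1 / Real.sqrt 3) * (Real.sqrt (x / L) * Real.sqrt (x * L)) := by ring
      _ = _ := by rw [hGG]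
  refine h4.trans ?_
  have h5 : (1 / Real.sqrt 3 - 10 * e) * (1 / Real.sqrt 3) ≤ 1 / 3 - 5 * e := by
    have h6 : (1 / Real.sqrt 3) * (1 / Real.sqrt 3) = 1 / 3 := by
      rw [← sq, div_pow, h3']; norm_num
    nlinarith only [h6, hc3, he]
  have h6 : (1 / 3 - 5 * e) * x ≤ (1 - e) * (μ - e * x) := by
    have h7 : (1 - e) * (θ * x * (1 - e) - e * x) ≤ (1 - e) * (μ - e * x) :=
      mul_le_mul_of_nonneg_left (by linarith) (by linarith)
    refine le_trans ?_ h7
    have h8 : (1 - e) * (θ * x * (1 - e) - e * x) = ((1 - e) * (θ * (1 - e) - e)) * x := by ring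
    rw [h8]
    apply mul_le_mul_of_nonneg_right _ hx0.le
    rw [hθ]
    nlinarith only [he, mul_pos he he, mul_pos (mul_pos he he) (show 0 < 1 - e by linarith)]
  exact (mul_le_mul_of_nonneg_right h5 hx0.le).trans h6

end Pool.Agent.R311.RES
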