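import Mathlib
import Pool.Agent.R311.RES.B2
import Pool.Agent.R311.RES.C1

/-! Weighted resonators on a coset. -/

set_option autoImplicit false

namespace Pool.Agent.R311.RES
open Finset
open scoped Classical

variable {q : ℕ} [Fact q.Prime]

section
variable {α : Type*}

/-- the weighted resonator -/
noncomputable def R3 (I : Finset α) (w : α → ℝ) (π : α → (ZMod q)ˣ) (χ : DirichletCharacter ℂ q) : ℂ :=
  ∑ i ∈ I, (w i : ℂ) * χ (π i : ZMod q)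

lemma R3_sq (I : Finset α) (w : α → ℝ) (π : α → (ZMod q)ˣ) (χ : DirichletCharacter ℂ q) :
    ((‖R3 I w π χ‖ ^ 2 : ℝ) : ℂ) = ∑ z ∈ I ×ˢ I, ((w z.1 * w z.2 : ℝ) : ℂ) *
      χ ((π z.1 * (π z.2)⁻¹ : (ZMod q)ˣ) : ZMod q) := by
  rw [← Complex.normSq_eq_norm_sq, ← Complex.mul_conj, R3, map_sum, Finset.sum_mul_sum,
    Finset.sum_product]
  apply Finset.sum_congr rfl
  intro i _
  apply Finset.sum_congr rfl
  intro j _
  rw [map_mul, Complex.conj_ofReal, ← chi_inv, Units.val_mul, map_mul]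
  push_cast
  ring

lemma coset_moment_w (H : Subgroup (DirichletCharacter ℂ q)) (χ₀ : DirichletCharacter ℂ q)
    (I : Finset α) (w : α → ℝ) (π : α → (ZMod q)ˣ) (a : (ZMod q)ˣ) :
    ∑ ψ : H, ((‖R3 I w π (χ₀ * (ψ : DirichletCharacter ℂ q))‖ ^ 2 : ℝ) : ℂ) *
        (χ₀ * (ψ : DirichletCharacter ℂ q)) (a : ZMod q) =
      (Fintype.card H : ℂ) * ∑ z ∈ prs H I π a, ((w z.1 * w z.2 : ℝ) : ℂ) *
        χ₀ ((a * π z.1 * (π z.2)⁻¹ : (ZMod q)ˣ) : ZMod q) := by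
  have h1 : ∀ ψ : H, ((‖R3 I w π (χ₀ * (ψ : DirichletCharacter ℂ q))‖ ^ 2 : ℝ) : ℂ) *
        (χ₀ * (ψ : DirichletCharacter ℂ q)) (a : ZMod q) = ∑ z ∈ I ×ˢ I,
      ((w z.1 * w z.2 : ℝ) : ℂ) * χ₀ ((a * π z.1 * (π z.2)⁻¹ : (ZMod q)ˣ) : ZMod q) *
        (ψ : DirichletCharacter ℂ q) ((a * π z.1 * (π z.2)⁻¹ : (ZMod q)ˣ) : ZMod q) := by
    intro ψ
    rw [R3_sq, Finset.sum_mul]
    apply Finset.sum_congr rfl
    intro z _
    rw [show a * π z.1 * (π z.2)⁻¹ = (π z.1 * (π z.2)⁻¹) * a by rw [mul_assoc, mul_comm],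
      Units.val_mul (π z.1 * (π z.2)⁻¹) a, map_mul, map_mul, MulChar.mul_apply, MulChar.mul_apply]
    ring
  rw [Finset.sum_congr rfl (fun ψ _ => h1 ψ), Finset.sum_comm, prs, Finset.sum_filter,
    Finset.mul_sum]
  apply Finset.sum_congr rfl
  intro z _
  rw [← Finset.mul_sum, orth]
  split_ifs
  · ring
  · ring

lemma coset_second_w (H : Subgroup (DirichletCharacter ℂ q)) (χ₀ : DirichletCharacter ℂ q)
    (I : Finset α) (w : α → ℝ) (hw : ∀ i ∈ I, 0 ≤ w i) (π : α → (ZMod q)ˣ) :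
    ∑ ψ : H, ‖R3 I w π (χ₀ * (ψ : DirichletCharacter ℂ q))‖ ^ 2 ≤
      (Fintype.card H : ℝ) * ∑ z ∈ prs H I π 1, w z.1 * w z.2 := by
  have h1 := coset_moment_w H χ₀ I w π 1
  have h2 : ∑ ψ : H, ((‖R3 I w π (χ₀ * (ψ : DirichletCharacter ℂ q))‖ ^ 2 : ℝ) : ℂ) *
        (χ₀ * (ψ : DirichletCharacter ℂ q)) ((1 : (ZMod q)ˣ) : ZMod q) =
      ((∑ ψ : H, ‖R3 I w π (χ₀ * (ψ : DirichletCharacter ℂ q))‖ ^ 2 : ℝ) : ℂ) := by
    rw [Complex.ofReal_sum]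
    apply Finset.sum_congr rfl
    intro χ _
    rw [Units.val_one, map_one, mul_one]
  rw [h2] at h1
  have h3 : ∑ ψ : H, ‖R3 I w π (χ₀ * (ψ : DirichletCharacter ℂ q))‖ ^ 2 =
      ‖((∑ ψ : H, ‖R3 I w π (χ₀ * (ψ : DirichletCharacter ℂ q))‖ ^ 2 : ℝ) : ℂ)‖ := by
    rw [Complex.norm_real, Real.norm_of_nonneg (Finset.sum_nonneg fun _ _ => by positivity)]
  rw [h3, h1, norm_mul, Complex.norm_natCast]
  apply mul_le_mul_of_nonneg_left _ (Nat.cast_nonneg _)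
  refine (norm_sum_le _ _).trans ?_
  apply Finset.sum_le_sum
  intro z hz
  rw [prs, mem_filter, mem_product] at hz
  have h0 : 0 ≤ w z.1 * w z.2 := mul_nonneg (hw _ hz.1.1) (hw _ hz.1.2)
  rw [norm_mul, Complex.norm_real, Real.norm_of_nonneg h0]
  calc w z.1 * w z.2 * _ ≤ w z.1 * w z.2 * 1 :=
        mul_le_mul_of_nonneg_left (DirichletCharacter.norm_le_one χ₀ _) h0
    _ = _ := mul_one _

lemma coset_first_w (H : Subgroup (DirichletCharacter ℂ q)) (χ₀ : DirichletCharacter ℂ q)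
    (I : Finset α) (w : α → ℝ) (hw : ∀ i ∈ I, 0 ≤ w i) (π : α → (ZMod q)ˣ)
    (G : DirichletCharacter ℂ q → ℂ) (c : (ZMod q)ˣ → ℂ)
    (hG : ∀ χ : DirichletCharacter ℂ q, G χ = ∑ a : (ZMod q)ˣ, χ (a : ZMod q) * c a)
    (V : ℝ) (hV0 : 0 ≤ V) (hV : ∀ ψ ∈ H, ‖G (χ₀ * ψ)‖ ≤ V) :
    ‖∑ a : (ZMod q)ˣ, c a * ∑ z ∈ prs H I π a, ((w z.1 * w z.2 : ℝ) : ℂ) *
        χ₀ ((a * π z.1 * (π z.2)⁻¹ : (ZMod q)ˣ) : ZMod q)‖ ≤
      V * ∑ z ∈ prs H I π 1, w z.1 * w z.2 := by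
  have h1 : ∑ ψ : H, ((‖R3 I w π (χ₀ * (ψ : DirichletCharacter ℂ q))‖ ^ 2 : ℝ) : ℂ) *
      G (χ₀ * (ψ : DirichletCharacter ℂ q)) =
      (Fintype.card H : ℂ) * ∑ a : (ZMod q)ˣ, c a * ∑ z ∈ prs H I π a, ((w z.1 * w z.2 : ℝ) : ℂ) *
        χ₀ ((a * π z.1 * (π z.2)⁻¹ : (ZMod q)ˣ) : ZMod q) := by
    have h2 : ∀ ψ : H, ((‖R3 I w π (χ₀ * (ψ : DirichletCharacter ℂ q))‖ ^ 2 : ℝ) : ℂ) *
      G (χ₀ * (ψ : DirichletCharacter ℂ q)) =
      ∑ a : (ZMod q)ˣ, c a * (((‖R3 I w π (χ₀ * (ψ : DirichletCharacter ℂ q))‖ ^ 2 : ℝ) : ℂ) *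
        (χ₀ * (ψ : DirichletCharacter ℂ q)) (a : ZMod q)) := by
      intro ψ
      rw [hG, Finset.mul_sum]
      apply Finset.sum_congr rfl
      intro a _
      ring
    rw [Finset.sum_congr rfl (fun ψ _ => h2 ψ), Finset.sum_comm, Finset.mul_sum]
    apply Finset.sum_congr rfl
    intro a _
    rw [← Finset.mul_sum, coset_moment_w]
    ring
  have h3 : ‖∑ ψ : H, ((‖R3 I w π (χ₀ * (ψ : DirichletCharacter ℂ q))‖ ^ 2 : ℝ) : ℂ) *
      G (χ₀ * (ψ : DirichletCharacter ℂ q))‖ ≤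
      V * ((Fintype.card H : ℝ) * ∑ z ∈ prs H I π 1, w z.1 * w z.2) := by
    refine le_trans ?_ (mul_le_mul_of_nonneg_left (coset_second_w H χ₀ I w hw π) hV0)
    rw [Finset.mul_sum]
    refine (norm_sum_le _ _).trans (Finset.sum_le_sum fun ψ _ => ?_)
    rw [norm_mul, Complex.norm_real, Real.norm_of_nonneg (by positivity), mul_comm]
    exact mul_le_mul_of_nonneg_right (hV ψ.1 ψ.2) (by positivity)
  rw [h1, norm_mul, Complex.norm_natCast] at h3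
  have hH : (0 : ℝ) < Fintype.card H := by
    have h6 : 0 < Fintype.card H := Fintype.card_pos
    exact_mod_cast h6
  have h4 : (Fintype.card H : ℝ) * ‖∑ a : (ZMod q)ˣ, c a * ∑ z ∈ prs H I π a,
        ((w z.1 * w z.2 : ℝ) : ℂ) * χ₀ ((a * π z.1 * (π z.2)⁻¹ : (ZMod q)ˣ) : ZMod q)‖ ≤
      (Fintype.card H : ℝ) * (V * ∑ z ∈ prs H I π 1, w z.1 * w z.2) := by
    calc _ ≤ _ := h3
      _ = _ := by ring
  exact le_of_mul_le_mul_left h4 hH

lemma sum_prs_w (H : Subgroup (DirichletCharacter ℂ q)) (I : Finset α) (w : α → ℝ)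
    (π : α → (ZMod q)ˣ) :
    ∑ a : (ZMod q)ˣ, ∑ z ∈ prs H I π a, w z.1 * w z.2 =
      (∑ i ∈ I, w i) ^ 2 * (Fintype.card (ann H) : ℝ) := by
  have h1 : ∀ a : (ZMod q)ˣ, ∑ z ∈ prs H I π a, w z.1 * w z.2 = ∑ z ∈ I ×ˢ I,
      w z.1 * w z.2 * (if a * π z.1 * (π z.2)⁻¹ ∈ ann H then (1 : ℝ) else 0) := by
    intro a
    rw [prs, Finset.sum_filter]
    apply Finset.sum_congr rfl
    intro z _
    split_ifs
    · rw [mul_one]
    · rw [mul_zero]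
  rw [Finset.sum_congr rfl (fun a _ => h1 a), Finset.sum_comm]
  have h2 : ∀ z ∈ I ×ˢ I, ∑ a : (ZMod q)ˣ,
      w z.1 * w z.2 * (if a * π z.1 * (π z.2)⁻¹ ∈ ann H then (1 : ℝ) else 0) =
      w z.1 * w z.2 * (Fintype.card (ann H) : ℝ) := by
    intro z _
    rw [← Finset.mul_sum]
    congr 1
    have h3 := sum_inv H (fun _ => (1 : ℝ)) (fun _ _ _ => rfl) (π z.1 * (π z.2)⁻¹)
    rw [mul_one] at h3
    rw [← h3, ← Equiv.sum_comp (Equiv.inv (ZMod q)ˣ)]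
    apply Finset.sum_congr rfl
    intro a _
    simp only [Equiv.inv_apply]
    have e : a⁻¹ * π z.1 * (π z.2)⁻¹ = π z.1 * (π z.2)⁻¹ * a⁻¹ := by
      rw [mul_assoc, mul_comm]
    rw [e]
  rw [Finset.sum_congr rfl h2, ← Finset.sum_mul, sum_product, sq, Finset.sum_mul_sum]

theorem coset_w_main (H : Subgroup (DirichletCharacter ℂ q)) (χ₀ : DirichletCharacter ℂ q)
    (I : Finset α) (w : α → ℝ) (hw : ∀ i ∈ I, 0 ≤ w i) (π : α → (ZMod q)ˣ) (num : α → ℕ)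
    (hπ : ∀ i ∈ I, (num i : ZMod q) = (π i : ZMod q))
    (G : DirichletCharacter ℂ q → ℂ) (c : (ZMod q)ˣ → ℂ) (b : (ZMod q)ˣ → ℝ) (η : ℝ)
    (hb : ∀ a, 0 ≤ b a) (hc : ∀ a, ‖c a - (b a : ℂ)‖ ≤ η)
    (hG : ∀ χ : DirichletCharacter ℂ q, G χ = ∑ a : (ZMod q)ˣ, χ (a : ZMod q) * c a)
    (V : ℝ) (hV0 : 0 ≤ V) (hV : ∀ ψ ∈ H, ‖G (χ₀ * ψ)‖ ≤ V) :
    ∑ a : (ZMod q)ˣ, b a * ∑ z ∈ (I ×ˢ I).filter (fun z => (a : ZMod q).val * num z.1 = num z.2),
        w z.1 * w z.2 ≤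
      V * (∑ z ∈ prs H I π 1, w z.1 * w z.2) + η * ((∑ i ∈ I, w i) ^ 2 * (Fintype.card (ann H) : ℝ)) +
      ∑ a : (ZMod q)ˣ, b a * ∑ z ∈ (prs H I π a).filter
        (fun z => ¬ (a : ZMod q).val * num z.1 = num z.2), w z.1 * w z.2 := by
  have : NeZero q := ⟨(Nat.Prime.pos Fact.out).ne'⟩
  have hww : ∀ a : (ZMod q)ˣ, ∀ z ∈ prs H I π a, 0 ≤ w z.1 * w z.2 := by
    intro a z hz
    rw [prs, mem_filter, mem_product] at hz
    exact mul_nonneg (hw _ hz.1.1) (hw _ hz.1.2)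
  have h1 := coset_first_w H χ₀ I w hw π G c hG V hV0 hV
  set X : (ZMod q)ˣ → ℂ := fun a => ∑ z ∈ prs H I π a, ((w z.1 * w z.2 : ℝ) : ℂ) *
        χ₀ ((a * π z.1 * (π z.2)⁻¹ : (ZMod q)ˣ) : ZMod q) with hX
  have hXn : ∀ a, ‖X a‖ ≤ ∑ z ∈ prs H I π a, w z.1 * w z.2 := by
    intro a
    refine (norm_sum_le _ _).trans (Finset.sum_le_sum fun z hz => ?_)
    have h0 := hww a z hz
    rw [norm_mul, Complex.norm_real, Real.norm_of_nonneg h0]
    calc w z.1 * w z.2 * _ ≤ w z.1 * w z.2 * 1 :=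
          mul_le_mul_of_nonneg_left (DirichletCharacter.norm_le_one χ₀ _) h0
      _ = _ := mul_one _
  have h2 : ‖∑ a : (ZMod q)ˣ, (b a : ℂ) * X a‖ ≤ V * (∑ z ∈ prs H I π 1, w z.1 * w z.2) +
      η * ((∑ i ∈ I, w i) ^ 2 * (Fintype.card (ann H) : ℝ)) := by
    have e1 : ∑ a : (ZMod q)ˣ, (b a : ℂ) * X a = ∑ a : (ZMod q)ˣ, c a * X a -
        ∑ a : (ZMod q)ˣ, (c a - (b a : ℂ)) * X a := by
      rw [← Finset.sum_sub_distrib]
      apply Finset.sum_congr rfl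
      intro a _
      ring
    rw [e1]
    refine (norm_sub_le _ _).trans (add_le_add h1 ?_)
    rw [← sum_prs_w H I w π, Finset.mul_sum]
    refine (norm_sum_le _ _).trans (Finset.sum_le_sum fun a _ => ?_)
    rw [norm_mul]
    exact mul_le_mul (hc a) (hXn a) (norm_nonneg _) ((norm_nonneg _).trans (hc a))
  have h3 : ∀ a : (ZMod q)ˣ, b a * ∑ z ∈ (I ×ˢ I).filter (fun z => (a : ZMod q).val * num z.1 = num z.2),
        w z.1 * w z.2 - b a * ∑ z ∈ (prs H I π a).filter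
        (fun z => ¬ (a : ZMod q).val * num z.1 = num z.2), w z.1 * w z.2 ≤ ((b a : ℂ) * X a).re := by
    intro a
    rw [Complex.re_ofReal_mul, ← mul_sub]
    apply mul_le_mul_of_nonneg_left _ (hb a)
    have hex : ∀ z ∈ I ×ˢ I, (a : ZMod q).val * num z.1 = num z.2 → a * π z.1 * (π z.2)⁻¹ = 1 := by
      intro z hz h4
      rw [mem_product] at hz
      have h5 := congrArg (Nat.cast : ℕ → ZMod q) h4
      push_cast at h5
      rw [ZMod.natCast_zmod_val, hπ _ hz.1, hπ _ hz.2] at h5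
      have h6 : a * π z.1 = π z.2 := by
        apply Units.ext
        rw [Units.val_mul]
        exact h5
      rw [h6, mul_inv_cancel]
    have e1 : X a = ((∑ z ∈ (I ×ˢ I).filter (fun z => (a : ZMod q).val * num z.1 = num z.2),
        w z.1 * w z.2 : ℝ) : ℂ) + ∑ z ∈ (prs H I π a).filter
        (fun z => ¬ (a : ZMod q).val * num z.1 = num z.2), ((w z.1 * w z.2 : ℝ) : ℂ) *
        χ₀ ((a * π z.1 * (π z.2)⁻¹ : (ZMod q)ˣ) : ZMod q) := by
      simp only [hX]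
      rw [← Finset.sum_filter_add_sum_filter_not (prs H I π a)
        (fun z => (a : ZMod q).val * num z.1 = num z.2)]
      congr 1
      have e2 : (prs H I π a).filter (fun z => (a : ZMod q).val * num z.1 = num z.2) =
          (I ×ˢ I).filter (fun z => (a : ZMod q).val * num z.1 = num z.2) := by
        ext z
        constructor
        · intro hz
          rw [mem_filter, prs, mem_filter] at hz
          rw [mem_filter]
          exact ⟨hz.1.1, hz.2⟩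
        · intro hz
          rw [mem_filter] at hz
          rw [mem_filter, prs, mem_filter]
          refine ⟨⟨hz.1, ?_⟩, hz.2⟩
          rw [hex z hz.1 hz.2]
          exact (ann H).one_mem
      rw [e2, Complex.ofReal_sum]
      apply Finset.sum_congr rfl
      intro z hz
      rw [mem_filter] at hz
      rw [hex z hz.1 hz.2, Units.val_one, map_one, mul_one]
    rw [e1, Complex.add_re, Complex.ofReal_re]
    have h7 : ‖∑ z ∈ (prs H I π a).filter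
        (fun z => ¬ (a : ZMod q).val * num z.1 = num z.2), ((w z.1 * w z.2 : ℝ) : ℂ) *
        χ₀ ((a * π z.1 * (π z.2)⁻¹ : (ZMod q)ˣ) : ZMod q)‖ ≤ ∑ z ∈ (prs H I π a).filter
        (fun z => ¬ (a : ZMod q).val * num z.1 = num z.2), w z.1 * w z.2 := by
      refine (norm_sum_le _ _).trans (Finset.sum_le_sum fun z hz => ?_)
      have h0 := hww a z (mem_of_mem_filter z hz)
      rw [norm_mul, Complex.norm_real, Real.norm_of_nonneg h0]
      calc w z.1 * w z.2 * _ ≤ w z.1 * w z.2 * 1 :=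
            mul_le_mul_of_nonneg_left (DirichletCharacter.norm_le_one χ₀ _) h0
        _ = _ := mul_one _
    have h8 := (abs_le.1 ((Complex.abs_re_le_norm _).trans h7)).1
    linarith
  have h4 := Finset.sum_le_sum (s := univ) (fun a _ => h3 a)
  rw [← Complex.re_sum, Finset.sum_sub_distrib] at h4
  have h5 := h4.trans ((Complex.re_le_norm _).trans h2)
  linarith

end

end Pool.Agent.R311.RES
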