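import Mathlib

/-! Lattice points: solutions of `u ≡ k n (mod q)` in a box. -/

set_option autoImplicit false

namespace Pool.Agent.R311.RES
open Finset
open scoped Classical

/-- the points of the lattice `u = k n` in a box whose reduced numerator exceeds `U` -/
noncomputable def ZZ (q : ℕ) (k : ZMod q) (U U' N : ℕ) : Finset (ℕ × ℕ) :=
  (Icc 1 U' ×ˢ Icc 1 N).filter (fun z => (z.1 : ZMod q) = k * (z.2 : ZMod q) ∧
    U < z.1 / Nat.gcd z.1 z.2)

lemma mem_ZZ (q : ℕ) (k : ZMod q) (U U' N : ℕ) (z : ℕ × ℕ) : z ∈ ZZ q k U U' N ↔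
    ((1 ≤ z.1 ∧ z.1 ≤ U') ∧ (1 ≤ z.2 ∧ z.2 ≤ N)) ∧ (z.1 : ZMod q) = k * (z.2 : ZMod q) ∧
    U < z.1 / Nat.gcd z.1 z.2 := by
  rw [ZZ, mem_filter, mem_product, mem_Icc, mem_Icc]

lemma card_main {q : ℕ} [Fact q.Prime] (k : ZMod q) (N U U' s t : ℕ)
    (hs : 0 < s) (ht : 0 < t) (hsU : s ≤ U') (htN : t ≤ N)
    (hst : Nat.Coprime s t) (hk : (s : ZMod q) = k * t) :
    ((ZZ q k U U' N).filter (fun z => ¬ z.1 * t = z.2 * s)).card * q ≤ 4 * U' * N := by
  have hq0 : 0 < q := Nat.Prime.pos Fact.out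
  have hcong : ∀ z ∈ ZZ q k U U' N, ((z.1 * t : ℕ) : ZMod q) = ((z.2 * s : ℕ) : ZMod q) := by
    intro z hz
    rw [mem_ZZ] at hz
    push_cast
    rw [hz.2.1, hk]
    ring
  have e1 : (ZZ q k U U' N).filter (fun z => ¬ z.1 * t = z.2 * s) ⊆
      (ZZ q k U U' N).filter (fun z => z.2 * s < z.1 * t) ∪
      (ZZ q k U U' N).filter (fun z => z.1 * t < z.2 * s) := by
    intro z hz
    rw [mem_filter] at hz
    rw [mem_union, mem_filter, mem_filter]
    rcases Nat.lt_or_gt_of_ne hz.2 with h | h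
    · exact Or.inr ⟨hz.1, h⟩
    · exact Or.inl ⟨hz.1, h⟩
  have c1 : ((ZZ q k U U' N).filter (fun z => z.2 * s < z.1 * t)).card ≤
      (U' * t / q) * (N / t + 1) := by
    have hmap : ((ZZ q k U U' N).filter (fun z => z.2 * s < z.1 * t)).card ≤
        (Icc 1 (U' * t / q) ×ˢ range (N / t + 1)).card := by
      apply Finset.card_le_card_of_injOn (fun z => ((z.1 * t - z.2 * s) / q, z.2 / t))
      · intro z hz
        rw [mem_coe, mem_filter] at hz
        have h1 := hcong z hz.1
        rw [mem_ZZ] at hz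
        have h2 : q ∣ z.1 * t - z.2 * s :=
          (Nat.modEq_iff_dvd' hz.2.le).1 (((ZMod.natCast_eq_natCast_iff _ _ _).1 h1).symm)
        have h3 : 0 < z.1 * t - z.2 * s := Nat.sub_pos_of_lt hz.2
        simp only [coe_product, Set.mem_prod, mem_coe, mem_Icc, mem_range]
        refine ⟨⟨Nat.div_pos (Nat.le_of_dvd h3 h2) hq0, Nat.div_le_div_right ?_⟩, ?_⟩
        · exact (Nat.sub_le _ _).trans (Nat.mul_le_mul_right _ hz.1.1.1.2)
        · exact Nat.lt_succ_of_le (Nat.div_le_div_right hz.1.1.2.2)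
      · intro z hz z' hz' h
        rw [mem_coe, mem_filter] at hz hz'
        have h1 := hcong z hz.1
        have h1' := hcong z' hz'.1
        have h2 : q ∣ z.1 * t - z.2 * s :=
          (Nat.modEq_iff_dvd' hz.2.le).1 (((ZMod.natCast_eq_natCast_iff _ _ _).1 h1).symm)
        have h2' : q ∣ z'.1 * t - z'.2 * s :=
          (Nat.modEq_iff_dvd' hz'.2.le).1 (((ZMod.natCast_eq_natCast_iff _ _ _).1 h1').symm)
        simp only [Prod.mk.injEq] at h
        obtain ⟨h3, h4⟩ := h
        have h5 : z.1 * t - z.2 * s = z'.1 * t - z'.2 * s := by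
          rw [← Nat.div_mul_cancel h2, h3, Nat.div_mul_cancel h2']
        have h6 : z.1 * t + z'.2 * s = z'.1 * t + z.2 * s := by
          have := hz.2; have := hz'.2
          omega
        have h7 : z'.2 * s ≡ z.2 * s [MOD t] := by
          have h8 : (z.1 * t + z'.2 * s) % t = (z'.1 * t + z.2 * s) % t := by rw [h6]
          rwa [Nat.mul_add_mod', Nat.mul_add_mod'] at h8
        have h9 : z'.2 ≡ z.2 [MOD t] := Nat.ModEq.cancel_right_of_coprime
          (by rw [Nat.gcd_comm]; exact hst) h7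
        have h10 : z.2 = z'.2 := by
          rw [← Nat.div_add_mod z.2 t, ← Nat.div_add_mod z'.2 t, h4]
          have : z'.2 % t = z.2 % t := h9
          rw [this]
        rw [h10] at h6
        have h11 : z.1 * t = z'.1 * t := by omega
        exact Prod.ext (Nat.eq_of_mul_eq_mul_right ht h11) h10
    rw [card_product, Nat.card_Icc, card_range] at hmap
    simpa using hmap
  have c2 : ((ZZ q k U U' N).filter (fun z => z.1 * t < z.2 * s)).card ≤
      (N * s / q) * (U' / s + 1) := by
    have hmap : ((ZZ q k U U' N).filter (fun z => z.1 * t < z.2 * s)).card ≤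
        (Icc 1 (N * s / q) ×ˢ range (U' / s + 1)).card := by
      apply Finset.card_le_card_of_injOn (fun z => ((z.2 * s - z.1 * t) / q, z.1 / s))
      · intro z hz
        rw [mem_coe, mem_filter] at hz
        have h1 := hcong z hz.1
        rw [mem_ZZ] at hz
        have h2 : q ∣ z.2 * s - z.1 * t :=
          (Nat.modEq_iff_dvd' hz.2.le).1 (((ZMod.natCast_eq_natCast_iff _ _ _).1 h1))
        have h3 : 0 < z.2 * s - z.1 * t := Nat.sub_pos_of_lt hz.2
        simp only [coe_product, Set.mem_prod, mem_coe, mem_Icc, mem_range]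
        refine ⟨⟨Nat.div_pos (Nat.le_of_dvd h3 h2) hq0, Nat.div_le_div_right ?_⟩, ?_⟩
        · exact (Nat.sub_le _ _).trans (Nat.mul_le_mul_right _ hz.1.1.2.2)
        · exact Nat.lt_succ_of_le (Nat.div_le_div_right hz.1.1.1.2)
      · intro z hz z' hz' h
        rw [mem_coe, mem_filter] at hz hz'
        have h1 := hcong z hz.1
        have h1' := hcong z' hz'.1
        have h2 : q ∣ z.2 * s - z.1 * t :=
          (Nat.modEq_iff_dvd' hz.2.le).1 (((ZMod.natCast_eq_natCast_iff _ _ _).1 h1))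
        have h2' : q ∣ z'.2 * s - z'.1 * t :=
          (Nat.modEq_iff_dvd' hz'.2.le).1 (((ZMod.natCast_eq_natCast_iff _ _ _).1 h1'))
        simp only [Prod.mk.injEq] at h
        obtain ⟨h3, h4⟩ := h
        have h5 : z.2 * s - z.1 * t = z'.2 * s - z'.1 * t := by
          rw [← Nat.div_mul_cancel h2, h3, Nat.div_mul_cancel h2']
        have h6 : z.2 * s + z'.1 * t = z'.2 * s + z.1 * t := by
          have := hz.2; have := hz'.2
          omega
        have h7 : z'.1 * t ≡ z.1 * t [MOD s] := by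
          have h8 : (z.2 * s + z'.1 * t) % s = (z'.2 * s + z.1 * t) % s := by rw [h6]
          rwa [Nat.mul_add_mod', Nat.mul_add_mod'] at h8
        have h9 : z'.1 ≡ z.1 [MOD s] := Nat.ModEq.cancel_right_of_coprime hst h7
        have h10 : z.1 = z'.1 := by
          rw [← Nat.div_add_mod z.1 s, ← Nat.div_add_mod z'.1 s, h4]
          have : z'.1 % s = z.1 % s := h9
          rw [this]
        rw [h10] at h6
        have h11 : z.2 * s = z'.2 * s := by omega
        exact Prod.ext h10 (Nat.eq_of_mul_eq_mul_right hs h11)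
    rw [card_product, Nat.card_Icc, card_range] at hmap
    simpa using hmap
  have c3 : (U' * t / q) * (N / t + 1) * q ≤ 2 * (U' * N) := by
    calc (U' * t / q) * (N / t + 1) * q = (U' * t / q * q) * (N / t + 1) := by ring
      _ ≤ (U' * t) * (N / t + 1) := Nat.mul_le_mul_right _ (Nat.div_mul_le_self _ _)
      _ = U' * (N / t * t) + U' * t := by ring
      _ ≤ U' * N + U' * N := Nat.add_le_add (Nat.mul_le_mul_left _ (Nat.div_mul_le_self _ _))
          (Nat.mul_le_mul_left _ htN)
      _ = _ := by ring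
  have c4 : (N * s / q) * (U' / s + 1) * q ≤ 2 * (U' * N) := by
    calc (N * s / q) * (U' / s + 1) * q = (N * s / q * q) * (U' / s + 1) := by ring
      _ ≤ (N * s) * (U' / s + 1) := Nat.mul_le_mul_right _ (Nat.div_mul_le_self _ _)
      _ = N * (U' / s * s) + N * s := by ring
      _ ≤ N * U' + N * U' := Nat.add_le_add (Nat.mul_le_mul_left _ (Nat.div_mul_le_self _ _))
          (Nat.mul_le_mul_left _ hsU)
      _ = _ := by ring
  have c5 := (card_le_card e1).trans (card_union_le _ _)
  calc _ ≤ _ := Nat.mul_le_mul_right q c5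
    _ ≤ ((U' * t / q) * (N / t + 1) + (N * s / q) * (U' / s + 1)) * q :=
        Nat.mul_le_mul_right q (Nat.add_le_add c1 c2)
    _ = (U' * t / q) * (N / t + 1) * q + (N * s / q) * (U' / s + 1) * q := by ring
    _ ≤ 2 * (U' * N) + 2 * (U' * N) := Nat.add_le_add c3 c4
    _ = _ := by ring

theorem card_ZZ {q : ℕ} [Fact q.Prime] (k : ZMod q) (N U U' : ℕ) (hNq : N < q)
    (hUN : q ≤ 2 * U * N) (hU' : U ≤ U') :
    (ZZ q k U U' N).card * q ≤ 6 * U' * N := by
  by_cases hA : ∃ s t : ℕ, 0 < s ∧ s ≤ U ∧ 0 < t ∧ t ≤ N ∧ Nat.Coprime s t ∧ (s : ZMod q) = k * t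
  · obtain ⟨s, t, hs, hsU, ht, htN, hst, hk⟩ := hA
    have h1 := card_main k N U U' s t hs ht (hsU.trans hU') htN hst hk
    have h2 : (ZZ q k U U' N).filter (fun z => ¬ z.1 * t = z.2 * s) = ZZ q k U U' N := by
      rw [filter_eq_self]
      intro z hz h
      rw [mem_ZZ] at hz
      have h3 : z.1 / Nat.gcd z.1 z.2 = s := by
        have hz1 : 0 < z.1 := hz.1.1.1
        obtain ⟨c, hc⟩ : s ∣ z.1 := (Nat.Coprime.dvd_of_dvd_mul_right hst ⟨z.2, by rw [h]; ring⟩)
        have h4 : z.2 = t * c := by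
          rw [hc] at h
          have : s * (t * c) = s * z.2 := by
            calc s * (t * c) = s * c * t := by ring
              _ = z.2 * s := h
              _ = _ := by ring
          exact (Nat.eq_of_mul_eq_mul_left hs this).symm
        have hc0 : 0 < c := by
          rcases Nat.eq_zero_or_pos c with h5 | h5
          · rw [h5] at hc; omega
          · exact h5
        rw [hc, h4, Nat.gcd_mul_right, hst.gcd_eq_one, one_mul, Nat.mul_div_cancel _ hc0]
      omega
    rw [h2] at h1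
    exact h1.trans (by nlinarith [Nat.zero_le (U' * N)])
  · rcases (ZZ q k U U' N).eq_empty_or_nonempty with he | ⟨z₀, hz₀⟩
    · rw [he]; simp
    · rw [mem_ZZ] at hz₀
      obtain ⟨⟨⟨a1, a2⟩, a3, a4⟩, a5, a6⟩ := hz₀
      set g := Nat.gcd z₀.1 z₀.2 with hg
      have hg0 : 0 < g := Nat.gcd_pos_of_pos_left _ a1
      set s := z₀.1 / g with hs
      set t := z₀.2 / g with ht
      have hsg : s * g = z₀.1 := Nat.div_mul_cancel (Nat.gcd_dvd_left _ _)
      have htg : t * g = z₀.2 := Nat.div_mul_cancel (Nat.gcd_dvd_right _ _)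
      have hs0 : 0 < s := by omega
      have ht0 : 0 < t := by
        rcases Nat.eq_zero_or_pos t with h | h
        · rw [h] at htg; omega
        · exact h
      have hst : Nat.Coprime s t := Nat.coprime_div_gcd_div_gcd hg0
      have hgq : (g : ZMod q) ≠ 0 := by
        intro h
        rw [ZMod.natCast_eq_zero_iff] at h
        have h1 := Nat.le_of_dvd hg0 h
        have h2 : g ≤ z₀.2 := Nat.gcd_le_right _ a3
        omega
      have hk : (s : ZMod q) = k * t := by
        have h1 : (s : ZMod q) * g = (k * t) * g := by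
          rw [← hsg, ← htg] at a5
          push_cast at a5
          rw [a5]; ring
        exact mul_right_cancel₀ hgq h1
      have hsU : s ≤ U' := (Nat.div_le_self _ _).trans a2
      have htN : t ≤ N := (Nat.div_le_self _ _).trans a4
      have h1 := card_main k N U U' s t hs0 ht0 hsU htN hst hk
      have h2 : ((ZZ q k U U' N).filter (fun z => z.1 * t = z.2 * s)).card ≤ U' / s := by
        have hmap : ((ZZ q k U U' N).filter (fun z => z.1 * t = z.2 * s)).card ≤ (Icc 1 (U' / s)).card := by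
          apply Finset.card_le_card_of_injOn (fun z => z.1 / s)
          · intro z hz
            rw [mem_coe, mem_filter] at hz
            have h3 : s ∣ z.1 := (Nat.Coprime.dvd_of_dvd_mul_right hst ⟨z.2, by rw [hz.2]; ring⟩)
            rw [mem_ZZ] at hz
            rw [mem_coe, mem_Icc]
            exact ⟨Nat.div_pos (Nat.le_of_dvd hz.1.1.1.1 h3) hs0, Nat.div_le_div_right hz.1.1.1.2⟩
          · intro z hz z' hz' h
            rw [mem_coe, mem_filter] at hz hz'
            have h3 : s ∣ z.1 := (Nat.Coprime.dvd_of_dvd_mul_right hst ⟨z.2, by rw [hz.2]; ring⟩)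
            have h3' : s ∣ z'.1 := (Nat.Coprime.dvd_of_dvd_mul_right hst ⟨z'.2, by rw [hz'.2]; ring⟩)
            simp only at h
            have h4 : z.1 = z'.1 := by
              rw [← Nat.div_mul_cancel h3, h, Nat.div_mul_cancel h3']
            have h5 : z.2 * s = z'.2 * s := by rw [← hz.2, ← hz'.2, h4]
            exact Prod.ext h4 (Nat.eq_of_mul_eq_mul_right hs0 h5)
        simpa using hmap
      have h3 : U' / s * q ≤ 2 * (U' * N) := by
        calc U' / s * q ≤ U' / s * (2 * U * N) := Nat.mul_le_mul_left _ hUN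
          _ ≤ U' / s * (2 * s * N) := by
              apply Nat.mul_le_mul_left
              exact Nat.mul_le_mul_right _ (Nat.mul_le_mul_left _ (le_of_lt a6))
          _ = 2 * (U' / s * s * N) := by ring
          _ ≤ 2 * (U' * N) := Nat.mul_le_mul_left _ (Nat.mul_le_mul_right _ (Nat.div_mul_le_self _ _))
      have h4 := card_filter_add_card_filter_not (s := ZZ q k U U' N) (fun z => z.1 * t = z.2 * s)
      calc (ZZ q k U U' N).card * q = ((ZZ q k U U' N).filter (fun z => z.1 * t = z.2 * s)).card * q +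
            ((ZZ q k U U' N).filter (fun z => ¬ z.1 * t = z.2 * s)).card * q := by
              rw [← add_mul, h4]
        _ ≤ U' / s * q + 4 * U' * N := Nat.add_le_add (Nat.mul_le_mul_right _ h2) h1
        _ ≤ 2 * (U' * N) + 4 * U' * N := Nat.add_le_add_right h3 _
        _ = _ := by ring

lemma ZZ_sum {q : ℕ} [Fact q.Prime] (k : ZMod q) (N U U' : ℕ) (hNq : N < q)
    (hUN : q ≤ 2 * U * N) :
    ∑ z ∈ ZZ q k U U' N, (z.1 : ℝ) ^ (-(1 / 2 : ℝ)) ≤
      12 * ((Nat.log 2 U' : ℝ) + 1) * (Real.sqrt U' * N / q) := by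
  have hq0 : (0 : ℝ) < q := by exact_mod_cast (Nat.Prime.pos Fact.out : 0 < q)
  have hmaps : ∀ z ∈ ZZ q k U U' N, Nat.log 2 z.1 ∈ range (Nat.log 2 U' + 1) := by
    intro z hz
    rw [mem_ZZ] at hz
    rw [mem_range]
    exact Nat.lt_succ_of_le (Nat.log_mono_right hz.1.1.2)
  rw [← Finset.sum_fiberwise_of_maps_to hmaps]
  have h1 : ∀ i ∈ range (Nat.log 2 U' + 1), ∑ z ∈ (ZZ q k U U' N).filter (fun z => Nat.log 2 z.1 = i),
      (z.1 : ℝ) ^ (-(1 / 2 : ℝ)) ≤ 12 * (Real.sqrt U' * N / q) := by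
    intro i hi
    rcases ((ZZ q k U U' N).filter (fun z => Nat.log 2 z.1 = i)).eq_empty_or_nonempty with he | ⟨z₀, hz₀⟩
    · rw [he, sum_empty]; positivity
    · rw [mem_filter, mem_ZZ] at hz₀
      obtain ⟨⟨⟨⟨a1, a2⟩, a3, a4⟩, a5, a6⟩, a7⟩ := hz₀
      have hUi : U ≤ 2 ^ (i + 1) := by
        have h2 : z₀.1 < 2 ^ (i + 1) := by
          rw [← a7]
          exact Nat.lt_pow_succ_log_self (by norm_num) _
        have h3 : z₀.1 / Nat.gcd z₀.1 z₀.2 ≤ z₀.1 := Nat.div_le_self _ _
        omega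
      have hiU : 2 ^ i ≤ U' := by
        have h2 : 2 ^ i ≤ z₀.1 := by
          rw [← a7]
          exact Nat.pow_log_le_self 2 (by omega)
        omega
      have hsub : (ZZ q k U U' N).filter (fun z => Nat.log 2 z.1 = i) ⊆ ZZ q k U (2 ^ (i + 1)) N := by
        intro z hz
        rw [mem_filter, mem_ZZ] at hz
        rw [mem_ZZ]
        refine ⟨⟨⟨hz.1.1.1.1, ?_⟩, hz.1.1.2⟩, hz.1.2⟩
        rw [← hz.2]
        exact (Nat.lt_pow_succ_log_self (by norm_num) _).le
      have hcard := card_ZZ k N U (2 ^ (i + 1)) hNq hUN hUi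
      have hc2 : (((ZZ q k U U' N).filter (fun z => Nat.log 2 z.1 = i)).card : ℝ) ≤
          12 * 2 ^ i * N / q := by
        rw [le_div_iff₀ hq0]
        have h4 : (((ZZ q k U U' N).filter (fun z => Nat.log 2 z.1 = i)).card * q : ℕ) ≤
            6 * 2 ^ (i + 1) * N := (Nat.mul_le_mul_right _ (card_le_card hsub)).trans hcard
        have h5 : ((((ZZ q k U U' N).filter (fun z => Nat.log 2 z.1 = i)).card * q : ℕ) : ℝ) ≤
            ((6 * 2 ^ (i + 1) * N : ℕ) : ℝ) := by exact_mod_cast h4
        push_cast at h5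
        rw [pow_succ] at h5
        linarith
      have hw : ∀ z ∈ (ZZ q k U U' N).filter (fun z => Nat.log 2 z.1 = i),
          (z.1 : ℝ) ^ (-(1 / 2 : ℝ)) ≤ ((2 : ℝ) ^ i) ^ (-(1 / 2 : ℝ)) := by
        intro z hz
        rw [mem_filter, mem_ZZ] at hz
        apply Real.rpow_le_rpow_of_nonpos (by positivity) _ (by norm_num)
        have h2 : 2 ^ i ≤ z.1 := by
          rw [← hz.2]
          exact Nat.pow_log_le_self 2 (by have := hz.1.1.1.1; omega)
        exact_mod_cast h2
      refine (Finset.sum_le_card_nsmul _ _ _ hw).trans ?_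
      rw [nsmul_eq_mul]
      have h6 : ((2 : ℝ) ^ i) ^ (-(1 / 2 : ℝ)) = (Real.sqrt (2 ^ i))⁻¹ := by
        rw [Real.rpow_neg (by positivity), Real.sqrt_eq_rpow]
      rw [h6]
      have h7 : Real.sqrt ((2 : ℝ) ^ i) ≤ Real.sqrt U' := Real.sqrt_le_sqrt (by exact_mod_cast hiU)
      have h8 : (0 : ℝ) < Real.sqrt ((2 : ℝ) ^ i) := Real.sqrt_pos.2 (by positivity)
      calc _ ≤ 12 * 2 ^ i * N / q * (Real.sqrt ((2 : ℝ) ^ i))⁻¹ :=
            mul_le_mul_of_nonneg_right hc2 (by positivity)
        _ = 12 * (Real.sqrt ((2 : ℝ) ^ i) * N / q) := by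
            have h9 : (2 : ℝ) ^ i = Real.sqrt ((2 : ℝ) ^ i) * Real.sqrt ((2 : ℝ) ^ i) :=
              (Real.mul_self_sqrt (by positivity)).symm
            generalize Real.sqrt ((2 : ℝ) ^ i) = S at h9 h8
            rw [h9]
            field_simp
        _ ≤ _ := by
            apply mul_le_mul_of_nonneg_left _ (by norm_num)
            apply div_le_div_of_nonneg_right _ hq0.le
            exact mul_le_mul_of_nonneg_right h7 (Nat.cast_nonneg _)
  refine (Finset.sum_le_sum h1).trans (le_of_eq ?_)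
  rw [Finset.sum_const, card_range, nsmul_eq_mul]
  push_cast
  ring

end Pool.Agent.R311.RES
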