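import Mathlib
import Pool.Agent.R311.RES.A5
import Pool.Agent.R311.RES.C2
import Pool.Agent.R311.RES.C3
import Pool.Agent.R311.RES.C4

/-! The exact and the inexact terms. -/

set_option autoImplicit false

namespace Pool.Agent.R311.RES
open Finset
open scoped Classical

variable {q : ℕ} [Fact q.Prime]

/-- the class of the product of a set of primes -/
noncomputable def ui (q : ℕ) (S : Finset ℕ) : (ZMod q)ˣ := un q (ms S)

lemma cop_of_lt {n : ℕ} (h0 : 0 < n) (h : n < q) : n.Coprime q := by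
  have hq : q.Prime := Fact.out
  exact ((Nat.Prime.coprime_iff_not_dvd hq).2 (fun hd => absurd (Nat.le_of_dvd h0 hd) (by omega))).symm

lemma ui_val {P : Finset ℕ} {N : ℕ} (hP : ∀ p ∈ P, p.Prime) (hNq : N < q) {S : Finset ℕ}
    (hS : S ∈ IN P N) : ((ms S : ℕ) : ZMod q) = (ui q S : ZMod q) := by
  rw [mem_IN] at hS
  have h0 : 0 < ms S := ms_pos fun p hp => hP p (hS.1 hp)
  rw [ui, un_val (cop_of_lt h0 (by omega))]

theorem exact_low (B P : Finset ℕ) (hP : ∀ p ∈ P, p.Prime) (hBP : ∀ p ∈ B, p.Prime ∧ p ∉ P)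
    (N : ℕ) (hNq : N < q) (r : ℕ → ℝ) (hr : ∀ p, 0 ≤ r p) :
    FN r P N ≤ ∑ a : (ZMod q)ˣ, bw B (a : ZMod q).val *
      ∑ z ∈ (IN P N ×ˢ IN P N).filter (fun z => (a : ZMod q).val * ms z.1 = ms z.2),
        ws r z.1 * ws r z.2 := by
  have e1 : ∑ a : (ZMod q)ˣ, bw B (a : ZMod q).val *
      ∑ z ∈ (IN P N ×ˢ IN P N).filter (fun z => (a : ZMod q).val * ms z.1 = ms z.2),
        ws r z.1 * ws r z.2 = ∑ z ∈ IN P N ×ˢ IN P N, ∑ a : (ZMod q)ˣ,
        (if (a : ZMod q).val * ms z.1 = ms z.2 then bw B (a : ZMod q).val * (ws r z.1 * ws r z.2)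
          else 0) := by
    rw [Finset.sum_comm]
    apply Finset.sum_congr rfl
    intro a _
    rw [Finset.sum_filter, Finset.mul_sum]
    apply Finset.sum_congr rfl
    intro z _
    split_ifs
    · rfl
    · rw [mul_zero]
  rw [e1]
  have e2 : FN r P N = ∑ z ∈ IN P N ×ˢ IN P N, (if z.1 ⊆ z.2 then
      ws r z.2 * ws r z.1 * (Real.sqrt (ms z.1) / Real.sqrt (ms z.2)) else 0) := by
    rw [Finset.sum_product_right, FN]
    apply Finset.sum_congr rfl
    intro T hT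
    rw [powerset_eq P hP N hT, Finset.sum_filter]
  rw [e2]
  apply Finset.sum_le_sum
  intro z hz
  rw [mem_product, mem_IN, mem_IN] at hz
  obtain ⟨⟨a1, a2⟩, a3, a4⟩ := hz
  have hnn : ∀ a : (ZMod q)ˣ, 0 ≤ (if (a : ZMod q).val * ms z.1 = ms z.2 then
      bw B (a : ZMod q).val * (ws r z.1 * ws r z.2) else 0) := by
    intro a
    split_ifs
    · exact mul_nonneg (bw_nonneg _ _) (mul_nonneg (ws_nonneg hr _) (ws_nonneg hr _))
    · exact le_rfl
  split_ifs with hsub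
  · have hp2 : ∀ p ∈ z.2, p.Prime := fun p hp => hP p (a3 hp)
    have hpd : ∀ p ∈ z.2 \ z.1, p.Prime := fun p hp => hp2 p (mem_sdiff.1 hp).1
    have h0 : 0 < ms (z.2 \ z.1) := ms_pos hpd
    have h1 : ms (z.2 \ z.1) * ms z.1 = ms z.2 := by
      rw [← ms_disj sdiff_disjoint, sdiff_union_of_subset hsub]
    have h01 : 0 < ms z.1 := ms_pos fun p hp => hP p (a1 hp)
    have h02 : 0 < ms z.2 := ms_pos hp2
    have hlt : ms (z.2 \ z.1) < q := by
      have : ms (z.2 \ z.1) ≤ ms z.2 := by rw [← h1]; exact Nat.le_mul_of_pos_right _ h01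
      omega
    set a : (ZMod q)ˣ := un q (ms (z.2 \ z.1)) with ha
    have hav : (a : ZMod q).val = ms (z.2 \ z.1) := by
      rw [ha, un_val (cop_of_lt h0 hlt), ZMod.val_natCast_of_lt hlt]
    refine le_trans ?_ (Finset.single_le_sum (fun a _ => hnn a) (mem_univ a))
    rw [hav, if_pos h1]
    have hb : bw B (ms (z.2 \ z.1)) = Real.sqrt (ms z.1) / Real.sqrt (ms z.2) := by
      unfold bw
      rw [if_pos]
      · rw [← h1]
        push_cast
        rw [Real.sqrt_mul (by positivity), Real.rpow_neg (by positivity), ← Real.sqrt_eq_rpow]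
        have q1 : Real.sqrt (ms z.1) ≠ 0 := (Real.sqrt_pos.2 (by exact_mod_cast h01)).ne'
        have q2 : Real.sqrt (ms (z.2 \ z.1)) ≠ 0 := (Real.sqrt_pos.2 (by exact_mod_cast h0)).ne'
        field_simp
      · intro p hp hd
        have h5 := (prime_dvd_ms hpd (hBP p hp).1).1 hd
        exact (hBP p hp).2 (a3 (mem_sdiff.1 h5).1)
    rw [hb]
    apply le_of_eq
    ring
  · exact Finset.sum_nonneg fun a _ => hnn a

/-- reduced fractions -/
lemma red_frac {x y : ℕ} (hx : 0 < x) (hy : 0 < y) : ∃ g, 0 < g ∧ x / Nat.gcd x y * g = x ∧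
    y / Nat.gcd x y * g = y ∧ Nat.Coprime (x / Nat.gcd x y) (y / Nat.gcd x y) ∧
    0 < x / Nat.gcd x y ∧ 0 < y / Nat.gcd x y ∧ g ≤ y := by
  have hg0 : 0 < Nat.gcd x y := Nat.gcd_pos_of_pos_left _ hx
  refine ⟨Nat.gcd x y, hg0, Nat.div_mul_cancel (Nat.gcd_dvd_left _ _),
    Nat.div_mul_cancel (Nat.gcd_dvd_right _ _), Nat.coprime_div_gcd_div_gcd hg0, ?_, ?_,
    Nat.gcd_le_right _ hy⟩
  · exact Nat.div_pos (Nat.gcd_le_left _ hx) hg0
  · exact Nat.div_pos (Nat.gcd_le_right _ hy) hg0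

lemma frac_class {x y N : ℕ} (hx : 0 < x) (hy : 0 < y) (hyN : y ≤ N) (hNq : N < q) (k : ZMod q)
    (h : (x : ZMod q) = k * y) :
    ((x / Nat.gcd x y : ℕ) : ZMod q) = k * ((y / Nat.gcd x y : ℕ) : ZMod q) := by
  obtain ⟨g, hg, h1, h2, h3, h4, h5, h6⟩ := red_frac hx hy
  have hgq : (g : ZMod q) ≠ 0 := by
    intro h0
    rw [ZMod.natCast_eq_zero_iff] at h0
    have := Nat.le_of_dvd hg h0
    omega
  have h7 : ((x / Nat.gcd x y : ℕ) : ZMod q) * g = (k * ((y / Nat.gcd x y : ℕ) : ZMod q)) * g := by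
    rw [mul_assoc, ← Nat.cast_mul, ← Nat.cast_mul, h1, h2]
    exact h
  exact mul_right_cancel₀ hgq h7

lemma frac_unique {s t s' t' U N : ℕ} (hUN : U * N < q) (hs : s ≤ U) (ht : t ≤ N)
    (hs' : s' ≤ U) (ht' : t' ≤ N) (hc : Nat.Coprime s t) (hc' : Nat.Coprime s' t')
    (hs0 : 0 < s) (k : ZMod q)
    (h : (s : ZMod q) = k * t) (h' : (s' : ZMod q) = k * t') : s = s' ∧ t = t' := by
  have h1 : ((s * t' : ℕ) : ZMod q) = ((s' * t : ℕ) : ZMod q) := by
    push_cast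
    rw [h, h']; ring
  have b1 : s * t' < q := lt_of_le_of_lt (Nat.mul_le_mul hs ht') hUN
  have b2 : s' * t < q := lt_of_le_of_lt (Nat.mul_le_mul hs' ht) hUN
  have h2 : s * t' = s' * t := by
    have := congrArg ZMod.val h1
    rwa [ZMod.val_natCast_of_lt b1, ZMod.val_natCast_of_lt b2] at this
  have d1 : s ∣ s' := Nat.Coprime.dvd_of_dvd_mul_right hc ⟨t', h2.symm⟩
  have d2 : s' ∣ s := Nat.Coprime.dvd_of_dvd_mul_right hc' ⟨t, h2⟩
  have h3 : s = s' := Nat.dvd_antisymm d1 d2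
  refine ⟨h3, ?_⟩
  rw [← h3] at h2
  exact (Nat.eq_of_mul_eq_mul_left hs0 h2).symm

end Pool.Agent.R311.RES
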