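import Mathlib
import Pool.Agent.R311.RES.C5

/-! The inexact terms are small. -/

set_option autoImplicit false

namespace Pool.Agent.R311.RES
open Finset
open scoped Classical

variable {q : ℕ} [Fact q.Prime]

/-- the inexact triples in the class `k` -/
noncomputable def Xk (q : ℕ) [Fact q.Prime] (P : Finset ℕ) (N : ℕ) (k : (ZMod q)ˣ) :
    Finset ((ZMod q)ˣ × (Finset ℕ × Finset ℕ)) :=
  (univ ×ˢ (IN P N ×ˢ IN P N)).filter (fun y => y.1 * ui q y.2.1 * (ui q y.2.2)⁻¹ = k ∧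
    ¬ (y.1 : ZMod q).val * ms y.2.1 = ms y.2.2)

/-- the weight of a triple -/
noncomputable def Wt (q : ℕ) (B : Finset ℕ) (r : ℕ → ℝ) (y : (ZMod q)ˣ × (Finset ℕ × Finset ℕ)) : ℝ :=
  bw B (y.1 : ZMod q).val * (ws r y.2.1 * ws r y.2.2)

/-- the reduced numerator -/
def rs (q : ℕ) (y : (ZMod q)ˣ × (Finset ℕ × Finset ℕ)) : ℕ :=
  ((y.1 : ZMod q).val * ms y.2.1) / Nat.gcd ((y.1 : ZMod q).val * ms y.2.1) (ms y.2.2)

lemma Wt_nonneg (B : Finset ℕ) (r : ℕ → ℝ) (hr : ∀ p, 0 ≤ r p)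
    (y : (ZMod q)ˣ × (Finset ℕ × Finset ℕ)) : 0 ≤ Wt q B r y :=
  mul_nonneg (bw_nonneg _ _) (mul_nonneg (ws_nonneg hr _) (ws_nonneg hr _))

lemma Xk_facts {P : Finset ℕ} {N : ℕ} (hP : ∀ p ∈ P, p.Prime) (hNq : N < q) {k : (ZMod q)ˣ}
    {y : (ZMod q)ˣ × (Finset ℕ × Finset ℕ)} (hy : y ∈ Xk q P N k) :
    y.2.1 ∈ IN P N ∧ y.2.2 ∈ IN P N ∧ 0 < (y.1 : ZMod q).val * ms y.2.1 ∧ 0 < ms y.2.2 ∧
    (((y.1 : ZMod q).val * ms y.2.1 : ℕ) : ZMod q) = (k : ZMod q) * ((ms y.2.2 : ℕ) : ZMod q) ∧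
    ¬ (y.1 : ZMod q).val * ms y.2.1 = ms y.2.2 := by
  have : NeZero q := ⟨(Nat.Prime.pos Fact.out).ne'⟩
  rw [Xk, mem_filter, mem_product, mem_product] at hy
  obtain ⟨⟨-, a1, a2⟩, a3, a4⟩ := hy
  have b1 := mem_IN.1 a1
  have b2 := mem_IN.1 a2
  refine ⟨a1, a2, Nat.mul_pos (val_pos _) (ms_pos fun p hp => hP p (b1.1 hp)),
    ms_pos fun p hp => hP p (b2.1 hp), ?_, a4⟩
  push_cast
  rw [ZMod.natCast_zmod_val, ui_val hP hNq a1, ui_val hP hNq a2, ← Units.val_mul, ← Units.val_mul]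
  congr 1
  rw [← a3]
  simp

theorem typeI (B P : Finset ℕ) (hP : ∀ p ∈ P, p.Prime) (hBP : ∀ p ∈ B, p.Prime ∧ p ∉ P)
    (N U : ℕ) (hNq : N < q) (hUN : U * N < q) (r : ℕ → ℝ) (hr : ∀ p, 0 ≤ r p) (k : (ZMod q)ˣ)
    (c : ℝ) (hc0 : 0 ≤ c)
    (Hc : ∀ s t : ℕ, 0 < s → 0 < t → s ≤ U → t ≤ N → Nat.Coprime s t → ¬ (s = 1 ∧ t = 1) →
      (s : ZMod q) = (k : ZMod q) * t → (∀ p ∈ B, ¬ p ∣ s) → t.primeFactors ⊆ P →
      ms t.primeFactors = t → ws r t.primeFactors * gs r P s ≤ c) :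
    ∑ y ∈ (Xk q P N k).filter (fun y => rs q y ≤ U), Wt q B r y ≤ c * FN r P N := by
  have : NeZero q := ⟨(Nat.Prime.pos Fact.out).ne'⟩
  set X := (Xk q P N k).filter (fun y => rs q y ≤ U) with hX
  have hF0 := FN_nonneg hr P N
  by_cases hall : ∀ y ∈ X, bw B (y.1 : ZMod q).val = 0
  · have : ∑ y ∈ X, Wt q B r y = 0 := by
      apply Finset.sum_eq_zero
      intro y hy
      rw [Wt, hall y hy, zero_mul]
    rw [this]
    positivity
  · push Not at hall
    obtain ⟨y₀, hy₀, hb⟩ := hall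
    rw [hX, mem_filter] at hy₀
    obtain ⟨a1, a2, a3, a4, a5, a6⟩ := Xk_facts hP hNq hy₀.1
    have b2 := mem_IN.1 a2
    have b1 := mem_IN.1 a1
    set x := (y₀.1 : ZMod q).val * ms y₀.2.1 with hx
    set n := ms y₀.2.2 with hn
    obtain ⟨g, g0, g1, g2, g3, g4, g5, g6⟩ := red_frac a3 a4
    have hcl := frac_class a3 a4 b2.2 hNq (k : ZMod q) a5
    set s := x / Nat.gcd x n with hs
    set t := n / Nat.gcd x n with ht
    have hsU : s ≤ U := hy₀.2
    have htN : t ≤ N := (Nat.div_le_self _ _).trans b2.2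
    have hBfree : ∀ p ∈ B, ¬ p ∣ (y₀.1 : ZMod q).val := by
      by_contra hcon
      apply hb
      unfold bw
      rw [if_neg hcon]
    have hne : ¬ (s = 1 ∧ t = 1) := by
      rintro ⟨h1, h2⟩
      apply a6
      rw [← g1, ← g2, h1, h2]
    have hsB : ∀ p ∈ B, ¬ p ∣ s := by
      intro p hp hd
      have h1 : p ∣ x := by rw [← g1]; exact hd.mul_right _
      rw [hx, ((hBP p hp).1).dvd_mul] at h1
      rcases h1 with h1 | h1
      · exact hBfree p hp h1
      · have h2 := (prime_dvd_ms (fun p' hp' => hP p' (b1.1 hp')) (hBP p hp).1).1 h1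
        exact (hBP p hp).2 (b1.1 h2)
    have htP : t.primeFactors ⊆ P := by
      have h1 : t ∣ ms y₀.2.2 := by rw [← hn, ← g2]; exact Dvd.intro _ rfl
      exact (dvd_ms_eq (fun p hp => hP p (b2.1 hp)) h1).1.trans b2.1
    have htsq : ms t.primeFactors = t := by
      have h1 : t ∣ ms y₀.2.2 := by rw [← hn, ← g2]; exact Dvd.intro _ rfl
      exact (dvd_ms_eq (fun p hp => hP p (b2.1 hp)) h1).2
    have hmain := Hc s t g4 g5 hsU htN g3 hne hcl hsB htP htsq
    have hD := D_bound r P hP hr N s t g4 g5 g3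
    have huniq : ∀ y ∈ X, (y.1 : ZMod q).val * ms y.2.1 * t = ms y.2.2 * s := by
      intro y hy
      rw [hX, mem_filter] at hy
      obtain ⟨c1, c2, c3, c4, c5, c6⟩ := Xk_facts hP hNq hy.1
      have d2 := mem_IN.1 c2
      obtain ⟨g', g0', g1', g2', g3', g4', g5', g6'⟩ := red_frac c3 c4
      have hcl' := frac_class c3 c4 d2.2 hNq (k : ZMod q) c5
      obtain ⟨e1, e2⟩ := frac_unique hUN hsU htN hy.2 ((Nat.div_le_self _ _).trans d2.2) g3 g3' g4
        (k : ZMod q) hcl hcl'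
      have g1'' : rs q y * g' = (y.1 : ZMod q).val * ms y.2.1 := g1'
      have i1 : s * g' = (y.1 : ZMod q).val * ms y.2.1 := by rw [e1]; exact g1''
      have i2 : t * g' = ms y.2.2 := by rw [e2]; exact g2'
      calc (y.1 : ZMod q).val * ms y.2.1 * t = (s * g') * t := by rw [i1]
        _ = (t * g') * s := by ring
        _ = ms y.2.2 * s := by rw [i2]
    set f : Finset ℕ × Finset ℕ → ℝ := fun z =>
      ws r z.1 * ws r z.2 * (Real.sqrt (ms z.1 * t) / Real.sqrt (ms z.2 * s)) with hf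
    have hval : ∀ y ∈ X, Wt q B r y ≤ f y.2 := by
      intro y hy
      have h1 := huniq y hy
      rw [hX, mem_filter] at hy
      obtain ⟨c1, c2, c3, c4, c5, c6⟩ := Xk_facts hP hNq hy.1
      have d1 := mem_IN.1 c1
      have h0 : 0 ≤ ws r y.2.1 * ws r y.2.2 := mul_nonneg (ws_nonneg hr _) (ws_nonneg hr _)
      simp only [hf, Wt]
      rw [mul_comm]
      apply mul_le_mul_of_nonneg_left _ h0
      refine (bw_le _ _).trans (le_of_eq ?_)
      have h2 : (ms y.2.2 : ℝ) * s = (y.1 : ZMod q).val * (ms y.2.1 * t) := by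
        have : ((ms y.2.2 * s : ℕ) : ℝ) = (((y.1 : ZMod q).val * ms y.2.1 * t : ℕ) : ℝ) := by rw [h1]
        push_cast at this
        rw [this]; ring
      have m1 : 0 < ms y.2.1 := ms_pos fun p hp => hP p (d1.1 hp)
      have q1 : Real.sqrt ((ms y.2.1 : ℝ) * t) ≠ 0 := (Real.sqrt_pos.2 (by positivity)).ne'
      have hv : 0 < (y.1 : ZMod q).val := val_pos _
      have q2 : Real.sqrt (((y.1 : ZMod q).val : ℝ)) ≠ 0 := (Real.sqrt_pos.2 (by exact_mod_cast hv)).ne'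
      rw [h2, Real.sqrt_mul (Nat.cast_nonneg (y.1 : ZMod q).val) ((ms y.2.1 : ℝ) * t),
        Real.rpow_neg (by positivity), ← Real.sqrt_eq_rpow]
      generalize Real.sqrt ((ms y.2.1 : ℝ) * t) = S1 at q1
      generalize Real.sqrt ((y.1 : ZMod q).val : ℝ) = S2 at q2
      field_simp
    have hinj : Set.InjOn (fun y : (ZMod q)ˣ × (Finset ℕ × Finset ℕ) => y.2) X := by
      intro y hy y' hy' h
      simp only at h
      rw [mem_coe, hX, mem_filter, Xk, mem_filter] at hy hy'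
      apply Prod.ext _ h
      have h1 := hy.1.2.1.trans hy'.1.2.1.symm
      rw [h] at h1
      exact mul_right_cancel (mul_right_cancel h1)
    calc ∑ y ∈ X, Wt q B r y ≤ ∑ y ∈ X, f y.2 := Finset.sum_le_sum hval
      _ = ∑ z ∈ X.image (fun y => y.2), f z := (Finset.sum_image (f := f) hinj).symm
      _ ≤ ∑ z ∈ (IN P N ×ˢ IN P N).filter (fun z => ms z.1 * t ∣ ms z.2 * s), f z := by
          apply Finset.sum_le_sum_of_subset_of_nonneg
          · intro z hz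
            rw [mem_image] at hz
            obtain ⟨y, hy, rfl⟩ := hz
            have h1 := huniq y hy
            rw [hX, mem_filter] at hy
            obtain ⟨c1, c2, -⟩ := Xk_facts hP hNq hy.1
            rw [mem_filter, mem_product]
            refine ⟨⟨c1, c2⟩, ?_⟩
            rw [← h1, mul_assoc]
            exact Dvd.intro_left _ rfl
          · intro z _ _
            exact mul_nonneg (mul_nonneg (ws_nonneg hr _) (ws_nonneg hr _)) (by positivity)
      _ ≤ ws r t.primeFactors * gs r P s * FN r P N := hD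
      _ ≤ c * FN r P N := mul_le_mul_of_nonneg_right hmain hF0

theorem typeIIa (B P : Finset ℕ) (N U A0 : ℕ) (hA0 : 0 < A0) (r : ℕ → ℝ) (hr : ∀ p, 0 ≤ r p)
    (k : (ZMod q)ˣ) :
    ∑ y ∈ (Xk q P N k).filter (fun y => U < rs q y ∧ A0 < (y.1 : ZMod q).val), Wt q B r y ≤
      (A0 : ℝ) ^ (-(1 / 2 : ℝ)) * (∑ S ∈ IN P N, ws r S) ^ 2 := by
  set X := (Xk q P N k).filter (fun y => U < rs q y ∧ A0 < (y.1 : ZMod q).val) with hX
  set f : Finset ℕ × Finset ℕ → ℝ := fun z => (A0 : ℝ) ^ (-(1 / 2 : ℝ)) * (ws r z.1 * ws r z.2) with hf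
  have hval : ∀ y ∈ X, Wt q B r y ≤ f y.2 := by
    intro y hy
    rw [hX, mem_filter] at hy
    have h0 : 0 ≤ ws r y.2.1 * ws r y.2.2 := mul_nonneg (ws_nonneg hr _) (ws_nonneg hr _)
    simp only [hf, Wt]
    apply mul_le_mul_of_nonneg_right _ h0
    refine (bw_le _ _).trans ?_
    apply Real.rpow_le_rpow_of_nonpos (by exact_mod_cast hA0) _ (by norm_num)
    exact_mod_cast hy.2.2.le
  have hinj : Set.InjOn (fun y : (ZMod q)ˣ × (Finset ℕ × Finset ℕ) => y.2) X := by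
    intro y hy y' hy' h
    simp only at h
    rw [mem_coe, hX, mem_filter, Xk, mem_filter] at hy hy'
    apply Prod.ext _ h
    have h1 := hy.1.2.1.trans hy'.1.2.1.symm
    rw [h] at h1
    exact mul_right_cancel (mul_right_cancel h1)
  calc ∑ y ∈ X, Wt q B r y ≤ ∑ y ∈ X, f y.2 := Finset.sum_le_sum hval
    _ = ∑ z ∈ X.image (fun y => y.2), f z := (Finset.sum_image (f := f) hinj).symm
    _ ≤ ∑ z ∈ IN P N ×ˢ IN P N, f z := by
        apply Finset.sum_le_sum_of_subset_of_nonneg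
        · intro z hz
          rw [mem_image] at hz
          obtain ⟨y, hy, rfl⟩ := hz
          rw [hX, mem_filter, Xk, mem_filter, mem_product] at hy
          exact hy.1.1.2
        · intro z _ _
          exact mul_nonneg (by positivity) (mul_nonneg (ws_nonneg hr _) (ws_nonneg hr _))
    _ = _ := by
        simp only [hf]
        rw [← Finset.mul_sum, sum_product, sq, Finset.sum_mul_sum]

theorem typeIIb (B P : Finset ℕ) (hP : ∀ p ∈ P, p.Prime) (N U A0 L : ℕ) (hNq : N < q)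
    (hUN2 : q ≤ 2 * U * N)
    (r : ℕ → ℝ) (hr : ∀ p, 0 ≤ r p) (hr1 : ∀ p ∈ P, r p ≤ 1)
    (k : (ZMod q)ˣ) (hL : ∀ u : ℕ, 0 < u → u ≤ A0 * N → (P.filter (fun p => p ∣ u)).card ≤ L) :
    ∑ y ∈ (Xk q P N k).filter (fun y => U < rs q y ∧ ¬ A0 < (y.1 : ZMod q).val), Wt q B r y ≤
      2 ^ L * Real.sqrt N * (12 * ((Nat.log 2 (A0 * N) : ℝ) + 1) * (Real.sqrt (A0 * N : ℕ) * N / q)) := by
  set X := (Xk q P N k).filter (fun y => U < rs q y ∧ ¬ A0 < (y.1 : ZMod q).val) with hX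
  have hws1 : ∀ S ∈ IN P N, ws r S ≤ 1 := by
    intro S hS
    rw [mem_IN] at hS
    exact Finset.prod_le_one (fun p _ => hr p) (fun p hp => hr1 p (hS.1 hp))
  set ψ : (ZMod q)ˣ × (Finset ℕ × Finset ℕ) → ℕ × ℕ := fun y =>
    ((y.1 : ZMod q).val * ms y.2.1, ms y.2.2) with hψ
  have hmaps : ∀ y ∈ X, ψ y ∈ ZZ q (k : ZMod q) U (A0 * N) N := by
    intro y hy
    rw [hX, mem_filter] at hy
    obtain ⟨c1, c2, c3, c4, c5, c6⟩ := Xk_facts hP hNq hy.1
    rw [mem_ZZ]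
    simp only [hψ]
    refine ⟨⟨⟨c3, ?_⟩, c4, (mem_IN.1 c2).2⟩, c5, hy.2.1⟩
    exact Nat.mul_le_mul (not_lt.1 hy.2.2) (mem_IN.1 c1).2
  have hval : ∀ y ∈ X, Wt q B r y ≤ Real.sqrt N * ((ψ y).1 : ℝ) ^ (-(1 / 2 : ℝ)) := by
    intro y hy
    rw [hX, mem_filter] at hy
    obtain ⟨c1, c2, c3, c4, c5, c6⟩ := Xk_facts hP hNq hy.1
    have d1 := mem_IN.1 c1
    have w1 := hws1 _ c1
    have w2 := hws1 _ c2
    have w3 := ws_nonneg hr y.2.1
    have w4 := ws_nonneg hr y.2.2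
    have hw : ws r y.2.1 * ws r y.2.2 ≤ 1 := mul_le_one₀ w1 w4 w2
    have m1 : 0 < ms y.2.1 := ms_pos fun p hp => hP p (d1.1 hp)
    have hv : 0 < (y.1 : ZMod q).val := val_pos _
    simp only [Wt, hψ]
    calc bw B (y.1 : ZMod q).val * (ws r y.2.1 * ws r y.2.2) ≤
          ((y.1 : ZMod q).val : ℝ) ^ (-(1 / 2 : ℝ)) * 1 :=
          mul_le_mul (bw_le _ _) hw (mul_nonneg w3 w4) (by positivity)
      _ = Real.sqrt (ms y.2.1) * (((y.1 : ZMod q).val * ms y.2.1 : ℕ) : ℝ) ^ (-(1 / 2 : ℝ)) := by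
          push_cast
          rw [Real.mul_rpow (by positivity) (by positivity), Real.rpow_neg (Nat.cast_nonneg (ms y.2.1)),
            ← Real.sqrt_eq_rpow (ms y.2.1 : ℝ)]
          have q1 : Real.sqrt (ms y.2.1 : ℝ) ≠ 0 := (Real.sqrt_pos.2 (by exact_mod_cast m1)).ne'
          field_simp
      _ ≤ _ := by
          apply mul_le_mul_of_nonneg_right _ (by positivity)
          exact Real.sqrt_le_sqrt (by exact_mod_cast d1.2)
  have hfib : ∀ z ∈ ZZ q (k : ZMod q) U (A0 * N) N, ((X.filter (fun y => ψ y = z)).card : ℝ) ≤ 2 ^ L := by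
    intro z hz
    rw [mem_ZZ] at hz
    have h1 : (X.filter (fun y => ψ y = z)).card ≤ (P.filter (fun p => p ∣ z.1)).powerset.card := by
      apply Finset.card_le_card_of_injOn (fun y => y.2.1)
      · intro y hy
        rw [mem_coe, mem_filter, hX, mem_filter] at hy
        obtain ⟨c1, c2, c3, c4, c5, c6⟩ := Xk_facts hP hNq hy.1.1
        rw [mem_coe, mem_powerset]
        intro p hp
        rw [mem_filter]
        refine ⟨(mem_IN.1 c1).1 hp, ?_⟩
        rw [← hy.2]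
        simp only [hψ]
        exact (Finset.dvd_prod_of_mem (fun p => p) hp).mul_left _
      · intro y hy y' hy' h
        rw [mem_coe, mem_filter, hX, mem_filter] at hy hy'
        obtain ⟨c1, c2, c3, c4, c5, c6⟩ := Xk_facts hP hNq hy.1.1
        obtain ⟨c1', c2', c3', c4', c5', c6'⟩ := Xk_facts hP hNq hy'.1.1
        have h2 := hy.2.trans hy'.2.symm
        simp only [hψ, Prod.mk.injEq] at h2
        simp only at h
        have h3 : y.2.2 = y'.2.2 := ms_inj (fun p hp => hP p ((mem_IN.1 c2).1 hp))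
          (fun p hp => hP p ((mem_IN.1 c2').1 hp)) h2.2
        have h4 : (y.1 : ZMod q).val = (y'.1 : ZMod q).val := by
          have h5 := h2.1
          rw [h] at h5
          exact Nat.eq_of_mul_eq_mul_right (ms_pos fun p hp => hP p ((mem_IN.1 c1').1 hp)) h5
        have : NeZero q := ⟨(Nat.Prime.pos Fact.out).ne'⟩
        exact Prod.ext (Units.ext (ZMod.val_injective q h4)) (Prod.ext h h3)
    rw [card_powerset] at h1
    have h2 := hL z.1 hz.1.1.1 hz.1.1.2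
    have h3 : (X.filter (fun y => ψ y = z)).card ≤ 2 ^ L :=
      h1.trans (Nat.pow_le_pow_right (by norm_num) h2)
    exact_mod_cast h3
  have hZ := ZZ_sum (k : ZMod q) N U (A0 * N) hNq hUN2
  calc ∑ y ∈ X, Wt q B r y ≤ ∑ y ∈ X, Real.sqrt N * ((ψ y).1 : ℝ) ^ (-(1 / 2 : ℝ)) :=
        Finset.sum_le_sum hval
    _ = ∑ z ∈ ZZ q (k : ZMod q) U (A0 * N) N, ∑ y ∈ X.filter (fun y => ψ y = z),
          Real.sqrt N * ((ψ y).1 : ℝ) ^ (-(1 / 2 : ℝ)) := (Finset.sum_fiberwise_of_maps_to hmaps _).symm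
    _ ≤ ∑ z ∈ ZZ q (k : ZMod q) U (A0 * N) N, 2 ^ L * (Real.sqrt N * (z.1 : ℝ) ^ (-(1 / 2 : ℝ))) := by
        apply Finset.sum_le_sum
        intro z hz
        have h1 : ∑ y ∈ X.filter (fun y => ψ y = z), Real.sqrt N * ((ψ y).1 : ℝ) ^ (-(1 / 2 : ℝ)) =
            ((X.filter (fun y => ψ y = z)).card : ℝ) * (Real.sqrt N * (z.1 : ℝ) ^ (-(1 / 2 : ℝ))) := by
          rw [← nsmul_eq_mul, ← Finset.sum_const]
          apply Finset.sum_congr rfl
          intro y hy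
          rw [mem_filter] at hy
          rw [hy.2]
        rw [h1]
        exact mul_le_mul_of_nonneg_right (hfib z hz) (by positivity)
    _ = 2 ^ L * Real.sqrt N * ∑ z ∈ ZZ q (k : ZMod q) U (A0 * N) N, (z.1 : ℝ) ^ (-(1 / 2 : ℝ)) := by
        rw [← Finset.mul_sum, ← Finset.mul_sum, mul_assoc]
    _ ≤ _ := mul_le_mul_of_nonneg_left hZ (by positivity)

end Pool.Agent.R311.RES
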