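import Mathlib
import Pool.Agent.R311.RES.C8
import Pool.Agent.R311.RES.B4

/-! Short multiplicative relations modulo a small subgroup involve few primes. -/

set_option autoImplicit false

namespace Pool.Agent.R311.RES
open Finset
open scoped Classical

/-- the cost of a number -/
noncomputable def cost (P0 : Finset ℕ) (lam : ℝ) (n : ℕ) : ℝ :=
  Real.log n / 2 - ∑ p ∈ P0.filter (fun p => p ∣ n), (Real.log p / 2 - lam)

lemma cost_mul (P0 : Finset ℕ) (hP0 : ∀ p ∈ P0, p.Prime) (lam : ℝ) {m n : ℕ} (hm : 0 < m) (hn : 0 < n)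
    (h : Nat.Coprime m n) : cost P0 lam (m * n) = cost P0 lam m + cost P0 lam n := by
  unfold cost
  have e1 : P0.filter (fun p => p ∣ m * n) = P0.filter (fun p => p ∣ m) ∪ P0.filter (fun p => p ∣ n) := by
    ext p
    rw [mem_union, mem_filter, mem_filter, mem_filter]
    constructor
    · rintro ⟨a1, a2⟩
      rcases ((hP0 p a1).dvd_mul).1 a2 with h1 | h1
      · exact Or.inl ⟨a1, h1⟩
      · exact Or.inr ⟨a1, h1⟩
    · rintro (⟨a1, a2⟩ | ⟨a1, a2⟩)
      · exact ⟨a1, a2.mul_right _⟩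
      · exact ⟨a1, a2.mul_left _⟩
  have hd : Disjoint (P0.filter (fun p => p ∣ m)) (P0.filter (fun p => p ∣ n)) := by
    rw [Finset.disjoint_left]
    intro p h1 h2
    rw [mem_filter] at h1 h2
    have h3 := Nat.dvd_gcd h1.2 h2.2
    rw [h.gcd_eq_one] at h3
    exact (hP0 p h1.1).one_lt.ne' (Nat.dvd_one.1 h3)
  rw [e1, Finset.sum_union hd]
  push_cast
  rw [Real.log_mul (by positivity) (by positivity)]
  ring

lemma sum_log_le (S : Finset ℕ) (hS : ∀ p ∈ S, p.Prime) {n : ℕ} (hn : 0 < n) (h : ∀ p ∈ S, p ∣ n) :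
    ∑ p ∈ S, Real.log p ≤ Real.log n := by
  rw [← log_ms hS]
  apply Real.log_le_log
  · exact_mod_cast ms_pos hS
  · exact_mod_cast Nat.le_of_dvd hn ((ms_dvd_iff hS n).2 h)

lemma log_le_cost (P0 : Finset ℕ) (hP0 : ∀ p ∈ P0, p.Prime) (lam Lam : ℝ) (hLam : 2 ≤ Lam)
    (h : ∀ p ∈ P0, Real.log p ≤ Lam * lam) {n : ℕ} (hn : 0 < n) :
    Real.log n ≤ Lam * cost P0 lam n := by
  have hn1 : (1 : ℝ) ≤ n := by exact_mod_cast hn
  have h1 := sum_log_le (P0.filter (fun p => p ∣ n)) (fun p hp => hP0 p (mem_of_mem_filter p hp)) hn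
    (fun p hp => (mem_filter.1 hp).2)
  have h2 : ∑ p ∈ P0.filter (fun p => p ∣ n), (Real.log p / 2 - lam) ≤
      ∑ p ∈ P0.filter (fun p => p ∣ n), (1 / 2 - 1 / Lam) * Real.log p := by
    apply Finset.sum_le_sum
    intro p hp
    have h3 := h p (mem_of_mem_filter p hp)
    have h4 : Real.log p / Lam ≤ lam := by
      rw [div_le_iff₀ (by linarith)]; linarith
    have h5 : (1 / 2 - 1 / Lam) * Real.log p = Real.log p / 2 - Real.log p / Lam := by ring
    rw [h5]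
    linarith
  rw [← Finset.mul_sum] at h2
  have h6 : 0 ≤ 1 / 2 - 1 / Lam := by
    rw [sub_nonneg, div_le_div_iff₀ (by linarith) (by norm_num)]
    linarith
  have h7 := h2.trans (mul_le_mul_of_nonneg_left h1 h6)
  have h8 : Real.log n / Lam ≤ cost P0 lam n := by
    unfold cost
    have h9 : Real.log n / Lam = Real.log n / 2 - (1 / 2 - 1 / Lam) * Real.log n := by ring
    rw [h9]
    linarith
  rw [div_le_iff₀ (by linarith)] at h8
  linarith

lemma cost_ge (P0 : Finset ℕ) (hP0 : ∀ p ∈ P0, p.Prime) (lam : ℝ) {n : ℕ} (hn : 0 < n) :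
    ∑ p ∈ n.primeFactors, (if p ∈ P0 then lam else Real.log p / 2) ≤ cost P0 lam n := by
  have h1 := sum_log_le n.primeFactors (fun p hp => Nat.prime_of_mem_primeFactors hp) hn
    (fun p hp => Nat.dvd_of_mem_primeFactors hp)
  have h2 : ∑ p ∈ n.primeFactors, (if p ∈ P0 then lam else Real.log p / 2) =
      ∑ p ∈ n.primeFactors, Real.log p / 2 - ∑ p ∈ n.primeFactors.filter (fun p => p ∈ P0),
        (Real.log p / 2 - lam) := by
    rw [Finset.sum_filter, ← Finset.sum_sub_distrib]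
    apply Finset.sum_congr rfl
    intro p _
    split_ifs <;> ring
  have h3 : n.primeFactors.filter (fun p => p ∈ P0) = P0.filter (fun p => p ∣ n) := by
    ext p
    rw [mem_filter, mem_filter, Nat.mem_primeFactors]
    constructor
    · rintro ⟨⟨a1, a2, a3⟩, a4⟩; exact ⟨a4, a2⟩
    · rintro ⟨a1, a2⟩; exact ⟨⟨hP0 p a1, a2, hn.ne'⟩, a1⟩
  rw [h2, h3, ← Finset.sum_div, cost]
  linarith

lemma cost_card (P0 : Finset ℕ) (hP0 : ∀ p ∈ P0, p.Prime) (lam m z : ℝ) (hlam : 0 ≤ lam)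
    (hm : m ≤ lam) (hz : 0 < z) (hmz : m ≤ Real.log z / 2) {n : ℕ} (hn : 0 < n) :
    ((n.primeFactors.filter (fun p : ℕ => z < (p : ℝ))).card : ℝ) * m ≤ cost P0 lam n := by
  refine le_trans ?_ (cost_ge P0 hP0 lam hn)
  rw [← nsmul_eq_mul, ← Finset.sum_const]
  refine le_trans ?_ (Finset.sum_le_sum_of_subset_of_nonneg
    (filter_subset (fun p : ℕ => z < (p : ℝ)) n.primeFactors) ?_)
  · apply Finset.sum_le_sum
    intro p hp
    rw [mem_filter] at hp
    split_ifs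
    · exact hm
    · have := Real.log_le_log hz hp.2.le
      linarith
  · intro p hp _
    split_ifs
    · exact hlam
    · have h1 : (1 : ℝ) ≤ p := by exact_mod_cast (Nat.prime_of_mem_primeFactors hp).one_lt.le
      have := Real.log_nonneg h1
      positivity

lemma gs_le (r : ℕ → ℝ) (hr : ∀ p, 0 ≤ r p) (P P0 : Finset ℕ) (hPP : P ⊆ P0)
    (hP0 : ∀ p ∈ P0, p.Prime) (lam : ℝ)
    (h1 : ∀ p ∈ P0, 1 + r p * Real.sqrt p ≤ Real.sqrt p * Real.exp (-lam))
    {s : ℕ} (hs : 0 < s) : gs r P s ≤ Real.exp (-cost P0 lam s) := by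
  have hs' : (0 : ℝ) < s := by exact_mod_cast hs
  unfold gs cost
  have e1 : Real.exp (-(Real.log s / 2 - ∑ p ∈ P0.filter (fun p => p ∣ s), (Real.log p / 2 - lam))) =
      (∏ p ∈ P0.filter (fun p => p ∣ s), (Real.sqrt p * Real.exp (-lam))) / Real.sqrt s := by
    rw [neg_sub, Real.exp_sub, Real.exp_sum]
    congr 1
    · apply Finset.prod_congr rfl
      intro p hp
      have hp' := (hP0 p (mem_of_mem_filter p hp)).pos
      have hp'' : (0 : ℝ) < p := by exact_mod_cast hp'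
      rw [sub_eq_add_neg, Real.exp_add, Real.sqrt_eq_rpow, Real.rpow_def_of_pos hp'']
      congr 2
      ring
    · rw [Real.sqrt_eq_rpow, Real.rpow_def_of_pos hs']
      congr 1
      ring
  rw [e1]
  apply div_le_div_of_nonneg_right _ (Real.sqrt_nonneg _)
  have hsub : P.filter (fun p => p ∣ s) ⊆ P0.filter (fun p => p ∣ s) := filter_subset_filter _ hPP
  calc ∏ p ∈ P.filter (fun p => p ∣ s), (1 + r p * Real.sqrt p) ≤
        ∏ p ∈ P0.filter (fun p => p ∣ s), (1 + r p * Real.sqrt p) := by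
        rw [← Finset.prod_sdiff hsub]
        have h2 : 1 ≤ ∏ p ∈ P0.filter (fun p => p ∣ s) \ P.filter (fun p => p ∣ s),
            (1 + r p * Real.sqrt p) := by
          have h5 : ∏ _p ∈ P0.filter (fun p => p ∣ s) \ P.filter (fun p => p ∣ s), (1 : ℝ) ≤
              ∏ p ∈ P0.filter (fun p => p ∣ s) \ P.filter (fun p => p ∣ s),
                (1 + r p * Real.sqrt p) := by
            apply Finset.prod_le_prod (fun _ _ => zero_le_one)
            intro p _
            have := mul_nonneg (hr p) (Real.sqrt_nonneg p)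
            linarith
          rwa [Finset.prod_const_one] at h5
        have h3 : 0 ≤ ∏ p ∈ P.filter (fun p => p ∣ s), (1 + r p * Real.sqrt p) := by
          apply Finset.prod_nonneg
          intro p _
          have := mul_nonneg (hr p) (Real.sqrt_nonneg p)
          linarith
        nlinarith
    _ ≤ _ := by
        apply Finset.prod_le_prod
        · intro p _
          have := hr p
          positivity
        · intro p hp
          exact h1 p (mem_of_mem_filter p hp)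

lemma ws_le (r : ℕ → ℝ) (hr : ∀ p, 0 ≤ r p) (P0 : Finset ℕ) (lam : ℝ)
    (h1 : ∀ p ∈ P0, r p ≤ Real.exp (-lam)) {t : ℕ} (ht : 0 < t) (htP : t.primeFactors ⊆ P0)
    (hP0 : ∀ p ∈ P0, p.Prime) (hsq : ms t.primeFactors = t) :
    ws r t.primeFactors ≤ Real.exp (-cost P0 lam t) := by
  have h3 : P0.filter (fun p => p ∣ t) = t.primeFactors := by
    ext p
    rw [mem_filter, Nat.mem_primeFactors]
    constructor
    · rintro ⟨a1, a2⟩; exact ⟨hP0 p a1, a2, ht.ne'⟩
    · rintro ⟨a1, a2, a3⟩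
      exact ⟨htP (Nat.mem_primeFactors.2 ⟨a1, a2, a3⟩), a2⟩
  have h4 : Real.log t = ∑ p ∈ t.primeFactors, Real.log p := by
    conv_lhs => rw [← hsq]
    exact log_ms fun p hp => Nat.prime_of_mem_primeFactors hp
  have h5 : -cost P0 lam t = ∑ p ∈ t.primeFactors, (-lam) := by
    rw [cost, h3, h4, Finset.sum_sub_distrib, Finset.sum_div, Finset.sum_neg_distrib]
    ring
  rw [h5, Real.exp_sum]
  exact Finset.prod_le_prod (fun p _ => hr p) (fun p hp => h1 p (htP hp))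

section greedy
variable {q : ℕ} [Fact q.Prime]

/-- a short relation -/
def IsRel (q : ℕ) [Fact q.Prime] (K : Subgroup (ZMod q)ˣ) (P0 : Finset ℕ) (lam k0 : ℝ) (f : ℕ × ℕ) : Prop :=
  0 < f.1 ∧ 0 < f.2 ∧ Nat.Coprime f.1 f.2 ∧ ¬ (f.1 = 1 ∧ f.2 = 1) ∧
    (∃ k ∈ K, (f.1 : ZMod q) = (k : ZMod q) * f.2) ∧ cost P0 lam (f.1 * f.2) < k0

/-- a family of relations with disjoint supports -/
def IsFam (q : ℕ) [Fact q.Prime] (K : Subgroup (ZMod q)ˣ) (P0 : Finset ℕ) (lam k0 : ℝ)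
    (F : Finset (ℕ × ℕ)) : Prop :=
  (∀ f ∈ F, IsRel q K P0 lam k0 f) ∧
    ∀ f ∈ F, ∀ g ∈ F, f ≠ g → Nat.Coprime (f.1 * f.2) (g.1 * g.2)

lemma fam_sub (F : Finset (ℕ × ℕ)) (h1 : ∀ f ∈ F, 0 < f.1 ∧ 0 < f.2 ∧ Nat.Coprime f.1 f.2 ∧
    ¬ (f.1 = 1 ∧ f.2 = 1)) (h2 : ∀ f ∈ F, ∀ g ∈ F, f ≠ g → Nat.Coprime (f.1 * f.2) (g.1 * g.2))
    (I J : Finset (ℕ × ℕ)) (hI : I ⊆ F) (hJ : J ⊆ F)
    (he : (∏ f ∈ I, f.1) * ∏ f ∈ J, f.2 = (∏ f ∈ J, f.1) * ∏ f ∈ I, f.2) : I ⊆ J := by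
  intro f hf
  by_contra hfJ
  obtain ⟨a1, a2, a3, a4⟩ := h1 f (hI hf)
  have hne : ∀ g ∈ J, f ≠ g := fun g hg h => hfJ (h ▸ hg)
  have c11 : ∀ g ∈ F, f ≠ g → Nat.Coprime f.1 g.1 ∧ Nat.Coprime f.1 g.2 ∧ Nat.Coprime f.2 g.1 ∧
      Nat.Coprime f.2 g.2 := by
    intro g hg hfg
    have h := h2 f (hI hf) g hg hfg
    rw [Nat.coprime_mul_iff_left, Nat.coprime_mul_iff_right, Nat.coprime_mul_iff_right] at h
    exact ⟨h.1.1, h.1.2, h.2.1, h.2.2⟩
  apply a4
  constructor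
  · have hd : f.1 ∣ (∏ f ∈ J, f.1) * ∏ f ∈ I, f.2 := by
      rw [← he]
      exact (Finset.dvd_prod_of_mem _ hf).mul_right _
    have hc : Nat.Coprime f.1 ((∏ f ∈ J, f.1) * ∏ f ∈ I, f.2) := by
      apply Nat.Coprime.mul_right
      · exact Nat.Coprime.prod_right fun g hg => (c11 g (hJ hg) (hne g hg)).1
      · apply Nat.Coprime.prod_right
        intro g hg
        by_cases hfg : f = g
        · rw [← hfg]; exact a3
        · exact (c11 g (hI hg) hfg).2.1
    exact Nat.Coprime.eq_one_of_dvd hc hd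
  · have hd : f.2 ∣ (∏ f ∈ I, f.1) * ∏ f ∈ J, f.2 := by
      rw [he]
      exact (Finset.dvd_prod_of_mem _ hf).mul_left _
    have hc : Nat.Coprime f.2 ((∏ f ∈ I, f.1) * ∏ f ∈ J, f.2) := by
      apply Nat.Coprime.mul_right
      · apply Nat.Coprime.prod_right
        intro g hg
        by_cases hfg : f = g
        · rw [← hfg]; exact a3.symm
        · exact (c11 g (hI hg) hfg).2.2.1
      · exact Nat.Coprime.prod_right fun g hg => (c11 g (hJ hg) (hne g hg)).2.2.2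
    exact Nat.Coprime.eq_one_of_dvd hc hd

theorem fam_bound (K : Subgroup (ZMod q)ˣ) (P0 : Finset ℕ) (hP0 : ∀ p ∈ P0, p.Prime)
    (lam Lam k0 : ℝ) (hLam : 2 ≤ Lam) (h : ∀ p ∈ P0, Real.log p ≤ Lam * lam) (F : Finset (ℕ × ℕ))
    (hF : IsFam q K P0 lam k0 F) (hq : (F.card : ℝ) * (Lam * k0) < Real.log q) :
    2 ^ F.card ≤ Fintype.card K := by
  obtain ⟨hF1, hF2⟩ := hF
  have hq0 : (0 : ℝ) < q := by exact_mod_cast (Nat.Prime.pos Fact.out : 0 < q)
  set kk : ℕ × ℕ → (ZMod q)ˣ := fun f =>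
    if h : ∃ k ∈ K, (f.1 : ZMod q) = (k : ZMod q) * f.2 then Classical.choose h else 1 with hkk
  have hk : ∀ f ∈ F, kk f ∈ K ∧ (f.1 : ZMod q) = (kk f : ZMod q) * f.2 := by
    intro f hf
    have h3 := (hF1 f hf).2.2.2.2.1
    simp only [hkk]
    rw [dif_pos h3]
    exact Classical.choose_spec h3
  have hsize : ∏ f ∈ F, f.1 * f.2 < q := by
    have h4 : Real.log ((∏ f ∈ F, f.1 * f.2 : ℕ) : ℝ) ≤ (F.card : ℝ) * (Lam * k0) := by
      rw [Nat.cast_prod, Real.log_prod]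
      · rw [← nsmul_eq_mul, ← Finset.sum_const]
        apply Finset.sum_le_sum
        intro f hf
        obtain ⟨b1, b2, b3, b4, b5, b6⟩ := hF1 f hf
        refine (log_le_cost P0 hP0 lam Lam hLam h (Nat.mul_pos b1 b2)).trans ?_
        exact mul_le_mul_of_nonneg_left b6.le (by linarith)
      · intro f hf
        obtain ⟨b1, b2, -⟩ := hF1 f hf
        have := Nat.mul_pos b1 b2
        positivity
    have h5 : (0 : ℝ) < ((∏ f ∈ F, f.1 * f.2 : ℕ) : ℝ) := by
      have : 0 < ∏ f ∈ F, f.1 * f.2 := Finset.prod_pos fun f hf => by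
        obtain ⟨b1, b2, -⟩ := hF1 f hf
        exact Nat.mul_pos b1 b2
      exact_mod_cast this
    have h6 := (Real.log_lt_log_iff h5 hq0).1 (lt_of_le_of_lt h4 hq)
    exact_mod_cast h6
  have hle : ∀ I J : Finset (ℕ × ℕ), I ⊆ F → J ⊆ F → (∏ f ∈ I, f.1) * ∏ f ∈ J, f.2 < q := by
    intro I J hI hJ
    refine lt_of_le_of_lt ?_ hsize
    rw [Finset.prod_mul_distrib]
    apply Nat.mul_le_mul
    · exact Nat.le_of_dvd (Finset.prod_pos fun f hf => (hF1 f hf).1)
        (Finset.prod_dvd_prod_of_subset _ _ _ hI)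
    · exact Nat.le_of_dvd (Finset.prod_pos fun f hf => (hF1 f hf).2.1)
        (Finset.prod_dvd_prod_of_subset _ _ _ hJ)
  have hF1' : ∀ f ∈ F, 0 < f.1 ∧ 0 < f.2 ∧ Nat.Coprime f.1 f.2 ∧ ¬ (f.1 = 1 ∧ f.2 = 1) := by
    intro f hf
    obtain ⟨b1, b2, b3, b4, -⟩ := hF1 f hf
    exact ⟨b1, b2, b3, b4⟩
  have hcard : (univ.filter (fun k : (ZMod q)ˣ => k ∈ K)).card = Fintype.card K :=
    (Fintype.card_subtype _).symm
  rw [← card_powerset, ← hcard]
  apply Finset.card_le_card_of_injOn (fun I => ∏ f ∈ I, kk f)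
  · intro I hI
    rw [mem_coe, mem_powerset] at hI
    rw [mem_coe, mem_filter]
    exact ⟨mem_univ _, K.prod_mem fun f hf => (hk f (hI hf)).1⟩
  · intro I hI J hJ hIJ
    rw [mem_coe, mem_powerset] at hI hJ
    simp only at hIJ
    have e1 : (((∏ f ∈ I, f.1) * ∏ f ∈ J, f.2 : ℕ) : ZMod q) =
        (((∏ f ∈ J, f.1) * ∏ f ∈ I, f.2 : ℕ) : ZMod q) := by
      push_cast
      rw [Finset.prod_congr rfl (fun f hf => (hk f (hI hf)).2),
        Finset.prod_congr rfl (fun f hf => (hk f (hJ hf)).2), Finset.prod_mul_distrib,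
        Finset.prod_mul_distrib]
      have e2 : (∏ f ∈ I, (kk f : ZMod q)) = ∏ f ∈ J, (kk f : ZMod q) := by
        have := congrArg (Units.val) hIJ
        rwa [Units.coe_prod, Units.coe_prod] at this
      rw [e2]
      ring
    have e3 : (∏ f ∈ I, f.1) * ∏ f ∈ J, f.2 = (∏ f ∈ J, f.1) * ∏ f ∈ I, f.2 := by
      have := congrArg ZMod.val e1
      rwa [ZMod.val_natCast_of_lt (hle I J hI hJ), ZMod.val_natCast_of_lt (hle J I hJ hI)] at this
    exact Finset.Subset.antisymm (fam_sub F hF1' hF2 I J hI hJ e3) (fam_sub F hF1' hF2 J I hJ hI e3.symm)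

theorem exists_B (K : Subgroup (ZMod q)ˣ) (P0 : Finset ℕ) (hP0 : ∀ p ∈ P0, p.Prime)
    (lam Lam k0 : ℝ) (hlam : 0 ≤ lam) (hLam : 2 ≤ Lam) (h : ∀ p ∈ P0, Real.log p ≤ Lam * lam)
    (hk0 : 0 ≤ k0) (R : ℕ) (hR : Fintype.card K < 2 ^ (R + 1))
    (hq : ((R : ℝ) + 1) * (Lam * k0) < Real.log q) :
    ∃ B : Finset ℕ, (∀ p ∈ B, p.Prime) ∧
      (∀ f : ℕ × ℕ, IsRel q K P0 lam k0 f → ∃ p ∈ B, p ∣ f.1 * f.2) ∧
      (2 : ℝ) ^ B.card ≤ Real.exp (R * (Lam * k0)) ∧ (∀ p ∈ B, p < q) ∧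
      ∀ m z : ℝ, 0 < m → m ≤ lam → 0 < z → m ≤ Real.log z / 2 →
        ((B.filter (fun p : ℕ => z < (p : ℝ))).card : ℝ) ≤ R * (k0 / m) := by
  have hLk : 0 ≤ Lam * k0 := by positivity
  have hfc : ∀ F : Finset (ℕ × ℕ), IsFam q K P0 lam k0 F → F.card ≤ R := by
    intro F hF
    by_contra hcon
    push Not at hcon
    obtain ⟨F', hF', hc⟩ := Finset.exists_subset_card_eq (show R + 1 ≤ F.card from hcon)
    have hfam : IsFam q K P0 lam k0 F' :=
      ⟨fun f hf => hF.1 f (hF' hf), fun f hf g hg hfg => hF.2 f (hF' hf) g (hF' hg) hfg⟩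
    have := fam_bound K P0 hP0 lam Lam k0 hLam h F' hfam (by rw [hc]; push_cast; exact hq)
    rw [hc] at this
    omega
  -- a maximal family
  have hmax : ∃ F : Finset (ℕ × ℕ), IsFam q K P0 lam k0 F ∧
      ∀ f : ℕ × ℕ, IsRel q K P0 lam k0 f → ∃ g ∈ F, ¬ Nat.Coprime (f.1 * f.2) (g.1 * g.2) := by
    by_contra hcon
    push Not at hcon
    have : ∀ n : ℕ, ∃ F : Finset (ℕ × ℕ), IsFam q K P0 lam k0 F ∧ F.card = n := by
      intro n
      induction n with
      | zero =>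
        refine ⟨∅, ⟨?_, ?_⟩, rfl⟩
        · intro f hf; exact absurd hf (notMem_empty _)
        · intro f hf; exact absurd hf (notMem_empty _)
      | succ n ih =>
        obtain ⟨F, hF, hn⟩ := ih
        obtain ⟨f, hf1, hf2⟩ := hcon F hF
        have hfF : f ∉ F := by
          intro hfF
          have h3 := hf2 f hfF
          rw [Nat.coprime_self] at h3
          obtain ⟨b1, b2, b3, b4, -⟩ := hf1
          exact b4 ⟨Nat.eq_one_of_mul_eq_one_right h3, Nat.eq_one_of_mul_eq_one_left h3⟩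
        refine ⟨insert f F, ⟨?_, ?_⟩, by rw [card_insert_of_notMem hfF, hn]⟩
        · intro g hg
          rw [mem_insert] at hg
          rcases hg with rfl | hg
          · exact hf1
          · exact hF.1 g hg
        · intro g hg g' hg' hne
          rw [mem_insert] at hg hg'
          rcases hg with rfl | hg
          · rcases hg' with rfl | hg'
            · exact absurd rfl hne
            · exact hf2 g' hg'
          · rcases hg' with rfl | hg'
            · exact (hf2 g hg).symm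
            · exact hF.2 g hg g' hg' hne
    obtain ⟨F, hF, hn⟩ := this (R + 1)
    have := hfc F hF
    omega
  obtain ⟨F, hF, hFm⟩ := hmax
  have hFR := hfc F hF
  have hFR' : (F.card : ℝ) ≤ R := by exact_mod_cast hFR
  have hprod : Real.log ((∏ f ∈ F, f.1 * f.2 : ℕ) : ℝ) ≤ (R : ℝ) * (Lam * k0) := by
    rw [Nat.cast_prod, Real.log_prod]
    · refine le_trans ?_ (mul_le_mul_of_nonneg_right hFR' hLk)
      rw [← nsmul_eq_mul, ← Finset.sum_const]
      apply Finset.sum_le_sum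
      intro f hf
      obtain ⟨b1, b2, b3, b4, b5, b6⟩ := hF.1 f hf
      refine (log_le_cost P0 hP0 lam Lam hLam h (Nat.mul_pos b1 b2)).trans ?_
      exact mul_le_mul_of_nonneg_left b6.le (by linarith)
    · intro f hf
      obtain ⟨b1, b2, -⟩ := hF.1 f hf
      have := Nat.mul_pos b1 b2
      positivity
  have hprod0 : 0 < ∏ f ∈ F, f.1 * f.2 := Finset.prod_pos fun f hf => by
    obtain ⟨b1, b2, -⟩ := hF.1 f hf
    exact Nat.mul_pos b1 b2
  set B := F.biUnion (fun f => (f.1 * f.2).primeFactors) with hB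
  refine ⟨B, ?_, ?_, ?_, ?_, ?_⟩
  · intro p hp
    rw [hB, mem_biUnion] at hp
    obtain ⟨f, -, hp⟩ := hp
    exact Nat.prime_of_mem_primeFactors hp
  · intro f hf
    obtain ⟨g, hg, hfg⟩ := hFm f hf
    rw [Nat.Prime.not_coprime_iff_dvd] at hfg
    obtain ⟨p, hp, hpf, hpg⟩ := hfg
    refine ⟨p, ?_, hpf⟩
    rw [hB, mem_biUnion]
    refine ⟨g, hg, ?_⟩
    rw [Nat.mem_primeFactors]
    obtain ⟨b1, b2, -⟩ := hF.1 g hg
    exact ⟨hp, hpg, (Nat.mul_pos b1 b2).ne'⟩
  · have h3 : B.card ≤ ∑ f ∈ F, (f.1 * f.2).primeFactors.card := card_biUnion_le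
    have h4 : 2 ^ B.card ≤ ∏ f ∈ F, f.1 * f.2 := by
      calc 2 ^ B.card ≤ 2 ^ ∑ f ∈ F, (f.1 * f.2).primeFactors.card :=
            Nat.pow_le_pow_right (by norm_num) h3
        _ = ∏ f ∈ F, 2 ^ (f.1 * f.2).primeFactors.card := (Finset.prod_pow_eq_pow_sum _ _ _).symm
        _ ≤ _ := by
            apply Finset.prod_le_prod' 
            intro f hf
            obtain ⟨b1, b2, -⟩ := hF.1 f hf
            have hn := Nat.mul_pos b1 b2
            calc 2 ^ (f.1 * f.2).primeFactors.card = ∏ _p ∈ (f.1 * f.2).primeFactors, 2 := by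
                  rw [Finset.prod_const]
              _ ≤ ∏ p ∈ (f.1 * f.2).primeFactors, p := by
                  apply Finset.prod_le_prod'
                  intro p hp
                  exact (Nat.prime_of_mem_primeFactors hp).two_le
              _ ≤ f.1 * f.2 := Nat.le_of_dvd hn (Nat.prod_primeFactors_dvd _)
    have h5 : ((2 : ℝ) ^ B.card) ≤ ((∏ f ∈ F, f.1 * f.2 : ℕ) : ℝ) := by exact_mod_cast h4
    refine h5.trans ?_
    rw [← Real.log_le_iff_le_exp (by exact_mod_cast hprod0)]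
    exact hprod
  · intro p hp
    rw [hB, mem_biUnion] at hp
    obtain ⟨f, hf, hp⟩ := hp
    have h3 : p ≤ ∏ f ∈ F, f.1 * f.2 := by
      apply Nat.le_of_dvd hprod0
      exact (Nat.dvd_of_mem_primeFactors hp).trans (Finset.dvd_prod_of_mem (fun f : ℕ × ℕ => f.1 * f.2) hf)
    have h4 : ((∏ f ∈ F, f.1 * f.2 : ℕ) : ℝ) < q := by
      rw [← Real.log_lt_log_iff (by exact_mod_cast hprod0)
        (by exact_mod_cast (Nat.Prime.pos Fact.out : 0 < q))]
      nlinarith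
    have h5 : ∏ f ∈ F, f.1 * f.2 < q := by exact_mod_cast h4
    omega
  · intro m z hm hml hz hmz
    have h3 : B.filter (fun p : ℕ => z < (p : ℝ)) ⊆
        F.biUnion (fun f => (f.1 * f.2).primeFactors.filter (fun p : ℕ => z < (p : ℝ))) := by
      intro p hp
      rw [mem_filter, hB, mem_biUnion] at hp
      obtain ⟨⟨f, hf, hp1⟩, hp2⟩ := hp
      rw [mem_biUnion]
      exact ⟨f, hf, mem_filter.2 ⟨hp1, hp2⟩⟩
    have h4 : (B.filter (fun p : ℕ => z < (p : ℝ))).card ≤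
        ∑ f ∈ F, ((f.1 * f.2).primeFactors.filter (fun p : ℕ => z < (p : ℝ))).card :=
      (card_le_card h3).trans card_biUnion_le
    have h5 : ((B.filter (fun p : ℕ => z < (p : ℝ))).card : ℝ) ≤
        ∑ f ∈ F, (((f.1 * f.2).primeFactors.filter (fun p : ℕ => z < (p : ℝ))).card : ℝ) := by
      exact_mod_cast h4
    refine h5.trans ?_
    refine le_trans ?_ (mul_le_mul_of_nonneg_right hFR' (by positivity))
    rw [← nsmul_eq_mul, ← Finset.sum_const]
    apply Finset.sum_le_sum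
    intro f hf
    obtain ⟨b1, b2, b3, b4, b5, b6⟩ := hF.1 f hf
    rw [le_div_iff₀ hm]
    exact (cost_card P0 hP0 lam m z hlam hml hz hmz (Nat.mul_pos b1 b2)).trans b6.le

end greedy

lemma prod_B_le (B : Finset ℕ) (hB : ∀ p ∈ B, p.Prime) (z C : ℝ) (hz : 0 < z)
    (hC : ((B.filter (fun p : ℕ => z < (p : ℝ))).card : ℝ) ≤ C) :
    ∏ p ∈ B, (1 + (p : ℝ) ^ (-(1 / 2 : ℝ))) ≤ Real.exp (2 * Real.sqrt z + C / Real.sqrt z) := by
  have h1 : ∏ p ∈ B, (1 + (p : ℝ) ^ (-(1 / 2 : ℝ))) ≤ Real.exp (∑ p ∈ B, (p : ℝ) ^ (-(1 / 2 : ℝ))) := by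
    rw [Real.exp_sum]
    apply Finset.prod_le_prod (fun p _ => by positivity)
    intro p _
    rw [add_comm]
    exact Real.add_one_le_exp _
  refine h1.trans (Real.exp_le_exp.2 ?_)
  rw [← Finset.sum_filter_add_sum_filter_not B (fun p : ℕ => (p : ℝ) ≤ z)]
  apply add_le_add
  · have h2 : B.filter (fun p : ℕ => (p : ℝ) ≤ z) ⊆ Icc 1 ⌊z⌋₊ := by
      intro p hp
      rw [mem_filter] at hp
      rw [mem_Icc]
      exact ⟨(hB p hp.1).one_lt.le, Nat.le_floor hp.2⟩
    refine (Finset.sum_le_sum_of_subset_of_nonneg h2 (fun p _ _ => by positivity)).trans ?_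
    refine (sum_rsqrt ⌊z⌋₊).trans ?_
    apply mul_le_mul_of_nonneg_left _ (by norm_num)
    exact Real.sqrt_le_sqrt (Nat.floor_le hz.le)
  · have h2 : B.filter (fun p : ℕ => ¬ (p : ℝ) ≤ z) = B.filter (fun p : ℕ => z < (p : ℝ)) := by
      apply Finset.filter_congr
      intro p _
      rw [not_le]
    rw [h2]
    have h3 : ∀ p ∈ B.filter (fun p : ℕ => z < (p : ℝ)), (p : ℝ) ^ (-(1 / 2 : ℝ)) ≤ (Real.sqrt z)⁻¹ := by
      intro p hp
      rw [mem_filter] at hp
      have h4 : (Real.sqrt z)⁻¹ = z ^ (-(1 / 2 : ℝ)) := by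
        rw [Real.rpow_neg hz.le, Real.sqrt_eq_rpow]
      rw [h4]
      exact Real.rpow_le_rpow_of_nonpos hz hp.2.le (by norm_num)
    refine (Finset.sum_le_card_nsmul _ _ _ h3).trans ?_
    rw [nsmul_eq_mul, div_eq_mul_inv]
    exact mul_le_mul_of_nonneg_right hC (by positivity)

end Pool.Agent.R311.RES
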