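import Mathlib
import Pool.Agent.R311.RES.C7
import Pool.Agent.R311.RES.C9
import Pool.Agent.R311.RES.C12

/-! Large central values in every coset of a subgroup of small index. -/

set_option autoImplicit false

namespace Pool.Agent.R311.RES
open Finset
open scoped Classical

/-- the numerical error terms -/
lemma err_terms {e x κ bb2 LL : ℝ} {N A0 q : ℕ} {L : ℕ} (he : 0 < e) (he1 : e < 1 / 20)
    (hx9 : 9 ≤ x) (hq : (q : ℝ) = Real.exp x) (hκ : κ ≤ Real.exp (e / 20 * x))
    (hb : bb2 ≤ Real.exp (e / 20 * x)) (hb0 : 0 ≤ bb2)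
    (hN : (N : ℝ) ≤ Real.exp ((1 / 3 - e) * x)) (hN0 : 0 < N)
    (hA0 : Real.exp (2 / 3 * x) ≤ A0) (hA0' : (A0 : ℝ) ≤ 2 * Real.exp (2 / 3 * x))
    (hLL : (2 : ℝ) ^ L ≤ LL) (hLL2 : LL ≤ Real.exp (e / 20 * x))
    (h14 : (53 + 48 * x) * Real.exp (-(e / 2 * x)) ≤ 1 / 8)  :
    κ * ((4 * bb2) * (q : ℝ) ^ (-(1 / 2 : ℝ)) * N + (A0 : ℝ) ^ (-(1 / 2 : ℝ)) * N +
      2 ^ L * Real.sqrt N * (12 * ((Nat.log 2 (A0 * N) : ℝ) + 1) * (Real.sqrt (A0 * N : ℕ) * N / q))) ≤
      1 / 8 := by
  have hx0 : 0 < x := by linarith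
  have hN' : (0 : ℝ) < N := by exact_mod_cast hN0
  have hE : ∀ t : ℝ, 0 < Real.exp t := fun t => Real.exp_pos t
  have hA00 : (0 : ℝ) < A0 := lt_of_lt_of_le (hE _) hA0
  set W := Real.exp (-(e / 2 * x)) with hW
  have hW0 : 0 < W := hE _
  -- first term
  have t1 : κ * ((4 * bb2) * (q : ℝ) ^ (-(1 / 2 : ℝ)) * N) ≤ 4 * W := by
    have e1 : (q : ℝ) ^ (-(1 / 2 : ℝ)) = Real.exp (-(1 / 2) * x) := by
      rw [hq, ← Real.exp_mul]; congr 1; ring
    rw [e1]
    calc κ * ((4 * bb2) * Real.exp (-(1 / 2) * x) * N) ≤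
        Real.exp (e / 20 * x) * ((4 * Real.exp (e / 20 * x)) * Real.exp (-(1 / 2) * x) *
          Real.exp ((1 / 3 - e) * x)) := by
          apply mul_le_mul hκ _ (by positivity) (hE _).le
          apply mul_le_mul _ hN hN'.le (by positivity)
          exact mul_le_mul_of_nonneg_right (by linarith) (hE _).le
      _ = 4 * Real.exp ((e / 20 + e / 20 - 1 / 2 + (1 / 3 - e)) * x) := by
          rw [show (e / 20 + e / 20 - 1 / 2 + (1 / 3 - e)) * x =
            e / 20 * x + (e / 20 * x + -(1 / 2) * x + (1 / 3 - e) * x) by ring, Real.exp_add,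
            Real.exp_add, Real.exp_add]
          ring
      _ ≤ 4 * W := by
          apply mul_le_mul_of_nonneg_left _ (by norm_num)
          rw [hW, Real.exp_le_exp]
          nlinarith only [hx0, he, he1]
  have t2 : κ * ((A0 : ℝ) ^ (-(1 / 2 : ℝ)) * N) ≤ W := by
    have e1 : (A0 : ℝ) ^ (-(1 / 2 : ℝ)) ≤ Real.exp (-(1 / 3) * x) := by
      refine (Real.rpow_le_rpow_of_nonpos (hE _) hA0 (by norm_num)).trans (le_of_eq ?_)
      rw [← Real.exp_mul]; congr 1; ring
    calc κ * ((A0 : ℝ) ^ (-(1 / 2 : ℝ)) * N) ≤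
        Real.exp (e / 20 * x) * (Real.exp (-(1 / 3) * x) * Real.exp ((1 / 3 - e) * x)) := by
          apply mul_le_mul hκ _ (by positivity) (hE _).le
          exact mul_le_mul e1 hN hN'.le (hE _).le
      _ = Real.exp ((e / 20 - 1 / 3 + (1 / 3 - e)) * x) := by
          rw [show (e / 20 - 1 / 3 + (1 / 3 - e)) * x =
            e / 20 * x + (-(1 / 3) * x + (1 / 3 - e) * x) by ring, Real.exp_add, Real.exp_add]
      _ ≤ W := by
          rw [hW, Real.exp_le_exp]
          nlinarith only [hx0, he, he1]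
  have hA0N : ((A0 * N : ℕ) : ℝ) ≤ 2 * Real.exp ((1 - e) * x) := by
    push_cast
    calc (A0 : ℝ) * N ≤ (2 * Real.exp (2 / 3 * x)) * Real.exp ((1 / 3 - e) * x) :=
          mul_le_mul hA0' hN hN'.le (by positivity)
      _ = 2 * Real.exp ((1 - e) * x) := by
          rw [mul_assoc, ← Real.exp_add]; congr 2; ring
  have hA0Np : 0 < A0 * N := Nat.mul_pos (by exact_mod_cast hA00) hN0
  have hlog : (Nat.log 2 (A0 * N) : ℝ) ≤ 2 * x := by
    have h1 : (2 : ℝ) ^ Nat.log 2 (A0 * N) ≤ ((A0 * N : ℕ) : ℝ) := by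
      exact_mod_cast Nat.pow_log_le_self 2 hA0Np.ne'
    have h2 := Real.log_le_log (by positivity) (h1.trans hA0N)
    rw [Real.log_pow, Real.log_mul (by norm_num) (hE _).ne', Real.log_exp] at h2
    have h3 := Real.log_two_gt_d9
    have h4 := Real.log_two_lt_d9
    have h5 : (Nat.log 2 (A0 * N) : ℝ) * (69 / 100) ≤ (Nat.log 2 (A0 * N) : ℝ) * Real.log 2 :=
      mul_le_mul_of_nonneg_left (by linarith) (Nat.cast_nonneg _)
    have h6 : 0 ≤ e * x := by positivity
    linarith
  have t3 : κ * (2 ^ L * Real.sqrt N * (12 * ((Nat.log 2 (A0 * N) : ℝ) + 1) *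
      (Real.sqrt (A0 * N : ℕ) * N / q))) ≤ (48 * x + 48) * W := by
    have e1 : Real.sqrt N ≤ Real.exp ((1 / 3 - e) / 2 * x) := by
      rw [Real.sqrt_le_left (hE _).le, ← Real.exp_nat_mul]
      refine hN.trans (le_of_eq ?_)
      congr 1; push_cast; ring
    have e2 : Real.sqrt (A0 * N : ℕ) ≤ 2 * Real.exp ((1 - e) / 2 * x) := by
      rw [Real.sqrt_le_left (by positivity), mul_pow, ← Real.exp_nat_mul]
      refine hA0N.trans ?_
      have : ((2 : ℕ) : ℝ) * ((1 - e) / 2 * x) = (1 - e) * x := by push_cast; ring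
      rw [this]
      nlinarith only [hE ((1 - e) * x)]
    have e3 : Real.sqrt (A0 * N : ℕ) * N / q ≤
        2 * Real.exp ((1 - e) / 2 * x) * Real.exp ((1 / 3 - e) * x) * Real.exp (-x) := by
      rw [hq, div_eq_mul_inv, ← Real.exp_neg]
      apply mul_le_mul_of_nonneg_right _ (hE _).le
      exact mul_le_mul e2 hN hN'.le (by positivity)
    calc κ * (2 ^ L * Real.sqrt N * (12 * ((Nat.log 2 (A0 * N) : ℝ) + 1) *
          (Real.sqrt (A0 * N : ℕ) * N / q))) ≤
          Real.exp (e / 20 * x) * ((Real.exp (e / 20 * x) * Real.exp ((1 / 3 - e) / 2 * x)) *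
          (12 * (2 * x + 1) *
          (2 * Real.exp ((1 - e) / 2 * x) * Real.exp ((1 / 3 - e) * x) * Real.exp (-x)))) := by
          apply mul_le_mul hκ _ (by positivity) (hE _).le
          apply mul_le_mul _ _ (by positivity) (by positivity)
          · exact mul_le_mul (hLL.trans hLL2) e1 (Real.sqrt_nonneg _) (hE _).le
          · apply mul_le_mul _ e3 (by positivity) (by positivity)
            linarith
      _ = 24 * (2 * x + 1) * Real.exp ((e / 20 + e / 20 + (1 / 3 - e) / 2 + (1 - e) / 2 +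
            (1 / 3 - e) - 1) * x) := by
          rw [show (e / 20 + e / 20 + (1 / 3 - e) / 2 + (1 - e) / 2 + (1 / 3 - e) - 1) * x =
            e / 20 * x + (e / 20 * x + (1 / 3 - e) / 2 * x + ((1 - e) / 2 * x + (1 / 3 - e) * x + -x)) by
            ring, Real.exp_add, Real.exp_add, Real.exp_add, Real.exp_add, Real.exp_add]
          ring
      _ ≤ 24 * (2 * x + 1) * W := by
          apply mul_le_mul_of_nonneg_left _ (by positivity)
          rw [hW, Real.exp_le_exp]
          nlinarith only [hx0, he, he1]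
      _ ≤ _ := by
          apply mul_le_mul_of_nonneg_right _ hW0.le
          linarith
  rw [mul_add, mul_add]
  refine le_trans (add_le_add (add_le_add t1 t2) t3) (le_trans (le_of_eq ?_) h14)
  ring

theorem core_coset (e f : ℝ) (he : 0 < e) (he1 : e < 1 / 20) (hf : 0 < f) (hf1 : f ≤ 1) :
    ∃ d : ℝ, 0 < d ∧ ∃ X0 : ℝ, ∀ (q : ℕ) [Fact q.Prime], X0 ≤ Real.log q →
      4 ≤ f * Real.sqrt (Real.log q / Real.log (Real.log q)) ∧
      ∀ (H : Subgroup (DirichletCharacter ℂ q)) (χ₀ : DirichletCharacter ℂ q) (V : ℝ),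
      (Fintype.card (ann H) : ℝ) ≤ Real.exp (d * Real.sqrt (Real.log q *
        Real.log (Real.log (Real.log q)) / Real.log (Real.log q))) → 0 ≤ V →
      (∀ ψ ∈ H, ‖DirichletCharacter.LFunction (χ₀ * ψ) (1 / 2)‖ ≤ V) →
      Real.exp ((1 / Real.sqrt 3 - 10 * e) * Real.sqrt (Real.log q / Real.log (Real.log q))) ≤
        5 * (V * Real.exp (f * Real.sqrt (Real.log q / Real.log (Real.log q)))) := by
  obtain ⟨A, Y, hA, hY1, hY⟩ := prime_sum e he (by linarith)
  set d : ℝ := min (e / (480 * A)) (f / 8) with hd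
  have hA0 : 0 < A := by linarith
  have hd0 : 0 < d := lt_min (by positivity) (by positivity)
  have hdA : d ≤ e / (480 * A) := min_le_left _ _
  have hdf : d ≤ f / 8 := min_le_right _ _
  have hd1 : d ≤ 1 := by linarith
  have hdA2 : 24 * A * d ^ 2 ≤ e / 20 := by
    have h1 : d * (480 * A) ≤ e := by rwa [le_div_iff₀ (by positivity)] at hdA
    have h2 : d ^ 2 ≤ d := by nlinarith
    have h3 : 24 * A * d ^ 2 ≤ 24 * A * d := mul_le_mul_of_nonneg_left h2 (by positivity)
    linarith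
  have hdf2 : 64 * d ^ 2 ≤ f ^ 2 := by nlinarith
  obtain ⟨X0, hX0⟩ := Filter.eventually_atTop.1 (factsC e A d f Y he he1 hA hd0 hf)
  refine ⟨d, hd0, X0, fun q _ hq => ?_⟩
  have F := hX0 (Real.log q) hq
  set x : ℝ := Real.log q with hx
  refine ⟨F.g16, fun H χ₀ V hκ hV0 hV => ?_⟩
  obtain ⟨g1, g2, g5, g6, g7, g8, g9, g10, g11, g12, g14, g15, g16, g17, g18⟩ := F
  have F := hX0 x hq
  have hqp : q.Prime := Fact.out
  have hq0 : (0 : ℝ) < q := by exact_mod_cast hqp.pos
  have hqx : (q : ℝ) = Real.exp x := (Real.exp_log hq0).symm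
  set L := Real.log x with hL
  set M := Real.log L with hM
  have hx0 : 0 < x := by linarith
  have hL20 : 400 ≤ L := by
    have : 400 ≤ 20 / e := by rw [le_div_iff₀ he]; linarith
    linarith
  have hL0 : 0 < L := by linarith
  have hM0 : 0 < M := by linarith
  set y := x * L with hy
  have hy0 : 0 < y := by positivity
  set ly := Real.log y with hly
  have hlyE : ly = L + M := by rw [hly, hy, Real.log_mul hx0.ne' hL0.ne']
  have hlyL : L ≤ ly := by linarith
  have hly0 : 0 < ly := by linarith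
  have hly3 : ly ≤ 2 * L := by nlinarith only [hlyE, g2, he1, hL0]
  obtain ⟨P0, hP0, hP0S⟩ := hY y g6
  have hP0p : ∀ p ∈ P0, p.Prime := fun p hp => (hP0 p hp).1
  set W := Real.sqrt (x * M / L) with hW
  have hW2 : W ^ 2 = x * M / L := Real.sq_sqrt (by positivity)
  have hW0 : 0 ≤ W := Real.sqrt_nonneg _
  set G := Real.sqrt (x / L) with hG
  have hG2 : G ^ 2 = x / L := Real.sq_sqrt (by positivity)
  have hG0 : 0 < G := Real.sqrt_pos.2 (by positivity)
  -- lambda
  set lam : ℝ := Real.log (ly / 2) with hlam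
  have hlamM : M / 2 ≤ lam := by
    have h1 : Real.log (L / 2) ≤ lam := Real.log_le_log (by positivity) (by linarith)
    rw [Real.log_div hL0.ne' (by norm_num)] at h1
    have h2 := Real.log_two_lt_d9
    linarith
  have hlam0 : 0 < lam := by linarith
  have hlam2 : 2 * lam ≤ ly := by
    have := Real.log_le_sub_one_of_pos (show 0 < ly / 2 by positivity)
    linarith
  have helam : Real.exp (-lam) = 2 / ly := by
    rw [Real.exp_neg, hlam, Real.exp_log (by positivity), inv_div]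
  set Lam : ℝ := A * ly / lam with hLam
  have hLam2 : 2 ≤ Lam := by
    rw [hLam, le_div_iff₀ hlam0]
    nlinarith only [hlam2, hA, hly0]
  have hLamlam : ∀ p ∈ P0, Real.log p ≤ Lam * lam := by
    intro p hp
    rw [hLam, div_mul_cancel₀ _ hlam0.ne']
    exact (hP0 p hp).2.2
  have hLamu : Lam ≤ 4 * A * L / M := by
    rw [hLam, div_le_div_iff₀ hlam0 hM0]
    have h1 : A * ly * M ≤ A * (2 * L) * M :=
      mul_le_mul_of_nonneg_right (mul_le_mul_of_nonneg_left hly3 hA0.le) hM0.le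
    have h2 : A * (2 * L) * M ≤ A * (2 * L) * (2 * lam) :=
      mul_le_mul_of_nonneg_left (by linarith) (by positivity)
    calc A * ly * M ≤ A * (2 * L) * (2 * lam) := h1.trans h2
      _ = _ := by ring
  -- the subgroup
  have hK1 : 1 ≤ Fintype.card (ann H) := Fintype.card_pos
  set κ : ℝ := (Fintype.card (ann H) : ℝ) with hκd
  have hκ1 : 1 ≤ κ := by rw [hκd]; exact_mod_cast hK1
  have hlκ : Real.log κ ≤ d * W := by
    have := Real.log_le_log (by linarith) hκ
    rwa [Real.log_exp] at this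
  set k0 : ℝ := Real.log (4 * κ) with hk0
  have hk0E : k0 = Real.log 4 + Real.log κ := Real.log_mul (by norm_num) (by linarith)
  have hl4 : 0 ≤ Real.log 4 := Real.log_nonneg (by norm_num)
  have hlκ0 : 0 ≤ Real.log κ := Real.log_nonneg hκ1
  have hk00 : 0 ≤ k0 := by linarith
  have hk0u : k0 ≤ 2 * (d * W) := by linarith
  set R : ℕ := Nat.log 2 (Fintype.card (ann H)) with hR
  have hR1 : Fintype.card (ann H) < 2 ^ (R + 1) := Nat.lt_pow_succ_log_self (by norm_num) _
  have hR2 : (R : ℝ) ≤ 2 * (d * W) := by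
    have h1 : 2 ^ R ≤ Fintype.card (ann H) := Nat.pow_log_le_self 2 (by omega)
    have h2 : ((2 : ℝ) ^ R) ≤ κ := by rw [hκd]; exact_mod_cast h1
    have h3 := Real.log_le_log (by positivity) h2
    rw [Real.log_pow] at h3
    have h4 := Real.log_two_gt_d9
    have h5 : (R : ℝ) * (1 / 2) ≤ (R : ℝ) * Real.log 2 :=
      mul_le_mul_of_nonneg_left (by linarith) (Nat.cast_nonneg _)
    linarith
  have hdW1 : 1 ≤ d * W := by linarith
  have hLk : Lam * k0 ≤ (4 * A * L / M) * (2 * (d * W)) :=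
    mul_le_mul hLamu hk0u hk00 (by positivity)
  have hbud : ((R : ℝ) + 1) * (Lam * k0) ≤ e / 20 * x := by
    have h1 : ((R : ℝ) + 1) * (Lam * k0) ≤ (3 * (d * W)) * ((4 * A * L / M) * (2 * (d * W))) := by
      apply mul_le_mul (by linarith) hLk (by positivity) (by positivity)
    have h2 : (3 * (d * W)) * ((4 * A * L / M) * (2 * (d * W))) = 24 * A * d ^ 2 * (W ^ 2 * (L / M)) := by
      ring
    have h3 : W ^ 2 * (L / M) = x := by rw [hW2]; field_simp
    rw [h2, h3] at h1
    exact h1.trans (mul_le_mul_of_nonneg_right hdA2 hx0.le)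
  have hex : e / 20 * x < x := by nlinarith only [hx0, he1]
  obtain ⟨B, hB1, hB2, hB3, hB4, hB5⟩ := exists_B (q := q) (ann H) P0 hP0p lam Lam k0 hlam0.le hLam2
    hLamlam hk00 R hR1 (by rw [← hx]; linarith)
  set z : ℝ := f ^ 2 / 16 * (x / L) with hz
  have hz0 : 0 < z := by positivity
  have hzlog : M / 2 ≤ Real.log z / 2 := by
    have := Real.log_le_log hL0 g15
    linarith
  have hBz := hB5 (M / 2) z (by positivity) hlamM hz0 hzlog
  have hBz2 : ((B.filter (fun p : ℕ => z < (p : ℝ))).card : ℝ) ≤ 8 * d ^ 2 * (x / L) := by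
    refine hBz.trans ?_
    have h1 : (R : ℝ) * (k0 / (M / 2)) ≤ (2 * (d * W)) * ((2 * (d * W)) / (M / 2)) := by
      apply mul_le_mul hR2 _ (by positivity) (by positivity)
      exact div_le_div_of_nonneg_right hk0u (by positivity)
    have h2 : (2 * (d * W)) * ((2 * (d * W)) / (M / 2)) = 8 * d ^ 2 * (W ^ 2 / M) := by
      field_simp; ring
    have h3 : W ^ 2 / M = x / L := by rw [hW2]; field_simp
    rw [h2, h3] at h1
    exact h1
  have hBprod := prod_B_le B hB1 z (8 * d ^ 2 * (x / L)) hz0 hBz2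
  have hsz : Real.sqrt z = f / 4 * G := by
    rw [hz, Real.sqrt_mul (by positivity), ← hG]
    congr 1
    rw [show f ^ 2 / 16 = (f / 4) ^ 2 by ring, Real.sqrt_sq (by positivity)]
  have hprodu : ∏ p ∈ B, (1 + (p : ℝ) ^ (-(1 / 2 : ℝ))) ≤ Real.exp (f * G) := by
    refine hBprod.trans (Real.exp_le_exp.2 ?_)
    rw [hsz, ← hG2]
    have h1 : 8 * d ^ 2 * G ^ 2 / (f / 4 * G) = (32 * d ^ 2 / f) * G := by
      field_simp; ring
    rw [h1]
    have h2 : 32 * d ^ 2 / f ≤ f / 2 := by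
      rw [div_le_iff₀ hf]; nlinarith only [hdf2]
    have h3 := mul_le_mul_of_nonneg_right h2 hG0.le
    linarith
  -- the resonator
  set P := P0 \ B with hP
  have hPP : P ⊆ P0 := sdiff_subset
  have hS : (1 - 2 * e) / ly ≤ ∑ p ∈ P, 1 / ((p : ℝ) * Real.log p) := by
    have h1 := Finset.sum_sdiff (s₁ := P0 ∩ B) (s₂ := P0) (f := fun p : ℕ => 1 / ((p : ℝ) * Real.log p))
      inter_subset_left
    rw [sdiff_inter_self_left, ← hP] at h1
    have h2 : ∑ p ∈ P0 ∩ B, 1 / ((p : ℝ) * Real.log p) ≤ e / ly := by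
      have h3 : ∀ p ∈ P0 ∩ B, 1 / ((p : ℝ) * Real.log p) ≤ 1 / (y * ly) := by
        intro p hp
        rw [mem_inter] at hp
        have h4 := (hP0 p hp.1).2.1
        apply one_div_le_one_div_of_le (by positivity)
        exact mul_le_mul h4.le (Real.log_le_log hy0 h4.le) hly0.le (by linarith)
      refine (Finset.sum_le_card_nsmul _ _ _ h3).trans ?_
      rw [nsmul_eq_mul]
      have h5 : ((P0 ∩ B).card : ℝ) ≤ 8 * d ^ 2 * (x / L) := by
        refine le_trans ?_ hBz2
        have h6 : P0 ∩ B ⊆ B.filter (fun p : ℕ => z < (p : ℝ)) := by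
          intro p hp
          rw [mem_inter] at hp
          rw [mem_filter]
          refine ⟨hp.2, lt_of_le_of_lt ?_ (hP0 p hp.1).2.1⟩
          rw [hz, hy]
          have h7 : x / L ≤ x * L := by
            rw [div_le_iff₀ hL0]
            nlinarith only [hx0, hL20, mul_pos hx0 hL0]
          have h8 : f ^ 2 / 16 ≤ 1 := by nlinarith only [hf, hf1]
          have h9 : 0 ≤ x / L := by positivity
          calc f ^ 2 / 16 * (x / L) ≤ 1 * (x / L) := mul_le_mul_of_nonneg_right h8 h9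
            _ ≤ x * L := by rw [one_mul]; exact h7
        exact_mod_cast card_le_card h6
      have h6 : ((P0 ∩ B).card : ℝ) ≤ e * y := h5.trans g8
      calc ((P0 ∩ B).card : ℝ) * (1 / (y * ly)) ≤ e * y * (1 / (y * ly)) :=
            mul_le_mul_of_nonneg_right h6 (by positivity)
        _ = e / ly := by field_simp
    have h7 : (1 - 2 * e) / ly = (1 - e) / ly - e / ly := by ring
    rw [h7]
    linarith
  obtain ⟨r, hr0, hr1, hr2⟩ := res_part e A d f Y x F he he1 hA P
    (fun p hp => hP0 p (hPP hp)) hS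
  set N : ℕ := ⌊Real.exp ((1 / 3 - e) * x)⌋₊ with hN
  have hNu : (N : ℝ) ≤ Real.exp ((1 / 3 - e) * x) := Nat.floor_le (Real.exp_pos _).le
  have hN1 : 1 ≤ N := by
    apply Nat.le_floor
    rw [Nat.cast_one]
    apply Real.one_le_exp
    apply mul_nonneg _ hx0.le
    linarith
  set A0 : ℕ := ⌈Real.exp (2 / 3 * x)⌉₊ with hA0d
  have hA0l : Real.exp (2 / 3 * x) ≤ (A0 : ℝ) := Nat.le_ceil _
  have hA0u : (A0 : ℝ) ≤ 2 * Real.exp (2 / 3 * x) := by
    have h1 := Nat.ceil_lt_add_one (Real.exp_pos (2 / 3 * x)).le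
    rw [← hA0d] at h1
    have h2 : 1 ≤ Real.exp (2 / 3 * x) := Real.one_le_exp (by positivity)
    linarith
  have hA00 : 0 < A0 := by
    have : (0 : ℝ) < A0 := lt_of_lt_of_le (Real.exp_pos _) hA0l
    exact_mod_cast this
  set U : ℕ := (q - 1) / N with hU
  have hUN : U * N < q := by
    have h1 := Nat.div_mul_le_self (q - 1) N
    rw [← hU] at h1
    have := hqp.pos
    omega
  have hNN : N * N ≤ q - 1 := by
    have h1 : (N : ℝ) * N ≤ Real.exp ((1 / 3 - e) * x) * Real.exp ((1 / 3 - e) * x) :=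
      mul_le_mul hNu hNu (Nat.cast_nonneg _) (Real.exp_pos _).le
    rw [← Real.exp_add] at h1
    have h2 : Real.exp ((1 / 3 - e) * x + (1 / 3 - e) * x) ≤ Real.exp (2 / 3 * x) := by
      rw [Real.exp_le_exp]; nlinarith only [hx0, he]
    have h3 : Real.exp (2 / 3 * x) * 2 ≤ Real.exp x := by
      rw [show x = 2 / 3 * x + 1 / 3 * x by ring, Real.exp_add]
      rw [show 2 / 3 * (2 / 3 * x + 1 / 3 * x) = 2 / 3 * x by ring]
      apply mul_le_mul_of_nonneg_left _ (Real.exp_pos _).le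
      have := Real.add_one_le_exp (1 / 3 * x)
      linarith
    have h4 : 1 ≤ Real.exp (2 / 3 * x) := Real.one_le_exp (by positivity)
    have h5 : ((N * N : ℕ) : ℝ) + 1 ≤ (q : ℝ) := by
      push_cast
      rw [hqx]; linarith
    have h6 : N * N + 1 ≤ q := by exact_mod_cast h5
    omega
  have hNU : N ≤ U := by rw [hU, Nat.le_div_iff_mul_le hN1]; exact hNN
  have hUN2 : q ≤ 2 * U * N := by
    have h1 : q - 1 < (U + 1) * N := by
      rw [hU]
      have := Nat.lt_div_mul_add (a := q - 1) (b := N) hN1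
      calc q - 1 < (q - 1) / N * N + N := this
        _ = _ := by ring
    have h2 : 1 ≤ U := hN1.trans hNU
    have h3 : (U + 1) * N ≤ 2 * U * N := Nat.mul_le_mul_right _ (by omega)
    omega
  -- number of prime factors
  set Lf : ℕ := ⌊x / ly⌋₊ with hLf
  have hLfc : ∀ u : ℕ, 0 < u → u ≤ A0 * N → (P.filter (fun p => p ∣ u)).card ≤ Lf := by
    intro u hu huA
    apply Nat.le_floor
    rw [le_div_iff₀ hly0]
    have h1 := sum_log_le (P.filter (fun p => p ∣ u))
      (fun p hp => hP0p p (hPP (mem_of_mem_filter p hp))) hu (fun p hp => (mem_filter.1 hp).2)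
    have h2 : ∀ p ∈ P.filter (fun p => p ∣ u), ly ≤ Real.log p := by
      intro p hp
      exact Real.log_le_log hy0 (hP0 p (hPP (mem_of_mem_filter p hp))).2.1.le
    have h3 := Finset.card_nsmul_le_sum _ _ _ h2
    rw [nsmul_eq_mul] at h3
    have h4 : Real.log u ≤ x := by
      have h5 : (u : ℝ) ≤ 2 * Real.exp ((1 - e) * x) := by
        have h6 : (u : ℝ) ≤ ((A0 * N : ℕ) : ℝ) := by exact_mod_cast huA
        refine h6.trans ?_
        push_cast
        calc (A0 : ℝ) * N ≤ (2 * Real.exp (2 / 3 * x)) * Real.exp ((1 / 3 - e) * x) :=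
              mul_le_mul hA0u hNu (Nat.cast_nonneg _) (by positivity)
          _ = 2 * Real.exp ((1 - e) * x) := by
              rw [mul_assoc, ← Real.exp_add]; congr 2; ring
      have h7 := Real.log_le_log (by exact_mod_cast hu) h5
      rw [Real.log_mul (by norm_num) (Real.exp_pos _).ne', Real.log_exp] at h7
      have h8 := Real.log_two_lt_d9
      linarith
    linarith
  have hLf2 : (2 : ℝ) ^ Lf ≤ Real.exp (x / ly) := by
    have h1 : (Lf : ℝ) ≤ x / ly := Nat.floor_le (by positivity)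
    have h2 : (2 : ℝ) ≤ Real.exp 1 := by have := Real.add_one_le_exp (1 : ℝ); linarith
    calc (2 : ℝ) ^ Lf ≤ Real.exp 1 ^ Lf := pow_le_pow_left₀ (by norm_num) h2 _
      _ = Real.exp Lf := by rw [← Real.exp_nat_mul, mul_one]
      _ ≤ _ := Real.exp_le_exp.2 h1
  have hLf3 : Real.exp (x / ly) ≤ Real.exp (e / 20 * x) := by
    rw [Real.exp_le_exp, div_le_iff₀ hly0]
    have h1 : 20 ≤ e * L := by rw [div_le_iff₀ he] at g12; linarith
    have h2 : 20 ≤ e * ly := h1.trans (mul_le_mul_of_nonneg_left hlyL he.le)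
    nlinarith only [h2, hx0]
  have hκe : κ ≤ Real.exp (e / 20 * x) := hκ.trans (Real.exp_le_exp.2 g17)
  have hB2e : (2 : ℝ) ^ B.card ≤ Real.exp (e / 20 * x) := by
    refine hB3.trans (Real.exp_le_exp.2 ?_)
    have : 0 ≤ Lam * k0 := by positivity
    linarith
  have herr := err_terms (κ := κ) (bb2 := (2 : ℝ) ^ B.card) (LL := Real.exp (x / ly)) (N := N)
    (A0 := A0) (q := q) (L := Lf) he he1 g18 hqx hκe hB2e (by positivity) hNu hN1
    hA0l hA0u hLf2 hLf3 g14
  have hBP : ∀ p ∈ B, p.Prime ∧ p ∉ P := by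
    intro p hp
    refine ⟨hB1 p hp, ?_⟩
    rw [hP, mem_sdiff]
    exact fun h => h.2 hp
  have hHc : ∀ k ∈ ann H, ∀ s t : ℕ, 0 < s → 0 < t → s ≤ U → t ≤ N → Nat.Coprime s t →
      ¬ (s = 1 ∧ t = 1) → (s : ZMod q) = (k : ZMod q) * t → (∀ p ∈ B, ¬ p ∣ s) →
      t.primeFactors ⊆ P → ms t.primeFactors = t →
      ws r t.primeFactors * gs r P s ≤ 1 / (4 * (Fintype.card (ann H) : ℝ)) := by
    intro k hk s t hs ht _ _ hst hne hcl hsB htP htsq
    have hcost : k0 ≤ cost P0 lam (s * t) := by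
      by_contra hcon
      push Not at hcon
      obtain ⟨p, hpB, hpd⟩ := hB2 (s, t) ⟨hs, ht, hst, hne, ⟨k, hk, hcl⟩, hcon⟩
      rcases ((hB1 p hpB).dvd_mul).1 hpd with h1 | h1
      · exact hsB p hpB h1
      · have h2 := htP (Nat.mem_primeFactors.2 ⟨hB1 p hpB, h1, ht.ne'⟩)
        exact (hBP p hpB).2 h2
    have hg := gs_le r hr0 P P0 hPP hP0p lam (by
      intro p hp
      have h1 := (hP0 p hp).2.1
      have h2 := (hr1 p h1).2
      rw [helam]
      have h3 : ly ≤ Real.sqrt p := g5.trans (Real.sqrt_le_sqrt h1.le)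
      have h4 : 1 ≤ Real.sqrt p / ly := by rw [le_div_iff₀ hly0]; linarith
      have h5 : Real.sqrt p * (2 / ly) = 2 * (Real.sqrt p / ly) := by ring
      rw [h5]; linarith) hs
    have hw := ws_le r hr0 P0 lam (by
      intro p hp
      have h1 := (hr1 p (hP0 p hp).2.1).1
      rw [helam]
      refine h1.trans (div_le_div_of_nonneg_right (by norm_num) hly0.le)) ht (htP.trans hPP) hP0p htsq
    calc ws r t.primeFactors * gs r P s ≤ Real.exp (-cost P0 lam t) * Real.exp (-cost P0 lam s) :=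
          mul_le_mul hw hg (gs_nonneg hr0 P s) (Real.exp_pos _).le
      _ = Real.exp (-cost P0 lam (s * t)) := by
          rw [← Real.exp_add, cost_mul P0 hP0p lam hs ht hst]; congr 1; ring
      _ ≤ Real.exp (-k0) := Real.exp_le_exp.2 (by linarith)
      _ = 1 / (4 * κ) := by
          rw [Real.exp_neg, hk0, Real.exp_log (by linarith), one_div]
  have hfin := coset_finite H χ₀ B P (fun p hp => hP0p p (hPP hp)) hBP
    (fun p hp => (hB4 p hp).ne) N U A0 Lf hN1 hA00 hUN hUN2 hNU r hr0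
    (fun p hp => by
      refine (hr1 p (hP0 p (hPP hp)).2.1).1.trans ?_
      rw [div_le_one hly0]; linarith) hHc hLfc V hV0 hV
  have hE1 : 1 ≤ EN r P N := by
    have h1 : ws r ∅ ^ 2 ≤ EN r P N := by
      apply Finset.single_le_sum (f := fun S => ws r S ^ 2) (fun S _ => sq_nonneg _)
      rw [mem_IN]
      exact ⟨empty_subset _, by simpa [ms] using hN1⟩
    simpa [ws] using h1
  set Prd : ℝ := ∏ p ∈ B, (1 + (p : ℝ) ^ (-(1 / 2 : ℝ))) with hPrd
  have hVPrd : V * Prd ≤ V * Real.exp (f * G) := mul_le_mul_of_nonneg_left hprodu hV0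
  set Γ : ℝ := Real.exp ((1 / Real.sqrt 3 - 10 * e) * G) with hΓ
  have hΓ1 : 1 ≤ Γ := by
    apply Real.one_le_exp
    apply mul_nonneg _ hG0.le
    have h32 : Real.sqrt 3 ≤ 2 := by
      rw [Real.sqrt_le_left (by norm_num)]; norm_num
    have hc3 : 1 / 2 ≤ 1 / Real.sqrt 3 :=
      one_div_le_one_div_of_le (Real.sqrt_pos.2 (by norm_num)) h32
    linarith
  have hE0 : 0 < EN r P N := by linarith
  have hfin2 : 3 / 4 * (EN r P N / 2 * Γ) ≤ EN r P N * (5 / 4 * (V * Real.exp (f * G)) + 1 / 8) := by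
    refine (mul_le_mul_of_nonneg_left hr2 (by norm_num)).trans (hfin.trans ?_)
    apply mul_le_mul_of_nonneg_left _ hE0.le
    apply add_le_add _ herr
    exact mul_le_mul_of_nonneg_left hVPrd (by norm_num)
  have hfin3 : 3 / 8 * Γ ≤ 5 / 4 * (V * Real.exp (f * G)) + 1 / 8 := by
    have h1 : EN r P N * (3 / 8 * Γ) ≤ EN r P N * (5 / 4 * (V * Real.exp (f * G)) + 1 / 8) := by
      calc EN r P N * (3 / 8 * Γ) = 3 / 4 * (EN r P N / 2 * Γ) := by ring
        _ ≤ _ := hfin2
    exact le_of_mul_le_mul_left h1 hE0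
  linarith

end Pool.Agent.R311.RES
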