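import Mathlib
import Pool.Agent.R311.RES.C13

/-! The index of a subgroup is the order of its annihilator. -/

set_option autoImplicit false

namespace Pool.Agent.R311.RES
open Finset Filter Topology
open scoped Classical

lemma card_ann_index {q : ℕ} [Fact q.Prime] (H : Subgroup (DirichletCharacter ℂ q)) :
    (Fintype.card (ann H) : ℝ) = (H.index : ℝ) := by
  have hq : q.Prime := Fact.out
  have : NeZero q := ⟨hq.pos.ne'⟩
  have h1 := card_mul H
  have h2 : (H.index : ℝ) * (Nat.card H : ℝ) = q - 1 := by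
    have h3 : H.index * Nat.card H = Nat.card (DirichletCharacter ℂ q) := H.index_mul_card
    have h4' : Nat.card (DirichletCharacter ℂ q) = q.totient :=
      DirichletCharacter.card_eq_totient_of_hasEnoughRootsOfUnity ℂ q
    rw [h4', Nat.totient_prime hq] at h3
    have h5 : ((H.index * Nat.card H : ℕ) : ℝ) = ((q - 1 : ℕ) : ℝ) := by rw [h3]
    rw [Nat.cast_sub hq.one_lt.le] at h5
    push_cast at h5
    exact h5
  rw [Nat.card_eq_fintype_card] at h2
  have h6 : (0 : ℝ) < Fintype.card H := by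
    have : 0 < Fintype.card H := Fintype.card_pos
    exact_mod_cast this
  have h7 : (Fintype.card H : ℝ) * (Fintype.card (ann H) : ℝ) = (Fintype.card H : ℝ) * H.index := by
    rw [h1, ← h2]; ring
  exact mul_left_cancel₀ h6.ne' h7

theorem core_final (ε : ℝ) (hε : 0 < ε) : ∃ δ : ℝ, 0 < δ ∧ ∃ q₀ : ℕ,
    ∀ (q : ℕ) [Fact q.Prime], q₀ ≤ q →
      ∀ (H : Subgroup (DirichletCharacter ℂ q)) (χ₀ : DirichletCharacter ℂ q),
        (H.index : ℝ) ≤ Real.exp (δ * Real.sqrt (Real.log q *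
          Real.log (Real.log (Real.log q)) / Real.log (Real.log q))) →
        ∃ ψ ∈ H, Real.exp ((1 / Real.sqrt 3 - ε) * Real.sqrt (Real.log q / Real.log (Real.log q))) ≤
          ‖DirichletCharacter.LFunction (χ₀ * ψ) (1 / 2)‖ := by
  set e : ℝ := min (ε / 60) (1 / 40) with he
  set f : ℝ := min (ε / 8) 1 with hf
  have he0 : 0 < e := lt_min (by positivity) (by norm_num)
  have hf0 : 0 < f := lt_min (by positivity) (by norm_num)
  have he1 : e ≤ 1 / 40 := min_le_right _ _
  have heε : e ≤ ε / 60 := min_le_left _ _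
  have hf1 : f ≤ 1 := min_le_right _ _
  have hfε : f ≤ ε / 8 := min_le_left _ _
  obtain ⟨d, hd, X0, hX0⟩ := core_coset e f he0 (by linarith) hf0 hf1
  have t1 : Tendsto (fun q : ℕ => Real.log (q : ℝ)) atTop atTop :=
    Real.tendsto_log_atTop.comp tendsto_natCast_atTop_atTop
  obtain ⟨q₀, hq₀⟩ := eventually_atTop.1 (t1.eventually_ge_atTop X0)
  refine ⟨d, hd, q₀, fun q _ hqq H χ₀ hH => ?_⟩
  obtain ⟨h4, hmain⟩ := hX0 q (hq₀ q hqq)
  set G : ℝ := Real.sqrt (Real.log q / Real.log (Real.log q)) with hG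
  have hG0 : 0 ≤ G := Real.sqrt_nonneg _
  by_contra hcon
  push Not at hcon
  have h1 := hmain H χ₀ (Real.exp ((1 / Real.sqrt 3 - ε) * G)) (by rw [card_ann_index]; exact hH)
    (Real.exp_pos _).le (fun ψ hψ => (hcon ψ hψ).le)
  have h2 : (5 : ℝ) < Real.exp (f * G) := by
    have h3 : Real.exp 4 ≤ Real.exp (f * G) := Real.exp_le_exp.2 h4
    have h5 : (2 : ℝ) ≤ Real.exp 1 := by have := Real.add_one_le_exp (1 : ℝ); linarith
    have h6 : Real.exp 4 = Real.exp 1 ^ 4 := by rw [← Real.exp_nat_mul]; norm_num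
    have h7 : (2 : ℝ) ^ 4 ≤ Real.exp 1 ^ 4 := pow_le_pow_left₀ (by norm_num) h5 4
    norm_num at h7
    linarith
  have h3 : 5 * (Real.exp ((1 / Real.sqrt 3 - ε) * G) * Real.exp (f * G)) <
      Real.exp (f * G) * (Real.exp ((1 / Real.sqrt 3 - ε) * G) * Real.exp (f * G)) :=
    mul_lt_mul_of_pos_right h2 (by positivity)
  have h5 : Real.exp (f * G) * (Real.exp ((1 / Real.sqrt 3 - ε) * G) * Real.exp (f * G)) =
      Real.exp ((1 / Real.sqrt 3 - ε + 2 * f) * G) := by
    rw [← Real.exp_add, ← Real.exp_add]; congr 1; ring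
  rw [h5] at h3
  have h6 := Real.exp_lt_exp.1 (lt_of_le_of_lt h1 h3)
  have h7 : (1 / Real.sqrt 3 - ε + 2 * f) * G ≤ (1 / Real.sqrt 3 - 10 * e) * G :=
    mul_le_mul_of_nonneg_right (by linarith) hG0
  linarith

end Pool.Agent.R311.RES
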